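import Pool.Agent.Lib.MP_65847d_pr.X.XDefs
import Pool.Agent.Lib.MP_65847d_pr.C.Final
import Pool.Agent.Lib.MP_65847d_pr.System

/-!
# X/EBounds : bounds for the exponent in the main case

`expoFrom_ge`: no universal vertex, `0 ≤ κ ≤ 1/2`. Every element of the set is `≥ 1/(2|V|)`: clear for `1`. If `W` is `StableFrom E κ α`, `0 < α < 1`, and `α < 1/(2|V|)`: the one vertex forest with all labels (`A 0 = univ`) at level `κ`: each `kap ≤ α` (`0 ≤ min (W a) κ`),
so the weight is `≥ 1 - |V| α > 1/2 ≥ κ`: rich, so there is a colour adjacent to all colours: contradiction (`hE` not needed).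
`expoFrom_le_expo`: `Stable E α W → StableFrom E κ α W` for `κ ≥ 0`, so the set of `expo` is contained in the set of `expoFrom` (`csInf_le_csInf`).
`expo_lt`: connected, with a loop `b`. `ρ := max (1, max_f k_f)`, `k_f` the length of a walk from `f` to `b`; `radial_system E {b} .. ρ (2 ρ)` gives `HasSystem E (2 ρ)`, so by `lower_threshold` (Radial.lean) `p = o(qf m)`, `m = 2ρ`, implies `Pr → 1`. Take `x = 1 - 1/(2m)`, `p_n = n^(-x)` (as an element of
`unitInterval`; `n = 0`: take `0`, e.g. `min 1 (max 0 ..)`): `p_n / qf m n = n^(1/(2m)) / (n log n)^(1/m) ≤ n^(-1/(2m)) → 0`. If `x < expo E`, then `coarse_threshold` with `ε = expo E - x` gives `Pr → 0` for the same `p`: contradiction (`tendsto_nhds_unique`). So `expo E ≤ 1 - 1/(2m)`.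
-/

set_option autoImplicit false

open Finset Filter Topology

namespace Pool.MP_65847d_pr

open Pool.MP_1bacea_co

theorem expoFrom_ge {V : Type*} [Fintype V] [Nonempty V] {E : V → V → Prop} (hu : ¬ ∃ b, ∀ a, E b a) {κ : ℝ}
    (h0 : 0 ≤ κ) (h1 : κ ≤ 1 / 2) : 1 / (2 * (Fintype.card V : ℝ)) ≤ expoFrom E κ := by
  classical
  have hc : (1 : ℝ) ≤ Fintype.card V := by exact_mod_cast Fintype.card_pos
  refine le_csInf ⟨1, Or.inr rfl⟩ ?_
  rintro x (⟨hx0, hx1, W, hW, hS⟩ | hx)
  · by_contra hlt
    push Not at hlt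
    rw [lt_div_iff₀ (by positivity)] at hlt
    refine hu ?_
    have hR : Rich x W κ (⊥ : SimpleGraph (Fin 1)) (fun _ => (univ : Finset V)) := by
      intro U hU
      have hne : U.Nonempty := by
        obtain ⟨y, hy⟩ := hU.nonempty
        exact ⟨y, hy⟩
      have hU1 : U = {0} := by
        obtain ⟨y, hy⟩ := hne
        ext z
        have h2 : z = 0 := Subsingleton.elim _ _
        have h3 : y = 0 := Subsingleton.elim _ _
        subst h2
        rw [h3] at hy
        simp [hy]
      rw [hU1]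
      unfold wgt
      rw [Finset.sum_singleton]
      have h4 : ∑ a ∈ (univ : Finset V), kap x W κ a ≤ ∑ _a ∈ (univ : Finset V), x := by
        refine Finset.sum_le_sum fun a _ => ?_
        unfold kap
        refine max_le hx0.le ?_
        have : 0 ≤ min (W a) κ := le_min (hW a).1 h0
        linarith
      rw [Finset.sum_const, nsmul_eq_mul, Finset.card_univ] at h4
      linarith
    obtain ⟨φ, -, -, h5⟩ := hS κ le_rfl 1 ⊥ (fun _ => univ) SimpleGraph.isAcyclic_bot hR
    exact ⟨φ 0, fun a => h5 0 a (mem_univ a)⟩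
  · rw [Set.mem_singleton_iff.mp hx, div_le_one (by positivity)]
    linarith

theorem expoFrom_le_expo {V : Type*} (E : V → V → Prop) {κ : ℝ} (h0 : 0 ≤ κ) : expoFrom E κ ≤ expo E := by
  refine csInf_le_csInf ⟨0, ?_⟩ ⟨1, Or.inr rfl⟩ ?_
  · rintro x (hx | hx)
    · exact hx.1.le
    · rw [Set.mem_singleton_iff.mp hx]; norm_num
  · rintro x (⟨hx0, hx1, W, hW, hS⟩ | hx)
    · exact Or.inl ⟨hx0, hx1, W, hW, fun w hw => hS w (h0.trans hw)⟩
    · exact Or.inr hx

theorem expo_lt {V : Type*} [Finite V] {E : V → V → Prop} (hE : ∀ a b, E a b → E b a) {b : V} (hb : E b b)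
    (hconn : ∀ a, ∃ k, Walk E k a b) : expo E < 1 := by
  classical
  have := Fintype.ofFinite V
  by_contra hlt
  push Not at hlt
  choose k hk using hconn
  set ρ : ℕ := max 1 (univ.sup k) with hρ
  set m : ℕ := 2 * ρ with hm
  have hρ1 : 1 ≤ ρ := le_max_left _ _
  have hm2 : 2 ≤ m := by omega
  have hm0 : (0 : ℝ) < m := by
    have : (2 : ℝ) ≤ m := by exact_mod_cast hm2
    linarith
  have hsys : HasSystem E m := by
    refine radial_system E {b} ⟨b, rfl⟩ ?_ ρ m (by omega) (Or.inl hm) ?_
    · intro a ha c hc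
      rw [Set.mem_singleton_iff.mp ha, Set.mem_singleton_iff.mp hc]
      exact hb
    · intro f
      exact ⟨b, rfl, k f, (Finset.le_sup (mem_univ f)).trans (le_max_right _ _), hk f⟩
  set x : ℝ := 1 - 1 / (2 * m) with hx
  let p : ℕ → unitInterval := fun n => ⟨min 1 ((n : ℝ) ^ (-x)),
    le_min zero_le_one (Real.rpow_nonneg (Nat.cast_nonneg n) _), min_le_left _ _⟩
  have hx0 : 0 ≤ x := by
    rw [hx, sub_nonneg, div_le_one (by positivity)]
    have : (2 : ℝ) ≤ m := by exact_mod_cast hm2
    linarith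
  have hp : ∀ n : ℕ, 1 ≤ n → (p n : ℝ) = (n : ℝ) ^ (-x) := by
    intro n hn
    change min 1 ((n : ℝ) ^ (-x)) = _
    exact min_eq_right (Real.rpow_le_one_of_one_le_of_nonpos (by exact_mod_cast hn)
      (by linarith))
  have hlim : Tendsto (fun n : ℕ => (n : ℝ) ^ (-(1 / (2 * (m : ℝ))))) atTop (𝓝 0) :=
    (tendsto_rpow_neg_atTop (by positivity)).comp tendsto_natCast_atTop_atTop
  have hlog : Tendsto (fun n : ℕ => Real.log n) atTop atTop :=
    Real.tendsto_log_atTop.comp tendsto_natCast_atTop_atTop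
  have hone : Tendsto (fun n => prob (fun _ => SurjHom E) n (p n)) atTop (𝓝 1) := by
    refine lower_threshold E hE m hm2 hsys p ?_
    rw [Asymptotics.isLittleO_iff]
    intro c hc
    filter_upwards [hlim.eventually_le_const hc, hlog.eventually_ge_atTop 1,
      eventually_ge_atTop 1] with n h1 h2 h3
    have hn0 : (0 : ℝ) < n := by exact_mod_cast h3
    rw [Real.norm_of_nonneg (p n).2.1, Real.norm_of_nonneg (qf_nonneg m n), hp n h3]
    unfold qf
    have h4 : (n : ℝ) ^ (-x) = (n : ℝ) ^ (-(1 / (2 * (m : ℝ)))) * ((n : ℝ) ^ (1 / (m : ℝ)) / n) := by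
      rw [div_eq_mul_inv _ (n : ℝ), ← Real.rpow_neg_one (n : ℝ), ← Real.rpow_add hn0, ← Real.rpow_add hn0]
      congr 1
      rw [hx]
      field_simp
      ring
    rw [h4]
    refine mul_le_mul h1 ?_ (by positivity) hc.le
    refine div_le_div_of_nonneg_right ?_ hn0.le
    refine Real.rpow_le_rpow hn0.le ?_ (by positivity)
    exact le_mul_of_one_le_right hn0.le h2
  have hzero : Tendsto (fun n => prob (fun _ => SurjHom E) n (p n)) atTop (𝓝 0) := by
    refine (coarse_threshold hE ⟨b, b, hb⟩ (1 / (2 * m)) (by positivity) p).2 ?_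
    filter_upwards [eventually_ge_atTop 1] with n h3
    rw [hp n h3]
    refine Real.rpow_le_rpow_of_exponent_le (by exact_mod_cast h3) ?_
    rw [hx]
    linarith
  exact one_ne_zero (tendsto_nhds_unique hone hzero)

end Pool.MP_65847d_pr
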