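import Pool.Agent.Lib.MP_65847d_pr.X.XDefs
import Pool.Agent.Lib.MP_65847d_pr.C.Final
import Pool.Agent.Lib.MP_65847d_pr.DomFinal

/-!
# X/EDisc : disconnected graphs with a loop: the threshold is `log n / n`, and `expoFrom E κ = 1 - κ`

`b` is looped, there is no walk from `a` to `c`.

`expoFrom_disc`, `0 ≤ κ ≤ 1/2`.
(1) If `W` is `StableFrom E κ α`, `0 < α < 1`, then `1 - κ ≤ α`. Suppose `α < 1 - κ`. For a level `w` let `P w : ∀ x, ∃ k y, Walk E k x y ∧ w ≤ W y`. `P κ`: one vertex forest with the label `x`, level `κ`: cost `kap ≤ α` (`0 ≤ min (W x) κ`), weight `≥ 1 - α > κ`: colour `y` adjacent to `x`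
(use `hE` to get `E x y`), `W y ≥ κ`. If `P w`, `κ ≤ w ≤ w' < 1`, `w' ≤ w + (1-α)/2` then `P w'`: given `x` take `y` with `w ≤ W y` and the one vertex forest with label `y` at level `w'`: `kap = max 0 (α - min (W y) w') ≤ max 0 (α - w)`, so the weight is `≥ 1 - max 0 (α - w) > w'` (if the maximum is `0`:
`1 > w'`; otherwise `1 - α + w > w'`). By induction `P (min (κ + i (1-α)/2) ((1+α)/2))` for all `i` (start: `κ ≤ 1/2 ≤ (1+α)/2`); for large `i` this is `P ((1+α)/2)`, so from `a` and `c` there are walks to `a'`, `c'` with `W a', W c' ≥ (1+α)/2 ≥ α`. The one vertex forest with labels `{a', c'}` at level `w = max κ α < 1`: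
labels with `W ≥ w`?: use level `w = (1+α)/2 ≥ κ` instead: `kap α W w a' = max 0 (α - min (W a') w) = 0` as `min (W a') w ≥ α`; weight `1 > w`. So some `z` is adjacent to `a'` and `c'`: a walk from `a` to `c` (`Walk.snoc` in Upper.lean, `Walk.symm` in Indep.lean, concatenation of walks by induction), contradiction.
(2) For `0 < κ`, `1 - κ ≤ α < 1` the vector `W = fun x => if x = b then 1 else 0` is `StableFrom E κ α`: `(K, A)` rich at `w ≥ κ`: a label `x ≠ b` at the vertex `i` would give `w < wgt {i} ≤ 1 - kap α W w x = 1 - α ≤ κ` (`min 0 w = 0`), contradiction; so all labels are `b`; colour everything with `b` (`E b b`), `w < wgt {i} ≤ 1 = W b`.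
(3) So for `κ > 0` the set is `{α : 1 - κ ≤ α < 1} ∪ {1}` with infimum `1 - κ`; for `κ = 0` it is `{1}`.

`threshold_disc`: `dom_threshold` (DomFinal.lean) with `s = 1`, `Q = {b}` (`hs`: `A = ∅`). `Trap E 1`: given `Q'` a looped clique: if no element of `Q'` can be reached from `a` by a walk, `M = {x | ∃ k, Walk E k a x}`; otherwise no element of `Q'` can be reached from `c` (else `a` and `c` would be connected through
`Q'`, any two elements of which are adjacent), `M = {x | ∃ k, Walk E k c x}`. `A = {c'}` for `c' ∈ M`. Finally `(log n / n)^(1 / (1:ℝ)) = log n / n`.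
-/

set_option autoImplicit false

open Finset Filter Topology

namespace Pool.MP_65847d_pr

open Pool.MP_1bacea_co

private theorem ed_trans {V : Type*} {E : V → V → Prop} : ∀ (k l : ℕ) (a b c : V), Walk E k a b →
    Walk E l b c → Walk E (k + l) a c := by
  intro k
  induction k with
  | zero =>
    intro l a b c h1 h2
    change a = b at h1
    subst h1
    rw [Nat.zero_add]
    exact h2
  | succ k ih =>
    intro l a b c h1 h2
    obtain ⟨d, hd, h1⟩ := h1
    rw [Nat.succ_add]
    exact ⟨d, hd, ih l d b c h1 h2⟩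

private theorem ed_single {V : Type*} {E : V → V → Prop} {a b : V} (h : E a b) : Walk E 1 a b :=
  ⟨b, h, rfl⟩

private theorem ed_symm {V : Type*} {E : V → V → Prop} (hE : ∀ a b, E a b → E b a) :
    ∀ (k : ℕ) (a b : V), Walk E k a b → Walk E k b a := by
  intro k
  induction k with
  | zero =>
    intro a b h
    exact Eq.symm h
  | succ k ih =>
    intro a b h
    obtain ⟨c, hc, h⟩ := h
    exact ed_trans _ _ _ _ _ (ih _ _ h) (ed_single (hE _ _ hc))

private theorem ed_kap_nonneg {V : Type*} (α : ℝ) (W : V → ℝ) (w : ℝ) (c : V) : 0 ≤ kap α W w c :=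
  le_max_left _ _

private theorem ed_one {V : Type*} {E : V → V → Prop} {κ α : ℝ} {W : V → ℝ}
    (hS : StableFrom E κ α W) {w : ℝ} (hw : κ ≤ w) (A : Finset V)
    (h : w < 1 - ∑ a ∈ A, kap α W w a) : ∃ c, w ≤ W c ∧ ∀ a ∈ A, E c a := by
  obtain ⟨φ, h1, h2, h3⟩ := hS.2 w hw 1 ⊥ (fun _ => A) SimpleGraph.isAcyclic_bot (by
    intro U hU
    have hU0 : U = {0} := by
      obtain ⟨x, hx⟩ := hU.nonempty
      have hx' : x ∈ U := by simpa using hx
      ext y
      have hy : y = 0 := Subsingleton.elim _ _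
      have hx0 : x = 0 := Subsingleton.elim _ _
      subst hx0
      simp [hy, hx']
    rw [hU0]
    unfold wgt
    simp only [Finset.sum_singleton]
    linarith)
  exact ⟨φ 0, h2 0, fun a ha => h3 0 a ha⟩

private theorem ed_lower {V : Type*} {E : V → V → Prop} (hE : ∀ a b, E a b → E b a)
    {a c : V} (hac : ∀ k, ¬ Walk E k a c) {κ : ℝ} (h0 : 0 ≤ κ) (h1 : κ ≤ 1 / 2) {α : ℝ}
    (hα0 : 0 < α) (hα1 : α < 1) {W : V → ℝ} (hS : StableFrom E κ α W) : 1 - κ ≤ α := by
  classical
  by_contra hcon
  push Not at hcon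
  -- the induction
  have hP0 : ∀ x, ∃ k y, Walk E k x y ∧ κ ≤ W y := by
    intro x
    have hx0 : (0 : ℝ) ≤ min (W x) κ := le_min (hS.1 x).1 h0
    have hk : kap α W κ x ≤ α := max_le hα0.le (by linarith)
    obtain ⟨y, hy1, hy2⟩ := ed_one hS le_rfl {x} (by
      rw [Finset.sum_singleton]
      linarith)
    exact ⟨1, y, ed_single (hE _ _ (hy2 x (Finset.mem_singleton_self x))), hy1⟩
  have hstep : ∀ w w' : ℝ, κ ≤ w → w ≤ w' → w' < 1 → w' ≤ w + (1 - α) / 2 →
      (∀ x, ∃ k y, Walk E k x y ∧ w ≤ W y) → ∀ x, ∃ k y, Walk E k x y ∧ w' ≤ W y := by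
    intro w w' hw hww' hw'1 hw'2 hP x
    obtain ⟨k, y, hk, hy⟩ := hP x
    have hmin : w ≤ min (W y) w' := le_min hy hww'
    have hkap : kap α W w' y ≤ max 0 (α - w) := max_le_max le_rfl (by linarith)
    have hlt : w' < 1 - max 0 (α - w) := by
      rcases le_total (α - w) 0 with h | h
      · rw [max_eq_left h]; linarith
      · rw [max_eq_right h]; linarith
    obtain ⟨z, hz1, hz2⟩ := ed_one hS (hw.trans hww') {y} (by
      rw [Finset.sum_singleton]
      linarith)
    exact ⟨k + 1, z, ed_trans _ _ _ _ _ hk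
      (ed_single (hE _ _ (hz2 y (Finset.mem_singleton_self y)))), hz1⟩
  have hind : ∀ i : ℕ, ∀ x, ∃ k y, Walk E k x y ∧
      min (κ + i * ((1 - α) / 2)) ((1 + α) / 2) ≤ W y := by
    intro i
    induction i with
    | zero =>
      intro x
      obtain ⟨k, y, hk, hy⟩ := hP0 x
      refine ⟨k, y, hk, (min_le_left _ _).trans ?_⟩
      simpa using hy
    | succ i ih =>
      have hpos : 0 < (1 - α) / 2 := by linarith
      refine hstep _ _ ?_ ?_ ?_ ?_ ih
      · refine le_min ?_ (by linarith)
        have : (0 : ℝ) ≤ i * ((1 - α) / 2) := by positivity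
        linarith
      · refine min_le_min ?_ le_rfl
        push_cast
        nlinarith
      · exact (min_le_right _ _).trans_lt (by linarith)
      · rcases le_total (κ + i * ((1 - α) / 2)) ((1 + α) / 2) with h | h
        · rw [min_eq_left h]
          refine (min_le_left _ _).trans ?_
          push_cast
          linarith
        · rw [min_eq_right h]
          refine (min_le_right _ _).trans ?_
          linarith
  have hfin : ∀ x, ∃ k y, Walk E k x y ∧ (1 + α) / 2 ≤ W y := by
    have hpos : 0 < (1 - α) / 2 := by linarith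
    obtain ⟨i, hi⟩ := exists_nat_ge (((1 + α) / 2 - κ) / ((1 - α) / 2))
    intro x
    obtain ⟨k, y, hk, hy⟩ := hind i x
    refine ⟨k, y, hk, ?_⟩
    rw [min_eq_right] at hy
    · exact hy
    · rw [div_le_iff₀ hpos] at hi
      linarith
  obtain ⟨k, a', hk, ha'⟩ := hfin a
  obtain ⟨l, c', hl, hc'⟩ := hfin c
  have hka : kap α W ((1 + α) / 2) a' = 0 := by
    unfold kap
    have : α ≤ min (W a') ((1 + α) / 2) := le_min (by linarith) (by linarith)
    exact max_eq_left (by linarith)
  have hkc : kap α W ((1 + α) / 2) c' = 0 := by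
    unfold kap
    have : α ≤ min (W c') ((1 + α) / 2) := le_min (by linarith) (by linarith)
    exact max_eq_left (by linarith)
  obtain ⟨z, -, hz⟩ := ed_one hS (w := (1 + α) / 2) (by linarith) ({a', c'} : Finset V) (by
    have : ∑ x ∈ ({a', c'} : Finset V), kap α W ((1 + α) / 2) x = 0 := by
      refine Finset.sum_eq_zero fun x hx => ?_
      simp only [Finset.mem_insert, Finset.mem_singleton] at hx
      rcases hx with rfl | rfl
      · exact hka
      · exact hkc
    rw [this]
    linarith)
  have hz1 : E a' z := hE _ _ (hz a' (by simp))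
  have hz2 : E z c' := hz c' (by simp)
  have hw := ed_trans _ _ _ _ _ (ed_trans _ _ _ _ _ (ed_trans _ _ _ _ _ hk (ed_single hz1))
    (ed_single hz2)) (ed_symm hE _ _ _ hl)
  exact hac _ hw

private theorem ed_stable {V : Type*} {E : V → V → Prop} {b : V} (hb : E b b) {κ α : ℝ}
    (_h0 : 0 < κ) (h1 : 1 - κ ≤ α) : ∃ W : V → ℝ, StableFrom E κ α W := by
  classical
  refine ⟨fun x => if x = b then 1 else 0, ?_, ?_⟩
  · intro x
    by_cases h : x = b <;> simp [h]
  · intro w hw k K A hK hR
    have hconn : ∀ i : Fin k, (K.induce (({i} : Finset (Fin k)) : Set (Fin k))).Connected := by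
      intro i
      have : Subsingleton ((({i} : Finset (Fin k)) : Set (Fin k))) := by
        rw [Finset.coe_singleton]
        infer_instance
      have : Nonempty ((({i} : Finset (Fin k)) : Set (Fin k))) := ⟨⟨i, by simp⟩⟩
      exact { preconnected := fun x y => by rw [Subsingleton.elim x y] }
    have hw1 : ∀ i : Fin k, w < 1 - ∑ a ∈ A i, kap α (fun x => if x = b then 1 else 0) w a := by
      intro i
      have := hR {i} (hconn i)
      unfold wgt at this
      rw [Finset.sum_singleton] at this
      linarith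
    have hlab : ∀ i : Fin k, ∀ x ∈ A i, x = b := by
      intro i x hx
      by_contra hxb
      have h3 := hw1 i
      have h4 : kap α (fun x => if x = b then 1 else 0) w x ≤
          ∑ a ∈ A i, kap α (fun x => if x = b then 1 else 0) w a :=
        Finset.single_le_sum (f := fun a => kap α (fun x => if x = b then 1 else 0) w a)
          (fun a _ => ed_kap_nonneg _ _ _ a) hx
      have h5 : α ≤ kap α (fun x => if x = b then 1 else 0) w x := by
        unfold kap
        refine le_max_of_le_right ?_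
        have : min ((if x = b then (1 : ℝ) else 0)) w ≤ 0 := by
          rw [if_neg hxb]
          exact min_le_left _ _
        linarith
      linarith
    refine ⟨fun _ => b, fun _ _ _ => hb, fun i => ?_, fun i a ha => ?_⟩
    · have h3 := hw1 i
      have h4 : 0 ≤ ∑ a ∈ A i, kap α (fun x => if x = b then 1 else 0) w a :=
        Finset.sum_nonneg fun a _ => ed_kap_nonneg _ _ _ a
      simp only [if_true]
      linarith
    · rw [hlab i a ha]
      exact hb

theorem expoFrom_disc {V : Type*} [Finite V] {E : V → V → Prop} (hE : ∀ a b, E a b → E b a) {b : V} (hb : E b b)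
    {a c : V} (hac : ∀ k, ¬ Walk E k a c) {κ : ℝ} (h0 : 0 ≤ κ) (h1 : κ ≤ 1 / 2) :
    expoFrom E κ = 1 - κ := by
  unfold expoFrom
  refine le_antisymm (csInf_le ?_ ?_) (le_csInf ⟨1, Or.inr rfl⟩ ?_)
  · refine ⟨0, ?_⟩
    rintro x (hx | hx)
    · exact hx.1.le
    · rw [Set.mem_singleton_iff] at hx
      rw [hx]
      exact zero_le_one
  · rcases h0.eq_or_lt with h | h
    · right
      rw [← h]
      simp
    · left
      exact ⟨by linarith, by linarith, ed_stable hb h le_rfl⟩
  · rintro x (hx | hx)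
    · obtain ⟨hx0, hx1, W, hS⟩ := hx
      exact ed_lower hE hac h0 h1 hx0 hx1 hS
    · rw [Set.mem_singleton_iff] at hx
      rw [hx]
      linarith

theorem threshold_disc {V : Type*} [Finite V] {E : V → V → Prop} (hE : ∀ a b, E a b → E b a) {b : V}
    (hb : E b b) {a c : V} (hac : ∀ k, ¬ Walk E k a c) :
    IsThreshold (fun _ => SurjHom E) (fun n => Real.log n / n) := by
  classical
  have h := dom_threshold E hE 1 le_rfl {b} (by
    intro x hx y hy
    rw [Set.mem_singleton_iff] at hx hy
    rw [hx, hy]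
    exact hb) (by
    intro A hA
    have : A = ∅ := Finset.card_eq_zero.mp (by omega)
    exact ⟨b, rfl, by simp [this]⟩) (by
    intro Q' hQ'
    have hgen : ∀ x : V, (∀ q ∈ Q', ∀ k, ¬ Walk E k x q) → ∃ M : Set V, M.Nonempty ∧
        Disjoint M Q' ∧
        ∀ c ∈ M, ∃ A : Finset V, c ∈ A ∧ A.card ≤ 1 ∧ ∀ d, (∀ a ∈ A, E a d) → d ∈ M := by
      intro x hx
      refine ⟨{y | ∃ k, Walk E k x y}, ⟨x, 0, rfl⟩, ?_, ?_⟩
      · rw [Set.disjoint_left]
        rintro y ⟨k, hk⟩ hy
        exact hx y hy k hk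
      · rintro y ⟨k, hk⟩
        refine ⟨{y}, by simp, by simp, fun d hd => ⟨k + 1, ?_⟩⟩
        exact ed_trans _ _ _ _ _ hk (ed_single (hd y (by simp)))
    by_cases hx : ∀ q ∈ Q', ∀ k, ¬ Walk E k a q
    · exact hgen a hx
    · push Not at hx
      obtain ⟨q, hq, k, hk⟩ := hx
      refine hgen c fun q' hq' l hl => ?_
      exact hac _ (ed_trans _ _ _ _ _ (ed_trans _ _ _ _ _ hk (ed_single (hQ' q hq q' hq')))
        (ed_symm hE _ _ _ hl)))
  have h2 : (fun n : ℕ => (Real.log n / n) ^ (1 / ((1 : ℕ) : ℝ))) =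
      fun n : ℕ => Real.log n / n := by
    funext n
    simp
  rw [h2] at h
  exact h

end Pool.MP_65847d_pr
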