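import Pool.Agent.Lib.MP_65847d_pr.X.XDefs
import Pool.Agent.Lib.MP_65847d_pr.Radial
import Pool.Agent.Lib.MP_1bacea_co.Low.LProb

/-!
# X/EEdgeless : graphs without edges: the threshold is `n ^ (-2)`

`SurjHom E G` for `G` on `Fin n`: if `G` has no edge and `n ≥ |V|` then it holds (any surjection); if `G` has an edge it fails.
First part: `p = o(n^(-2))`: `Pr (some edge) ≤ n^2 p → 0` (union bound over pairs `(u, v)`, or `1 - (1-p)^N ≤ N p`). Second part: `n^(-2) = o(p)`: `Pr (SurjHom) ≤ Pr (no edge) = (1 - p)^(n choose 2) ≤ exp (- p (n choose 2)) → 0` as `n^2 p → ∞`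
(`Pr_all_off` in MP_1bacea_co/Low/LProb.lean with the set of bits `univ.offDiag.image (fun q => s(q.1, q.2))`, of card `n choose 2` (`Sym2.card_image_offDiag`), `≥ n^2/4` for `n ≥ 2`). See C/Lower.lean, Radial.lean (`prob_eq_Pr`, `tendsto_one_of_fail`) for the pattern.
-/

set_option autoImplicit false

open Finset Filter Topology

namespace Pool.MP_65847d_pr

open Pool.MP_1bacea_co

private lemma eedgeless_prob {V : Type*} [Fintype V] [Nonempty V] {E : V → V → Prop}
    (hl : ∀ a b, ¬ E a b) (n : ℕ) (hn : Fintype.card V ≤ n) (p : unitInterval) :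
    prob (fun _ => SurjHom E) n p = (1 - (p : ℝ)) ^ (n.choose 2) := by
  classical
  have hcard : ((univ : Finset (Fin n)).offDiag.image (Function.uncurry Sym2.mk)).card = n.choose 2 := by
    rw [Sym2.card_image_offDiag]
    simp
  rw [prob_eq_Pr, ← hcard, ← Pr_all_off (p := (p : ℝ))]
  congr 1
  funext ω
  rw [eq_iff_iff]
  constructor
  · rintro ⟨φ, -, hφ⟩ i hi
    rw [mem_image] at hi
    obtain ⟨⟨u, v⟩, huv, rfl⟩ := hi
    rw [mem_offDiag] at huv
    by_contra hne
    have htrue : ω s(u, v) = true := by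
      cases h : ω s(u, v)
      · exact absurd h hne
      · rfl
    exact hl _ _ (hφ u v ⟨huv.2.2, htrue⟩)
  · intro h
    have hinj : Function.Injective (fun x : V => Fin.castLE hn (Fintype.equivFin V x)) := by
      intro x y hxy
      exact (Fintype.equivFin V).injective (Fin.castLE_injective hn hxy)
    refine ⟨Function.invFun _, Function.invFun_surjective hinj, fun u v huv => ?_⟩
    have h1 : ω s(u, v) = false := h _ (mem_image.mpr ⟨(u, v), by
      rw [mem_offDiag]
      exact ⟨mem_univ _, mem_univ _, huv.1⟩, rfl⟩)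
    have h2 := huv.2
    rw [h1] at h2
    exact absurd h2 (by decide)

private lemma eedgeless_choose_le (n : ℕ) : ((n.choose 2 : ℕ) : ℝ) ≤ (n : ℝ) ^ 2 := by
  rw [Nat.cast_choose_two]
  have : (0 : ℝ) ≤ n := Nat.cast_nonneg n
  nlinarith [sq_nonneg (n : ℝ)]

private lemma eedgeless_choose_ge (n : ℕ) (hn : 2 ≤ n) : (n : ℝ) ^ 2 / 4 ≤ ((n.choose 2 : ℕ) : ℝ) := by
  rw [Nat.cast_choose_two]
  have : (2 : ℝ) ≤ n := by exact_mod_cast hn
  nlinarith

theorem threshold_edgeless {V : Type*} [Finite V] [Nonempty V] {E : V → V → Prop} (hl : ∀ a b, ¬ E a b) :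
    IsThreshold (fun _ => SurjHom E) (fun n => (n : ℝ) ^ (-2 : ℝ)) := by
  classical
  have := Fintype.ofFinite V
  have hpow : ∀ n : ℕ, 1 ≤ n → (n : ℝ) ^ (-2 : ℝ) = ((n : ℝ) ^ 2)⁻¹ := by
    intro n hn
    rw [Real.rpow_neg (Nat.cast_nonneg n)]
    norm_num
  intro p
  constructor
  · intro hp
    -- `n^2 p → 0`
    have h1 : Tendsto (fun n : ℕ => (n : ℝ) ^ 2 * (p n : ℝ)) atTop (𝓝 0) := by
      have h2 := hp.tendsto_div_nhds_zero
      refine h2.congr' ?_
      filter_upwards [eventually_ge_atTop 1] with n hn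
      rw [hpow n hn]
      field_simp
    have h3 : Tendsto (fun n : ℕ => 1 - (n : ℝ) ^ 2 * (p n : ℝ)) atTop (𝓝 1) := by
      have := h1.const_sub 1
      simpa using this
    refine tendsto_of_tendsto_of_tendsto_of_le_of_le' h3 tendsto_const_nhds ?_ ?_
    · filter_upwards [eventually_ge_atTop (Fintype.card V)] with n hn
      rw [eedgeless_prob hl n hn]
      have hb := one_add_mul_le_pow (a := -(p n : ℝ)) (by linarith [(p n).2.2]) (n.choose 2)
      have h4 := mul_le_mul_of_nonneg_right (eedgeless_choose_le n) (p n).2.1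
      have h5 : (1 + -(p n : ℝ)) = 1 - p n := by ring
      rw [h5] at hb
      linarith
    · filter_upwards [eventually_ge_atTop (Fintype.card V)] with n hn
      rw [eedgeless_prob hl n hn]
      exact pow_le_one₀ (by linarith [(p n).2.2]) (by linarith [(p n).2.1])
  · intro hp
    -- `n^2 p → ∞`
    have hC : ∀ C : ℝ, ∀ᶠ n : ℕ in atTop, C ≤ (n : ℝ) ^ 2 * (p n : ℝ) := by
      intro C
      have hC1 : (0 : ℝ) < (max C 1)⁻¹ := inv_pos.mpr (lt_of_lt_of_le one_pos (le_max_right _ _))
      filter_upwards [hp.bound hC1, eventually_ge_atTop 1] with n hn hn1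
      have hn1' : (1 : ℝ) ≤ n := by exact_mod_cast hn1
      rw [hpow n hn1, Real.norm_of_nonneg (by positivity), Real.norm_of_nonneg (p n).2.1,
        inv_mul_eq_div, inv_eq_one_div,
        div_le_div_iff₀ (by positivity) (lt_of_lt_of_le one_pos (le_max_right _ _))] at hn
      have := le_max_left C 1
      linarith
    have hT : Tendsto (fun n : ℕ => (n : ℝ) ^ 2 * (p n : ℝ)) atTop atTop :=
      tendsto_atTop.mpr hC
    have h4 : Tendsto (fun n : ℕ => Real.exp (-((n : ℝ) ^ 2 * (p n : ℝ) / 4))) atTop (𝓝 0) := by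
      refine Real.tendsto_exp_neg_atTop_nhds_zero.comp ?_
      exact hT.atTop_div_const (by norm_num)
    refine tendsto_of_tendsto_of_tendsto_of_le_of_le' tendsto_const_nhds h4 ?_ ?_
    · filter_upwards [eventually_ge_atTop (Fintype.card V)] with n hn
      rw [eedgeless_prob hl n hn]
      exact pow_nonneg (by linarith [(p n).2.2]) _
    · filter_upwards [eventually_ge_atTop (Fintype.card V), eventually_ge_atTop 2] with n hn hn2
      rw [eedgeless_prob hl n hn]
      calc (1 - (p n : ℝ)) ^ (n.choose 2) ≤ (Real.exp (-(p n : ℝ))) ^ (n.choose 2) := by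
            apply pow_le_pow_left₀ (by linarith [(p n).2.2])
            exact Real.one_sub_le_exp_neg _
        _ = Real.exp (-((n.choose 2 : ℕ) * (p n : ℝ))) := by
            rw [← Real.exp_nat_mul]
            congr 1
            ring
        _ ≤ _ := by
            rw [Real.exp_le_exp]
            have := mul_le_mul_of_nonneg_right (eedgeless_choose_ge n hn2) (p n).2.1
            linarith

end Pool.MP_65847d_pr
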