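import Pool.Agent.Lib.MP_65847d_pr.X.XDefs
import Pool.Agent.Lib.MP_65847d_pr.C.Final

/-!
# X/ELoopless : loopless graphs with an edge: the threshold is `1 / n`

`expoFrom_loopless`: no vector is `StableFrom E κ α` for `0 < α < 1`, `κ < 1`: take a level `w` with `max κ α ≤ w < 1` and the one vertex forest (`Fin 1`, `⊥`) with the labels `A 0 = {a : w ≤ W a}` (`Set.Finite.toFinset` or `Fintype.ofFinite`).
Each label has `kap = max 0 (α - min (W a) w) = 0`, so the weight is `1 > w`: rich. So there is a colour `c`, `w ≤ W c`, adjacent to all labels, in particular to itself: contradiction. So the set is `{1}`, `csInf_singleton`.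

`threshold_loopless`. First part: `p = o(1/n)` gives `n p → 0`: `lower_sparse` (C/Sparse.lean). Second part: `1/n = o(p)` means `n p → ∞`. A homomorphism `G → F`, `F` loopless on `r = |V|` vertices, `n ≥ 1`, has a colour class with at least `n / r` vertices which is an independent set of `G`.
For a fixed set `S` of `s = ⌈n/r⌉₊` (or `s * r ≥ n`, e.g. `s = n / r + 1`... take any `S ⊆` class with `s r ≥ n`, `s ≥ n / r`) vertices `Pr (S independent) = (1 - p)^(s choose 2) ≤ exp (- p s (s-1) / 2)` (`Pr_all_off` in MP_1bacea_co/Low/LProb.lean, pairs `S.offDiag.image`, cf. `ls_card_T`), and there are at most `2^n` sets: total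
`≤ exp (n log 2 - p s (s - 1)/2) → 0`, since `s (s-1) ≥ n² / (2 r²)` for large `n` and `n p → ∞` (so the exponent is `≤ n (log 2 - n p / (4 r²)) → -∞`).
-/

set_option autoImplicit false
set_option linter.unusedSectionVars false

open Finset Filter Topology

namespace Pool.MP_65847d_pr

open Pool.MP_1bacea_co

theorem expoFrom_loopless {V : Type*} [Finite V] {E : V → V → Prop} (hl : ∀ a, ¬ E a a) {κ : ℝ} (hκ : κ < 1) :
    expoFrom E κ = 1 := by
  classical
  have := Fintype.ofFinite V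
  have hempty : {α : ℝ | 0 < α ∧ α < 1 ∧ ∃ W : V → ℝ, StableFrom E κ α W} = ∅ := by
    rw [Set.eq_empty_iff_forall_notMem]
    rintro α ⟨h0, h1, W, hW⟩
    set w : ℝ := max κ α with hw
    have hw1 : w < 1 := max_lt hκ h1
    have hκw : κ ≤ w := le_max_left _ _
    have hαw : α ≤ w := le_max_right _ _
    set A : Fin 1 → Finset V := fun _ => univ.filter fun a => w ≤ W a with hA
    have hkap : ∀ i, ∀ a ∈ A i, kap α W w a = 0 := by
      intro i a ha
      have ha' : w ≤ W a := (mem_filter.mp ha).2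
      unfold kap
      rw [min_eq_right ha']
      exact max_eq_left (by linarith)
    have hrich : Rich α W w (⊥ : SimpleGraph (Fin 1)) A := by
      intro U hU
      have hne : U.Nonempty := by
        obtain ⟨⟨x, hx⟩⟩ := hU.nonempty
        exact ⟨x, hx⟩
      have hUc : U.card = 1 := by
        have h2 := card_pos.mpr hne
        have h3 := card_le_univ U
        rw [Fintype.card_fin] at h3
        omega
      unfold wgt
      have h4 : ∀ y ∈ U, (1 - α - ∑ a ∈ A y, kap α W w a) = 1 - α := by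
        intro y _
        rw [sum_eq_zero (hkap y), sub_zero]
      rw [sum_congr rfl h4, sum_const, hUc, one_smul]
      linarith
    obtain ⟨φ, -, hφw, hφE⟩ := hW.2 w hκw 1 ⊥ A SimpleGraph.isAcyclic_bot hrich
    exact hl (φ 0) (hφE 0 (φ 0) (mem_filter.mpr ⟨mem_univ _, hφw 0⟩))
  unfold expoFrom
  rw [hempty, Set.empty_union, csInf_singleton]

/-- union bound over large independent sets -/
private theorem el_finite {V : Type*} [Fintype V] {E : V → V → Prop} (hl : ∀ a, ¬ E a a)
    {n m : ℕ} (hm : Fintype.card V * m < n) {p : ℝ} (h0 : 0 ≤ p) (h1 : p ≤ 1) :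
    Pr p (fun ω : Sym2 (Fin n) → Bool => SurjHom E (Gr ω)) ≤
      (2 : ℝ) ^ n * (1 - p) ^ ((m + 1).choose 2) := by
  classical
  calc Pr p (fun ω : Sym2 (Fin n) → Bool => SurjHom E (Gr ω))
      ≤ Pr p (fun ω : Sym2 (Fin n) → Bool =>
          ∃ S ∈ (univ : Finset (Finset (Fin n))).filter (fun S => m + 1 ≤ S.card),
          ∀ e ∈ ls_T S, ω e = false) := by
        refine Pr_mono h0 h1 fun ω hω => ?_
        obtain ⟨φ, -, hφ⟩ := hω
        obtain ⟨c, -, hc⟩ := Finset.exists_lt_card_fiber_of_mul_lt_card_of_maps_to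
          (s := (univ : Finset (Fin n))) (t := (univ : Finset V)) (f := φ) (n := m)
          (fun _ _ => mem_univ _) (by simpa using hm)
        refine ⟨univ.filter fun x => φ x = c, mem_filter.mpr ⟨mem_univ _, hc⟩, ?_⟩
        intro e he
        unfold ls_T at he
        obtain ⟨⟨a, b⟩, hab, rfl⟩ := mem_image.mp he
        rw [mem_offDiag] at hab
        obtain ⟨ha, hb, hne⟩ := hab
        by_contra hcon
        have hadj : (Gr ω).Adj a b := ⟨hne, by simpa using hcon⟩
        have h3 := hφ a b hadj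
        rw [(mem_filter.mp ha).2, (mem_filter.mp hb).2] at h3
        exact hl c h3
    _ ≤ ∑ S ∈ (univ : Finset (Finset (Fin n))).filter (fun S => m + 1 ≤ S.card),
          Pr p (fun ω : Sym2 (Fin n) → Bool => ∀ e ∈ ls_T S, ω e = false) :=
        Pr_exists_le h0 h1 _ _
    _ ≤ ∑ _S ∈ (univ : Finset (Finset (Fin n))).filter (fun S => m + 1 ≤ S.card),
          (1 - p) ^ ((m + 1).choose 2) := by
        refine sum_le_sum fun S hS => ?_
        rw [Pr_all_off, ls_card_T]
        exact pow_le_pow_of_le_one (by linarith) (by linarith)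
          (Nat.choose_le_choose 2 (mem_filter.mp hS).2)
    _ ≤ (2 : ℝ) ^ n * (1 - p) ^ ((m + 1).choose 2) := by
        rw [sum_const, nsmul_eq_mul]
        apply mul_le_mul_of_nonneg_right _ (pow_nonneg (by linarith) _)
        have h4 : ((univ : Finset (Finset (Fin n))).filter (fun S => m + 1 ≤ S.card)).card ≤ 2 ^ n :=
          (card_le_univ _).trans (by simp)
        exact_mod_cast h4

/-- numerical part -/
private theorem el_num {r n m : ℕ} (hr : 1 ≤ r) (hn : 2 * r ≤ n) (hm : n ≤ r * (m + 1)) {p : ℝ}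
    (h0 : 0 ≤ p) (h1 : p ≤ 1) (hp : 8 * (r : ℝ) ^ 2 ≤ n * p) :
    (2 : ℝ) ^ n * (1 - p) ^ ((m + 1).choose 2) ≤ Real.exp (-(n : ℝ)) := by
  have hr0 : (0 : ℝ) < r := by exact_mod_cast hr
  have hn' : 2 * (r : ℝ) ≤ n := by exact_mod_cast hn
  have hm' : (n : ℝ) ≤ r * (m + 1) := by exact_mod_cast hm
  have hn0 : (0 : ℝ) < n := by linarith
  have hm2 : (n : ℝ) ≤ 2 * (r * m) := by nlinarith
  have hC : (((m + 1).choose 2 : ℕ) : ℝ) = (m + 1) * m / 2 := by
    rw [Nat.cast_choose_two]
    push_cast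
    ring
  have hprod : (n : ℝ) * n ≤ 4 * (r : ℝ) ^ 2 * (((m + 1).choose 2 : ℕ) : ℝ) := by
    rw [hC]
    have h3 : (n : ℝ) * n ≤ (r * (m + 1)) * (2 * (r * m)) :=
      mul_le_mul hm' hm2 hn0.le (hn0.le.trans hm')
    nlinarith
  have hpC : 2 * (n : ℝ) ≤ p * (((m + 1).choose 2 : ℕ) : ℝ) := by
    have h3 : 8 * (r : ℝ) ^ 2 * n ≤ n * p * n := mul_le_mul_of_nonneg_right hp hn0.le
    have h4 : p * ((n : ℝ) * n) ≤ p * (4 * (r : ℝ) ^ 2 * (((m + 1).choose 2 : ℕ) : ℝ)) :=
      mul_le_mul_of_nonneg_left hprod h0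
    have h5 : (4 * (r : ℝ) ^ 2) * (2 * n) ≤
        (4 * (r : ℝ) ^ 2) * (p * (((m + 1).choose 2 : ℕ) : ℝ)) := by linarith
    exact le_of_mul_le_mul_left h5 (by positivity)
  have h2n : (2 : ℝ) ^ n = Real.exp (n * Real.log 2) := by
    rw [Real.exp_nat_mul, Real.exp_log (by norm_num)]
  have h6 : (1 - p) ^ ((m + 1).choose 2) ≤ Real.exp (-(p * (((m + 1).choose 2 : ℕ) : ℝ))) := by
    have h7 : 1 - p ≤ Real.exp (-p) := Real.one_sub_le_exp_neg p
    calc (1 - p) ^ ((m + 1).choose 2) ≤ (Real.exp (-p)) ^ ((m + 1).choose 2) :=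
          pow_le_pow_left₀ (by linarith) h7 _
      _ = Real.exp (-(p * (((m + 1).choose 2 : ℕ) : ℝ))) := by
          rw [← Real.exp_nat_mul]
          congr 1
          ring
  have hlog : Real.log 2 < 1 := by
    have := Real.log_two_lt_d9
    linarith
  calc (2 : ℝ) ^ n * (1 - p) ^ ((m + 1).choose 2)
      ≤ Real.exp (n * Real.log 2) * Real.exp (-(p * (((m + 1).choose 2 : ℕ) : ℝ))) := by
        rw [h2n]
        exact mul_le_mul_of_nonneg_left h6 (Real.exp_pos _).le
    _ = Real.exp (n * Real.log 2 + -(p * (((m + 1).choose 2 : ℕ) : ℝ))) := (Real.exp_add _ _).symm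
    _ ≤ Real.exp (-(n : ℝ)) := by
        apply Real.exp_le_exp.mpr
        nlinarith

theorem threshold_loopless {V : Type*} [Finite V] {E : V → V → Prop} (hE : ∀ a b, E a b → E b a)
    (hne : ∃ a b, E a b) (hl : ∀ a, ¬ E a a) :
    IsThreshold (fun _ => SurjHom E) (fun n => (n : ℝ)⁻¹) := by
  classical
  have := Fintype.ofFinite V
  intro p
  constructor
  · intro hp
    refine lower_sparse hE hne p ?_
    have h1 := hp.tendsto_div_nhds_zero
    refine h1.congr fun n => ?_
    rw [div_inv_eq_mul, mul_comm]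
  · intro hp
    obtain ⟨a₀, -, -⟩ := hne
    have hr : 1 ≤ Fintype.card V := Fintype.card_pos_iff.mpr ⟨a₀⟩
    set r : ℕ := Fintype.card V with hrdef
    have hr0 : (0 : ℝ) < r := by exact_mod_cast hr
    have hc : (0 : ℝ) < (8 * (r : ℝ) ^ 2)⁻¹ := by positivity
    have hev := hp.def hc
    have hlim : Tendsto (fun n : ℕ => Real.exp (-(n : ℝ))) atTop (𝓝 0) :=
      Real.tendsto_exp_neg_atTop_nhds_zero.comp tendsto_natCast_atTop_atTop
    refine squeeze_zero' (Eventually.of_forall fun n => ?_) ?_ hlim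
    · rw [prob_eq_Pr]
      exact Pr_nonneg (p n).2.1 (p n).2.2 _
    · filter_upwards [hev, eventually_ge_atTop (2 * r), eventually_ge_atTop 1] with n hn1 hn2 hn3
      have hn0 : (0 : ℝ) < n := by exact_mod_cast hn3
      rw [prob_eq_Pr]
      have hp0 : 0 ≤ (p n : ℝ) := (p n).2.1
      have hp8 : 8 * (r : ℝ) ^ 2 ≤ n * (p n : ℝ) := by
        rw [Real.norm_of_nonneg (by positivity), Real.norm_of_nonneg hp0] at hn1
        have h8 : (0 : ℝ) < 8 * (r : ℝ) ^ 2 := by positivity
        have h3 : 8 * (r : ℝ) ^ 2 * n * (n : ℝ)⁻¹ ≤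
            8 * (r : ℝ) ^ 2 * n * ((8 * (r : ℝ) ^ 2)⁻¹ * (p n : ℝ)) :=
          mul_le_mul_of_nonneg_left hn1 (by positivity)
        have h4 : 8 * (r : ℝ) ^ 2 * n * (n : ℝ)⁻¹ = 8 * (r : ℝ) ^ 2 := by
          field_simp
        have h5 : 8 * (r : ℝ) ^ 2 * n * ((8 * (r : ℝ) ^ 2)⁻¹ * (p n : ℝ)) = n * (p n : ℝ) := by
          field_simp
        rw [h4, h5] at h3
        exact h3
      have hm1 : r * ((n - 1) / r) < n := by
        have := Nat.mul_div_le (n - 1) r
        omega
      have hm2 : n ≤ r * ((n - 1) / r + 1) := by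
        have h3 := Nat.lt_mul_div_succ (n - 1) (show 0 < r by omega)
        omega
      exact (el_finite hl hm1 (p n).2.1 (p n).2.2).trans
        (el_num hr hn2 hm2 (p n).2.1 (p n).2.2 hp8)

end Pool.MP_65847d_pr
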