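import Pool.Agent.Lib.MP_65847d_pr.X.XDefs
import Pool.Agent.Lib.MP_65847d_pr.C.Final

/-!
# X/EUniv : graphs with a universal (looped) vertex `b`: the threshold is `1`

`expoFrom_univ`: for every `α ∈ (0,1)` the vector `W = 1` is `StableFrom E κ α`: let `w ≥ κ`, `(K, A)` on `Fin k` be rich. `k = 0`: `Colours` is trivial (`φ = Fin.elim0`). `k ≥ 1`: the one-element set `{i}` induces a connected graph, so
`w < wgt {i} = α + (1 - α - ∑ kap) ≤ 1` (`kap ≥ 0`), and `φ = fun _ => b` works. So the set in the definition of `expoFrom` is `(0,1) ∪ {1}` and its infimum is `0`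
(lower bound `0`; for `ε > 0` the element `min ε 1 / 2`).

`threshold_univ`: first part (`p → 0`): `SurjHom` holds as soon as there are no edges inside a set of `|V|` roots `R : V → Fin n` injective (exists for `n ≥ |V|`): map `R x` to `x` and everything else to `b`.
`Pr (¬ SurjHom) ≤ |V|^2 p_n → 0` (`Pr_root_edge` in C/FMoment.lean, `prob_eq_Pr`, `Pr_not`, `tendsto_one_of_fail` in Radial.lean; see C/Lower.lean for the pattern). Second part: `1 = o(p_n)` contradicts `p_n ≤ 1`
(`IsLittleO.bound` with constant `1/2`: `1 ≤ (1/2) |p_n| ≤ 1/2`).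
-/

set_option autoImplicit false

open Finset Filter Topology

namespace Pool.MP_65847d_pr

open Pool.MP_1bacea_co

private lemma stableFrom_one {V : Type*} {E : V → V → Prop} {b : V} (hb : ∀ a, E b a) (κ α : ℝ) :
    StableFrom E κ α (fun _ => (1 : ℝ)) := by
  refine ⟨fun a => ⟨zero_le_one, le_refl _⟩, fun w _ k K A _ hR => ?_⟩
  refine ⟨fun _ => b, fun _ _ _ => hb b, fun i => ?_, fun i a _ => hb a⟩
  have hconn : (K.induce (({i} : Finset (Fin k)) : Set (Fin k))).Connected := by
    have hsub : Subsingleton (({i} : Finset (Fin k)) : Set (Fin k)) := by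
      rw [Finset.coe_singleton]
      infer_instance
    have hne : Nonempty (({i} : Finset (Fin k)) : Set (Fin k)) :=
      ⟨⟨i, Finset.mem_coe.mpr (mem_singleton_self i)⟩⟩
    exact SimpleGraph.Connected.of_subsingleton
  have h := hR {i} hconn
  unfold wgt at h
  rw [sum_singleton] at h
  have h2 : 0 ≤ ∑ a ∈ A i, kap α (fun _ : V => (1 : ℝ)) w a :=
    sum_nonneg fun a _ => le_max_left _ _
  linarith

theorem expoFrom_univ {V : Type*} {E : V → V → Prop} {b : V} (hb : ∀ a, E b a) (κ : ℝ) :
    expoFrom E κ = 0 := by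
  unfold expoFrom
  apply le_antisymm
  · refine le_of_forall_pos_le_add fun ε hε => ?_
    have hpos : 0 < min ε 1 / 2 := by
      have : 0 < min ε 1 := lt_min hε one_pos
      linarith
    have hlt : min ε 1 / 2 < 1 := by
      have : min ε 1 ≤ 1 := min_le_right _ _
      linarith
    have hbdd : BddBelow ({α : ℝ | 0 < α ∧ α < 1 ∧ ∃ W : V → ℝ, StableFrom E κ α W} ∪ {1}) := by
      refine ⟨(0 : ℝ), ?_⟩
      rintro x (hx | hx)
      · exact hx.1.le
      · rw [Set.mem_singleton_iff] at hx
        rw [hx]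
        exact zero_le_one
    have hmem : min ε 1 / 2 ∈ ({α : ℝ | 0 < α ∧ α < 1 ∧ ∃ W : V → ℝ, StableFrom E κ α W} ∪ {1} : Set ℝ) :=
      Or.inl ⟨hpos, hlt, fun _ => 1, stableFrom_one hb κ _⟩
    refine (csInf_le hbdd hmem).trans ?_
    have : min ε 1 ≤ ε := min_le_left _ _
    linarith
  · refine le_csInf ⟨1, Or.inr rfl⟩ ?_
    rintro x (hx | hx)
    · exact hx.1.le
    · rw [Set.mem_singleton_iff] at hx
      rw [hx]
      exact zero_le_one

theorem threshold_univ {V : Type*} [Finite V] {E : V → V → Prop} (hE : ∀ a b, E a b → E b a) {b : V}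
    (hb : ∀ a, E b a) : IsThreshold (fun _ => SurjHom E) (fun _ => (1 : ℝ)) := by
  classical
  have := Fintype.ofFinite V
  intro p
  constructor
  · intro hp
    have hp0 : Tendsto (fun n => (p n : ℝ)) atTop (𝓝 0) := (Asymptotics.isLittleO_one_iff ℝ).mp hp
    have hf : Tendsto (fun n => (Fintype.card V : ℝ) ^ 2 * (p n : ℝ)) atTop (𝓝 0) := by
      simpa using hp0.const_mul ((Fintype.card V : ℝ) ^ 2)
    have key : ∀ᶠ n : ℕ in atTop, Pr (p n : ℝ)
        (fun ω : Sym2 (Fin n) → Bool => ¬ SurjHom E (Gr ω)) ≤ (Fintype.card V : ℝ) ^ 2 * (p n : ℝ) := by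
      filter_upwards [eventually_ge_atTop (Fintype.card V)] with n hnV
      have hinj : ∃ R : V → Fin n, Function.Injective R := by
        refine ⟨fun x => Fin.castLE hnV (Fintype.equivFin V x), ?_⟩
        intro x y hxy
        have := Fin.castLE_injective hnV hxy
        exact (Fintype.equivFin V).injective this
      obtain ⟨R, hR⟩ := hinj
      refine le_trans (Pr_mono (p n).2.1 (p n).2.2 fun ω hω => ?_)
        (Pr_root_edge R (p n).2.1 (p n).2.2)
      by_contra hno
      apply hω
      refine ⟨fun u => if h : ∃ x, R x = u then h.choose else b, ?_, ?_⟩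
      · intro x
        refine ⟨R x, ?_⟩
        have hex : ∃ y, R y = R x := ⟨x, rfl⟩
        dsimp only
        rw [dif_pos hex]
        exact hR hex.choose_spec
      · intro u v huv
        dsimp only
        by_cases hu : ∃ x, R x = u
        · by_cases hv : ∃ x, R x = v
          · exfalso
            obtain ⟨x, rfl⟩ := hu
            obtain ⟨y, rfl⟩ := hv
            exact hno ⟨x, y, huv⟩
          · rw [dif_neg hv]
            exact hE _ _ (hb _)
        · rw [dif_neg hu]
          exact hb _
    have hlim : Tendsto (fun n => Pr (p n : ℝ)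
        (fun ω : Sym2 (Fin n) → Bool => ¬ SurjHom E (Gr ω))) atTop (𝓝 0) :=
      squeeze_zero' (Eventually.of_forall fun n => Pr_nonneg (p n).2.1 (p n).2.2 _) key hf
    refine tendsto_one_of_fail (fun n => ?_) hlim
    rw [prob_eq_Pr, Pr_not]
    ring
  · intro hp
    exfalso
    have h1 := hp.bound (by norm_num : (0 : ℝ) < 1 / 2)
    obtain ⟨n, hn⟩ := h1.exists
    rw [norm_one, Real.norm_of_nonneg (p n).2.1] at hn
    have := (p n).2.2
    linarith

end Pool.MP_65847d_pr
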