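import Pool.Agent.Lib.MP_65847d_pr.X.XPart

/-!
# X/XDeg : the degrees in a core are at most `|V|`

Suppose `y` has more than `|V|` neighbours. For every neighbour `z` let `H z` be a cut for the edge `y z` (`exists_cut`: `z ∈ H z`, `y ∉ H z`) and `φ z` a colouring of `univ \ H z` (`Core.part`; `H z` is nonempty).
By the pigeonhole principle there are neighbours `z ≠ z'` with `φ z y = φ z' y`. `z' ∉ H z`: (the edge `y z'` would be an edge between `z' ∈ H z` and `y ∉ H z`, so `z' = z` by `cross`), and `H z ∩ H z' = ∅`: (`H z` is connected and contains `z ∉ H z'`; if it met `H z'` then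
by `conn_cut` with `Y = H z'` (crossing edge `z' y`) it would contain `y`.) Define `ψ = φ z` outside `H z` and `ψ = φ z'` on `H z`. Then `ψ` is a colouring of `K`: the only edge between `H z` and its complement is `z y`, and both ends are
outside `H z'`, with `φ z y = φ z' y`. Contradiction to `ncol`.
-/

set_option autoImplicit false

open Finset

namespace Pool.MP_65847d_pr

variable {ι V : Type*} [Fintype ι] [DecidableEq ι] [Fintype V]

open Classical in
theorem Core.degree_le {E : V → V → Prop} (hE : ∀ a b, E a b → E b a) {κ α α₁ ws : ℝ} {W : V → ℝ}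
    {K : SimpleGraph ι} {A : ι → Finset V} {c : ι → ℝ} (hC : Core E κ α α₁ ws W K A c)
    (hV : Nonempty V) (y : ι) : (univ.filter fun z => K.Adj y z).card ≤ Fintype.card V := by
  by_contra hcon
  push Not at hcon
  have h1 : ∀ z : ι, ∃ H : Finset ι, K.Adj y z → IsCut K y z H := by
    intro z
    by_cases h : K.Adj y z
    · obtain ⟨H, hH⟩ := exists_cut hC.tree h
      exact ⟨H, fun _ => hH⟩
    · exact ⟨∅, fun h' => absurd h' h⟩
  choose H hH using h1
  have h2 : ∀ z : ι, ∃ φ : ι → V, K.Adj y z → ColOn E W K (univ \ H z) A (fun _ => ws) φ := by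
    intro z
    by_cases h : K.Adj y z
    · have hne : univ \ H z ≠ univ := by
        intro he
        have hz := (hH z h).mem
        have : z ∈ univ \ H z := by rw [he]; exact Finset.mem_univ z
        exact (Finset.mem_sdiff.mp this).2 hz
      obtain ⟨φ, hφ⟩ := hC.part hV hne
      exact ⟨φ, fun _ => hφ⟩
    · exact ⟨fun _ => hV.some, fun h' => absurd h' h⟩
  choose φ hφ using h2
  obtain ⟨z, hz, z', hz', hne, heq⟩ := Finset.exists_ne_map_eq_of_card_lt_of_maps_to
    (s := univ.filter fun z => K.Adj y z) (t := (univ : Finset V)) (f := fun z => φ z y)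
    (by rw [Finset.card_univ]; exact hcon) (fun _ _ => Finset.mem_univ _)
  have hz1 : K.Adj y z := (Finset.mem_filter.mp hz).2
  have hz2 : K.Adj y z' := (Finset.mem_filter.mp hz').2
  have cz := hH z hz1
  have cz' := hH z' hz2
  have n1 : z' ∉ H z := fun h => hne (cz.cross z' h y cz.notMem hz2.symm).1.symm
  have n2 : z ∉ H z' := fun h => hne (cz'.cross z h y cz'.notMem hz1.symm).1
  have hdis : ∀ x, x ∈ H z → x ∉ H z' := by
    intro x hx hx'
    obtain ⟨-, -, h3, -⟩ := conn_cut cz.conn (H z') (a := z') (b := y)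
      (fun p _ hpY q _ hqY hpq => cz'.cross p hpY q hqY hpq) ⟨x, hx, hx'⟩ ⟨z, cz.mem, n2⟩
    exact cz.notMem h3
  have c1 := hφ z hz1
  have c2 := hφ z' hz2
  have m1 : ∀ x, x ∉ H z → x ∈ univ \ H z := fun x hx =>
    Finset.mem_sdiff.mpr ⟨Finset.mem_univ x, hx⟩
  have m2 : ∀ x, x ∉ H z' → x ∈ univ \ H z' := fun x hx =>
    Finset.mem_sdiff.mpr ⟨Finset.mem_univ x, hx⟩
  apply hC.ncol
  refine ⟨fun i => if i ∈ H z then φ z' i else φ z i, ?_, ?_, ?_⟩
  · intro i _ j _ hij
    by_cases hi : i ∈ H z
    · by_cases hj : j ∈ H z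
      · simp only [if_pos hi, if_pos hj]
        exact c2.1 i (m2 i (hdis i hi)) j (m2 j (hdis j hj)) hij
      · obtain ⟨rfl, rfl⟩ := cz.cross i hi j hj hij
        simp only [if_pos hi, if_neg hj]
        rw [heq]
        exact c2.1 i (m2 i n2) j (m2 j cz'.notMem) hij
    · by_cases hj : j ∈ H z
      · obtain ⟨rfl, rfl⟩ := cz.cross j hj i hi hij.symm
        simp only [if_neg hi, if_pos hj]
        rw [heq]
        exact c2.1 i (m2 i cz'.notMem) j (m2 j n2) hij
      · simp only [if_neg hi, if_neg hj]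
        exact c1.1 i (m1 i hi) j (m1 j hj) hij
  · intro i _
    by_cases hi : i ∈ H z
    · simp only [if_pos hi]
      exact c2.2.1 i (m2 i (hdis i hi))
    · simp only [if_neg hi]
      exact c1.2.1 i (m1 i hi)
  · intro i _ a ha
    by_cases hi : i ∈ H z
    · simp only [if_pos hi]
      exact c2.2.2 i (m2 i (hdis i hi)) a ha
    · simp only [if_neg hi]
      exact c1.2.2 i (m1 i hi) a ha

end Pool.MP_65847d_pr
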