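import Mathlib

/-!
# X/XSeq : a lemma about sequences with `x (i + l) = x i + γ`, `γ > 0`

`D = max {x i - x j | i ≤ j}`: if `j ≥ i + l` then `x i - x j = x i - x (j - l) - γ`, so it is enough to consider `j < i + l`, and by periodicity `i < l`: finitely many pairs, and `D ≥ 0` (`i = j`). Let `(i₀, j₀)`, `i₀ ≤ j₀ < i₀ + l`, be a pair with `x i₀ - x j₀ = D`; adding a multiple of `l` we may assume
`i₀ ≥ 2 l`. `t := min {i > j₀ | x i ≥ x j₀ + D + γ}`; `x (i₀ + l) = x j₀ + D + γ` and `i₀ + l > j₀`, so `t ≤ i₀ + l`. The pair `(t, j₀ + l)` (`t ≤ i₀ + l ≤ j₀ + l`): `x t - x (j₀ + l) ≤ D`, so `x t ≤ x j₀ + γ + D`: equality. `x i < x t` for `j₀ ≤ i < t` (minimality, and `D + γ > 0` for `i = j₀`).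
`e := max {i ∈ [j₀, t) | x i ≤ x j₀}`. The pair `(t - l, e)` (`t - l ≤ i₀ ≤ j₀ ≤ e`): `x (t - l) - x e ≤ D`, `x (t - l) = x t - γ = x j₀ + D`, so `x e ≥ x j₀`: `x e = x j₀`. So `x t - x e = D + γ`; `t ≤ i₀ + l ≤ e + l`.
For `e < i < t`: `x i > x j₀ = x e` (maximality). For `t ≤ i ≤ e + l`: the pair `(t, i)`: `x i ≥ x t - D = x e + γ > x e`. For `t - l ≤ i ≤ e`: the pair `(i, e)`: `x i ≤ x e + D = x t - γ < x t`. For `e ≤ i < t`: shown above.
-/

set_option autoImplicit false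

namespace Pool.MP_65847d_pr

private theorem seq_mul {x : ℕ → ℝ} {l : ℕ} {γ : ℝ} (hx : ∀ i, x (i + l) = x i + γ) (m i : ℕ) :
    x (i + m * l) = x i + m * γ := by
  induction m with
  | zero => simp
  | succ m ih =>
    have : i + (m + 1) * l = (i + m * l) + l := by ring
    rw [this, hx, ih]
    push_cast
    ring

/-- the maximal decrease -/
private theorem seq_max {x : ℕ → ℝ} {l : ℕ} (hl : 1 ≤ l) {γ : ℝ} (hγ : 0 < γ)
    (hx : ∀ i, x (i + l) = x i + γ) :
    ∃ i₀ j₀ : ℕ, i₀ ≤ j₀ ∧ j₀ < i₀ + l ∧ 2 * l ≤ i₀ ∧ ∀ i j, i ≤ j → x i - x j ≤ x i₀ - x j₀ := by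
  classical
  set S : Finset (ℕ × ℕ) := Finset.range l ×ˢ Finset.range l with hS
  have hne : S.Nonempty := ⟨(0, 0), by simp [hS]; omega⟩
  obtain ⟨⟨a, b⟩, hab, hmax⟩ := S.exists_max_image (fun q => x q.1 - x (q.1 + q.2)) hne
  have hab' : a < l ∧ b < l := by simpa [hS] using hab
  have key : ∀ i d, x i - x (i + d) ≤ x a - x (a + b) := by
    intro i d
    have h1 : i % l < l := Nat.mod_lt _ (by omega)
    have h2 : d % l < l := Nat.mod_lt _ (by omega)
    have h3 := hmax (i % l, d % l) (by simp [hS, h1, h2])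
    simp only at h3
    have e1 : x i = x (i % l) + (i / l : ℕ) * γ := by
      have := seq_mul hx (i / l) (i % l)
      rw [← this]
      congr 1
      rw [mul_comm]
      exact (Nat.mod_add_div i l).symm
    have e2 : x (i + d) = x (i % l + d % l) + ((i / l : ℕ) + (d / l : ℕ)) * γ := by
      have := seq_mul hx (i / l + d / l) (i % l + d % l)
      have h5 : i % l + d % l + (i / l + d / l) * l = i + d := by
        have h6 := Nat.mod_add_div i l
        have h7 := Nat.mod_add_div d l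
        nlinarith
      rw [h5] at this
      rw [this]
      push_cast
      ring
    have h8 : (0 : ℝ) ≤ ((d / l : ℕ) : ℝ) * γ := by positivity
    rw [e1, e2]
    nlinarith
  refine ⟨a + 2 * l, a + b + 2 * l, by omega, by omega, by omega, fun i j hij => ?_⟩
  obtain ⟨d, rfl⟩ := Nat.exists_eq_add_of_le hij
  have h1 := seq_mul hx 2 a
  have h2 := seq_mul hx 2 (a + b)
  have h3 := key i d
  rw [h1, h2]
  linarith

theorem seq_lemma (x : ℕ → ℝ) {l : ℕ} (hl : 1 ≤ l) {γ : ℝ} (hγ : 0 < γ)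
    (hx : ∀ i, x (i + l) = x i + γ) :
    ∃ (D : ℝ) (e t : ℕ), 0 ≤ D ∧ (∀ i j, i ≤ j → x i - x j ≤ D) ∧ (∃ i j, i ≤ j ∧ x i - x j = D) ∧
      l ≤ e ∧ e < t ∧ t ≤ e + l ∧ x t - x e = D + γ ∧ (∀ i, e < i → i ≤ e + l → x e < x i) ∧
      ∀ i, t - l ≤ i → i < t → x i < x t := by
  classical
  obtain ⟨i₀, j₀, hij, hjl, hi2, hmax⟩ := seq_max hl hγ hx
  set D : ℝ := x i₀ - x j₀ with hD
  have hD0 : 0 ≤ D := by
    have := hmax 0 0 le_rfl
    linarith
  -- t
  have hext : ∃ i, j₀ < i ∧ x j₀ + D + γ ≤ x i := ⟨i₀ + l, hjl, by rw [hx, hD]; linarith⟩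
  set t := Nat.find hext with ht
  obtain ⟨ht1, ht2⟩ := Nat.find_spec hext
  rw [← ht] at ht1 ht2
  have htle : t ≤ i₀ + l := Nat.find_min' hext ⟨hjl, by rw [hx, hD]; linarith⟩
  have htmin : ∀ i, j₀ < i → i < t → x i < x j₀ + D + γ := by
    intro i h1 h2
    by_contra hcon
    push Not at hcon
    exact Nat.find_min hext h2 ⟨h1, hcon⟩
  have hteq : x t = x j₀ + D + γ := by
    have h1 := hmax t (j₀ + l) (by omega)
    rw [hx] at h1
    linarith
  -- e
  set S : Finset ℕ := (Finset.range t).filter fun i => j₀ ≤ i ∧ x i ≤ x j₀ with hS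
  have hSne : S.Nonempty := ⟨j₀, by simp [hS, ht1]⟩
  set e := S.max' hSne with he
  have heS : e ∈ S := Finset.max'_mem _ _
  have hemax : ∀ i ∈ S, i ≤ e := fun i hi => Finset.le_max' _ _ hi
  rw [hS, Finset.mem_filter, Finset.mem_range] at heS
  obtain ⟨het, hje, hxe⟩ := heS
  have hxt : x (t - l) = x t - γ := by
    have h1 := hx (t - l)
    rw [Nat.sub_add_cancel (by omega)] at h1
    linarith
  have hxe' : x e = x j₀ := by
    have h1 := hmax (t - l) e (by omega)
    linarith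
  refine ⟨D, e, t, hD0, hmax, ⟨i₀, j₀, hij, rfl⟩, by omega, het, by omega, by linarith, ?_, ?_⟩
  · intro i h1 h2
    rcases lt_or_ge i t with h3 | h3
    · by_contra hcon
      push Not at hcon
      have : i ∈ S := by
        rw [hS, Finset.mem_filter, Finset.mem_range]
        exact ⟨h3, by omega, by linarith⟩
      have := hemax i this
      omega
    · have h4 := hmax t i h3
      linarith
  · intro i h1 h2
    rcases le_or_gt i e with h3 | h3
    · have h4 := hmax i e h3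
      linarith
    · have h5 := htmin i (by omega) h2
      linarith

end Pool.MP_65847d_pr
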