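import Pool.Agent.Lib.MP_65847d_pr.X.XSpine

/-!
# X/XWin : windows of the periodic chain
-/

set_option autoImplicit false

open Finset

namespace Pool.MP_65847d_pr

/-- periodic extension of the weights -/
noncomputable def xt (l : ℕ) (x : ℕ → ℝ) (i : ℕ) : ℝ := x (i % l) + ((i / l : ℕ) : ℝ) * (x l - x 0)

/-- periodic extension of the colour sets -/
def Pt {V : Type*} (l : ℕ) (P : ℕ → Set V) (i : ℕ) : Set V := P (i % l)

theorem xt_of_le {l : ℕ} (hl : 1 ≤ l) (x : ℕ → ℝ) {i : ℕ} (hi : i ≤ l) : xt l x i = x i := by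
  unfold xt
  rcases Nat.lt_or_ge i l with h | h
  · rw [Nat.mod_eq_of_lt h, Nat.div_eq_of_lt h]
    simp
  · obtain rfl : i = l := le_antisymm hi h
    rw [Nat.mod_self, Nat.div_self hl]
    push_cast
    ring

theorem xt_add {l : ℕ} (hl : 1 ≤ l) (x : ℕ → ℝ) (i : ℕ) : xt l x (i + l) = xt l x i + (x l - x 0) := by
  unfold xt
  rw [Nat.add_mod_right, Nat.add_div_right i hl]
  push_cast
  ring

theorem Pt_of_le {V : Type*} {l : ℕ} (hl : 1 ≤ l) {P : ℕ → Set V} (h : P 0 = P l) {i : ℕ}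
    (hi : i ≤ l) : Pt l P i = P i := by
  unfold Pt
  rcases Nat.lt_or_ge i l with h1 | h1
  · rw [Nat.mod_eq_of_lt h1]
  · obtain rfl : i = l := le_antisymm hi h1
    rw [Nat.mod_self, h]

theorem Pt_add {V : Type*} {l : ℕ} (hl : 1 ≤ l) (P : ℕ → Set V) (i : ℕ) :
    Pt l P (i + l) = Pt l P i := by
  unfold Pt
  rw [Nat.add_mod_right]

private theorem XWin_xt_mul {l : ℕ} (hl : 1 ≤ l) (x : ℕ → ℝ) (i m : ℕ) :
    xt l x (i + m * l) = xt l x i + m * (x l - x 0) := by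
  induction m with
  | zero => simp
  | succ n ih =>
    rw [Nat.succ_mul, ← Nat.add_assoc, xt_add hl, ih]
    push_cast
    ring

private theorem XWin_Pt_mul {V : Type*} {l : ℕ} (hl : 1 ≤ l) (P : ℕ → Set V) (i m : ℕ) :
    Pt l P (i + m * l) = Pt l P i := by
  induction m with
  | zero => simp
  | succ n ih => rw [Nat.succ_mul, ← Nat.add_assoc, Pt_add hl, ih]

private theorem XWin_shift {ι V : Type*} {E : V → V → Prop} {α₁ ws : ℝ} {W : V → ℝ}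
    {A : ι → Finset V} {c : ι → ℝ} {N l : ℕ} (hl : 1 ≤ l) {x : ℕ → ℝ} {P : ℕ → Set V}
    {p p' : ℕ} (m : ℕ) {G : SimpleGraph ι} {T : Finset ι} {u v : ι}
    (h : Win E α₁ ws W A c N (xt l x) (Pt l P) p p' G T u v) :
    Win E α₁ ws W A c N (xt l x) (Pt l P) (p + m * l) (p' + m * l) G T u v := by
  refine ⟨h.forest, h.card, h.mu, h.mv, h.low, ?_, ?_, ?_, ?_⟩
  · intro X hX hXc hu hv
    obtain ⟨s, h1, h2, h3⟩ := h.left X hX hXc hu hv
    refine ⟨s + m * l, by omega, by omega, ?_⟩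
    rw [XWin_xt_mul hl, XWin_xt_mul hl]
    linarith
  · intro X hX hXc hu hv
    obtain ⟨s, h1, h2, h3⟩ := h.right X hX hXc hu hv
    refine ⟨s + m * l, by omega, by omega, ?_⟩
    rw [XWin_xt_mul hl, XWin_xt_mul hl]
    linarith
  · intro X hX hXc hu hv
    have h3 := h.both X hX hXc hu hv
    rw [XWin_xt_mul hl, XWin_xt_mul hl]
    linarith
  · intro φ hφ b hb hadj
    rw [XWin_Pt_mul hl] at hb
    rw [XWin_Pt_mul hl]
    exact h.prop φ hφ b hb hadj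

variable {ι V : Type*} [Fintype ι] [DecidableEq ι] [Fintype V]

private theorem XWin_caseA {E : V → V → Prop} {κ α α₁ ws : ℝ} {W : V → ℝ} {K : SimpleGraph ι}
    {A : ι → Finset V} {c : ι → ℝ} {l : ℕ} {v : ℕ → ι} {L : ℕ → Finset ι}
    (hS : Spine K l v L) (hE : ∀ a b, E a b → E b a) (hC : Core E κ α α₁ ws W K A c)
    (hl : 1 ≤ l)
    (hP : PSt E W ws K A (L 0)ᶜ (v (0 + 1)) = PSt E W ws K A (L l)ᶜ (v (l + 1)))
    {p p' : ℕ} (h1 : p < p') (h2 : p' ≤ l) :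
    Win E α₁ ws W A c (Fintype.card ι) (xt l fun i => α₁ + ∑ y ∈ L i, c y)
        (Pt l fun i => PSt E W ws K A (L i)ᶜ (v (i + 1))) p p' K (L p' \ L p) (v (p + 1)) (v p') := by
  have hpl : p ≤ l := by omega
  refine ⟨forest_of_acyclic hC.tree.isAcyclic _, ?_, hS.mem_seg (Nat.lt_succ_self p) h1 h2,
    hS.mem_seg h1 le_rfl h2, fun X _ hXc => hC.min X hXc, ?_, ?_, ?_, ?_⟩
  · rw [← card_univ]
    refine card_lt_card (ssubset_univ_iff.mpr fun h => ?_)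
    have h3 : v 0 ∈ L p' \ L p := h ▸ mem_univ _
    exact (mem_sdiff.mp h3).2 (hS.subset (Nat.zero_le p) hpl (hS.mem 0 (Nat.zero_le l)))
  · intro X hX hXc hu hv
    obtain ⟨t, t1, t2, t3, t4⟩ := hS.last h2 hX hXc h1 hu
    have ht : t ≠ p' := fun h => hv (h ▸ t3)
    refine ⟨t, t1, by omega, ?_⟩
    rw [xt_of_le hl _ (by omega : t ≤ l), xt_of_le hl _ hpl]
    have h3 := hS.seg_le hC t1 (by omega) t4 hXc hu t3
    linarith
  · intro X hX hXc hv hu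
    obtain ⟨t, t1, t2, t3, t4⟩ := hS.first h2 hX hXc h1 hv
    have ht : t ≠ p := fun h => hu (h ▸ t3)
    refine ⟨t, by omega, t2, ?_⟩
    rw [xt_of_le hl _ (by omega : t ≤ l), xt_of_le hl _ h2]
    have h3 := hS.seg_le hC t2 h2 t4 hXc t3 hv
    linarith
  · intro X hX hXc hu hv
    rw [xt_of_le hl _ hpl, xt_of_le hl _ h2]
    have h3 := hS.seg_le hC h1 h2 hX hXc hu hv
    linarith
  · intro φ hφ b hb hadj
    rw [Pt_of_le hl hP h2] at hb
    rw [Pt_of_le hl hP hpl]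
    exact hS.prop hE h1 h2 hφ hb hadj

private theorem XWin_caseB {E : V → V → Prop} {κ α α₁ ws : ℝ} {W : V → ℝ} {K : SimpleGraph ι}
    {A : ι → Finset V} {c : ι → ℝ} {l : ℕ} {v : ℕ → ι} {L : ℕ → Finset ι}
    (hS : Spine K l v L) (hE : ∀ a b, E a b → E b a) (hC : Core E κ α α₁ ws W K A c)
    (hl : 1 ≤ l)
    (hP : PSt E W ws K A (L 0)ᶜ (v (0 + 1)) = PSt E W ws K A (L l)ᶜ (v (l + 1)))
    (hγ : ∑ y ∈ L 0, c y ≤ ∑ y ∈ L l, c y) {p q : ℕ} (hq1 : 1 ≤ q) (hqp : q ≤ p) (hpl : p < l) :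
    Win E α₁ ws W A c (Fintype.card ι) (xt l fun i => α₁ + ∑ y ∈ L i, c y)
        (Pt l fun i => PSt E W ws K A (L i)ᶜ (v (i + 1))) p (q + l)
        (reglue K (L p)ᶜ (v l) (v 1)) ((L l \ L p) ∪ (L q \ L 0)) (v (p + 1)) (v q) := by
  have hpl' : p ≤ l := hpl.le
  have hql : q ≤ l := by omega
  have hqsub : L q ⊆ L p := hS.subset hqp hpl'
  have ha : v l ∈ (L p)ᶜ := mem_compl.mpr (mem_sdiff.mp (hS.mem_seg hpl le_rfl le_rfl)).2
  have hb : v 1 ∉ (L p)ᶜ := fun h => (mem_compl.mp h)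
    (hS.subset (by omega : 1 ≤ p) hpl' (hS.mem 1 hl))
  have hab : v l ≠ v 1 := fun h => hb (h ▸ ha)
  have hp1 : v (p + 1) ∈ L l \ L p := hS.mem_seg (Nat.lt_succ_self p) hpl le_rfl
  have hvq : v q ∈ L q \ L 0 := hS.mem_seg hq1 le_rfl hql
  have hp1Y : v (p + 1) ∈ (L p)ᶜ := mem_compl.mpr (mem_sdiff.mp hp1).2
  have hvqY : v q ∉ (L p)ᶜ := fun h => (mem_compl.mp h) (hqsub (mem_sdiff.mp hvq).1)
  have hT1 : ∀ X ⊆ (L l \ L p) ∪ (L q \ L 0), X ∩ (L p)ᶜ ⊆ L l \ L p := by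
    intro X hX y hy
    rw [mem_inter, mem_compl] at hy
    rcases mem_union.mp (hX hy.1) with h | h
    · exact h
    · exact absurd (hqsub (mem_sdiff.mp h).1) hy.2
  have hT2 : ∀ X ⊆ (L l \ L p) ∪ (L q \ L 0), X \ (L p)ᶜ ⊆ L q \ L 0 := by
    intro X hX y hy
    rw [mem_sdiff, mem_compl, not_not] at hy
    rcases mem_union.mp (hX hy.1) with h | h
    · exact absurd hy.2 (mem_sdiff.mp h).2
    · exact h
  have hsum : ∀ X : Finset ι, ∑ y ∈ X ∩ (L p)ᶜ, c y + ∑ y ∈ X \ (L p)ᶜ, c y = ∑ y ∈ X, c y :=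
    fun X => sum_inter_add_sum_sdiff X (L p)ᶜ c
  have hsubY : ∀ X ⊆ (L l \ L p) ∪ (L q \ L 0), X ⊆ (L p)ᶜ → X ⊆ L l \ L p := by
    intro X hX hY y hy
    exact hT1 X hX (mem_inter.mpr ⟨hy, hY hy⟩)
  have hdisY : ∀ X ⊆ (L l \ L p) ∪ (L q \ L 0), Disjoint X (L p)ᶜ → X ⊆ L q \ L 0 := by
    intro X hX hY y hy
    exact hT2 X hX (mem_sdiff.mpr ⟨hy, disjoint_left.mp hY hy⟩)
  refine ⟨forest_of_acyclic (reglue_acyclic hC.tree.isAcyclic ha hb) _, ?_, mem_union_left _ hp1,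
    mem_union_right _ hvq, ?_, ?_, ?_, ?_, ?_⟩
  · rw [← card_univ]
    refine card_lt_card (ssubset_univ_iff.mpr fun h => ?_)
    have h3 : v 0 ∈ (L l \ L p) ∪ (L q \ L 0) := h ▸ mem_univ _
    have h0 : v 0 ∈ L 0 := hS.mem 0 (Nat.zero_le l)
    rcases mem_union.mp h3 with h4 | h4
    · exact (mem_sdiff.mp h4).2 (hS.subset (Nat.zero_le p) hpl' h0)
    · exact (mem_sdiff.mp h4).2 h0
  · intro X hX hXc
    rcases conn_reglue ha hb hXc with h | ⟨i1, i2, i3, i4⟩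
    · exact hC.min X h.1
    · obtain ⟨r, r1, r2, r3, r4⟩ := hS.first le_rfl (hT1 X hX) i3 hpl (mem_inter.mpr ⟨i1, ha⟩)
      obtain ⟨t, t1, t2, t3, t4⟩ := hS.last hql (hT2 X hX) i4 (by omega : 0 < q)
        (mem_sdiff.mpr ⟨i2, hb⟩)
      have j1 := hS.seg_le hC r2 le_rfl r4 i3 r3 (mem_inter.mpr ⟨i1, ha⟩)
      have j2 := hS.seg_le hC t1 (by omega) t4 i4 (mem_sdiff.mpr ⟨i2, hb⟩) t3
      have j3 := hsum X
      have j4 := hS.x_ge hC (by omega : t ≤ l)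
      have j5 := hS.x_le hC (by omega : r ≤ l)
      linarith
  · intro X hX hXc hu hv
    rcases conn_reglue ha hb hXc with ⟨i1, i2 | i2⟩ | ⟨i1, i2, i3, i4⟩
    · have hX' := hsubY X hX i2
      obtain ⟨t, t1, t2, t3, t4⟩ := hS.last le_rfl hX' i1 hpl hu
      refine ⟨t, t1, by omega, ?_⟩
      rw [xt_of_le hl _ t2, xt_of_le hl _ hpl']
      have h3 := hS.seg_le hC t1 t2 t4 i1 hu t3
      linarith
    · exact absurd hp1Y (disjoint_left.mp i2 hu)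
    · have j1 := hS.seg_le hC hpl le_rfl (hT1 X hX) i3 (mem_inter.mpr ⟨hu, hp1Y⟩)
        (mem_inter.mpr ⟨i1, ha⟩)
      obtain ⟨t, t1, t2, t3, t4⟩ := hS.last hql (hT2 X hX) i4 (by omega : 0 < q)
        (mem_sdiff.mpr ⟨i2, hb⟩)
      have ht : t ≠ q := fun h => hv (h ▸ (mem_sdiff.mp t3).1)
      have j2 := hS.seg_le hC t1 (by omega) t4 i4 (mem_sdiff.mpr ⟨i2, hb⟩) t3
      have j3 := hsum X
      refine ⟨t + l, by omega, by omega, ?_⟩
      rw [xt_add hl, xt_of_le hl _ (by omega : t ≤ l), xt_of_le hl _ hpl']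
      linarith
  · intro X hX hXc hv hu
    rcases conn_reglue ha hb hXc with ⟨i1, i2 | i2⟩ | ⟨i1, i2, i3, i4⟩
    · exact absurd (i2 hv) hvqY
    · have hX' := hdisY X hX i2
      obtain ⟨t, t1, t2, t3, t4⟩ := hS.first hql hX' i1 (by omega : 0 < q) hv
      have h3 := hS.seg_le hC t2 hql t4 i1 t3 hv
      refine ⟨t + l, by omega, by omega, ?_⟩
      rw [xt_add hl, xt_add hl, xt_of_le hl _ (by omega : t ≤ l), xt_of_le hl _ hql]
      linarith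
    · have j1 := hS.seg_le hC (by omega : 0 < q) hql (hT2 X hX) i4 (mem_sdiff.mpr ⟨i2, hb⟩)
        (mem_sdiff.mpr ⟨hv, hvqY⟩)
      obtain ⟨r, r1, r2, r3, r4⟩ := hS.first le_rfl (hT1 X hX) i3 hpl (mem_inter.mpr ⟨i1, ha⟩)
      have hr : r ≠ p := fun h => hu (h ▸ (mem_inter.mp r3).1)
      have j2 := hS.seg_le hC r2 le_rfl r4 i3 r3 (mem_inter.mpr ⟨i1, ha⟩)
      have j3 := hsum X
      refine ⟨r, by omega, by omega, ?_⟩
      rw [xt_add hl, xt_of_le hl _ hql, xt_of_le hl _ r2.le]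
      linarith
  · intro X hX hXc hu hv
    rcases conn_reglue ha hb hXc with ⟨i1, i2 | i2⟩ | ⟨i1, i2, i3, i4⟩
    · exact absurd (i2 hv) hvqY
    · exact absurd hp1Y (disjoint_left.mp i2 hu)
    · have j1 := hS.seg_le hC (by omega : 0 < q) hql (hT2 X hX) i4 (mem_sdiff.mpr ⟨i2, hb⟩)
        (mem_sdiff.mpr ⟨hv, hvqY⟩)
      have j2 := hS.seg_le hC hpl le_rfl (hT1 X hX) i3 (mem_inter.mpr ⟨hu, hp1Y⟩)
        (mem_inter.mpr ⟨i1, ha⟩)
      have j3 := hsum X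
      rw [xt_add hl, xt_of_le hl _ hql, xt_of_le hl _ hpl']
      linarith
  · intro φ hφ b hbP hadj
    rw [Pt_add hl, Pt_of_le hl hP hql] at hbP
    rw [Pt_of_le hl hP hpl']
    have c1 : ColOn E W K (L q \ L 0) A (fun _ => ws) φ := by
      refine ⟨fun i hi j hj hij => ?_, fun i hi => hφ.2.1 i (mem_union_right _ hi),
        fun i hi => hφ.2.2 i (mem_union_right _ hi)⟩
      refine hφ.1 i (mem_union_right _ hi) j (mem_union_right _ hj) ?_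
      rw [reglue_adj K (L p)ᶜ hab]
      exact Or.inl ⟨hij, iff_of_false (fun h => (mem_compl.mp h) (hqsub (mem_sdiff.mp hi).1))
        (fun h => (mem_compl.mp h) (hqsub (mem_sdiff.mp hj).1))⟩
    have c2 : ColOn E W K (L l \ L p) A (fun _ => ws) φ := by
      refine ⟨fun i hi j hj hij => ?_, fun i hi => hφ.2.1 i (mem_union_left _ hi),
        fun i hi => hφ.2.2 i (mem_union_left _ hi)⟩
      refine hφ.1 i (mem_union_left _ hi) j (mem_union_left _ hj) ?_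
      rw [reglue_adj K (L p)ᶜ hab]
      exact Or.inl ⟨hij, iff_of_true (mem_compl.mpr (mem_sdiff.mp hi).2)
        (mem_compl.mpr (mem_sdiff.mp hj).2)⟩
    have c3 : φ (v (0 + 1)) ∈ PSt E W ws K A (L l)ᶜ (v (l + 1)) := by
      rw [← hP]
      exact hS.prop hE (by omega : 0 < q) hql c1 hbP hadj
    have c4 : E (φ (v l)) (φ (v (0 + 1))) := by
      refine hφ.1 _ (mem_union_left _ (hS.mem_seg hpl le_rfl le_rfl)) _
        (mem_union_right _ (hS.mem_seg (by omega : 0 < 0 + 1) hq1 hql)) ?_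
      rw [reglue_adj K (L p)ᶜ hab]
      exact Or.inr (Or.inl ⟨rfl, rfl⟩)
    exact hS.prop hE hpl le_rfl c2 c3 c4

theorem exists_win {E : V → V → Prop} {κ α α₁ ws : ℝ} {W : V → ℝ} {K : SimpleGraph ι}
    {A : ι → Finset V} {c : ι → ℝ} {l : ℕ} {v : ℕ → ι} {L : ℕ → Finset ι}
    (hS : Spine K l v L) (hE : ∀ a b, E a b → E b a) (hC : Core E κ α α₁ ws W K A c)
    (hl : 1 ≤ l)
    (hP : PSt E W ws K A (L 0)ᶜ (v (0 + 1)) = PSt E W ws K A (L l)ᶜ (v (l + 1)))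
    (hγ : ∑ y ∈ L 0, c y ≤ ∑ y ∈ L l, c y) {p p' : ℕ} (h1 : p < p') (h2 : p' ≤ p + l) :
    ∃ (G : SimpleGraph ι) (T : Finset ι) (u w : ι),
      Win E α₁ ws W A c (Fintype.card ι) (xt l fun i => α₁ + ∑ y ∈ L i, c y)
        (Pt l fun i => PSt E W ws K A (L i)ᶜ (v (i + 1))) p p' G T u w := by
  obtain ⟨m, p0, hp0, rfl⟩ : ∃ m p0, p0 < l ∧ p = p0 + m * l :=
    ⟨p / l, p % l, Nat.mod_lt _ hl, by rw [Nat.mul_comm]; exact (Nat.mod_add_div p l).symm⟩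
  obtain ⟨p1, rfl⟩ : ∃ p1, p' = p1 + m * l := ⟨p' - m * l, by omega⟩
  rcases Nat.lt_or_ge l p1 with h | h
  · obtain ⟨q, rfl⟩ : ∃ q, p1 = q + l := ⟨p1 - l, by omega⟩
    exact ⟨_, _, _, _, XWin_shift hl m (XWin_caseB hS hE hC hl hP hγ (by omega) (by omega) hp0)⟩
  · exact ⟨_, _, _, _, XWin_shift hl m (XWin_caseA hS hE hC hl hP (by omega) h)⟩

end Pool.MP_65847d_pr
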