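import Pool.Agent.Lib.MP_65847d_pr.X.XPart

/-!
# X/XWinCol : colouring a window with extra labels at both ends

`DL.cols` (with `k = Fintype.card ι`) for `g y = ∑_{a ∈ A y} (α₁ - W a) + (if y = u then ca else 0) + (if y = v then cb else 0)`, labels `A y ∪ (if y = u then La else ∅) ∪ (if y = v then Lb else ∅)`,
`l y = max (if y = u then lu else ws) (if y = v then lv else ws)`.
`cost`, `cost_lt`: for `w ≥ l y` the sum of `kap` over the union is at most the sum of the three sums; `kap α W w a = α - W a < α₁ - W a` for `a ∈ A y` (`W a < ws ≤ α`, `w ≥ ws`); if the total is positive, one of the three sums is positive and this one is strictly smaller than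
its bound. `lev`: for `G`-connected `X ⊆ T`: `ww α₁ g X = α₁ + c(X) - [u ∈ X] ca - [v ∈ X] cb` (`1 - α₁ - ∑_{a ∈ A y} (α₁ - W a) = c y`). If `u, v ∉ X`: `≥ ws` by `low`, and `l = ws` on `X`. If `u ∈ X`, `v ∉ X`: `left` and `h1`: `≥ lu ≥ l y`; symmetric; if both are in `X`: `both` and `h3`.
`kap_le`: `κ ≤ ws ≤ lu, lv`.
-/

set_option autoImplicit false

open Finset

namespace Pool.MP_65847d_pr

variable {ι V : Type*} [Fintype ι] [DecidableEq ι] [Fintype V]

theorem Win.col {E : V → V → Prop} (hE : ∀ a b, E a b → E b a) {κ α α₁ ws : ℝ} {W : V → ℝ}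
    {K : SimpleGraph ι} {A : ι → Finset V} {c : ι → ℝ} (hC : Core E κ α α₁ ws W K A c)
    (hV : Nonempty V) {x : ℕ → ℝ} {P : ℕ → Set V} {p p' : ℕ} {G : SimpleGraph ι} {T : Finset ι}
    {u v : ι} (hW : Win E α₁ ws W A c (Fintype.card ι) x P p p' G T u v) {La Lb : Finset V}
    {ca cb lu lv : ℝ} (hca : 0 ≤ ca) (hcb : 0 ≤ cb) (hlu : ws ≤ lu) (hlv : ws ≤ lv)
    (hlu' : lu ≤ α) (hlv' : lv ≤ α)
    (ha : ∀ w, lu ≤ w → ∑ a ∈ La, kap α W w a ≤ ca)
    (ha' : ∀ w, lu ≤ w → 0 < ∑ a ∈ La, kap α W w a → ∑ a ∈ La, kap α W w a < ca)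
    (hb : ∀ w, lv ≤ w → ∑ a ∈ Lb, kap α W w a ≤ cb)
    (hb' : ∀ w, lv ≤ w → 0 < ∑ a ∈ Lb, kap α W w a → ∑ a ∈ Lb, kap α W w a < cb)
    (h1 : ∀ s, p < s → s < p' → lu ≤ α₁ + (x s - x p) - ca)
    (h2 : ∀ r, p < r → r < p' → lv ≤ α₁ + (x p' - x r) - cb)
    (h3 : lu ≤ α₁ + (x p' - x p) - ca - cb) (h3' : lv ≤ α₁ + (x p' - x p) - ca - cb) :
    ∃ φ : ι → V, ColOn E W G T A (fun _ => ws) φ ∧ lu ≤ W (φ u) ∧ lv ≤ W (φ v) ∧
      (∀ a ∈ La, E (φ u) a) ∧ ∀ b ∈ Lb, E (φ v) b := by
  classical
  have hws : ws ≤ α := hC.ws_le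
  have hαα : α < α₁ := hC.lt
  set g : ι → ℝ := fun y => ∑ a ∈ A y, (α₁ - W a) + (if y = u then ca else 0) +
    (if y = v then cb else 0) with hg
  set B : ι → Finset V := fun y => A y ∪ (if y = u then La else ∅) ∪ (if y = v then Lb else ∅)
    with hB
  set l : ι → ℝ := fun y => max (if y = u then lu else ws) (if y = v then lv else ws) with hl
  have hwl : ∀ y, ws ≤ l y := by
    intro y
    refine le_trans ?_ (le_max_left _ _)
    split_ifs
    · exact hlu
    · exact le_rfl
  have hlu2 : lu ≤ l u := by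
    refine le_trans ?_ (le_max_left _ _)
    rw [if_pos rfl]
  have hlv2 : lv ≤ l v := by
    refine le_trans ?_ (le_max_right _ _)
    rw [if_pos rfl]
  have kap0 : ∀ w a, 0 ≤ kap α W w a := fun w a => le_max_left _ _
  -- the three sums
  have s1 : ∀ y w, l y ≤ w → ∑ a ∈ A y, kap α W w a ≤ ∑ a ∈ A y, (α₁ - W a) := by
    intro y w hw
    refine Finset.sum_le_sum fun a ha1 => ?_
    have h4 := hC.lab y a ha1
    have h5 : W a ≤ w := by linarith [hwl y]
    unfold kap
    rw [min_eq_left h5]
    exact max_le (by linarith) (by linarith)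
  have s1' : ∀ y w, l y ≤ w → 0 < ∑ a ∈ A y, kap α W w a →
      ∑ a ∈ A y, kap α W w a < ∑ a ∈ A y, (α₁ - W a) := by
    intro y w hw hpos
    have hne : (A y).Nonempty := by
      rw [Finset.nonempty_iff_ne_empty]
      intro h0
      rw [h0, Finset.sum_empty] at hpos
      exact lt_irrefl _ hpos
    refine Finset.sum_lt_sum_of_nonempty hne fun a ha1 => ?_
    have h4 := hC.lab y a ha1
    have h5 : W a ≤ w := by linarith [hwl y]
    unfold kap
    rw [min_eq_left h5]
    exact max_lt (by linarith) (by linarith)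
  have s2 : ∀ y w, l y ≤ w → ∑ a ∈ (if y = u then La else ∅), kap α W w a ≤
      (if y = u then ca else 0) := by
    intro y w hw
    by_cases hy : y = u
    · subst hy
      rw [if_pos rfl, if_pos rfl]
      exact ha w (le_trans hlu2 hw)
    · rw [if_neg hy, if_neg hy, Finset.sum_empty]
  have s2' : ∀ y w, l y ≤ w → 0 < ∑ a ∈ (if y = u then La else ∅), kap α W w a →
      ∑ a ∈ (if y = u then La else ∅), kap α W w a < (if y = u then ca else 0) := by
    intro y w hw hpos
    by_cases hy : y = u
    · subst hy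
      rw [if_pos rfl] at hpos ⊢
      rw [if_pos rfl]
      exact ha' w (le_trans hlu2 hw) hpos
    · rw [if_neg hy, Finset.sum_empty] at hpos
      exact absurd hpos (lt_irrefl _)
  have s3 : ∀ y w, l y ≤ w → ∑ a ∈ (if y = v then Lb else ∅), kap α W w a ≤
      (if y = v then cb else 0) := by
    intro y w hw
    by_cases hy : y = v
    · subst hy
      rw [if_pos rfl, if_pos rfl]
      exact hb w (le_trans hlv2 hw)
    · rw [if_neg hy, if_neg hy, Finset.sum_empty]
  have s3' : ∀ y w, l y ≤ w → 0 < ∑ a ∈ (if y = v then Lb else ∅), kap α W w a →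
      ∑ a ∈ (if y = v then Lb else ∅), kap α W w a < (if y = v then cb else 0) := by
    intro y w hw hpos
    by_cases hy : y = v
    · subst hy
      rw [if_pos rfl] at hpos ⊢
      rw [if_pos rfl]
      exact hb' w (le_trans hlv2 hw) hpos
    · rw [if_neg hy, Finset.sum_empty] at hpos
      exact absurd hpos (lt_irrefl _)
  have hun : ∀ (S S' : Finset V) w, ∑ a ∈ S ∪ S', kap α W w a ≤
      ∑ a ∈ S, kap α W w a + ∑ a ∈ S', kap α W w a := by
    intro S S' w
    have h4 := Finset.sum_union_inter (s₁ := S) (s₂ := S') (f := fun a => kap α W w a)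
    have h5 : 0 ≤ ∑ a ∈ S ∩ S', kap α W w a := Finset.sum_nonneg fun a _ => kap0 w a
    linarith
  have htot : ∀ y w, ∑ a ∈ B y, kap α W w a ≤ ∑ a ∈ A y, kap α W w a +
      ∑ a ∈ (if y = u then La else ∅), kap α W w a +
      ∑ a ∈ (if y = v then Lb else ∅), kap α W w a := by
    intro y w
    have h4 := hun (A y ∪ (if y = u then La else ∅)) (if y = v then Lb else ∅) w
    have h5 := hun (A y) (if y = u then La else ∅) w
    linarith
  -- the weights
  have hww : ∀ X : Finset ι, ww α₁ g X = α₁ + ∑ y ∈ X, c y - (if u ∈ X then ca else 0) -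
      (if v ∈ X then cb else 0) := by
    intro X
    have h4 : ∀ y ∈ X, 1 - α₁ - g y = c y - (if y = u then ca else 0) -
        (if y = v then cb else 0) := by
      intro y _
      rw [hC.c_eq y, hg]
      ring
    unfold ww
    rw [Finset.sum_congr rfl h4, Finset.sum_sub_distrib, Finset.sum_sub_distrib,
      Finset.sum_ite_eq' X u (fun _ => ca), Finset.sum_ite_eq' X v (fun _ => cb)]
    ring
  have hlev : ∀ X ⊆ T, Conn G X → ∀ y ∈ X, l y ≤ ww α₁ g X := by
    intro X hX hXc y hy
    rw [hww X]
    by_cases hu : u ∈ X <;> by_cases hv : v ∈ X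
    · rw [if_pos hu, if_pos hv]
      have h4 := hW.both X hX hXc hu hv
      have h5 : l y ≤ max lu lv := by
        refine max_le ?_ ?_
        · split_ifs
          · exact le_max_left _ _
          · exact le_trans hlu (le_max_left _ _)
        · split_ifs
          · exact le_max_right _ _
          · exact le_trans hlv (le_max_right _ _)
      refine le_trans h5 (max_le ?_ ?_) <;> linarith
    · rw [if_pos hu, if_neg hv]
      obtain ⟨s, hs1, hs2, hs3⟩ := hW.left X hX hXc hu hv
      have h4 := h1 s hs1 hs2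
      have h5 : l y ≤ lu := by
        have hyv : y ≠ v := fun h => hv (h ▸ hy)
        refine max_le ?_ ?_
        · split_ifs
          · exact le_rfl
          · exact hlu
        · rw [if_neg hyv]
          exact hlu
      linarith
    · rw [if_neg hu, if_pos hv]
      obtain ⟨r, hr1, hr2, hr3⟩ := hW.right X hX hXc hv hu
      have h4 := h2 r hr1 hr2
      have h5 : l y ≤ lv := by
        have hyu : y ≠ u := fun h => hu (h ▸ hy)
        refine max_le ?_ ?_
        · rw [if_neg hyu]
          exact hlv
        · split_ifs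
          · exact le_rfl
          · exact hlv
      linarith
    · rw [if_neg hu, if_neg hv]
      have h4 := hW.low X hX hXc
      have hyv : y ≠ v := fun h => hv (h ▸ hy)
      have hyu : y ≠ u := fun h => hu (h ▸ hy)
      have h5 : l y ≤ ws := by
        refine max_le ?_ ?_
        · rw [if_neg hyu]
        · rw [if_neg hyv]
      linarith
  have hD : DL α α₁ κ W G T g B l := by
    refine ⟨?_, ?_, ?_, ?_, hlev, ?_⟩
    · intro y _
      have h4 : 0 ≤ ∑ a ∈ A y, (α₁ - W a) := by
        refine Finset.sum_nonneg fun a ha1 => ?_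
        have := hC.lab y a ha1
        linarith
      have h5 : 0 ≤ (if y = u then ca else 0) := by
        split_ifs
        · exact hca
        · exact le_rfl
      have h6 : 0 ≤ (if y = v then cb else 0) := by
        split_ifs
        · exact hcb
        · exact le_rfl
      simp only [hg]
      linarith
    · intro y _
      refine max_le ?_ ?_
      · split_ifs
        · exact hlu'
        · exact hws
      · split_ifs
        · exact hlv'
        · exact hws
    · intro y _ w hw
      have h4 := htot y w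
      have h5 := s1 y w hw
      have h6 := s2 y w hw
      have h7 := s3 y w hw
      simp only [hg]
      linarith
    · intro y _ w hw hpos
      have h4 := htot y w
      have h5 := s1 y w hw
      have h6 := s2 y w hw
      have h7 := s3 y w hw
      have h8 : 0 < ∑ a ∈ A y, kap α W w a ∨ 0 < ∑ a ∈ (if y = u then La else ∅), kap α W w a ∨
          0 < ∑ a ∈ (if y = v then Lb else ∅), kap α W w a := by
        by_contra hno
        push Not at hno
        obtain ⟨h9, h10, h11⟩ := hno
        linarith
      simp only [hg]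
      rcases h8 with h8 | h8 | h8
      · have := s1' y w hw h8
        linarith
      · have := s2' y w hw h8
        linarith
      · have := s3' y w hw h8
        linarith
    · intro X hX hXc
      obtain ⟨y, hy⟩ := hXc.nonempty
      have h4 := hlev X hX hXc y (by simpa using hy)
      have h5 := hC.le_ws
      have h6 := hwl y
      linarith
  obtain ⟨φ, hφ1, hφ2, hφ3⟩ := DL.cols hE hαα hC.le_one (le_trans hC.le_ws hws) hC.small hV
    hW.forest hW.card hD
  refine ⟨φ, ⟨hφ1, fun i hi => le_trans (hwl i) (hφ2 i hi), fun i hi a ha1 => hφ3 i hi a ?_⟩,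
    le_trans hlu2 (hφ2 u hW.mu), le_trans hlv2 (hφ2 v hW.mv), fun a ha1 => hφ3 u hW.mu a ?_,
    fun b hb1 => hφ3 v hW.mv b ?_⟩
  · simp only [hB]
    exact Finset.mem_union_left _ (Finset.mem_union_left _ ha1)
  · simp only [hB]
    refine Finset.mem_union_left _ (Finset.mem_union_right _ ?_)
    simpa using ha1
  · simp only [hB]
    refine Finset.mem_union_right _ ?_
    simpa using hb1

end Pool.MP_65847d_pr
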