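import Pool.Agent.Lib.MP_65847d_pr.X.XGain
import Pool.Agent.Lib.MP_65847d_pr.X.XWin
import Pool.Agent.Lib.MP_65847d_pr.X.XWinCol
import Pool.Agent.Lib.MP_65847d_pr.X.XSeq

/-!
# X/XNoRep : states do not repeat along a spine of a core

`x`, `P` as in `XWin`, `xt`, `Pt` their periodic extensions, `γ = x l - x 0 > 0` (`Spine.gain` with `r = 0`, `s = l`). `D`, `e`, `t` from `seq_lemma` for `xt`.
1. `D ≤ α₁ - ws`: for `i ≤ j`: `xt i - xt j = x (i % l) - x (j % l) - (j / l - i / l) γ ≤ α₁ - ws` (`x_ge`, `x_le`). `w1 := min (α₁ - D) α ≥ ws`.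
2. `Pt i` is nonempty and all its elements `b` have `W b ≥ ws` (`P_nonempty`, `P_ge`).
3. There is `b ∈ Pt t` with `W b ≥ w1`: take `b ∈ Pt t` with `W b` maximal (`V` finite) and suppose `W b < w1`. `exists_win` for `(t - l, t)` and `Win.col` with `La = ∅`, `ca = 0`, `Lb = {b}`, `cb = α₁ - W b`, `lu = min w1 (W b + γ)`, `lv = W b`:
   `hb`: for `w ≥ W b`: `kap α W w b = α - W b < α₁ - W b` (`W b < w1 ≤ α`). `h1`: `xt s - xt (t - l) ≥ -D`, so the right side is `≥ α₁ - D ≥ w1 ≥ lu`. `h2`: `W b ≤ W b + (xt t - xt r)`. `h3`, `h3'`: right side `= W b + γ`.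
   The colouring `φ` has `φ v` adjacent to `b ∈ Pt t`, so `φ u ∈ Pt (t - l) = Pt t` by `prop`, and `W (φ u) ≥ lu > W b`: contradiction.
4. `Q := {a | ws ≤ W a ∧ ∀ b ∈ Pt e, ¬ E a b}` is nonempty: `e₀ = e % l ≤ l`, `L e₀ ≠ univ`, colour it (`Core.part`), `a = φ (v e₀)` (`Spine.left_not`; `W a ≥ ws` since `v e₀ ∈ L e₀`).
   There is `a ∈ Q` with `W a ≥ w1`: take `a ∈ Q` with `W a` maximal and suppose `W a < w1`; window `(e, e + l)`, `La = {a}`, `ca = α₁ - W a`, `lu = W a`, `Lb = ∅`, `cb = 0`, `lv = min w1 (W a + γ)`. `h1`: `xt s > xt e`. `h2`: `xt (e + l) - xt r ≥ -D`. `h3`: `xt (e + l) - xt e = γ`.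
   `a' = φ v` has `W a' ≥ lv > W a` and `a' ∈ Q`: if it were adjacent to an element of `Pt e = Pt (e + l)` then `φ u ∈ Pt e` by `prop`, but `φ u` is adjacent to `a ∈ Q` (`E` symmetric).
5. Window `(e, t)` (`t ≤ e + l`), `La = {a}`, `Lb = {b}` from 3, 4, `lu = lv = w1`. If `α₁ - α ≤ D` then `w1 = α₁ - D`, `ca = cb = D`: for `w ≥ w1`: `kap α W w a ≤ α - w1 = D - (α₁ - α) < D`; `h1`: `w1 ≤ α₁ + (xt s - xt e) - D` as `xt s > xt e`; `h2` as `xt r < xt t`; `h3`: `α₁ + (D + γ) - 2 D ≥ w1`.
   If `D < α₁ - α` then `w1 = α`, `ca = cb = 0`: `kap α W w a = 0` for `w ≥ α`, `W a ≥ α`; `h1`-`h3`: `α ≤ α₁ + nonnegative`.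
   The colouring has `φ v` adjacent to `b ∈ Pt t`, so `φ u ∈ Pt e`, but `φ u` is adjacent to `a ∈ Q`. Contradiction.
-/

set_option autoImplicit false

open Finset

namespace Pool.MP_65847d_pr

variable {ι V : Type*} [Fintype ι] [DecidableEq ι] [Fintype V]

theorem Spine.no_repeat {E : V → V → Prop} {κ α α₁ ws : ℝ} {W : V → ℝ} {K : SimpleGraph ι}
    {A : ι → Finset V} {c : ι → ℝ} {l : ℕ} {v : ℕ → ι} {L : ℕ → Finset ι}
    (hS : Spine K l v L) (hE : ∀ a b, E a b → E b a) (hC : Core E κ α α₁ ws W K A c)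
    (hV : Nonempty V) (hl : 1 ≤ l)
    (hP : PSt E W ws K A (L 0)ᶜ (v (0 + 1)) = PSt E W ws K A (L l)ᶜ (v (l + 1))) : False := by
  have hα : α < α₁ := hC.lt
  have hwsα : ws ≤ α := hC.ws_le
  set x : ℕ → ℝ := fun i => α₁ + ∑ y ∈ L i, c y with hx
  set P : ℕ → Set V := fun i => PSt E W ws K A (L i)ᶜ (v (i + 1)) with hPdef
  have hgain : ∑ y ∈ L 0, c y < ∑ y ∈ L l, c y := hS.gain hE hC hV (by omega) le_rfl hP
  have hγ : 0 < x l - x 0 := by
    simp only [hx]; linarith
  set γ : ℝ := x l - x 0 with hγdef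
  set X : ℕ → ℝ := xt l x with hX
  set Pp : ℕ → Set V := Pt l P with hPp
  have hXadd : ∀ i, X (i + l) = X i + γ := fun i => xt_add hl x i
  have hPadd : ∀ i, Pp (i + l) = Pp i := fun i => Pt_add hl P i
  have hmod : ∀ i, i % l ≤ l := fun i => (Nat.mod_lt i (by omega)).le
  have hPp_eq : ∀ i, Pp i = P (i % l) := fun i => rfl
  obtain ⟨D, e, t, hD0, hD, ⟨i0, j0, hij0, hDij⟩, hle, het, htl, hte, he, ht⟩ :=
    seq_lemma X hl hγ hXadd
  have hxge : ∀ i, ws ≤ x (i % l) := fun i => hS.x_ge hC (hmod i)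
  have hxle : ∀ i, x (i % l) ≤ α₁ := fun i => by
    have := hS.x_le hC (hmod i)
    simp only [hx]; linarith
  have hDle : D ≤ α₁ - ws := by
    have e1 : X i0 = x (i0 % l) + ((i0 / l : ℕ) : ℝ) * γ := rfl
    have e2 : X j0 = x (j0 % l) + ((j0 / l : ℕ) : ℝ) * γ := rfl
    have e3 : ((i0 / l : ℕ) : ℝ) ≤ ((j0 / l : ℕ) : ℝ) := by
      exact_mod_cast Nat.div_le_div_right hij0
    have e4 := mul_le_mul_of_nonneg_right e3 hγ.le
    have e5 := hxle i0
    have e6 := hxge j0
    rw [e1, e2] at hDij
    linarith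
  set w1 : ℝ := min (α₁ - D) α with hw1
  have hw1a : w1 ≤ α₁ - D := min_le_left _ _
  have hw1b : w1 ≤ α := min_le_right _ _
  have hwsw1 : ws ≤ w1 := le_min (by linarith) hwsα
  have hPge : ∀ i, ∀ b ∈ Pp i, ws ≤ W b := fun i b hb => hS.P_ge (hmod i) hb
  have hPne : ∀ i, (Pp i).Nonempty := fun i => hS.P_nonempty hC hV (hmod i)
  have hwin : ∀ p p' : ℕ, p < p' → p' ≤ p + l → ∃ (G : SimpleGraph ι) (T : Finset ι) (u w : ι),
      Win E α₁ ws W A c (Fintype.card ι) X Pp p p' G T u w := fun p p' h1 h2 =>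
    exists_win hS hE hC hl hP hgain.le h1 h2
  -- step 3
  have step3 : ∃ b ∈ Pp t, w1 ≤ W b := by
    obtain ⟨b, hb, hbmax⟩ := Set.exists_max_image (Pp t) W (Set.toFinite _) (hPne t)
    by_contra hne
    push Not at hne
    have hbw : W b < w1 := hne b hb
    have hbws := hPge t b hb
    have htl' : t - l + l = t := by omega
    obtain ⟨G, T, u, w, hW⟩ := hwin (t - l) t (by omega) (by omega)
    have hXt : X t = X (t - l) + γ := by
      have := hXadd (t - l); rwa [htl'] at this
    have hkap : ∀ w', W b ≤ w' → kap α W w' b = α - W b := by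
      intro w' hw'
      unfold kap
      rw [min_eq_left hw']
      exact max_eq_right (by linarith)
    obtain ⟨φ, hφ, h1, h2, -, h4⟩ := Win.col hE hC hV hW (La := ∅) (Lb := {b}) (ca := 0)
      (cb := α₁ - W b) (lu := min w1 (W b + γ)) (lv := W b) le_rfl (by linarith)
      (le_min hwsw1 (by linarith)) hbws ((min_le_left _ _).trans hw1b) (by linarith)
      (fun w' _ => by simp) (fun w' _ h => by simp at h)
      (fun w' hw' => by rw [Finset.sum_singleton, hkap w' hw']; linarith)
      (fun w' hw' _ => by rw [Finset.sum_singleton, hkap w' hw']; linarith)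
      (fun s hs1 hs2 => by
        have := hD (t - l) s hs1.le
        have := min_le_left w1 (W b + γ)
        linarith)
      (fun r hr1 hr2 => by
        have := ht r hr1.le hr2
        linarith)
      (by
        have := min_le_right w1 (W b + γ)
        linarith)
      (by linarith)
    have h5 := hW.prop φ hφ b hb (h4 b (Finset.mem_singleton_self b))
    have h6 : Pp t = Pp (t - l) := by
      have := hPadd (t - l); rwa [htl'] at this
    rw [← h6] at h5
    have h7 := hbmax _ h5
    have h8 : W b < min w1 (W b + γ) := lt_min hbw (by linarith)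
    linarith
  -- step 4
  have step4 : ∃ a, ws ≤ W a ∧ (∀ b ∈ Pp e, ¬ E a b) ∧ w1 ≤ W a := by
    set Q : Set V := {a | ws ≤ W a ∧ ∀ b ∈ Pp e, ¬ E a b} with hQ
    have hQne : Q.Nonempty := by
      have hne : L (e % l) ≠ univ := by
        intro h
        have := hS.notMem (e % l) (hmod e)
        rw [h] at this
        exact this (mem_univ _)
      obtain ⟨φ, hφ⟩ := hC.part hV hne
      refine ⟨φ (v (e % l)), hφ.2.1 _ (hS.mem _ (hmod e)), fun b hb => ?_⟩
      exact hS.left_not hE hC (hmod e) hφ hb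
    obtain ⟨a, ha, hamax⟩ := Set.exists_max_image Q W (Set.toFinite _) hQne
    refine ⟨a, ha.1, ha.2, ?_⟩
    by_contra hne
    push Not at hne
    have hkap : ∀ w', W a ≤ w' → kap α W w' a = α - W a := by
      intro w' hw'
      unfold kap
      rw [min_eq_left hw']
      exact max_eq_right (by linarith)
    obtain ⟨G, T, u, w, hW⟩ := hwin e (e + l) (by omega) le_rfl
    have hXe := hXadd e
    have haws := ha.1
    obtain ⟨φ, hφ, h1, h2, h3, -⟩ := Win.col hE hC hV hW (La := {a}) (Lb := ∅) (ca := α₁ - W a)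
      (cb := 0) (lu := W a) (lv := min w1 (W a + γ)) (by linarith) le_rfl haws
      (le_min hwsw1 (by linarith)) (by linarith) ((min_le_left _ _).trans hw1b)
      (fun w' hw' => by rw [Finset.sum_singleton, hkap w' hw']; linarith)
      (fun w' hw' _ => by rw [Finset.sum_singleton, hkap w' hw']; linarith)
      (fun w' _ => by simp) (fun w' _ h => by simp at h)
      (fun s hs1 hs2 => by
        have := he s hs1 hs2.le
        linarith)
      (fun r hr1 hr2 => by
        have := hD r (e + l) hr2.le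
        have := min_le_left w1 (W a + γ)
        linarith)
      (by linarith)
      (by
        have := min_le_right w1 (W a + γ)
        linarith)
    have h5 : φ w ∈ Q := by
      refine ⟨le_trans (le_min hwsw1 (by linarith)) h2, fun b hb hadj => ?_⟩
      have h6 := hW.prop φ hφ b (by rw [hPadd]; exact hb) hadj
      exact ha.2 _ h6 (hE _ _ (h3 a (Finset.mem_singleton_self a)))
    have h7 := hamax _ h5
    have h8 : W a < min w1 (W a + γ) := lt_min hne (by linarith)
    linarith
  obtain ⟨b, hb, hbw⟩ := step3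
  obtain ⟨a, ha1, ha2, haw⟩ := step4
  obtain ⟨G, T, u, w, hW⟩ := hwin e t het htl
  -- step 5
  have final : ∃ φ : ι → V, ColOn E W G T A (fun _ => ws) φ ∧ w1 ≤ W (φ u) ∧ w1 ≤ W (φ w) ∧
      (∀ a' ∈ ({a} : Finset V), E (φ u) a') ∧ ∀ b' ∈ ({b} : Finset V), E (φ w) b' := by
    rcases le_or_gt (α₁ - α) D with hcase | hcase
    · have hw1' : w1 = α₁ - D := min_eq_left (by linarith)
      have hk : ∀ z, w1 ≤ W z → ∀ w', w1 ≤ w' → kap α W w' z ≤ D - (α₁ - α) := by
        intro z hz w' hw'
        unfold kap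
        refine max_le (by linarith) ?_
        have := le_min hz hw'
        linarith
      exact Win.col hE hC hV hW (La := {a}) (Lb := {b}) (ca := D) (cb := D) (lu := w1) (lv := w1)
        hD0 hD0 hwsw1 hwsw1 hw1b hw1b
        (fun w' hw' => by
          rw [Finset.sum_singleton]; have := hk a haw w' hw'; linarith)
        (fun w' hw' _ => by
          rw [Finset.sum_singleton]; have := hk a haw w' hw'; linarith)
        (fun w' hw' => by
          rw [Finset.sum_singleton]; have := hk b hbw w' hw'; linarith)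
        (fun w' hw' _ => by
          rw [Finset.sum_singleton]; have := hk b hbw w' hw'; linarith)
        (fun s hs1 hs2 => by
          have := he s hs1 (by omega)
          linarith)
        (fun r hr1 hr2 => by
          have := ht r (by omega) hr2
          linarith)
        (by linarith) (by linarith)
    · have hw1' : w1 = α := min_eq_right (by linarith)
      have hk : ∀ z, w1 ≤ W z → ∀ w', w1 ≤ w' → kap α W w' z = 0 := by
        intro z hz w' hw'
        unfold kap
        refine max_eq_left ?_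
        have := le_min hz hw'
        linarith
      exact Win.col hE hC hV hW (La := {a}) (Lb := {b}) (ca := 0) (cb := 0) (lu := w1) (lv := w1)
        le_rfl le_rfl hwsw1 hwsw1 hw1b hw1b
        (fun w' hw' => by
          rw [Finset.sum_singleton]; have := hk a haw w' hw'; linarith)
        (fun w' hw' h => by
          rw [Finset.sum_singleton] at h; have := hk a haw w' hw'; linarith)
        (fun w' hw' => by
          rw [Finset.sum_singleton]; have := hk b hbw w' hw'; linarith)
        (fun w' hw' h => by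
          rw [Finset.sum_singleton] at h; have := hk b hbw w' hw'; linarith)
        (fun s hs1 hs2 => by
          have := he s hs1 (by omega)
          linarith)
        (fun r hr1 hr2 => by
          have := ht r (by omega) hr2
          linarith)
        (by linarith) (by linarith)
  obtain ⟨φ, hφ, -, -, h3, h4⟩ := final
  have h5 := hW.prop φ hφ b hb (h4 b (Finset.mem_singleton_self b))
  exact ha2 _ h5 (hE _ _ (h3 a (Finset.mem_singleton_self a)))

end Pool.MP_65847d_pr
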