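import Pool.Agent.Lib.MP_65847d_pr.X.XForest

/-!
# X/XPath : the cuts of a tree along a path form a spine
-/

set_option autoImplicit false

open Finset

namespace Pool.MP_65847d_pr

variable {ι : Type*} [Fintype ι] [DecidableEq ι]

theorem exists_spine {K : SimpleGraph ι} (hK : K.IsTree) {a b : ι} (p : K.Walk a b) (hp : p.IsPath)
    {l : ℕ} (hl : l + 1 = p.length) : ∃ L : ℕ → Finset ι, Spine K l p.getVert L := by
  have hadj : ∀ i ≤ l, K.Adj (p.getVert i) (p.getVert (i + 1)) := fun i hi =>
    p.adj_getVert_succ (by omega)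
  have hex : ∀ i, ∃ H : Finset ι, i ≤ l → IsCut K (p.getVert i) (p.getVert (i + 1)) H := by
    intro i
    by_cases h : i ≤ l
    · obtain ⟨H, hH⟩ := exists_cut hK (hadj i h)
      exact ⟨H, fun _ => hH⟩
    · exact ⟨∅, fun h' => absurd h' h⟩
  choose H hH using hex
  have hcross : ∀ i ≤ l, ∀ x ∈ (H i)ᶜ, ∀ y ∉ (H i)ᶜ, K.Adj x y →
      x = p.getVert i ∧ y = p.getVert (i + 1) := by
    intro i hi x hx y hy hxy
    have hx' : x ∉ H i := by simpa using hx
    have hy' : y ∈ H i := by simpa using hy
    obtain ⟨h1, h2⟩ := (hH i hi).cross y hy' x hx' hxy.symm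
    exact ⟨h2, h1⟩
  refine ⟨fun i => (H i)ᶜ, ?_, ?_, hadj, ?_, ?_, hcross, ?_⟩
  · intro i hi
    simpa using (hH i hi).notMem
  · intro i hi
    simpa using (hH i hi).mem
  · intro i hi
    exact (hH i hi).connc
  · intro i hi
    simpa using (hH i hi).conn
  · intro i hi
    have hvi : p.getVert i ∈ (H (i + 1))ᶜ := by
      by_contra hc
      have hc' : p.getVert i ∈ H (i + 1) := by simpa using hc
      have h1 := (hH (i + 1) (by omega)).cross _ hc' _ (hH (i + 1) (by omega)).notMem
        (hadj i hi.le)
      have h2 := hp.getVert_injOn (show i ∈ {j | j ≤ p.length} by simp; omega)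
        (show i + 1 + 1 ∈ {j | j ≤ p.length} by simp; omega) h1.1
      omega
    intro z hz
    by_contra hzc
    have := conn_cut (hH i hi.le).connc (H (i + 1))ᶜ (a := p.getVert (i + 1))
      (b := p.getVert (i + 1 + 1)) (by
        intro x _ hxY y _ hyY hxy
        exact hcross (i + 1) (by omega) x hxY y hyY hxy)
      ⟨p.getVert i, by simpa using (hH i hi.le).notMem, hvi⟩ ⟨z, hz, hzc⟩
    have h3 := this.1
    rw [mem_compl] at h3
    exact h3 (hH i hi.le).mem

theorem Spine.shift {K : SimpleGraph ι} {l : ℕ} {v : ℕ → ι} {L : ℕ → Finset ι}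
    (hS : Spine K l v L) {i j : ℕ} (hij : i ≤ j) (hj : j ≤ l) :
    Spine K (j - i) (fun t => v (i + t)) (fun t => L (i + t)) := by
  refine ⟨?_, ?_, ?_, ?_, ?_, ?_, ?_⟩
  · intro t ht
    exact hS.mem (i + t) (by omega)
  · intro t ht
    exact hS.notMem (i + t) (by omega)
  · intro t ht
    exact hS.adj (i + t) (by omega)
  · intro t ht
    exact hS.conn (i + t) (by omega)
  · intro t ht
    exact hS.connc (i + t) (by omega)
  · intro t ht
    exact hS.cross (i + t) (by omega)
  · intro t ht
    exact hS.mono (i + t) (by omega)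

open Classical in
theorem card_le_pow {K : SimpleGraph ι} (hK : K.Connected) {Δ D : ℕ}
    (hdeg : ∀ y, (univ.filter fun z => K.Adj y z).card ≤ Δ)
    (hpath : ∀ (a b : ι) (p : K.Walk a b), p.IsPath → p.length ≤ D) :
    Fintype.card ι ≤ (1 + Δ) ^ D := by
  obtain ⟨a⟩ := hK.nonempty
  let B : ℕ → Finset ι := fun n => Nat.rec {a}
    (fun _ S => S ∪ S.biUnion (fun x => univ.filter fun z => K.Adj x z)) n
  have hB0 : B 0 = {a} := rfl
  have hBs : ∀ n, B (n + 1) = B n ∪ (B n).biUnion (fun x => univ.filter fun z => K.Adj x z) :=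
    fun n => rfl
  have hcard : ∀ n, (B n).card ≤ (1 + Δ) ^ n := by
    intro n
    induction n with
    | zero => rw [hB0]; simp
    | succ n ih =>
      rw [hBs]
      calc _ ≤ (B n).card + ((B n).biUnion (fun x => univ.filter fun z => K.Adj x z)).card :=
            card_union_le _ _
        _ ≤ (B n).card + (B n).card * Δ := by
            gcongr
            exact card_biUnion_le_card_mul _ _ _ (fun x _ => hdeg x)
        _ = (B n).card * (1 + Δ) := by ring
        _ ≤ (1 + Δ) ^ n * (1 + Δ) := by gcongr
        _ = (1 + Δ) ^ (n + 1) := by ring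
  have hmono : Monotone B := monotone_nat_of_le_succ (fun n => by
    rw [hBs]; exact subset_union_left)
  have hreach : ∀ (x b : ι) (w : K.Walk x b) (n : ℕ), x ∈ B n → b ∈ B (n + w.length) := by
    intro x b w
    induction w with
    | nil => intro n hn; simpa using hn
    | @cons u v w hadj q ih =>
      intro n hn
      have h1 : v ∈ B (n + 1) := by
        rw [hBs]
        exact mem_union_right _ (mem_biUnion.2 ⟨u, hn, by simpa using hadj⟩)
      have h2 := ih (n + 1) h1
      rw [SimpleGraph.Walk.length_cons]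
      rwa [show n + (q.length + 1) = n + 1 + q.length by ring]
  have hall : B D = univ := by
    apply Finset.eq_univ_of_forall
    intro b
    obtain ⟨w⟩ := hK.preconnected a b
    have h1 := hreach a b w.toPath.1 0 (by rw [hB0]; exact mem_singleton_self a)
    have h2 := hpath a b w.toPath.1 w.toPath.2
    exact hmono (by omega) h1
  calc Fintype.card ι = (B D).card := by rw [hall, card_univ]
    _ ≤ _ := hcard D

end Pool.MP_65847d_pr
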