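import Pool.Agent.Lib.MP_65847d_pr.X.XSmall

/-!
# X/XTight : a minimal violation gives a tight violation

Everything at `α` itself. Let `(w, K, A)` be a violation with `k` vertices and `SmallOK E κ α W k`. `k ≥ 1` (for `k = 0` `Colours` is trivially true).
1. `ws`: the smallest element of the closed set `{w' ∈ [w, 1] | ∃ U connected, wgt α W w' A U ≤ w'}` (contains `1`, singletons). So `w < ws`, `w' < wgt α W w' A U` for `w' ∈ [w, ws)` and connected `U`, `ws ≤ wgt α W ws A U`, with equality for some `U`. `¬ Colours E W w' K A` for all `w' ≥ w`.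
2. If `α < ws`: `k = 1`. Otherwise `k ≥ 2`; for every vertex `y` apply `SmallOK` (`m = 1`) at a level `w' ∈ [max w α, ws)` to the one-vertex tree with the labels `A y ∪ {a | w' ≤ W a}` (the new labels are free as `w' ≥ α`), which gives a colouring of `K` at the level `w'`
   (any two colours obtained are adjacent). With `k = 1`: `K` is a tree, the equality holds for `U = univ`.
3. If `ws ≤ α`: let `U` be maximal (by cardinality) among the connected sets with `wgt α W ws A U = ws`. Claim `U = univ`.
   Labels of `U`: for `w' ∈ [w, ws)`: `kap α W w' a ≥ kap α W ws a` and `= kap α W ws a + (ws - w')` if `W a ≥ ws` (`w' < ws ≤ α`); a label of `U` with `W a ≥ ws` would give `w' < wgt α W w' A U ≤ ws - (ws - w') = w'`. So all labels of `U` have `W a < ws`.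
   Suppose `U ≠ univ`. Choose `w' ∈ [w, ws)` so close to `ws` that no `W a` is in `[w', ws)`, and that `wgt α W w' A X - (α - w') > w'` for all connected `X ⊆ univ \ U` which are joined to `U` by an edge: possible by continuity since `wgt α W ws A X - (α - ws) = wgt α W ws A (X ∪ U) > ws` (`X ∪ U` is connected and larger than `U`; `wgt` is
   `α +` sum over disjoint sets). `SmallOK.cols` at the level `w'` for `U` (`K` is rich at `w'`, `U` has fewer than `k` elements) gives `h` on `U` with `W (h z) ≥ w'`, hence `≥ ws`. Then `SmallOK.cols` at the level `w'` for `univ \ U` with the labels `A y ∪ {h z | z ∈ U adjacent to y}`: `kap α W w' (h z) = α - w'`, a connected `X` is joined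
   to `U` by at most one edge (`Forest.unique_edge`). Together a colouring of `K` at the level `w' ≥ w` (`E` symmetric). Contradiction.
   So `K` is connected, `wgt α W ws A univ = ws`, all labels have `W a < ws`.
-/

set_option autoImplicit false

open Finset

namespace Pool.MP_65847d_pr

private lemma tt_kap_nonneg {V : Type*} (α : ℝ) (W : V → ℝ) (w : ℝ) (a : V) : 0 ≤ kap α W w a :=
  le_max_left _ _

private lemma tt_kap_anti {V : Type*} (α : ℝ) (W : V → ℝ) {w w' : ℝ} (h : w ≤ w') (a : V) :
    kap α W w' a ≤ kap α W w a := by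
  unfold kap
  refine max_le_max le_rfl ?_
  have := min_le_min_left (W a) h
  linarith

private lemma tt_wgt_mono {V ι : Type*} (α : ℝ) (W : V → ℝ) (A : ι → Finset V) (U : Finset ι)
    {w w' : ℝ} (h : w ≤ w') : wgt α W w A U ≤ wgt α W w' A U := by
  unfold wgt
  have : ∑ y ∈ U, (1 - α - ∑ a ∈ A y, kap α W w a) ≤
      ∑ y ∈ U, (1 - α - ∑ a ∈ A y, kap α W w' a) := by
    refine Finset.sum_le_sum fun y _ => ?_
    have := Finset.sum_le_sum (s := A y) (fun a _ => tt_kap_anti α W h a)
    linarith
  linarith

private lemma tt_wgt_cont {V ι : Type*} (α : ℝ) (W : V → ℝ) (A : ι → Finset V) (U : Finset ι) :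
    Continuous fun w => wgt α W w A U := by
  unfold wgt kap
  fun_prop

private lemma tt_conn_univ {k : ℕ} {K : SimpleGraph (Fin k)} (h : Conn K univ) : K.Connected := by
  unfold Conn at h
  rw [Finset.coe_univ] at h
  exact (SimpleGraph.induceUnivIso K).connected_iff.1 h

private lemma tt_single {V : Type*} {α : ℝ} {W : V → ℝ} {w : ℝ} {k : ℕ} {A : Fin k → Finset V}
    (y : Fin k) : wgt α W w A {y} = 1 - ∑ a ∈ A y, kap α W w a := by
  unfold wgt; rw [Finset.sum_singleton]; ring

private lemma tt_one {V : Type*} [Fintype V] [Nonempty V] {E : V → V → Prop} {κ α : ℝ}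
    {W : V → ℝ} {k : ℕ} (hS : SmallOK E κ α W k) {w' : ℝ} (hκw : κ ≤ w') (hα : α ≤ w')
    {K : SimpleGraph (Fin k)} {A : Fin k → Finset V} (hk : 1 < k)
    (h : ∀ y, w' < wgt α W w' A {y}) : Colours E W w' K A := by
  classical
  have key : ∀ y, ∃ c : V, w' ≤ W c ∧ (∀ a ∈ A y, E c a) ∧ ∀ a, w' ≤ W a → E c a := by
    intro y
    set F : Finset V := univ.filter (fun a => w' ≤ W a) with hF
    have hrich : Rich α W w' (⊥ : SimpleGraph (Fin 1)) (fun _ => A y ∪ F) := by
      intro U hU
      have hUne : U.Nonempty := by
        obtain ⟨⟨x, hx⟩⟩ := hU.nonempty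
        exact ⟨x, hx⟩
      have hU1 : U = {0} := by
        obtain ⟨x, hx⟩ := hUne
        ext z
        constructor
        · intro _; rw [Finset.mem_singleton]; exact Subsingleton.elim _ _
        · intro _; rwa [Subsingleton.elim z x]
      subst hU1
      rw [tt_single]
      have h1 : ∑ a ∈ A y ∪ F, kap α W w' a ≤ ∑ a ∈ A y, kap α W w' a + ∑ a ∈ F, kap α W w' a := by
        rw [← Finset.sum_union_inter]
        have : 0 ≤ ∑ a ∈ A y ∩ F, kap α W w' a := Finset.sum_nonneg fun a _ => le_max_left _ _
        linarith
      have h2 : ∑ a ∈ F, kap α W w' a = 0 := by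
        refine Finset.sum_eq_zero fun a ha => ?_
        rw [hF, Finset.mem_filter] at ha
        unfold kap
        rw [min_eq_right ha.2]
        exact max_eq_left (by linarith)
      have h4 := h y
      rw [tt_single] at h4
      linarith
    obtain ⟨φ, -, h2, h3⟩ := hS w' hκw 1 hk ⊥ (fun _ => A y ∪ F) SimpleGraph.isAcyclic_bot hrich
    refine ⟨φ 0, h2 0, fun a ha => h3 0 a (Finset.mem_union_left _ ha), fun a ha => ?_⟩
    exact h3 0 a (Finset.mem_union_right _ (by rw [hF, Finset.mem_filter]; exact ⟨mem_univ _, ha⟩))
  choose φ hφ using key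
  exact ⟨φ, fun i j _ => (hφ i).2.2 _ (hφ j).1, fun i => (hφ i).1, fun i a ha => (hφ i).2.1 a ha⟩

theorem tight_of_min {V : Type*} [Fintype V] [Nonempty V] {E : V → V → Prop}
    (hE : ∀ a b, E a b → E b a) {κ α : ℝ} (hα0 : 0 < α) (hα1 : α < 1) (hκ : κ ≤ α) {W : V → ℝ}
    {k : ℕ} (hS : SmallOK E κ α W k) {w : ℝ} (hw : κ ≤ w) {K : SimpleGraph (Fin k)}
    {A : Fin k → Finset V} (hK : K.IsAcyclic) (hR : Rich α W w K A) (hC : ¬ Colours E W w K A) :
    ∃ ws : ℝ, Tight E κ α W K A ws := by
  classical
  have hk0 : k ≠ 0 := by
    rintro rfl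
    exact hC ⟨fun i => Fin.elim0 i, fun i => Fin.elim0 i, fun i => Fin.elim0 i, fun i => Fin.elim0 i⟩
  have : Nonempty (Fin k) := ⟨⟨0, Nat.pos_of_ne_zero hk0⟩⟩
  obtain ⟨y0⟩ := this
  have hcs : ∀ y : Fin k, Conn K {y} := fun y => conn_singleton K y
  have hsing : ∀ w' (y : Fin k), wgt α W w' A {y} ≤ 1 := by
    intro w' y
    rw [tt_single]
    have : 0 ≤ ∑ a ∈ A y, kap α W w' a := Finset.sum_nonneg fun a _ => tt_kap_nonneg _ _ _ _
    linarith
  have hw1 : w < 1 := lt_of_lt_of_le (hR {y0} (hcs y0)) (hsing w y0)
  have hnc : ∀ w', w ≤ w' → ¬ Colours E W w' K A := by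
    rintro w' hw' ⟨φ, h1, h2, h3⟩
    exact hC ⟨φ, h1, fun i => hw'.trans (h2 i), h3⟩
  -- the critical level
  set S : Set ℝ := ⋃ U : Finset (Fin k), {w' | w' ∈ Set.Icc w 1 ∧ Conn K U ∧ wgt α W w' A U ≤ w'}
    with hSdef
  have hScomp : IsCompact S := by
    refine isCompact_iUnion fun U => ?_
    by_cases hU : Conn K U
    · have : {w' | w' ∈ Set.Icc w 1 ∧ Conn K U ∧ wgt α W w' A U ≤ w'} =
          Set.Icc w 1 ∩ {w' | wgt α W w' A U ≤ w'} := by
        ext w'; simp [hU]
      rw [this]
      exact isCompact_Icc.inter_right (isClosed_le (tt_wgt_cont α W A U) continuous_id)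
    · have : {w' | w' ∈ Set.Icc w 1 ∧ Conn K U ∧ wgt α W w' A U ≤ w'} = ∅ := by
        ext w'; simp [hU]
      rw [this]
      exact isCompact_empty
  have hSne : S.Nonempty := ⟨1, Set.mem_iUnion.2 ⟨{y0}, ⟨hw1.le, le_rfl⟩, hcs y0, hsing 1 y0⟩⟩
  obtain ⟨ws, hwsS, hwsmin⟩ := hScomp.exists_isLeast hSne
  obtain ⟨U0, ⟨hwws, hws1⟩, hU0c, hU0⟩ := Set.mem_iUnion.1 hwsS
  have hbelow : ∀ w', w ≤ w' → w' < ws → ∀ U, Conn K U → w' < wgt α W w' A U := by
    intro w' h1 h2 U hU
    by_contra hne
    push Not at hne
    exact absurd (hwsmin (Set.mem_iUnion.2 ⟨U, ⟨h1, by linarith⟩, hU, hne⟩)) (not_le.2 h2)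
  have hlt : w < ws := by
    rcases hwws.eq_or_lt with h | h
    · exfalso
      rw [← h] at hU0
      exact absurd (hR U0 hU0c) (not_lt.2 hU0)
    · exact h
  have hge : ∀ U, Conn K U → ws ≤ wgt α W ws A U := by
    intro U hU
    refine le_of_forall_lt fun z hz => ?_
    rcases le_or_gt w z with h | h
    · exact (hbelow z h hz U hU).trans_le (tt_wgt_mono α W A U hz.le)
    · exact (h.trans (hbelow w le_rfl hlt U hU)).trans_le (tt_wgt_mono α W A U hlt.le)
  have hκws : κ < ws := lt_of_le_of_lt hw hlt
  rcases lt_or_ge α ws with hcase | hcase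
  · -- one vertex
    have hk1 : k = 1 := by
      by_contra hne
      have hm : max w α < ws := max_lt hlt hcase
      refine hnc (max w α) (le_max_left _ _) (tt_one hS (hw.trans (le_max_left _ _))
        (le_max_right _ _) (by omega) fun y => hbelow _ (le_max_left _ _) hm _ (hcs y))
    subst hk1
    have huniv : ∀ U : Finset (Fin 1), U.Nonempty → U = univ := by
      rintro U ⟨x, hx⟩
      ext z
      simp only [mem_univ, iff_true]
      rwa [Subsingleton.elim z x]
    have hU0u := huniv U0 hU0c.nonempty
    subst hU0u
    exact ⟨ws, ⟨tt_conn_univ hU0c, hK⟩, hκws, hws1, fun U hU => hge U hU,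
      le_antisymm hU0 (hge _ hU0c), hnc ws hlt.le, Or.inr ⟨hcase, rfl⟩⟩
  · -- a maximal tight set
    have hne : (univ.filter (fun U : Finset (Fin k) => Conn K U ∧ wgt α W ws A U = ws)).Nonempty :=
      ⟨U0, Finset.mem_filter.2 ⟨mem_univ _, hU0c, le_antisymm hU0 (hge _ hU0c)⟩⟩
    obtain ⟨U, hU, hUmax⟩ := Finset.exists_max_image _ (fun U : Finset (Fin k) => U.card) hne
    rw [Finset.mem_filter] at hU
    obtain ⟨-, hUc, hUeq⟩ := hU
    have hlab : ∀ y ∈ U, ∀ a ∈ A y, W a < ws := by
      intro y hy a ha
      by_contra hge'
      push Not at hge'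
      have h1 := hbelow w le_rfl hlt U hUc
      have h2 : wgt α W w A U ≤ wgt α W ws A U - (ws - w) := by
        have e1 : ∑ y' ∈ U, (1 - α - ∑ a ∈ A y', kap α W w a) ≤
            ∑ y' ∈ U, (1 - α - ∑ a ∈ A y', kap α W ws a) - (ws - w) := by
          rw [← Finset.add_sum_erase U _ hy,
            ← Finset.add_sum_erase U (fun y' => 1 - α - ∑ a ∈ A y', kap α W ws a) hy]
          have e2 : ∑ y' ∈ U.erase y, (1 - α - ∑ a ∈ A y', kap α W w a) ≤
              ∑ y' ∈ U.erase y, (1 - α - ∑ a ∈ A y', kap α W ws a) := by
            refine Finset.sum_le_sum fun y' _ => ?_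
            have := Finset.sum_le_sum (s := A y') (fun a _ => tt_kap_anti α W hlt.le a)
            linarith
          have e3 : ∑ a' ∈ A y, kap α W ws a' + (ws - w) ≤ ∑ a' ∈ A y, kap α W w a' := by
            rw [← Finset.add_sum_erase (A y) _ ha, ← Finset.add_sum_erase (A y) (kap α W w) ha]
            have e4 := Finset.sum_le_sum (s := (A y).erase a) (fun a' _ => tt_kap_anti α W hlt.le a')
            have e5 : kap α W ws a = α - ws := by
              unfold kap
              rw [min_eq_right hge']
              exact max_eq_right (by linarith)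
            have e6 : kap α W w a = α - w := by
              unfold kap
              rw [min_eq_right (hlt.le.trans hge')]
              exact max_eq_right (by linarith)
            rw [e5, e6]
            linarith
          linarith
        unfold wgt
        linarith
      rw [hUeq] at h2
      linarith
    have hUuniv : U = univ := by
      by_contra hUne
      -- continuity
      have hX : ∀ X : Finset (Fin k), ∀ᶠ w' in nhdsWithin ws (Set.Iio ws),
          (Conn K X ∧ Disjoint X U ∧ ∃ x ∈ X, ∃ z ∈ U, K.Adj x z) → α < wgt α W w' A X := by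
        intro X
        by_cases hXc : Conn K X ∧ Disjoint X U ∧ ∃ x ∈ X, ∃ z ∈ U, K.Adj x z
        · obtain ⟨hc, hd, x, hx, z, hz, hadj⟩ := hXc
          have hcu : Conn K (X ∪ U) := hc.union_adj hUc hx hz hadj
          have h1 : wgt α W ws A (X ∪ U) = wgt α W ws A X + wgt α W ws A U - α := by
            unfold wgt
            rw [Finset.sum_union hd]; ring
          have h2 := hge _ hcu
          have h3 : wgt α W ws A (X ∪ U) ≠ ws := by
            intro h
            have h4 := hUmax (X ∪ U) (Finset.mem_filter.2 ⟨mem_univ _, hcu, h⟩)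
            rw [Finset.card_union_of_disjoint hd] at h4
            have := Finset.card_pos.2 ⟨x, hx⟩
            omega
          have h4 : α < wgt α W ws A X := by
            have := lt_of_le_of_ne h2 (Ne.symm h3)
            linarith
          have h5 := (tt_wgt_cont α W A X).continuousAt (x := ws)
          have h6 := h5.eventually (lt_mem_nhds h4)
          exact (h6.filter_mono nhdsWithin_le_nhds).mono fun w' h _ => h
        · exact Filter.Eventually.of_forall fun w' h => absurd h hXc
      have hX' := Filter.eventually_all.2 hX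
      have hW' : ∀ a : V, ∀ᶠ w' in nhdsWithin ws (Set.Iio ws), (W a < ws → W a < w') := by
        intro a
        by_cases ha : W a < ws
        · have := (lt_mem_nhds ha)
          exact (this.filter_mono nhdsWithin_le_nhds).mono fun w' h _ => h
        · exact Filter.Eventually.of_forall fun w' h => absurd h ha
      have hW'' := Filter.eventually_all.2 hW'
      have hwev : ∀ᶠ w' in nhdsWithin ws (Set.Iio ws), w < w' :=
        (lt_mem_nhds hlt).filter_mono nhdsWithin_le_nhds
      have hltev : ∀ᶠ w' in nhdsWithin ws (Set.Iio ws), w' < ws := self_mem_nhdsWithin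
      obtain ⟨w', ⟨⟨h1, h2⟩, h3⟩, h4⟩ := ((hX'.and hW'').and hwev).and hltev |>.exists
      have hκw' : κ ≤ w' := hw.trans h3.le
      have hUcard : U.card < k := by
        have := Finset.card_lt_card (Finset.ssubset_univ_iff.2 hUne)
        simpa using this
      obtain ⟨h, hh1, hh2, hh3⟩ := SmallOK.cols hS inferInstance hκw' K U hUcard
        (forest_of_acyclic hK U) A (fun U' _ hU' => hbelow w' h3.le h4 U' hU')
      have hhw : ∀ z ∈ U, ws ≤ W (h z) := by
        intro z hz
        by_contra hlt'
        push Not at hlt'
        have := h2 (h z) hlt'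
        have := hh2 z hz
        linarith
      set A' : Fin k → Finset V := fun y => A y ∪ (U.filter (fun z => K.Adj y z)).image h with hA'
      have hKF : Forest K univ := forest_of_acyclic hK univ
      have hcompl : (univ \ U).card < k := by
        have e1 := Finset.card_sdiff_add_card_eq_card (Finset.subset_univ U)
        have e2 := Finset.card_pos.2 hUc.nonempty
        rw [Finset.card_univ, Fintype.card_fin] at e1
        omega
      obtain ⟨φ, hφ1, hφ2, hφ3⟩ := SmallOK.cols hS inferInstance hκw' K (univ \ U) hcompl
        (forest_of_acyclic hK _) A' (by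
          intro X hXsub hXc
          have hd : Disjoint X U := Finset.disjoint_of_subset_left hXsub Finset.sdiff_disjoint
          by_cases hex : ∃ x ∈ X, ∃ z ∈ U, K.Adj x z
          · obtain ⟨x, hx, z, hz, hadj⟩ := hex
            have e0 := h1 X ⟨hXc, hd, x, hx, z, hz, hadj⟩
            have huni : ∀ x' ∈ X, ∀ z' ∈ U, K.Adj x' z' → x = x' ∧ z = z' := by
              intro x' hx' z' hz' hadj'
              exact hKF.unique_edge (Finset.subset_univ _) (Finset.subset_univ _) hXc hUc hd
                hx hx' hz hz' hadj hadj'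
            have e1 : ∑ y ∈ X, (1 - α - ∑ a ∈ A y, kap α W w' a) - (α - w') ≤
                ∑ y ∈ X, (1 - α - ∑ a ∈ A' y, kap α W w' a) := by
              rw [← Finset.add_sum_erase X _ hx,
                ← Finset.add_sum_erase X (fun y => 1 - α - ∑ a ∈ A' y, kap α W w' a) hx]
              have e2 : ∑ y ∈ X.erase x, (1 - α - ∑ a ∈ A y, kap α W w' a) =
                  ∑ y ∈ X.erase x, (1 - α - ∑ a ∈ A' y, kap α W w' a) := by
                refine Finset.sum_congr rfl fun y hy => ?_
                rw [Finset.mem_erase] at hy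
                have : U.filter (fun z => K.Adj y z) = ∅ := by
                  rw [Finset.filter_eq_empty_iff]
                  intro z' hz' hadj'
                  exact hy.1 (huni y hy.2 z' hz' hadj').1.symm
                simp only [hA', this, Finset.image_empty, Finset.union_empty]
              have e3 : U.filter (fun z => K.Adj x z) = {z} := by
                ext z'
                simp only [Finset.mem_filter, Finset.mem_singleton]
                constructor
                · rintro ⟨hz', hadj'⟩
                  exact (huni x hx z' hz' hadj').2.symm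
                · rintro rfl; exact ⟨hz, hadj⟩
              have e4 : ∑ a ∈ A' x, kap α W w' a ≤ ∑ a ∈ A x, kap α W w' a + (α - w') := by
                have e5 : A' x = A x ∪ {h z} := by
                  simp only [hA', e3, Finset.image_singleton]
                rw [e5]
                have e6 : ∑ a ∈ A x ∪ {h z}, kap α W w' a ≤
                    ∑ a ∈ A x, kap α W w' a + ∑ a ∈ {h z}, kap α W w' a := by
                  rw [← Finset.sum_union_inter]
                  have : 0 ≤ ∑ a ∈ A x ∩ {h z}, kap α W w' a :=
                    Finset.sum_nonneg fun a _ => le_max_left _ _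
                  linarith
                rw [Finset.sum_singleton] at e6
                have e7 : kap α W w' (h z) = α - w' := by
                  unfold kap
                  rw [min_eq_right (h4.le.trans (hhw z hz))]
                  exact max_eq_right (by linarith)
                rw [e7] at e6
                exact e6
              linarith
            unfold wgt at e0 ⊢
            linarith
          · push Not at hex
            have e0 := hbelow w' h3.le h4 X hXc
            have e1 : wgt α W w' A' X = wgt α W w' A X := by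
              unfold wgt
              congr 1
              refine Finset.sum_congr rfl fun y hy => ?_
              have : U.filter (fun z => K.Adj y z) = ∅ := by
                rw [Finset.filter_eq_empty_iff]
                intro z' hz' hadj'
                exact hex y hy z' hz' hadj'
              simp only [hA', this, Finset.image_empty, Finset.union_empty]
            rw [e1]; exact e0)
      refine hnc w' h3.le ⟨fun i => if i ∈ U then h i else φ i, fun i j hadj => ?_, fun i => ?_,
        fun i a ha => ?_⟩
      · by_cases hiX : i ∈ U <;> by_cases hjX : j ∈ U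
        · simp only [hiX, hjX, if_true]
          exact hh1 i hiX j hjX hadj
        · simp only [hiX, hjX, if_true, if_false]
          refine hE _ _ (hφ3 j (Finset.mem_sdiff.2 ⟨mem_univ _, hjX⟩) _ ?_)
          refine Finset.mem_union_right _ (Finset.mem_image_of_mem h ?_)
          exact Finset.mem_filter.2 ⟨hiX, hadj.symm⟩
        · simp only [hiX, hjX, if_true, if_false]
          refine hφ3 i (Finset.mem_sdiff.2 ⟨mem_univ _, hiX⟩) _ ?_
          refine Finset.mem_union_right _ (Finset.mem_image_of_mem h ?_)
          exact Finset.mem_filter.2 ⟨hjX, hadj⟩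
        · simp only [hiX, hjX, if_false]
          exact hφ1 i (Finset.mem_sdiff.2 ⟨mem_univ _, hiX⟩) j (Finset.mem_sdiff.2 ⟨mem_univ _, hjX⟩)
            hadj
      · by_cases hiX : i ∈ U
        · simp only [hiX, if_true]
          exact hh2 i hiX
        · simp only [hiX, if_false]
          exact hφ2 i (Finset.mem_sdiff.2 ⟨mem_univ _, hiX⟩)
      · by_cases hiX : i ∈ U
        · simp only [hiX, if_true]
          exact hh3 i hiX a ha
        · simp only [hiX, if_false]
          exact hφ3 i (Finset.mem_sdiff.2 ⟨mem_univ _, hiX⟩) a (Finset.mem_union_left _ ha)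
    subst hUuniv
    exact ⟨ws, ⟨tt_conn_univ hUc, hK⟩, hκws, hws1, fun U hU => hge U hU, hUeq, hnc ws hlt.le,
      Or.inl ⟨hcase, fun i a ha => hlab i (mem_univ _) a ha⟩⟩

end Pool.MP_65847d_pr
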