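import Pool.Agent.Lib.MP_65847d_pr.X.XCore
import Pool.Agent.Lib.MP_65847d_pr.X.XDeg
import Pool.Agent.Lib.MP_65847d_pr.X.XNoRep
import Pool.Agent.Lib.MP_65847d_pr.X.XPath
import Pool.Agent.Lib.MP_65847d_pr.X.XTight

/-!
# X/FK : the finite-K lemma, assembly

A core has degrees `≤ |V|` (`Core.degree_le`) and all paths have length `≤ 2 ^ |V|`: for a path of length `m > 2 ^ |V|` take the spine (`exists_spine`, `l = m - 1`); the `l + 1 > 2 ^ |V|` sets `P 0, ..., P l` of colours are not pairwise distinct (`Fintype.card (Set V) = 2 ^ |V|`), so `P i = P j`, `i < j`: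
`Spine.shift` and `Spine.no_repeat`. So `k ≤ k0 := (1 + |V|) ^ (2 ^ |V|)` (`card_le_pow`) for a minimal violation with `k ≥ 2` vertices.
-/

set_option autoImplicit false

open Finset

namespace Pool.MP_65847d_pr

theorem Core.card_le {ι V : Type*} [Fintype ι] [DecidableEq ι] [Fintype V] {E : V → V → Prop}
    (hE : ∀ a b, E a b → E b a) {κ α α₁ ws : ℝ} {W : V → ℝ}
    {K : SimpleGraph ι} {A : ι → Finset V} {c : ι → ℝ} (hC : Core E κ α α₁ ws W K A c)
    (hV : Nonempty V) : Fintype.card ι ≤ (1 + Fintype.card V) ^ (2 ^ Fintype.card V) := by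
  classical
  refine card_le_pow hC.tree.connected (hC.degree_le hE hV) fun a b p hp => ?_
  by_contra hcon
  push Not at hcon
  have hpos : 0 < p.length := lt_of_le_of_lt (Nat.zero_le _) hcon
  obtain ⟨l, hl⟩ : ∃ l, l + 1 = p.length := ⟨p.length - 1, Nat.sub_add_cancel hpos⟩
  obtain ⟨L, hS⟩ := exists_spine hC.tree p hp hl
  set P : Fin (l + 1) → Set V := fun i => PSt E W ws K A (L i.val)ᶜ (p.getVert (i.val + 1)) with hPdef
  have hcard : Fintype.card (Set V) < Fintype.card (Fin (l + 1)) := by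
    rw [Fintype.card_set, Fintype.card_fin, hl]
    exact hcon
  obtain ⟨i, j, hij, hP⟩ := Fintype.exists_ne_map_eq_of_card_lt P hcard
  -- both orders
  have key : ∀ i j : Fin (l + 1), i < j → P i = P j → False := by
    intro i j hij hP
    have hij' : i.val < j.val := hij
    have hj := j.isLt
    have hS' := hS.shift (i := i.val) (j := j.val) hij'.le (by omega)
    refine hS'.no_repeat hE hC hV (by omega) ?_
    have e1 : i.val + (j.val - i.val) = j.val := by omega
    have e2 : i.val + (j.val - i.val + 1) = j.val + 1 := by omega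
    show PSt E W ws K A (L (i.val + 0))ᶜ (p.getVert (i.val + (0 + 1))) =
      PSt E W ws K A (L (i.val + (j.val - i.val)))ᶜ (p.getVert (i.val + (j.val - i.val + 1)))
    rw [e1, e2]
    exact hP
  rcases lt_or_gt_of_ne hij with h | h
  · exact key i j h hP
  · exact key j i h hP.symm

/-- a minimal violation is bounded -/
theorem exists_min_violation {V : Type*} [Fintype V] [Nonempty V] {E : V → V → Prop}
    (hE : ∀ a b, E a b → E b a) {κ α : ℝ} {W : V → ℝ} (hα0 : 0 < α) (hα1 : α < 1) (hκ : κ ≤ α)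
    (h : ∃ (w : ℝ) (k : ℕ) (K : SimpleGraph (Fin k)) (A : Fin k → Finset V), κ ≤ w ∧ K.IsAcyclic ∧
      Rich α W w K A ∧ ¬ Colours E W w K A) :
    ∃ k ≤ (1 + Fintype.card V) ^ (2 ^ Fintype.card V), SmallOK E κ α W k ∧
      ∃ (w : ℝ) (K : SimpleGraph (Fin k)) (A : Fin k → Finset V), κ ≤ w ∧ K.IsAcyclic ∧
      Rich α W w K A ∧ ¬ Colours E W w K A := by
  classical
  have hex : ∃ k, ∃ (w : ℝ) (K : SimpleGraph (Fin k)) (A : Fin k → Finset V), κ ≤ w ∧ K.IsAcyclic ∧
      Rich α W w K A ∧ ¬ Colours E W w K A := by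
    obtain ⟨w, k, K, A, h⟩ := h
    exact ⟨k, w, K, A, h⟩
  refine ⟨Nat.find hex, ?_, ?_, Nat.find_spec hex⟩
  · by_cases hk : Nat.find hex < 2
    · have : 1 ≤ (1 + Fintype.card V) ^ (2 ^ Fintype.card V) := Nat.one_le_pow _ _ (by omega)
      omega
    · push Not at hk
      obtain ⟨w, K, A, hw, hK, hR, hC⟩ := Nat.find_spec hex
      have hS : SmallOK E κ α W (Nat.find hex) := by
        intro w' hw' m hm K' A' hK' hR'
        by_contra hcon
        exact Nat.find_min hex hm ⟨w', K', A', hw', hK', hR', hcon⟩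
      obtain ⟨α₁, ws, c, hCore⟩ := exists_core hE hα0 hα1 hκ hk hS hw hK hR hC
      have := hCore.card_le hE inferInstance
      rwa [Fintype.card_fin] at this
  · intro w' hw' m hm K' A' hK' hR'
    by_contra hcon
    exact Nat.find_min hex hm ⟨w', K', A', hw', hK', hR', hcon⟩

/-- It is enough to test stability with forests of bounded size. -/
theorem finite_K {V : Type*} [Fintype V] {E : V → V → Prop} (hE : ∀ a b, E a b → E b a) :
    ∃ k0 : ℕ, ∀ (κ α : ℝ) (W : V → ℝ), 0 < α → α < 1 → κ ≤ α → (∀ a, 0 ≤ W a ∧ W a ≤ 1) →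
      SmallOK E κ α W (k0 + 1) → StableFrom E κ α W := by
  refine ⟨(1 + Fintype.card V) ^ (2 ^ Fintype.card V), fun κ α W hα0 hα1 hκ hW hS => ⟨hW, ?_⟩⟩
  have h1 : 1 ≤ (1 + Fintype.card V) ^ (2 ^ Fintype.card V) := Nat.one_le_pow _ _ (by omega)
  intro w hw k K A hK hR
  by_contra hC
  have hV : Nonempty V := by
    by_contra hne
    rw [not_nonempty_iff] at hne
    rcases Nat.eq_zero_or_pos k with rfl | hk
    · exact hC ⟨fun i => i.elim0, fun i => i.elim0, fun i => i.elim0, fun i => i.elim0⟩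
    · -- one vertex is a violation
      have hone : Rich α W κ (⊥ : SimpleGraph (Fin 1)) (fun _ => (∅ : Finset V)) := by
        intro U hU
        have hUne : U.Nonempty := by
          obtain ⟨x⟩ := hU.nonempty
          exact ⟨x.1, x.2⟩
        have hU1 : U = univ := by
          obtain ⟨x, hx⟩ := hUne
          refine eq_univ_of_forall fun y => ?_
          rwa [Subsingleton.elim y x]
        rw [hU1]
        unfold wgt
        simp only [sum_empty, sub_zero, sum_const, card_univ, Fintype.card_fin, one_smul]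
        linarith
      obtain ⟨φ, -⟩ := hS κ le_rfl 1 (by omega) ⊥ (fun _ => ∅) SimpleGraph.isAcyclic_bot hone
      exact hne.false (φ 0)
  obtain ⟨k', hk', -, w', K', A', hw', hK', hR', hC'⟩ :=
    exists_min_violation hE hα0 hα1 hκ ⟨w, k, K, A, hw, hK, hR, hC⟩
  exact hC' (hS w' hw' k' (by omega) K' A' hK' hR')

/-- If a vector is not stable then there is a tight violation of bounded size. -/
theorem exists_tight {V : Type*} [Fintype V] [Nonempty V] {E : V → V → Prop}
    (hE : ∀ a b, E a b → E b a) :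
    ∃ k0 : ℕ, ∀ (κ α : ℝ) (W : V → ℝ), 0 < α → α < 1 → κ ≤ α → (∀ a, 0 ≤ W a ∧ W a ≤ 1) →
      ¬ StableFrom E κ α W →
      ∃ k ≤ k0, ∃ (K : SimpleGraph (Fin k)) (A : Fin k → Finset V) (w : ℝ), Tight E κ α W K A w := by
  refine ⟨(1 + Fintype.card V) ^ (2 ^ Fintype.card V), fun κ α W hα0 hα1 hκ hW hS => ?_⟩
  unfold StableFrom at hS
  push Not at hS
  obtain ⟨w, hw, k, K, A, hK, hR, hC⟩ := hS hW
  obtain ⟨k', hk', hS', w', K', A', hw', hK', hR', hC'⟩ :=
    exists_min_violation hE hα0 hα1 hκ ⟨w, k, K, A, hw, hK, hR, hC⟩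
  obtain ⟨ws, h⟩ := tight_of_min hE hα0 hα1 hκ hS' hw' hK' hR' hC'
  exact ⟨k', hk', K', A', ws, h⟩

end Pool.MP_65847d_pr
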