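import Pool.Agent.Lib.MP_65847d_pr.X.XDefs

/-!
# X/FKDefs : definitions for the finite-K lemma and for tight violations
-/

set_option autoImplicit false

open Finset

namespace Pool.MP_65847d_pr

/-- every rich forest with fewer than `k` vertices is colourable, at all levels `w ≥ κ` -/
def SmallOK {V : Type*} (E : V → V → Prop) (κ α : ℝ) (W : V → ℝ) (k : ℕ) : Prop :=
  ∀ w : ℝ, κ ≤ w → ∀ m < k, ∀ (K : SimpleGraph (Fin m)) (A : Fin m → Finset V),
    K.IsAcyclic → Rich α W w K A → Colours E W w K A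

/-- a tight violation of stability at the level `w` -/
structure Tight {V : Type*} (E : V → V → Prop) (κ α : ℝ) (W : V → ℝ) {k : ℕ}
    (K : SimpleGraph (Fin k)) (A : Fin k → Finset V) (w : ℝ) : Prop where
  tree : K.IsTree
  lt_w : κ < w
  w_le : w ≤ 1
  ge : ∀ U : Finset (Fin k), (K.induce (U : Set (Fin k))).Connected → w ≤ wgt α W w A U
  eq : wgt α W w A univ = w
  ncol : ¬ Colours E W w K A
  alt : (w ≤ α ∧ ∀ i, ∀ a ∈ A i, W a < w) ∨ (α < w ∧ k = 1)

section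

variable {ι V : Type*}

/-- the finite set `X` induces a connected subgraph (in particular it is nonempty) -/
def Conn (G : SimpleGraph ι) (X : Finset ι) : Prop := (G.induce (X : Set ι)).Connected

/-- the finite set `X` induces a forest -/
def Forest (G : SimpleGraph ι) (X : Finset ι) : Prop := (G.induce (X : Set ι)).IsAcyclic

/-- `φ` is a homomorphism on the part of `G` induced by `R`, it respects the labels `A` and uses for `i` a
colour of size at least `l i` -/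
def ColOn (E : V → V → Prop) (W : V → ℝ) (G : SimpleGraph ι) (R : Finset ι) (A : ι → Finset V)
    (l : ι → ℝ) (φ : ι → V) : Prop :=
  (∀ i ∈ R, ∀ j ∈ R, G.Adj i j → E (φ i) (φ j)) ∧ (∀ i ∈ R, l i ≤ W (φ i)) ∧
    ∀ i ∈ R, ∀ a ∈ A i, E (φ i) a

/-- there is such a homomorphism -/
def Cols (E : V → V → Prop) (W : V → ℝ) (G : SimpleGraph ι) (R : Finset ι) (A : ι → Finset V)
    (l : ι → ℝ) : Prop := ∃ φ : ι → V, ColOn E W G R A l φ

/-- the weight of a set of vertices for the costs `g` -/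
noncomputable def ww (α₁ : ℝ) (g : ι → ℝ) (X : Finset ι) : ℝ := α₁ + ∑ y ∈ X, (1 - α₁ - g y)

/-- the hypotheses of the deletion lemma: costs `g`, labels `A`, activation levels `l` on `R` -/
structure DL (α α₁ κ : ℝ) (W : V → ℝ) (G : SimpleGraph ι) (R : Finset ι) (g : ι → ℝ)
    (A : ι → Finset V) (l : ι → ℝ) : Prop where
  g0 : ∀ y ∈ R, 0 ≤ g y
  l_le : ∀ y ∈ R, l y ≤ α
  cost : ∀ y ∈ R, ∀ w, l y ≤ w → ∑ a ∈ A y, kap α W w a ≤ g y
  cost_lt : ∀ y ∈ R, ∀ w, l y ≤ w → 0 < ∑ a ∈ A y, kap α W w a → ∑ a ∈ A y, kap α W w a < g y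
  lev : ∀ X ⊆ R, Conn G X → ∀ y ∈ X, l y ≤ ww α₁ g X
  kap_le : ∀ X ⊆ R, Conn G X → κ ≤ ww α₁ g X

/-- `H` is the side of `v` when the edge `u v` of the tree `K` is deleted -/
structure IsCut [Fintype ι] [DecidableEq ι] (K : SimpleGraph ι) (u v : ι) (H : Finset ι) : Prop where
  mem : v ∈ H
  notMem : u ∉ H
  conn : Conn K H
  connc : Conn K Hᶜ
  cross : ∀ x ∈ H, ∀ y ∉ H, K.Adj x y → x = v ∧ y = u

/-- delete all edges of `K` between `Y` and its complement, and add the edge `a b` -/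
def reglue (K : SimpleGraph ι) (Y : Finset ι) (a b : ι) : SimpleGraph ι :=
  SimpleGraph.fromRel fun x y => (K.Adj x y ∧ (x ∈ Y ↔ y ∈ Y)) ∨ (x = a ∧ y = b)

/-- a minimal violation, after all normalisations: `c` are the vertex weights at `α₁ > α` -/
structure Core [Fintype ι] (E : V → V → Prop) (κ α α₁ ws : ℝ) (W : V → ℝ) (K : SimpleGraph ι)
    (A : ι → Finset V) (c : ι → ℝ) : Prop where
  lt : α < α₁
  le_one : α₁ ≤ 1
  tree : K.IsTree
  le_ws : κ ≤ ws
  ws_le : ws ≤ α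
  lab : ∀ y, ∀ a ∈ A y, W a < ws
  c_eq : ∀ y, c y = 1 - α₁ - ∑ a ∈ A y, (α₁ - W a)
  min : ∀ X, Conn K X → ws ≤ α₁ + ∑ y ∈ X, c y
  tot : α₁ + ∑ y, c y = ws
  ncol : ¬ Cols E W K univ A (fun _ => ws)
  small : SmallOK E κ α W (Fintype.card ι)

/-- consecutive cuts of a tree along a path `v 0, ..., v (l + 1)`: `L i` is the side of `v i` when the edge
`v i, v (i + 1)` is deleted, `i = 0, ..., l` -/
structure Spine [Fintype ι] [DecidableEq ι] (K : SimpleGraph ι) (l : ℕ) (v : ℕ → ι)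
    (L : ℕ → Finset ι) : Prop where
  mem : ∀ i ≤ l, v i ∈ L i
  notMem : ∀ i ≤ l, v (i + 1) ∉ L i
  adj : ∀ i ≤ l, K.Adj (v i) (v (i + 1))
  conn : ∀ i ≤ l, Conn K (L i)
  connc : ∀ i ≤ l, Conn K (L i)ᶜ
  cross : ∀ i ≤ l, ∀ x ∈ L i, ∀ y ∉ L i, K.Adj x y → x = v i ∧ y = v (i + 1)
  mono : ∀ i < l, L i ⊆ L (i + 1)

/-- the colours of the vertex `u` in colourings of the part `R` of the tree -/
def PSt (E : V → V → Prop) (W : V → ℝ) (ws : ℝ) (K : SimpleGraph ι) (A : ι → Finset V)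
    (R : Finset ι) (u : ι) : Set V :=
  {c | ∃ φ : ι → V, ColOn E W K R A (fun _ => ws) φ ∧ φ u = c}

/-- a window `(p, p']` of the chain of groups: `G` is the chain with vertex set `T`, `u` and `v` are its first
and last spine vertex, `x` are the partial weights at the cuts and `P` the sets of possible colours -/
structure Win (E : V → V → Prop) (α₁ ws : ℝ) (W : V → ℝ) (A : ι → Finset V) (c : ι → ℝ) (N : ℕ)
    (x : ℕ → ℝ) (P : ℕ → Set V) (p p' : ℕ) (G : SimpleGraph ι) (T : Finset ι) (u v : ι) : Prop where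
  forest : Forest G T
  card : T.card < N
  mu : u ∈ T
  mv : v ∈ T
  low : ∀ X ⊆ T, Conn G X → ws ≤ α₁ + ∑ y ∈ X, c y
  left : ∀ X ⊆ T, Conn G X → u ∈ X → v ∉ X → ∃ s, p < s ∧ s < p' ∧ x s - x p ≤ ∑ y ∈ X, c y
  right : ∀ X ⊆ T, Conn G X → v ∈ X → u ∉ X → ∃ r, p < r ∧ r < p' ∧ x p' - x r ≤ ∑ y ∈ X, c y
  both : ∀ X ⊆ T, Conn G X → u ∈ X → v ∈ X → x p' - x p ≤ ∑ y ∈ X, c y
  prop : ∀ φ, ColOn E W G T A (fun _ => ws) φ → ∀ b ∈ P p', E (φ v) b → φ u ∈ P p

end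

end Pool.MP_65847d_pr
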