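import Pool.Agent.Lib.MP_65847d_pr.X.FK

/-!
# X/FKx : the finite-K lemma with the explicit bound
-/

set_option autoImplicit false

open Finset

namespace Pool.MP_65847d_pr

/-- It is enough to test stability with forests with at most `(1 + |V|) ^ (2 ^ |V|)` vertices. -/
theorem stableFrom_of_bounded {V : Type*} [Fintype V] [Nonempty V] {E : V → V → Prop}
    (hE : ∀ a b, E a b → E b a) {κ α : ℝ} {W : V → ℝ} (hα0 : 0 < α) (hα1 : α < 1) (hκ : κ ≤ α)
    (hW : ∀ a, 0 ≤ W a ∧ W a ≤ 1)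
    (hS : ∀ w : ℝ, κ ≤ w → ∀ k ≤ (1 + Fintype.card V) ^ (2 ^ Fintype.card V),
      ∀ (K : SimpleGraph (Fin k)) (A : Fin k → Finset V), K.IsAcyclic → Rich α W w K A →
        Colours E W w K A) :
    StableFrom E κ α W := by
  refine ⟨hW, fun w hw k K A hK hR => ?_⟩
  by_contra hC
  obtain ⟨k', hk', -, w', K', A', hw', hK', hR', hC'⟩ :=
    exists_min_violation hE hα0 hα1 hκ ⟨w, k, K, A, hw, hK, hR, hC⟩
  exact hC' (hS w' hw' k' hk' K' A' hK' hR')

end Pool.MP_65847d_pr
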