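import Pool.Agent.Lib.MP_65847d_pr.X.LDefs2

/-!
# X/LCount : connected sets and their inner edges
-/

set_option autoImplicit false

open Finset

namespace Pool.MP_65847d_pr

variable {N : Type*} [Fintype N] [DecidableEq N]

theorem LConn.singleton (G : SimpleGraph N) (y : N) : LConn G {y} := by
  unfold LConn
  rw [Finset.coe_singleton]
  have : Subsingleton ((({y} : Set N)) : Type _) := ⟨fun a b => Subtype.ext (by
    rw [Set.mem_singleton_iff.mp a.2, Set.mem_singleton_iff.mp b.2])⟩
  have : Nonempty ((({y} : Set N)) : Type _) := ⟨⟨y, rfl⟩⟩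
  exact SimpleGraph.Connected.mk SimpleGraph.Preconnected.of_subsingleton

theorem LConn.nonempty {G : SimpleGraph N} {X : Finset N} (h : LConn G X) : X.Nonempty := by
  obtain ⟨x⟩ := SimpleGraph.Connected.nonempty h
  exact ⟨x.1, x.2⟩

theorem LConn.union {G : SimpleGraph N} {X Y : Finset N} (hX : LConn G X) (hY : LConn G Y) {x y : N}
    (hx : x ∈ X) (hy : y ∈ Y) (h : G.Adj x y) : LConn G (X ∪ Y) := by
  unfold LConn at *
  rw [Finset.coe_union]
  exact SimpleGraph.connected_induce_union hX.preconnected hY.preconnected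
    (Finset.mem_coe.mpr hx) (Finset.mem_coe.mpr hy) h

theorem eIn_union (G : SimpleGraph N) {X Y : Finset N} (h : Disjoint X Y) :
    eIn G (X ∪ Y) = eIn G X + eIn G Y + ∑ y ∈ Y, dgX G X y := by
  classical
  set SX : Finset (Sym2 N) :=
    (univ : Finset (Sym2 N)).filter fun e => e ∈ G.edgeSet ∧ ∀ a ∈ e, a ∈ X with hSX
  set SY : Finset (Sym2 N) :=
    (univ : Finset (Sym2 N)).filter fun e => e ∈ G.edgeSet ∧ ∀ a ∈ e, a ∈ Y with hSY
  set SU : Finset (Sym2 N) :=
    (univ : Finset (Sym2 N)).filter fun e => e ∈ G.edgeSet ∧ ∀ a ∈ e, a ∈ X ∪ Y with hSU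
  set S2 : Finset (N × N) := (Y ×ˢ X).filter fun q => G.Adj q.1 q.2 with hS2
  have hc2 : ∑ y ∈ Y, dgX G X y = S2.card := by
    rw [hS2, card_filter, sum_product]
    refine sum_congr rfl fun y _ => ?_
    rw [dgX, card_filter]
  have hinj : Set.InjOn (fun q : N × N => s(q.1, q.2)) (S2 : Set (N × N)) := by
    rintro ⟨y, x⟩ hq ⟨y', x'⟩ hq' he
    rw [mem_coe, hS2, mem_filter, mem_product] at hq hq'
    simp only [Sym2.eq_iff] at he
    rcases he with ⟨h1, h2⟩ | ⟨h1, _⟩
    · rw [Prod.mk.injEq]
      exact ⟨h1, h2⟩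
    · have h3 : y ∈ X := h1 ▸ hq'.1.2
      exact absurd hq.1.1 (disjoint_left.mp h h3)
  have himg : (S2.image fun q => s(q.1, q.2)).card = S2.card := card_image_of_injOn hinj
  have hd1 : Disjoint SX SY := by
    rw [disjoint_left]
    intro e he he'
    rw [hSX, mem_filter] at he
    rw [hSY, mem_filter] at he'
    induction e with
    | h a b =>
      exact disjoint_left.mp h (he.2.2 a (Sym2.mem_mk_left _ _)) (he'.2.2 a (Sym2.mem_mk_left _ _))
  have hd2 : Disjoint (SX ∪ SY) (S2.image fun q => s(q.1, q.2)) := by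
    rw [disjoint_left]
    intro e he he'
    rw [mem_image] at he'
    obtain ⟨⟨y, x⟩, hq, rfl⟩ := he'
    rw [hS2, mem_filter, mem_product] at hq
    rcases mem_union.mp he with he | he
    · rw [hSX, mem_filter] at he
      exact disjoint_left.mp h (he.2.2 y (Sym2.mem_mk_left _ _)) hq.1.1
    · rw [hSY, mem_filter] at he
      exact disjoint_left.mp h hq.1.2 (he.2.2 x (Sym2.mem_mk_right _ _))
  have hun : SU = (SX ∪ SY) ∪ (S2.image fun q => s(q.1, q.2)) := by
    ext e
    constructor
    · intro he
      rw [hSU, mem_filter] at he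
      obtain ⟨_, he1, he2⟩ := he
      induction e with
      | h a b =>
        rw [SimpleGraph.mem_edgeSet] at he1
        have ha := he2 a (Sym2.mem_mk_left _ _)
        have hb := he2 b (Sym2.mem_mk_right _ _)
        rw [mem_union] at ha hb
        rcases ha with ha | ha <;> rcases hb with hb | hb
        · refine mem_union_left _ (mem_union_left _ ?_)
          rw [hSX, mem_filter]
          refine ⟨mem_univ _, he1, fun c hc => ?_⟩
          rcases Sym2.mem_iff.mp hc with rfl | rfl <;> assumption
        · refine mem_union_right _ (mem_image.mpr ⟨(b, a), ?_, Sym2.eq_swap⟩)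
          rw [hS2, mem_filter, mem_product]
          exact ⟨⟨hb, ha⟩, he1.symm⟩
        · refine mem_union_right _ (mem_image.mpr ⟨(a, b), ?_, rfl⟩)
          rw [hS2, mem_filter, mem_product]
          exact ⟨⟨ha, hb⟩, he1⟩
        · refine mem_union_left _ (mem_union_right _ ?_)
          rw [hSY, mem_filter]
          refine ⟨mem_univ _, he1, fun c hc => ?_⟩
          rcases Sym2.mem_iff.mp hc with rfl | rfl <;> assumption
    · intro he
      rw [hSU, mem_filter]
      rcases mem_union.mp he with he | he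
      · rcases mem_union.mp he with he | he
        · rw [hSX, mem_filter] at he
          exact ⟨mem_univ _, he.2.1, fun c hc => mem_union_left _ (he.2.2 c hc)⟩
        · rw [hSY, mem_filter] at he
          exact ⟨mem_univ _, he.2.1, fun c hc => mem_union_right _ (he.2.2 c hc)⟩
      · rw [mem_image] at he
        obtain ⟨⟨y, x⟩, hq, rfl⟩ := he
        rw [hS2, mem_filter, mem_product] at hq
        refine ⟨mem_univ _, hq.2, fun c hc => ?_⟩
        rcases Sym2.mem_iff.mp hc with rfl | rfl
        · exact mem_union_right _ hq.1.1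
        · exact mem_union_left _ hq.1.2
  have e1 : eIn G (X ∪ Y) = SU.card := by
    rw [eIn, hSU]
  have e2 : eIn G X = SX.card := by
    rw [eIn, hSX]
  have e3 : eIn G Y = SY.card := by
    rw [eIn, hSY]
  rw [e1, e2, e3, hc2, hun, card_union_of_disjoint hd2, card_union_of_disjoint hd1, himg]

private lemma LCount_edges (G : SimpleGraph N) (X : Finset N) :
    Nat.card (G.induce (X : Set N)).edgeSet = eIn G X := by
  classical
  rw [eIn, ← Set.ncard_coe_finset, ← Nat.card_coe_set_eq]
  refine Nat.card_congr (Equiv.ofBijective (fun e => ⟨Sym2.map Subtype.val e.1, ?_⟩) ⟨?_, ?_⟩)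
  · obtain ⟨e, he⟩ := e
    induction e with
    | h a b =>
      rw [SimpleGraph.mem_edgeSet] at he
      rw [mem_coe, mem_filter]
      refine ⟨mem_univ _, ?_, ?_⟩
      · exact he
      · intro c hc
        rw [Sym2.map_mk] at hc
        rcases Sym2.mem_iff.mp hc with rfl | rfl
        · exact a.2
        · exact b.2
  · rintro ⟨e, he⟩ ⟨e', he'⟩ h
    rw [Subtype.mk.injEq] at h
    exact Subtype.ext (Sym2.map.injective Subtype.val_injective h)
  · rintro ⟨e, he⟩
    rw [mem_coe, mem_filter] at he
    induction e with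
    | h a b =>
      refine ⟨⟨s(⟨a, he.2.2 a (Sym2.mem_mk_left _ _)⟩, ⟨b, he.2.2 b (Sym2.mem_mk_right _ _)⟩), ?_⟩, ?_⟩
      · rw [SimpleGraph.mem_edgeSet]
        exact he.2.1
      · rfl

theorem LConn.card_le {G : SimpleGraph N} {X : Finset N} (h : LConn G X) : X.card ≤ eIn G X + 1 := by
  have h1 := SimpleGraph.Connected.card_vert_le_card_edgeSet_add_one h
  rw [LCount_edges] at h1
  rwa [Nat.card_coe_set_eq, Set.ncard_coe_finset] at h1

theorem LConn.acyclic {G : SimpleGraph N} {X : Finset N} (h : LConn G X) (hc : ¬ X.card + 1 ≤ eIn G X + 1) :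
    (G.induce (X : Set N)).IsAcyclic := by
  have h1 := h.card_le
  have h2 : (G.induce (X : Set N)).IsTree := by
    rw [SimpleGraph.isTree_iff_connected_and_card]
    refine ⟨h, ?_⟩
    rw [LCount_edges, Nat.card_coe_set_eq, Set.ncard_coe_finset]
    omega
  exact h2.isAcyclic

end Pool.MP_65847d_pr
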