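import Pool.Agent.Lib.MP_65847d_pr.X.XDefs
import Pool.Agent.Lib.MP_65847d_pr.C.LDefs

/-!
# Definitions for the exact lower bound (deletion of minimal pieces)
-/

set_option autoImplicit false

open Finset

namespace Pool.MP_65847d_pr

section

variable {N V : Type*} [Fintype N] [DecidableEq N] [Fintype V] [DecidableEq V]

open Classical in
/-- number of edges of `G` with both ends in `X` -/
noncomputable def eIn (G : SimpleGraph N) (X : Finset N) : ℕ :=
  ((univ : Finset (Sym2 N)).filter fun e => e ∈ G.edgeSet ∧ ∀ a ∈ e, a ∈ X).card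

/-- `X` is nonempty and connected in `G` -/
def LConn (G : SimpleGraph N) (X : Finset N) : Prop := (G.induce (X : Set N)).Connected

/-- weight of `X` with vertex costs `g` -/
noncomputable def wX (α1 : ℝ) (g : N → ℝ) (X : Finset N) : ℝ :=
  α1 + ∑ y ∈ X, (1 - α1 - g y)

open Classical in
/-- number of neighbours of `y` in `X` -/
noncomputable def dgX (G : SimpleGraph N) (X : Finset N) (y : N) : ℕ :=
  (X.filter fun z => G.Adj y z).card

/-- hypotheses of the deletion lemma for the set `T` of remaining vertices, with attached colours `A`,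
costs `g`, size function `s`, size bound `L0` and current level `w0` -/
structure DLHyp (κ α α1 : ℝ) (W : V → ℝ) (G : SimpleGraph N) (T : Finset N) (A : N → Finset V)
    (g : N → ℝ) (s : Finset N → ℕ) (L0 : ℕ) (w0 : ℝ) : Prop where
  hκ : κ ≤ w0
  cost : ∀ y ∈ T, ∀ w, w0 ≤ w → ∑ a ∈ A y, kap α W w a ≤ g y
  cost' : ∀ y ∈ T, ∀ w, w0 ≤ w → 0 < ∑ a ∈ A y, kap α W w a → ∑ a ∈ A y, kap α W w a < g y
  mono : ∀ X Y : Finset N, X ⊆ Y → s X ≤ s Y
  sub : ∀ X Y : Finset N, s (X ∪ Y) ≤ s X + s Y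
  single : ∀ y ∈ T, s {y} < L0
  inv1 : ∀ X ⊆ T, LConn G X → s X ≤ 2 * L0 → ∀ j : ℕ, X.card + j ≤ eIn G X + 1 →
    (j : ℝ) * α1 - ((j : ℝ) - 1) * w0 ≤ wX α1 g X
  inv2 : ∀ X ⊆ T, LConn G X → L0 ≤ s X → s X ≤ 2 * L0 → ∀ j : ℕ, X.card + j ≤ eIn G X + 1 →
    2 + (j : ℝ) * α1 - (j : ℝ) * w0 ≤ wX α1 g X

/-- number of edges between `X` and the roots -/
noncomputable def aR (G : SimpleGraph N) (R : V → N) (X : Finset N) : ℕ :=
  ∑ y ∈ X, (lab G R y).card

/-- `R` is a good choice of roots in `G` -/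
def GoodR (κ α1 : ℝ) (L0 : ℕ) (G : SimpleGraph N) (R : V → N) : Prop :=
  (∀ x y, ¬ G.Adj (R x) (R y)) ∧
    ∀ X : Finset N, (∀ a ∈ X, ∀ x, R x ≠ a) → LConn G X → X.card ≤ 2 * L0 →
      ∀ j : ℕ, X.card + j ≤ eIn G X + 1 →
        (-(((j : ℝ) - 1) * κ) ≤ X.card - α1 * ((X.card : ℝ) - 1 + j + aR G R X)) ∧
        (L0 ≤ X.card → 2 - (j : ℝ) * κ ≤ X.card - α1 * ((X.card : ℝ) - 1 + j + aR G R X))

end

end Pool.MP_65847d_pr
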