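import Pool.Agent.Lib.MP_65847d_pr.X.LDefs2
import Pool.Agent.Lib.MP_65847d_pr.C.FMoment

/-!
# Definitions for the first moment and the reservoir of roots
-/

set_option autoImplicit false

open Finset

namespace Pool.MP_65847d_pr

open Pool.MP_1bacea_co

/-- violation of the first inequality of `GoodR` by a set of `t` vertices with `t - 1 + j` edges and `a` attachments -/
def Vi (κ α1 : ℝ) (t j a : ℕ) : Prop :=
  (t : ℝ) - α1 * ((t : ℝ) - 1 + j + a) < -(((j : ℝ) - 1) * κ)

/-- violation of the second inequality of `GoodR` -/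
def Vii (κ α1 : ℝ) (L0 t j a : ℕ) : Prop :=
  L0 ≤ t ∧ (t : ℝ) - α1 * ((t : ℝ) - 1 + j + a) < 2 - (j : ℝ) * κ

/-- first moment bound for the patterns `(t, j, a)` -/
noncomputable def fm (n r : ℕ) (p : ℝ) (t j a : ℕ) : ℝ :=
  (n : ℝ) ^ t * Real.exp t * ((t ^ 2).choose j : ℝ) * ((r * t).choose a : ℝ) * p ^ (t - 1 + j + a)

section

variable {N V : Type*} [Fintype N] [DecidableEq N] [Fintype V] [DecidableEq V]

/-- `X` is connected and has at least `|X| - 1 + j` inner edges -/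
def Pat (G : SimpleGraph N) (X : Finset N) (j : ℕ) : Prop :=
  LConn G X ∧ X.card + j ≤ eIn G X + 1

/-- conditional expectation of the number of violating attachments outside `Q` -/
noncomputable def PhiX (r : ℕ) (κ α1 p : ℝ) (L0 : ℕ) (Q : Finset N) (ω : Sym2 N → Bool) : ℝ :=
  ∑ X ∈ (univ \ Q).powerset.filter (fun X => X.card ∈ Icc 1 (2 * L0)),
    ∑ j ∈ range (X.card ^ 2 + 1), ∑ a ∈ Icc 1 (r * X.card),
      ind (Vi κ α1 X.card j a ∧ Pat (Gr ω) X j) * (((r * X.card).choose a : ℝ) * p ^ a)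

/-- no edge inside the roots and no violating attachment outside `Q` -/
def GoodAt (κ α1 : ℝ) (L0 : ℕ) (Q : Finset N) (R : V → N) (G : SimpleGraph N) : Prop :=
  (∀ x y, ¬ G.Adj (R x) (R y)) ∧
    ∀ X : Finset N, X ⊆ univ \ Q → X.card ∈ Icc 1 (2 * L0) → ∀ j ≤ X.card ^ 2,
      ∀ a ∈ Icc 1 (Fintype.card V * X.card), Vi κ α1 X.card j a → Pat G X j → aR G R X < a

end

end Pool.MP_65847d_pr
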