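import Pool.Agent.Lib.MP_65847d_pr.X.LDl

/-!
# X/LDet : good roots and a stable vector give a surjective homomorphism

Proof: `dl_graph` with `T = univ.filter (fun z => ∀ x, R x ≠ z)`, `A = lab G R`, `g y = α1 * |lab G R y|`, `s = Finset.card`, `w0 = κ`.
* cost: `kap α W w a ≤ α` as `0 ≤ min (W a) w` (`hS.1`, `0 ≤ κ ≤ w`), and `0 ≤ kap`; `α |lab| ≤ α1 |lab|`, strict if `lab` is nonempty (which it is if the sum is `> 0`); needs `0 < α`.
* mono, sub: `card_le_card`, `card_union_le`. single: `1 < L0`.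
* inv1, inv2: `wX α1 g X = α1 + ∑_{y ∈ X} (1 - α1 - α1 |lab y|) = |X| - α1 (|X| - 1 + aR G R X)`, so these are the two parts of `GoodR` after moving `α1 j` (note `X ⊆ T` means non-roots).
Then define `h (R x) = x` (`R` injective; e.g. `if hz : ∃ x, R x = z then hz.choose else φ z`). Surjective: `h (R x) = x`. Edges: root-root: none (`GoodR`); `y` non-root, `G.Adj y (R x)`: `x ∈ lab G R y`,
so `E (φ y) x`, and symmetric by `hE`; two non-roots: first part of `dl_graph`.
-/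

set_option autoImplicit false

open Finset

namespace Pool.MP_65847d_pr

variable {N V : Type*} [Fintype N] [DecidableEq N] [Fintype V] [DecidableEq V]

private lemma ldet_kap {κ α : ℝ} (hκ0 : 0 ≤ κ) (hα0 : 0 < α) {W : V → ℝ} (hW : ∀ a, 0 ≤ W a) {w : ℝ}
    (hw : κ ≤ w) (a : V) : kap α W w a ≤ α := by
  unfold kap
  refine max_le hα0.le ?_
  have : 0 ≤ min (W a) w := le_min (hW a) (hκ0.trans hw)
  linarith

private lemma ldet_sum {κ α : ℝ} (hκ0 : 0 ≤ κ) (hα0 : 0 < α) {W : V → ℝ} (hW : ∀ a, 0 ≤ W a) {w : ℝ}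
    (hw : κ ≤ w) (S : Finset V) : ∑ a ∈ S, kap α W w a ≤ α * S.card := by
  have h := sum_le_card_nsmul S (fun a => kap α W w a) α (fun a _ => ldet_kap hκ0 hα0 hW hw a)
  rw [nsmul_eq_mul, mul_comm] at h
  exact h

private lemma ldet_wX (α1 : ℝ) (G : SimpleGraph N) (R : V → N) (X : Finset N) :
    wX α1 (fun y => α1 * ((lab G R y).card : ℝ)) X
      = X.card - α1 * ((X.card : ℝ) - 1 + aR G R X) := by
  unfold wX aR
  rw [sum_sub_distrib, sum_const, nsmul_eq_mul, ← mul_sum, Nat.cast_sum]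
  ring

open Classical in
private noncomputable def ldet_h (R : V → N) (φ : N → V) (z : N) : V :=
  if hz : ∃ x, R x = z then hz.choose else φ z

private lemma ldet_h_root {R : V → N} (hR : Function.Injective R) (φ : N → V) (x : V) :
    ldet_h R φ (R x) = x := by
  unfold ldet_h
  have hz : ∃ x', R x' = R x := ⟨x, rfl⟩
  rw [dif_pos hz]
  exact hR hz.choose_spec

private lemma ldet_h_non {R : V → N} (φ : N → V) {z : N} (hz : ¬ ∃ x, R x = z) :
    ldet_h R φ z = φ z := by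
  unfold ldet_h
  rw [dif_neg hz]

theorem surjHom_of_good [Nonempty V] {E : V → V → Prop} (hE : ∀ a b, E a b → E b a) {κ α α1 : ℝ} (hκ0 : 0 ≤ κ)
    (hκ : κ ≤ α) (hα0 : 0 < α) (hα : α < α1) (h1 : α1 < 1) {L0 : ℕ} (hL0 : 2 ≤ L0) {G : SimpleGraph N}
    {R : V → N} (hR : Function.Injective R) {W : V → ℝ} (hS : StableFrom E κ α W)
    (hG : GoodR κ α1 L0 G R) : SurjHom E G := by
  classical
  have hW : ∀ a, 0 ≤ W a := fun a => (hS.1 a).1
  have hT : ∀ z : N, z ∈ univ.filter (fun z : N => ∀ x, R x ≠ z) ↔ ∀ x, R x ≠ z := fun z => by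
    rw [mem_filter]
    exact and_iff_right (mem_univ z)
  have hD : DLHyp κ α α1 W G (univ.filter fun z : N => ∀ x, R x ≠ z) (lab G R)
      (fun y => α1 * ((lab G R y).card : ℝ)) Finset.card L0 κ := by
    refine ⟨le_refl κ, fun y _ w hw => ?_, fun y _ w hw hpos => ?_, fun X Y h => card_le_card h,
      fun X Y => card_union_le X Y, fun y _ => ?_, fun X hX hXc hXs j hj => ?_,
      fun X hX hXc hXl hXs j hj => ?_⟩
    · refine (ldet_sum hκ0 hα0 hW hw _).trans ?_
      exact mul_le_mul_of_nonneg_right hα.le (Nat.cast_nonneg _)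
    · refine (ldet_sum hκ0 hα0 hW hw _).trans_lt ?_
      refine mul_lt_mul_of_pos_right hα ?_
      rw [Nat.cast_pos, card_pos]
      by_contra hne
      rw [not_nonempty_iff_eq_empty] at hne
      rw [hne, sum_empty] at hpos
      exact lt_irrefl _ hpos
    · rw [card_singleton]
      omega
    · rw [ldet_wX]
      have h := (hG.2 X (fun a ha => (hT a).1 (hX ha)) hXc hXs j hj).1
      linear_combination h
    · rw [ldet_wX]
      have h := (hG.2 X (fun a ha => (hT a).1 (hX ha)) hXc hXs j hj).2 hXl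
      linear_combination h
  obtain ⟨φ, hφ1, hφ2⟩ := dl_graph hE hκ hα h1 hS G L0 _ _ _ _ _ hD
  have hlab : ∀ y : N, (∀ x, R x ≠ y) → ∀ x, G.Adj y (R x) → E (φ y) x := fun y hy x hyx => by
    refine hφ2 y ((hT y).2 hy) x ?_
    unfold lab
    exact mem_filter.2 ⟨mem_univ _, hyx⟩
  refine ⟨ldet_h R φ, fun x => ⟨R x, ldet_h_root hR φ x⟩, fun u v huv => ?_⟩
  by_cases hu : ∃ x, R x = u
  · obtain ⟨x, rfl⟩ := hu
    rw [ldet_h_root hR]
    by_cases hv : ∃ x, R x = v
    · obtain ⟨y, rfl⟩ := hv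
      exact absurd huv (hG.1 x y)
    · rw [ldet_h_non φ hv]
      exact hE _ _ (hlab v (fun y hy => hv ⟨y, hy⟩) x huv.symm)
  · rw [ldet_h_non φ hu]
    by_cases hv : ∃ x, R x = v
    · obtain ⟨y, rfl⟩ := hv
      rw [ldet_h_root hR]
      exact hlab u (fun y hy => hu ⟨y, hy⟩) y huv
    · rw [ldet_h_non φ hv]
      exact hφ1 u ((hT u).2 fun y hy => hu ⟨y, hy⟩) v ((hT v).2 fun y hy => hv ⟨y, hy⟩) huv

end Pool.MP_65847d_pr
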