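import Pool.Agent.Lib.MP_65847d_pr.X.LDefs2

/-!
# X/LHigh : colouring when every connected set has weight at least `α1`

Proof. Level `w = α ≥ κ`. For `y ∈ T` consider the one vertex forest `K = ⊥` on `Fin 1` with the labels `A y ∪ univ.filter (fun a => α ≤ W a)`.
A label with `α ≤ W a` costs `kap α W α a = max 0 (α - min (W a) α) = 0`, so the total cost is `≤ ∑_{a ∈ A y} kap α W α a ≤ g y ≤ 1 - α1` and the weight of
the only connected set (`U = {0}`; a connected induced graph is nonempty) is `≥ α + (1 - α - (1 - α1)) = α1 > α`: Rich. So there is a colour `φ y` with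
`α ≤ W (φ y)` which is adjacent to all of `A y` and to every colour of `{W ≥ α}`. For `x, y ∈ T` both `φ x`, `φ y` are in `{W ≥ α}`, hence `E (φ x) (φ y)`.
Outside `T` take any value (`[Nonempty V]`).
-/

set_option autoImplicit false

open Finset

namespace Pool.MP_65847d_pr

variable {N V : Type*} [Fintype N] [DecidableEq N] [Fintype V] [DecidableEq V]

theorem dl_colour_high [Nonempty V] {E : V → V → Prop} {κ α α1 : ℝ} (hκ : κ ≤ α) (hα : α < α1) {W : V → ℝ}
    (hS : StableFrom E κ α W) {T : Finset N} {A : N → Finset V} {g : N → ℝ}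
    (hcost : ∀ y ∈ T, ∑ a ∈ A y, kap α W α a ≤ g y) (hg : ∀ y ∈ T, g y ≤ 1 - α1) :
    ∃ φ : N → V, (∀ x ∈ T, ∀ y ∈ T, E (φ x) (φ y)) ∧ (∀ x ∈ T, α ≤ W (φ x)) ∧
      ∀ x ∈ T, ∀ a ∈ A x, E (φ x) a := by
  have key : ∀ y ∈ T, ∃ c : V, α ≤ W c ∧ ∀ a ∈ A y ∪ univ.filter (fun a => α ≤ W a), E c a := by
    intro y hy
    have hz : ∀ a ∈ univ.filter (fun a => α ≤ W a), kap α W α a = 0 := by
      intro a ha
      have h1 : α ≤ W a := (mem_filter.1 ha).2
      rw [kap, min_eq_right h1, sub_self, max_self]
    have hsum : ∑ a ∈ A y ∪ univ.filter (fun a => α ≤ W a), kap α W α a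
        = ∑ a ∈ A y, kap α W α a := by
      symm
      apply Finset.sum_subset subset_union_left
      intro a ha hna
      rcases mem_union.1 ha with h1 | h1
      · exact absurd h1 hna
      · exact hz a h1
    have hrich : Rich α W α (⊥ : SimpleGraph (Fin 1))
        (fun _ => A y ∪ univ.filter (fun a => α ≤ W a)) := by
      intro U hU
      obtain ⟨⟨u, hu⟩⟩ := hU.nonempty
      have hU1 : U = {u} := by
        ext v
        rw [mem_singleton]
        constructor
        · intro _; exact Subsingleton.elim _ _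
        · intro h; rw [h]; exact hu
      rw [wgt, hU1, sum_singleton, hsum]
      have := hcost y hy
      have := hg y hy
      linarith
    obtain ⟨φ, _, h2, h3⟩ := hS.2 α hκ 1 ⊥ (fun _ => A y ∪ univ.filter (fun a => α ≤ W a))
      SimpleGraph.isAcyclic_bot hrich
    exact ⟨φ 0, h2 0, h3 0⟩
  classical
  obtain ⟨v0⟩ := ‹Nonempty V›
  refine ⟨fun y => if h : y ∈ T then (key y h).choose else v0, ?_, ?_, ?_⟩
  · intro x hx y hy
    simp only [hx, hy, dif_pos]
    exact (key x hx).choose_spec.2 _ (mem_union_right _ (mem_filter.2 ⟨mem_univ _,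
      (key y hy).choose_spec.1⟩))
  · intro x hx
    simp only [hx, dif_pos]
    exact (key x hx).choose_spec.1
  · intro x hx a ha
    simp only [hx, dif_pos]
    exact (key x hx).choose_spec.2 a (mem_union_left _ ha)

end Pool.MP_65847d_pr
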