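import Pool.Agent.Lib.MP_65847d_pr.X.LDefs2

/-!
# X/LTree : colouring a minimal tree piece (level below `α1`)
-/

set_option autoImplicit false

open Finset

namespace Pool.MP_65847d_pr

theorem StableFrom.colours {V ι : Type*} [Fintype ι] {E : V → V → Prop} {κ α : ℝ} {W : V → ℝ}
    (hS : StableFrom E κ α W) {w : ℝ} (hw : κ ≤ w) (K : SimpleGraph ι) (A : ι → Finset V)
    (hK : K.IsAcyclic) (hR : Rich α W w K A) : Colours E W w K A := by
  classical
  have e : ι ≃ Fin (Fintype.card ι) := Fintype.equivFin ι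
  have hK' : (K.comap e.symm).IsAcyclic :=
    hK.comap (SimpleGraph.Hom.comap _ K) e.symm.injective
  have hR' : Rich α W w (K.comap e.symm) (fun i => A (e.symm i)) := by
    intro U hU
    have h1 : wgt α W w (fun i => A (e.symm i)) U = wgt α W w A (U.map e.symm.toEmbedding) := by
      unfold wgt
      rw [Finset.sum_map]
      rfl
    rw [h1]
    apply hR
    have hm : ∀ x : (U : Set (Fin (Fintype.card ι))),
        e.symm x.1 ∈ ((U.map e.symm.toEmbedding : Finset ι) : Set ι) := by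
      intro x
      rw [Finset.mem_coe, Finset.mem_map]
      exact ⟨x.1, x.2, rfl⟩
    let f : ((K.comap e.symm).induce (U : Set (Fin (Fintype.card ι)))) →g
        (K.induce ((U.map e.symm.toEmbedding : Finset ι) : Set ι)) :=
      { toFun := fun x => ⟨e.symm x.1, hm x⟩
        map_rel' := fun {a b} h => h }
    refine hU.map f ?_
    rintro ⟨y, hy⟩
    rw [Finset.mem_coe, Finset.mem_map] at hy
    obtain ⟨x, hx, rfl⟩ := hy
    exact ⟨⟨x, hx⟩, rfl⟩
  obtain ⟨φ, h1, h2, h3⟩ := hS.2 w hw _ (K.comap e.symm) (fun i => A (e.symm i)) hK' hR'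
  refine ⟨fun i => φ (e i), fun i j hij => ?_, fun i => h2 _, fun i a ha => ?_⟩
  · apply h1
    simpa using hij
  · apply h3
    simpa using ha

variable {N V : Type*} [Fintype N] [DecidableEq N] [Fintype V] [DecidableEq V]

theorem dl_colour_min {E : V → V → Prop} {κ α α1 : ℝ} (hα : α < α1) (h1 : α1 < 1) {W : V → ℝ}
    (hS : StableFrom E κ α W) {G : SimpleGraph N} {X : Finset N} {A : N → Finset V} {g : N → ℝ} {w : ℝ}
    (hw : κ ≤ w) (hw1 : w < α1) (hconn : LConn G X) (hac : (G.induce (X : Set N)).IsAcyclic)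
    (hcost : ∀ y ∈ X, ∑ a ∈ A y, kap α W w a ≤ g y)
    (hcost' : ∀ y ∈ X, 0 < ∑ a ∈ A y, kap α W w a → ∑ a ∈ A y, kap α W w a < g y)
    (hmin : ∀ U ⊆ X, LConn G U → w ≤ wX α1 g U) :
    ∃ φ : N → V, (∀ x ∈ X, ∀ y ∈ X, G.Adj x y → E (φ x) (φ y)) ∧ (∀ x ∈ X, w ≤ W (φ x)) ∧
      ∀ x ∈ X, ∀ a ∈ A x, E (φ x) a := by
  classical
  obtain ⟨x0⟩ := SimpleGraph.Connected.nonempty hconn
  have hR : Rich α W w (G.induce (X : Set N)) (fun y : (X : Set N) => A y.1) := by
    intro U hU
    have hm : ∀ x : (U : Set (X : Set N)),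
        x.1.1 ∈ ((U.map (Function.Embedding.subtype _) : Finset N) : Set N) := by
      intro x
      rw [Finset.mem_coe, Finset.mem_map]
      exact ⟨x.1, x.2, rfl⟩
    have hc : LConn G (U.map (Function.Embedding.subtype _)) := by
      let f : ((G.induce (X : Set N)).induce (U : Set (X : Set N))) →g
          (G.induce ((U.map (Function.Embedding.subtype _) : Finset N) : Set N)) :=
        { toFun := fun x => ⟨x.1.1, hm x⟩
          map_rel' := fun {a b} h => h }
      refine SimpleGraph.Connected.map f ?_ hU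
      rintro ⟨y, hy⟩
      rw [Finset.mem_coe, Finset.mem_map] at hy
      obtain ⟨x, hx, rfl⟩ := hy
      exact ⟨⟨x, hx⟩, rfl⟩
    have hsub : U.map (Function.Embedding.subtype _) ⊆ X := by
      intro y hy
      rw [Finset.mem_map] at hy
      obtain ⟨x, _, rfl⟩ := hy
      exact x.2
    have h2 := hmin _ hsub hc
    unfold wX at h2
    rw [Finset.sum_map] at h2
    have h3 : w ≤ α1 + ∑ y ∈ U, (1 - α1 - g y.1) := h2
    have hne : U.Nonempty := by
      obtain ⟨u⟩ := SimpleGraph.Connected.nonempty hU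
      exact ⟨u.1, u.2⟩
    have hpos : ∀ y : (X : Set N), 0 ≤ ∑ a ∈ A y.1, kap α W w a :=
      fun y => sum_nonneg fun a _ => le_max_left _ _
    have hdiff : wgt α W w (fun y : (X : Set N) => A y.1) U =
        α1 + ∑ y ∈ U, (1 - α1 - g y.1) + ((U.card : ℝ) - 1) * (α1 - α) +
          ∑ y ∈ U, (g y.1 - ∑ a ∈ A y.1, kap α W w a) := by
      unfold wgt
      have e1 : ∑ y ∈ U, (1 - α - ∑ a ∈ A y.1, kap α W w a) =
          ∑ y ∈ U, ((1 - α1 - g y.1) + (α1 - α) + (g y.1 - ∑ a ∈ A y.1, kap α W w a)) :=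
        sum_congr rfl fun y _ => by ring
      rw [e1, sum_add_distrib, sum_add_distrib, sum_const, nsmul_eq_mul]
      ring
    have hcard : (1 : ℝ) ≤ U.card := by exact_mod_cast hne.card_pos
    have hg : ∀ y ∈ U, 0 ≤ g y.1 - ∑ a ∈ A y.1, kap α W w a :=
      fun y _ => sub_nonneg.mpr (hcost y.1 y.2)
    by_cases hex : ∃ y ∈ U, 0 < ∑ a ∈ A y.1, kap α W w a
    · obtain ⟨y, hy, hy0⟩ := hex
      have h4 : 0 < ∑ y ∈ U, (g y.1 - ∑ a ∈ A y.1, kap α W w a) :=
        sum_pos' hg ⟨y, hy, sub_pos.mpr (hcost' y.1 y.2 hy0)⟩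
      have h5 : 0 ≤ ((U.card : ℝ) - 1) * (α1 - α) := mul_nonneg (by linarith) (by linarith)
      rw [hdiff]
      linarith
    · push Not at hex
      have hz : ∀ y ∈ U, ∑ a ∈ A y.1, kap α W w a = 0 := fun y hy => le_antisymm (hex y hy) (hpos y)
      rcases Nat.lt_or_ge 1 U.card with h6 | h6
      · have h7 : (2 : ℝ) ≤ U.card := by exact_mod_cast h6
        have h5 : 0 < ((U.card : ℝ) - 1) * (α1 - α) := mul_pos (by linarith) (by linarith)
        have h8 := sum_nonneg hg
        rw [hdiff]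
        linarith
      · have h7 : U.card = 1 := le_antisymm h6 hne.card_pos
        obtain ⟨y, hy⟩ := card_eq_one.mp h7
        have h8 : ∑ a ∈ A y.1, kap α W w a = 0 := hz y (by rw [hy]; exact mem_singleton_self _)
        have h9 : wgt α W w (fun y : (X : Set N) => A y.1) U = α + (1 - α - 0) := by
          unfold wgt
          rw [hy, sum_singleton]
          show α + (1 - α - ∑ a ∈ A y.1, kap α W w a) = _
          rw [h8]
        rw [h9]
        linarith
  obtain ⟨φ, p1, p2, p3⟩ := hS.colours hw _ _ hac hR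
  refine ⟨fun x => if h : x ∈ X then φ ⟨x, h⟩ else φ x0, ?_, ?_, ?_⟩
  · intro x hx y hy hxy
    simp only [dif_pos hx, dif_pos hy]
    exact p1 ⟨x, hx⟩ ⟨y, hy⟩ hxy
  · intro x hx
    simp only [dif_pos hx]
    exact p2 ⟨x, hx⟩
  · intro x hx a ha
    simp only [dif_pos hx]
    exact p3 ⟨x, hx⟩ a ha

end Pool.MP_65847d_pr
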