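import Pool.Agent.Lib.MP_65847d_pr.X.LStep
import Pool.Agent.Lib.MP_65847d_pr.X.LTree
import Pool.Agent.Lib.MP_65847d_pr.X.LHigh

/-!
# X/LDl : the deletion lemma for graphs

Proof by strong induction on `T.card` (generalising everything). `T = ∅`: any function. Otherwise the sets `X ⊆ T` with `LConn G X`, `s X ≤ 2 L0` are a nonempty finite family (`{y}`, `single`);
take `X` minimising `wX α1 g` (`Finset.exists_min_image` on `T.powerset.filter ..`), `w' = wX α1 g X`.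
* `α1 ≤ w'`: `dl_colour_high`. `hcost`: for `w := max w0 α` one has `kap α W w a = kap α W α a` (both sides are `α - W a` if `W a ≤ α`, and `0` if `W a ≥ α`), and `cost` holds at `w ≥ w0`.
  `hg`: `α1 ≤ w' ≤ wX α1 g {y} = α1 + (1 - α1 - g y)`.
* `w' < α1`: `X` is acyclic: `LConn.acyclic`, since `|X| + 1 ≤ e(X) + 1` would give `α1 ≤ w'` by `inv1` with `j = 1`. `w0 ≤ w'` (`inv1`, `j = 0`), so `κ ≤ w'`. `dl_colour_min` at `w = w'` (for `U ⊆ X`: `s U ≤ s X ≤ 2 L0` by `mono`)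
  gives `φ` on `X`. `dl_step` and the induction hypothesis for `T \ X` (smaller, `X` nonempty) give `h'` on `T \ X`. Put `h = φ` on `X`, `h = h'` elsewhere. An edge `y ~ x` with `x ∈ X`, `y ∈ T \ X`:
  `φ x ∈ stA A G X φ y`, so `E (h' y) (φ x)`; and `hE` for the other direction. Labels of `y ∈ T \ X`: `A y ⊆ stA ..`.
-/

set_option autoImplicit false

open Finset

namespace Pool.MP_65847d_pr

variable {N V : Type*} [Fintype N] [DecidableEq N] [Fintype V] [DecidableEq V]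

private lemma ldl_kap {α w : ℝ} (hw : α ≤ w) (W : V → ℝ) (a : V) : kap α W w a = kap α W α a := by
  unfold kap
  rcases le_total (W a) α with h | h
  · rw [min_eq_left h, min_eq_left (h.trans hw)]
  · rw [min_eq_right h, sub_self, max_self, max_eq_left]
    have : α ≤ min (W a) w := le_min h hw
    linarith

private lemma ldl_mem_stA (A : N → Finset V) (G : SimpleGraph N) (X : Finset N) (φ : N → V) {x y : N}
    (hx : x ∈ X) (h : G.Adj y x) : φ x ∈ stA A G X φ y := by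
  classical
  unfold stA
  exact mem_union_right _ (mem_image.2 ⟨x, mem_filter.2 ⟨hx, h⟩, rfl⟩)

private lemma ldl_sub_stA (A : N → Finset V) (G : SimpleGraph N) (X : Finset N) (φ : N → V) {y : N}
    {a : V} (h : a ∈ A y) : a ∈ stA A G X φ y := by
  unfold stA
  exact mem_union_left _ h

private lemma ldl_wX_single (α1 : ℝ) (g : N → ℝ) (y : N) : wX α1 g {y} = α1 + (1 - α1 - g y) := by
  unfold wX
  rw [sum_singleton]

private lemma ldl_glue {E : V → V → Prop} (hE : ∀ a b, E a b → E b a) (G : SimpleGraph N)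
    {T X : Finset N} (A : N → Finset V) {φ h' : N → V}
    (h1 : ∀ x ∈ X, ∀ y ∈ X, G.Adj x y → E (φ x) (φ y)) (h2 : ∀ x ∈ X, ∀ a ∈ A x, E (φ x) a)
    (h3 : ∀ x ∈ T \ X, ∀ y ∈ T \ X, G.Adj x y → E (h' x) (h' y))
    (h4 : ∀ x ∈ T \ X, ∀ a ∈ stA A G X φ x, E (h' x) a) :
    ∃ ψ : N → V, (∀ x ∈ T, ∀ y ∈ T, G.Adj x y → E (ψ x) (ψ y)) ∧ ∀ x ∈ T, ∀ a ∈ A x, E (ψ x) a := by
  refine ⟨fun z => if z ∈ X then φ z else h' z, fun x hx y hy hxy => ?_, fun x hx a ha => ?_⟩
  · by_cases hxX : x ∈ X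
    · by_cases hyX : y ∈ X
      · simp only [hxX, hyX, if_true]
        exact h1 x hxX y hyX hxy
      · simp only [hxX, hyX, if_true, if_false]
        exact hE _ _ (h4 y (mem_sdiff.2 ⟨hy, hyX⟩) _ (ldl_mem_stA A G X φ hxX hxy.symm))
    · by_cases hyX : y ∈ X
      · simp only [hxX, hyX, if_true, if_false]
        exact h4 x (mem_sdiff.2 ⟨hx, hxX⟩) _ (ldl_mem_stA A G X φ hyX hxy)
      · simp only [hxX, hyX, if_false]
        exact h3 x (mem_sdiff.2 ⟨hx, hxX⟩) y (mem_sdiff.2 ⟨hy, hyX⟩) hxy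
  · by_cases hxX : x ∈ X
    · simp only [hxX, if_true]
      exact h2 x hxX a ha
    · simp only [hxX, if_false]
      exact h4 x (mem_sdiff.2 ⟨hx, hxX⟩) a (ldl_sub_stA A G X φ ha)

private lemma ldl_main [Nonempty V] {E : V → V → Prop} (hE : ∀ a b, E a b → E b a) {κ α α1 : ℝ}
    (hκ : κ ≤ α) (hα : α < α1) (h1 : α1 < 1) {W : V → ℝ} (hS : StableFrom E κ α W)
    (G : SimpleGraph N) (L0 : ℕ) : ∀ (n : ℕ)
    (T : Finset N) (A : N → Finset V) (g : N → ℝ) (s : Finset N → ℕ) (w0 : ℝ), T.card = n →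
    DLHyp κ α α1 W G T A g s L0 w0 →
    ∃ φ : N → V, (∀ x ∈ T, ∀ y ∈ T, G.Adj x y → E (φ x) (φ y)) ∧ ∀ x ∈ T, ∀ a ∈ A x, E (φ x) a := by
  classical
  intro n
  induction n using Nat.strong_induction_on with
  | _ n ih =>
    intro T A g s w0 hT h
    rcases T.eq_empty_or_nonempty with rfl | ⟨y0, hy0⟩
    · exact ⟨fun _ => Classical.arbitrary V, fun x hx => absurd hx (notMem_empty x),
        fun x hx => absurd hx (notMem_empty x)⟩
    have hsing : ∀ y ∈ T, LConn G {y} ∧ s {y} ≤ 2 * L0 := fun y hy =>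
      ⟨LConn.singleton G y, by have := h.single y hy; omega⟩
    obtain ⟨X, hXm, hXmin⟩ := exists_min_image
      (T.powerset.filter fun X => LConn G X ∧ s X ≤ 2 * L0) (wX α1 g)
      ⟨{y0}, mem_filter.2 ⟨mem_powerset.2 (singleton_subset_iff.2 hy0), hsing y0 hy0⟩⟩
    rw [mem_filter, mem_powerset] at hXm
    obtain ⟨hXT, hXc, hXs⟩ := hXm
    have hmin : ∀ Y ⊆ T, LConn G Y → s Y ≤ 2 * L0 → wX α1 g X ≤ wX α1 g Y := fun Y hY hYc hYs =>
      hXmin Y (mem_filter.2 ⟨mem_powerset.2 hY, hYc, hYs⟩)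
    rcases le_or_gt α1 (wX α1 g X) with hge | hlt
    · obtain ⟨φ, hφ1, -, hφ3⟩ := dl_colour_high (T := T) (A := A) (g := g) hκ hα hS (fun y hy => by
        have := h.cost y hy (max w0 α) (le_max_left _ _)
        simp only [ldl_kap (le_max_right w0 α)] at this
        exact this) (fun y hy => by
        have h2 := hmin {y} (singleton_subset_iff.2 hy) (hsing y hy).1 (hsing y hy).2
        rw [ldl_wX_single] at h2
        linarith)
      exact ⟨φ, fun x hx y hy _ => hφ1 x hx y hy, hφ3⟩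
    · have hac : (G.induce (X : Set N)).IsAcyclic := hXc.acyclic (fun hcard => by
        have := h.inv1 X hXT hXc hXs 1 hcard
        rw [Nat.cast_one] at this
        linarith)
      have hw0 : w0 ≤ wX α1 g X := by
        have := h.inv1 X hXT hXc hXs 0 hXc.card_le
        rw [Nat.cast_zero] at this
        linarith
      obtain ⟨φ, hφ1, hφ2, hφ3⟩ := dl_colour_min (g := g) (A := A) hα h1 hS (h.hκ.trans hw0) hlt hXc hac
        (fun y hy => h.cost y (hXT hy) _ hw0) (fun y hy => h.cost' y (hXT hy) _ hw0)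
        (fun U hU hUc => hmin U (hU.trans hXT) hUc ((h.mono U X hU).trans hXs))
      have hstep := dl_step hα h1 h hXT hXc hXs hmin hlt hφ2
      have hcard : (T \ X).card < n := by
        rw [← hT]
        refine card_lt_card ⟨sdiff_subset, fun hsub => ?_⟩
        obtain ⟨x, hx⟩ := hXc.nonempty
        exact (mem_sdiff.1 (hsub (hXT hx))).2 hx
      obtain ⟨h', hh1, hh2⟩ := ih _ hcard (T \ X) _ _ _ _ rfl hstep
      exact ldl_glue hE G A hφ1 hφ3 hh1 hh2

theorem dl_graph [Nonempty V] {E : V → V → Prop} (hE : ∀ a b, E a b → E b a) {κ α α1 : ℝ} (hκ : κ ≤ α)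
    (hα : α < α1) (h1 : α1 < 1) {W : V → ℝ} (hS : StableFrom E κ α W) (G : SimpleGraph N) (L0 : ℕ)
    (T : Finset N) (A : N → Finset V) (g : N → ℝ) (s : Finset N → ℕ) (w0 : ℝ)
    (h : DLHyp κ α α1 W G T A g s L0 w0) :
    ∃ φ : N → V, (∀ x ∈ T, ∀ y ∈ T, G.Adj x y → E (φ x) (φ y)) ∧ ∀ x ∈ T, ∀ a ∈ A x, E (φ x) a :=
  ldl_main hE hκ hα h1 hS G L0 T.card T A g s w0 rfl h

end Pool.MP_65847d_pr
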