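import Pool.Agent.Lib.MP_65847d_pr.X.LDefs3

/-!
# X/LHarris : Harris' inequality for decreasing events

Proof. For two functions: Mathlib `fkg` (Mathlib/Combinatorics/SetFamily/FourFunctions.lean) on the distributive lattice `ι → Bool` with `μ = wt p`:
`wt p a * wt p b = wt p (a ⊓ b) * wt p (a ⊔ b)` (pointwise product over `i`: for each `i` the pair `(a i, b i)` and `(a i ⊓ b i, a i ⊔ b i)` agree up to order), `∑ wt = 1` (`sum_wt`). With the increasing functions `1 - ind (A ω)`, `1 - ind (B ω)`: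
`(1 - Pr A)(1 - Pr B) ≤ Ex ((1 - ind A)(1 - ind B)) = 1 - Pr A - Pr B + Pr (A ∧ B)`, so `Pr A * Pr B ≤ Pr (A ∧ B)`. (`ω ≤ ω'` in `ι → Bool` means `ω i = true → ω' i = true`, `Bool.le_iff_imp`.)
Then induction over the finset `s` (the event `∀ k ∈ s, A k` is decreasing; `Pr` of the always true event is `1`).
-/

set_option autoImplicit false

open Finset

namespace Pool.MP_65847d_pr

open Pool.MP_1bacea_co

private lemma harris_wt {ι : Type*} [Fintype ι] (p : ℝ) (a b : ι → Bool) :
    wt p a * wt p b = wt p (a ⊓ b) * wt p (a ⊔ b) := by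
  unfold wt
  rw [← prod_mul_distrib, ← prod_mul_distrib]
  refine prod_congr rfl fun i _ => ?_
  have h : ∀ x y : Bool, ((if x = true then p else 1 - p) * if y = true then p else 1 - p) =
      (if (x ⊓ y : Bool) = true then p else 1 - p) * if (x ⊔ y : Bool) = true then p else 1 - p := by
    intro x y
    cases x <;> cases y <;> simp [mul_comm]
  exact h (a i) (b i)

private lemma harris_two {ι : Type*} [Fintype ι] [DecidableEq ι] {p : ℝ} (h0 : 0 ≤ p) (h1 : p ≤ 1)
    (A B : (ι → Bool) → Prop)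
    (hA : ∀ ω ω' : ι → Bool, (∀ i, ω i = true → ω' i = true) → A ω' → A ω)
    (hB : ∀ ω ω' : ι → Bool, (∀ i, ω i = true → ω' i = true) → B ω' → B ω) :
    Pr p A * Pr p B ≤ Pr p (fun ω => A ω ∧ B ω) := by
  have hmono : ∀ C : (ι → Bool) → Prop,
      (∀ ω ω' : ι → Bool, (∀ i, ω i = true → ω' i = true) → C ω' → C ω) →
      Monotone (fun ω : ι → Bool => ind (¬ C ω)) := by
    intro C hC ω ω' hle
    refine ind_mono fun h h' => h (hC ω ω' ?_ h')
    intro i hi
    exact (Bool.le_iff_imp.mp (hle i)) hi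
  have key := fkg (α := ι → Bool) (β := ℝ) (μ := wt p) (f := fun ω => ind (¬ A ω)) (g := fun ω => ind (¬ B ω))
    (fun ω => wt_nonneg h0 h1 ω) (fun ω => ind_nonneg _) (fun ω => ind_nonneg _)
    (hmono A hA) (hmono B hB) (fun a b => (harris_wt p a b).le)
  rw [sum_wt, one_mul] at key
  have e1 : (∑ a : ι → Bool, wt p a * ind (¬ A a)) = 1 - Pr p A := by
    rw [← Pr_not]; rfl
  have e2 : (∑ a : ι → Bool, wt p a * ind (¬ B a)) = 1 - Pr p B := by
    rw [← Pr_not]; rfl
  have e3 : (∑ a : ι → Bool, wt p a * (ind (¬ A a) * ind (¬ B a))) =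
      1 - Pr p A - Pr p B + Pr p (fun ω => A ω ∧ B ω) := by
    have h : ∀ ω : ι → Bool, ind (¬ A ω) * ind (¬ B ω) + ind (A ω) + ind (B ω) =
        1 + ind (A ω ∧ B ω) := by
      intro ω
      by_cases ha : A ω <;> by_cases hb : B ω <;> simp [ind, ha, hb]
    have h2 : (∑ a : ι → Bool, wt p a * (ind (¬ A a) * ind (¬ B a))) + Pr p A + Pr p B =
        1 + Pr p (fun ω => A ω ∧ B ω) := by
      have h3 : (1 : ℝ) = Ex (ι := ι) p (fun _ => 1) := (Ex_const p 1).symm
      rw [h3]
      unfold Pr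
      rw [← Ex_add]
      have : (fun ω : ι → Bool => 1 + ind (A ω ∧ B ω)) =
          fun ω => ind (¬ A ω) * ind (¬ B ω) + ind (A ω) + ind (B ω) := by
        funext ω; exact (h ω).symm
      rw [this, Ex_add, Ex_add]
      rfl
    linarith
  rw [e1, e2, e3] at key
  linarith

theorem Pr_harris {ι κ : Type*} [Fintype ι] [DecidableEq ι] {p : ℝ} (h0 : 0 ≤ p) (h1 : p ≤ 1) (s : Finset κ)
    (A : κ → (ι → Bool) → Prop)
    (hA : ∀ k ∈ s, ∀ ω ω' : ι → Bool, (∀ i, ω i = true → ω' i = true) → A k ω' → A k ω) :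
    ∏ k ∈ s, Pr p (A k) ≤ Pr p (fun ω => ∀ k ∈ s, A k ω) := by
  classical
  induction s using Finset.induction_on with
  | empty =>
    have : Pr p (fun ω : ι → Bool => ∀ k ∈ (∅ : Finset κ), A k ω) = 1 := by
      unfold Pr
      have h : (fun ω : ι → Bool => ind (∀ k ∈ (∅ : Finset κ), A k ω)) = fun _ => 1 := by
        funext ω
        exact ind_true (by simp)
      rw [h, Ex_const]
    rw [this, prod_empty]
  | insert a s ha ih =>
    rw [prod_insert ha]
    have h2 := ih (fun k hk => hA k (mem_insert_of_mem hk))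
    have h3 := harris_two h0 h1 (A a) (fun ω => ∀ k ∈ s, A k ω) (hA a (mem_insert_self _ _))
      (fun ω ω' h hA' k hk => hA k (mem_insert_of_mem hk) ω ω' h (hA' k hk))
    refine (mul_le_mul_of_nonneg_left h2 (Pr_nonneg h0 h1 _)).trans (h3.trans ?_)
    refine Pr_mono h0 h1 fun ω hω k hk => ?_
    rcases mem_insert.mp hk with rfl | hk
    · exact hω.1
    · exact hω.2 k hk

end Pool.MP_65847d_pr
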