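import Pool.Agent.Lib.MP_65847d_pr.X.LDefs3
import Pool.Agent.Lib.MP_1bacea_co.UnionD

/-!
# X/LMix : conditioning on a set of bits

`Ex_mix`: resample the bits outside `I`. Proof: as `Ex_thin` in Maximal.lean: `f = ∑_τ f τ * [· = τ]`, and `Ex p (ω ↦ Ex p (ω' ↦ [mix ω ω' = τ])) = ∏_i (if τ i then p else 1 - p) = wt p τ`: the indicator of `mix ω ω' = τ` is the product of
`∏_{i ∈ I} [ω i = τ i]` and `∏_{i ∉ I} [ω' i = τ i]`; `Ex_prod` twice.

`Pr_all_cond_le`: by `Ex_mix` the probability is `Ex p (ω ↦ Ex p (ω' ↦ ind (S (mix ω ω') ∧ ∀ k, D k (mix ω ω'))))`. `S (mix ω ω') ↔ S ω` by `hS`. If `¬ S ω` the inner expectation is `0 ≤ x ^ m`. If `S ω`: the indicator is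
`∏_k ind (D k (mix ω ω'))` (`≤` suffices) and `ω' ↦ ind (D k (mix ω ω'))` depends only on `J k` (`hD`; `mix ω ω'` and `mix ω ω''` agree on `I` always); `ud_Ex_prod_indep` (MP_1bacea_co/UnionD.lean) gives `∏_k Pr p (D k (mix ω ·)) ≤ x ^ m`
(`Finset.prod_le_pow_card` / `prod_le_prod`). Finally `Ex_mono` and `Ex_const`.
-/

set_option autoImplicit false

open Finset

namespace Pool.MP_65847d_pr

open Pool.MP_1bacea_co

/-- bits of `ω` in `I`, of `ω'` outside -/
def mixI {ι : Type*} [DecidableEq ι] (I : Finset ι) (ω ω' : ι → Bool) : ι → Bool :=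
  fun i => if i ∈ I then ω i else ω' i

variable {ι : Type*} [Fintype ι] [DecidableEq ι]

theorem Ex_mix (p : ℝ) (I : Finset ι) (f : (ι → Bool) → ℝ) :
    Ex p f = Ex p fun ω => Ex p fun ω' => f (mixI I ω ω') := by
  let e : ((ι → Bool) × (ι → Bool)) ≃ ((ι → Bool) × (ι → Bool)) :=
    { toFun := fun q => (mixI I q.1 q.2, mixI I q.2 q.1)
      invFun := fun q => (mixI I q.1 q.2, mixI I q.2 q.1)
      left_inv := by
        rintro ⟨a, b⟩
        ext i <;> by_cases hi : i ∈ I <;> simp [mixI, hi]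
      right_inv := by
        rintro ⟨a, b⟩
        ext i <;> by_cases hi : i ∈ I <;> simp [mixI, hi] }
  have hwt : ∀ a b : ι → Bool, wt p (mixI I a b) * wt p (mixI I b a) = wt p a * wt p b := by
    intro a b
    unfold wt
    rw [← prod_mul_distrib, ← prod_mul_distrib]
    refine prod_congr rfl fun i _ => ?_
    by_cases hi : i ∈ I
    · simp [mixI, hi]
    · simp [mixI, hi, mul_comm]
  have h1 : (Ex p fun ω => Ex p fun ω' => f (mixI I ω ω')) =
      ∑ q : (ι → Bool) × (ι → Bool), (wt p q.1 * wt p q.2) * f (mixI I q.1 q.2) := by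
    unfold Ex
    rw [Fintype.sum_prod_type]
    refine sum_congr rfl fun a _ => ?_
    rw [mul_sum]
    exact sum_congr rfl fun b _ => by ring
  have h2 : Ex p f = ∑ q : (ι → Bool) × (ι → Bool), (wt p q.1 * f q.1) * wt p q.2 := by
    rw [Fintype.sum_prod_type]
    simp_rw [← mul_sum, sum_wt, mul_one]
    rfl
  rw [h1, h2, ← Equiv.sum_comp e]
  refine sum_congr rfl fun q _ => ?_
  obtain ⟨a, b⟩ := q
  show (wt p (mixI I a b) * f (mixI I a b)) * wt p (mixI I b a) = (wt p a * wt p b) * f (mixI I a b)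
  rw [← hwt a b]
  ring

theorem Pr_all_cond_le {p : ℝ} (h0 : 0 ≤ p) (h1 : p ≤ 1) (I : Finset ι) (m : ℕ) (J : Fin m → Set ι)
    (hJ : ∀ k l, k ≠ l → Disjoint (J k) (J l)) (S : (ι → Bool) → Prop)
    (hS : ∀ ω ω' : ι → Bool, (∀ i ∈ I, ω i = ω' i) → (S ω ↔ S ω')) (D : Fin m → (ι → Bool) → Prop)
    (hD : ∀ k, ∀ ω ω' : ι → Bool, (∀ i, i ∈ I ∨ i ∈ J k → ω i = ω' i) → (D k ω ↔ D k ω')) {x : ℝ} (hx : 0 ≤ x)
    (hc : ∀ ω, S ω → ∀ k, Pr p (fun ω' => D k (mixI I ω ω')) ≤ x) :
    Pr p (fun ω => S ω ∧ ∀ k, D k ω) ≤ x ^ m := by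
  unfold Pr
  rw [Ex_mix p I]
  have hmem : ∀ (ω ω' : ι → Bool), ∀ i ∈ I, mixI I ω ω' i = ω i := by
    intro ω ω' i hi
    simp [mixI, hi]
  have key : ∀ ω : ι → Bool,
      (Ex p fun ω' => ind (S (mixI I ω ω') ∧ ∀ k, D k (mixI I ω ω'))) ≤ x ^ m := by
    intro ω
    by_cases hSω : S ω
    · have hle : (Ex p fun ω' => ind (S (mixI I ω ω') ∧ ∀ k, D k (mixI I ω ω'))) ≤
          Ex p fun ω' => ∏ k ∈ (univ : Finset (Fin m)), ind (D k (mixI I ω ω')) := by
        refine Ex_mono h0 h1 fun ω' => ?_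
        by_cases hD' : ∀ k, D k (mixI I ω ω')
        · rw [prod_congr rfl (fun k _ => ind_true (hD' k)), prod_const_one]
          exact ind_le_one _
        · rw [ind_false (fun h => hD' h.2)]
          exact prod_nonneg fun k _ => ind_nonneg _
      refine hle.trans ?_
      rw [ud_Ex_prod_indep p J (fun k ω' => ind (D k (mixI I ω ω'))) univ
        (fun a _ b _ hab => hJ a b hab)
        (fun k _ ω₁ ω₂ h => by
          have : D k (mixI I ω ω₁) ↔ D k (mixI I ω ω₂) := by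
            refine hD k _ _ ?_
            intro i hi
            by_cases hiI : i ∈ I
            · simp [mixI, hiI]
            · rcases hi with hi | hi
              · exact absurd hi hiI
              · simp [mixI, hiI, h i hi]
          simp only [this])]
      calc ∏ k ∈ (univ : Finset (Fin m)), Ex p (fun ω' => ind (D k (mixI I ω ω')))
          ≤ ∏ k ∈ (univ : Finset (Fin m)), x :=
            prod_le_prod (fun k _ => Pr_nonneg h0 h1 _) (fun k _ => hc ω hSω k)
        _ = x ^ m := by simp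
    · have h : (fun ω' : ι → Bool => ind (S (mixI I ω ω') ∧ ∀ k, D k (mixI I ω ω'))) = fun _ => 0 := by
        funext ω'
        apply ind_false
        rintro ⟨h, -⟩
        exact hSω ((hS (mixI I ω ω') ω (hmem ω ω')).mp h)
      rw [h, Ex_const]
      exact pow_nonneg hx m
  have h3 := Ex_mono h0 h1 key
  rwa [Ex_const] at h3

end Pool.MP_65847d_pr
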