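import Pool.Agent.Lib.MP_65847d_pr.X.LDefs3

/-!
# X/LNum1 : the first moment numbers for fixed size `t`

`NumH`: `n ≥ 3`, `L = log n ≥ 1`, `κ = log L / L` (so `n ^ κ = L`), `α1 = α + log (1/σ) / L` (so `n ^ (-α1) = σ n ^ (-α)`), `p ≤ σ^2 n^(-α) = σ n^(-α1)`, `B = Bc r = e^5 2^r ≥ 1`, `B σ ≤ e^(-6)` (so `σ ≤ 1`), `L0 = ⌈L⌉₊`.

* `fm_i`: with `M = t - 1 + j + a` (a natural number, `t ≥ 1`, cast `(M:ℝ) = t - 1 + j + a`): `p^M ≤ σ^M n^(-α1 M)` and `n^t n^(-α1 M) = n^(t - α1 M) ≤ n^(-(j-1)κ) = L^(1 - j) = L / L^j` (rpow with base `n ≥ 1` is monotone in the exponent;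
  `n^(-(j-1) κ) = exp (-(j-1) log L)`). `σ^M = σ^(t-1+a) σ^j`.
* `fm_ii`: same with `n^(2 - j κ) = n^2 / L^j`.
* `row_I`: `fm ≤ e^t L C(t²,j) (σ/L)^j C(rt,a) σ^(t-1+a)`. Sum over `j`: `∑_{j ≤ t²} C(t²,j) (σ/L)^j = (1 + σ/L)^(t²) ≤ exp (t² σ / L) ≤ exp (4 t)` (`add_pow`; `t ≤ 2 L0 ≤ 2 (L + 1) ≤ 4 L`, `σ ≤ 1`; `Real.add_one_le_exp`). Sum over `a` : `σ^a ≤ 1`, `∑_{a ≤ rt} C(rt,a) = 2^(rt)`
  (`Nat.sum_range_choose`). Total `L e^(5t) 2^(rt) σ^(t-1) = L B^t σ^(t-1) = L (B (Bσ)^(t-1))`.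
* `row_I1`: `a ≥ 1`: `σ^(t-1+a) ≤ σ^t`, total `L (Bσ)^t`.
* `Vi_two_le`: `Vi κ α1 t j 0`, `t ≥ 1` implies `j ≥ 2` : `j = 0`: `t - α1 (t-1) ≥ α1 > κ` since `t (1 - α1) ≥ 0`, `κ ≤ α < α1`; `j = 1`: `t - α1 t ≥ 0`.
* `row_I0`: `C(N,j) ≤ N² C(N,j-2)` for `j ≥ 2` (from `Nat.choose_succ_right_eq` or `Nat.choose_mul_..`; e.g. `C(N,j) ≤ N C(N,j-1) ≤ N² C(N,j-2)`, as `C(N,j) * j = C(N,j-1) (N-j+1)`), so `∑_{2 ≤ j ≤ t²} C(t²,j) y^j ≤ t⁴ y² (1+y)^(t²) ≤ t⁴ (σ/L)² e^(4t)`. Total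
  `e^t L σ^(t-1) t⁴ (σ/L)² e^(4t) = t⁴ e^(5t) σ^(t+1) / L ≤ t⁴ σ (Bσ)^t / L`.
* `row_II`: `Vii`: `n² B (Bσ)^(t-1)`.
-/

set_option autoImplicit false

open Finset

namespace Pool.MP_65847d_pr

open Pool.MP_1bacea_co

noncomputable def Bc (r : ℕ) : ℝ := Real.exp 5 * 2 ^ r

structure NumH (n r : ℕ) (σ α α1 κ p : ℝ) (L0 : ℕ) : Prop where
  hn : 3 ≤ n
  hσ : 0 < σ
  hBσ : Bc r * σ ≤ Real.exp (-6)
  hκ : κ = Real.log (Real.log n) / Real.log n
  hα1 : α1 = α + Real.log (1 / σ) / Real.log n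
  hα : 0 < α
  hκα : κ ≤ α
  h1 : α1 < 1
  hL0 : L0 = ⌈Real.log n⌉₊
  p0 : 0 ≤ p
  hp : p ≤ σ ^ 2 * (n : ℝ) ^ (-α)

variable {n r : ℕ} {σ α α1 κ p : ℝ} {L0 : ℕ}

theorem NumH.log_ge (h : NumH n r σ α α1 κ p L0) : 1 ≤ Real.log n := by
  have h1 : (3 : ℝ) ≤ n := by exact_mod_cast h.hn
  rw [Real.le_log_iff_exp_le (by linarith)]
  linarith [Real.exp_one_lt_d9]

private theorem lnum1_Bc (r : ℕ) : 1 ≤ Bc r := by
  unfold Bc
  have h1 : (1 : ℝ) ≤ Real.exp 5 := Real.one_le_exp (by norm_num)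
  have h2 : (1 : ℝ) ≤ 2 ^ r := one_le_pow₀ (by norm_num)
  nlinarith

private theorem lnum1_Bc_pow (r t : ℕ) : Bc r ^ t = Real.exp (5 * t) * 2 ^ (r * t) := by
  unfold Bc
  rw [mul_pow, ← Real.exp_nat_mul, ← pow_mul]
  congr 2
  ring

theorem NumH.σ_lt (h : NumH n r σ α α1 κ p L0) : σ < 1 := by
  have h1 := lnum1_Bc r
  have h2 := h.hBσ
  have h3 := h.hσ
  have h4 : Real.exp (-6) < 1 := by
    rw [Real.exp_lt_one_iff]
    norm_num
  nlinarith

theorem NumH.lt (h : NumH n r σ α α1 κ p L0) : α < α1 := by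
  have h1 := h.log_ge
  have h2 := h.σ_lt
  have h3 := h.hσ
  rw [h.hα1]
  have h4 : 0 < Real.log (1 / σ) := Real.log_pos (by rw [lt_div_iff₀ h3]; linarith)
  have h5 : 0 < Real.log (1 / σ) / Real.log n := div_pos h4 (by linarith)
  linarith

private theorem lnum1_n (h : NumH n r σ α α1 κ p L0) : (3 : ℝ) ≤ n := by exact_mod_cast h.hn

private theorem lnum1_pα1 (h : NumH n r σ α α1 κ p L0) :
    (n : ℝ) ^ (-α1) = σ * (n : ℝ) ^ (-α) := by
  have h0 := lnum1_n h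
  have h1 := h.log_ge
  have h3 := h.hσ
  have hL : Real.log n ≠ 0 := by linarith
  rw [Real.rpow_def_of_pos (by linarith), Real.rpow_def_of_pos (by linarith), h.hα1]
  have h4 : Real.log n * -(α + Real.log (1 / σ) / Real.log n)
      = Real.log σ + Real.log n * -α := by
    rw [one_div, Real.log_inv]
    field_simp
    ring
  rw [h4, Real.exp_add, Real.exp_log h3]

private theorem lnum1_p (h : NumH n r σ α α1 κ p L0) : p ≤ σ * (n : ℝ) ^ (-α1) := by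
  rw [lnum1_pα1 h]
  have h1 := h.hp
  nlinarith

private theorem lnum1_logκ (h : NumH n r σ α α1 κ p L0) :
    Real.log n * κ = Real.log (Real.log n) := by
  have h1 := h.log_ge
  rw [h.hκ]
  field_simp

/-- the general form of the first moment inequality -/
private theorem lnum1_gen (h : NumH n r σ α α1 κ p L0) {t j a : ℕ} (ht : 1 ≤ t) {E : ℝ}
    (hE : (t : ℝ) - α1 * ((t : ℝ) - 1 + j + a) ≤ E) :
    (n : ℝ) ^ t * p ^ (t - 1 + j + a) ≤ (n : ℝ) ^ E * (σ ^ j * σ ^ (t - 1 + a)) := by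
  have h0 := lnum1_n h
  have hn0 : (0 : ℝ) < n := by linarith
  have h3 := h.hσ
  have h4 := pow_le_pow_left₀ h.p0 (lnum1_p h) (t - 1 + j + a)
  have h5 : (n : ℝ) ^ t * (σ * (n : ℝ) ^ (-α1)) ^ (t - 1 + j + a)
      = (n : ℝ) ^ ((t : ℝ) - α1 * ((t : ℝ) - 1 + j + a)) * (σ ^ j * σ ^ (t - 1 + a)) := by
    rw [mul_pow, ← Real.rpow_natCast ((n : ℝ) ^ (-α1)), ← Real.rpow_mul hn0.le,
      ← Real.rpow_natCast (n : ℝ) t, ← pow_add]
    have h6 : ((t - 1 + j + a : ℕ) : ℝ) = (t : ℝ) - 1 + j + a := by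
      push_cast [Nat.cast_sub ht]
      ring
    have h7 : (n : ℝ) ^ (t : ℝ) * (n : ℝ) ^ (-α1 * ((t - 1 + j + a : ℕ) : ℝ))
        = (n : ℝ) ^ ((t : ℝ) - α1 * ((t : ℝ) - 1 + j + a)) := by
      rw [← Real.rpow_add hn0, h6]
      congr 1
      ring
    rw [← h7, show j + (t - 1 + a) = t - 1 + j + a by omega]
    ring
  calc (n : ℝ) ^ t * p ^ (t - 1 + j + a)
      ≤ (n : ℝ) ^ t * (σ * (n : ℝ) ^ (-α1)) ^ (t - 1 + j + a) :=
        mul_le_mul_of_nonneg_left h4 (by positivity)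
    _ = _ := h5
    _ ≤ (n : ℝ) ^ E * (σ ^ j * σ ^ (t - 1 + a)) :=
        mul_le_mul_of_nonneg_right (Real.rpow_le_rpow_of_exponent_le (by linarith) hE)
          (by positivity)

private theorem lnum1_rpow (h : NumH n r σ α α1 κ p L0) (m : ℕ) (j : ℕ) :
    (n : ℝ) ^ ((m : ℝ) - (j : ℝ) * κ) = (n : ℝ) ^ m / Real.log n ^ j := by
  have h0 := lnum1_n h
  have h1 := h.log_ge
  have hn0 : (0 : ℝ) < n := by linarith
  rw [Real.rpow_sub hn0, Real.rpow_natCast, Real.rpow_def_of_pos hn0 ((j : ℝ) * κ)]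
  have h2 : Real.log n * ((j : ℝ) * κ) = (j : ℝ) * Real.log (Real.log n) := by
    rw [← lnum1_logκ h]
    ring
  rw [h2, Real.exp_nat_mul, Real.exp_log (by linarith)]

theorem fm_i (h : NumH n r σ α α1 κ p L0) {t j a : ℕ} (ht : 1 ≤ t) (hv : Vi κ α1 t j a) :
    (n : ℝ) ^ t * p ^ (t - 1 + j + a) ≤ Real.log n * (σ / Real.log n) ^ j * σ ^ (t - 1 + a) := by
  have h0 := lnum1_n h
  have h1 := h.log_ge
  have hn0 : (0 : ℝ) < n := by linarith
  refine (lnum1_gen h ht (le_of_lt hv)).trans (le_of_eq ?_)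
  have h2 : (n : ℝ) ^ (-(((j : ℝ) - 1) * κ)) = Real.log n / Real.log n ^ j := by
    have h3 : -(((j : ℝ) - 1) * κ) = κ + (((0 : ℕ) : ℝ) - (j : ℝ) * κ) := by
      push_cast
      ring
    rw [h3, Real.rpow_add hn0, lnum1_rpow h, Real.rpow_def_of_pos hn0 κ, lnum1_logκ h,
      Real.exp_log (by linarith), pow_zero]
    ring
  rw [h2, div_pow]
  ring

theorem fm_ii (h : NumH n r σ α α1 κ p L0) {t j a : ℕ} (ht : 1 ≤ t) (hv : Vii κ α1 L0 t j a) :
    (n : ℝ) ^ t * p ^ (t - 1 + j + a) ≤ (n : ℝ) ^ 2 * (σ / Real.log n) ^ j * σ ^ (t - 1 + a) := by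
  refine (lnum1_gen h ht (le_of_lt hv.2)).trans (le_of_eq ?_)
  have h2 := lnum1_rpow h 2 j
  rw [show ((2 : ℕ) : ℝ) = 2 by norm_num] at h2
  rw [h2, div_pow]
  ring

/-- one term -/
private theorem lnum1_term (h : NumH n r σ α α1 κ p L0) {t j a : ℕ} {A : ℝ} (hA : 0 ≤ A)
    {P : Prop} (hP : P → (n : ℝ) ^ t * p ^ (t - 1 + j + a) ≤
      A * (σ / Real.log n) ^ j * σ ^ (t - 1 + a)) :
    ind P * fm n r p t j a ≤ (A * Real.exp t) * (((t ^ 2).choose j : ℝ) * (σ / Real.log n) ^ j) *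
      (((r * t).choose a : ℝ) * σ ^ (t - 1 + a)) := by
  have h1 := h.log_ge
  have h3 := h.hσ
  have hL : 0 < Real.log n := by linarith
  have hexp := Real.exp_pos (t : ℝ)
  by_cases hp : P
  · rw [ind_true hp, one_mul]
    unfold fm
    have h4 := mul_le_mul_of_nonneg_right (hP hp)
      (show 0 ≤ Real.exp t * ((t ^ 2).choose j : ℝ) * ((r * t).choose a : ℝ) by positivity)
    calc (n : ℝ) ^ t * Real.exp t * ((t ^ 2).choose j : ℝ) * ((r * t).choose a : ℝ)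
          * p ^ (t - 1 + j + a)
        = (n : ℝ) ^ t * p ^ (t - 1 + j + a) *
          (Real.exp t * ((t ^ 2).choose j : ℝ) * ((r * t).choose a : ℝ)) := by ring
      _ ≤ _ := h4
      _ = _ := by ring
  · rw [ind_false hp, zero_mul]
    positivity

private theorem lnum1_sum_j (h : NumH n r σ α α1 κ p L0) {t : ℕ} (ht2 : t ≤ 2 * L0) :
    (1 + σ / Real.log n) ^ (t ^ 2) ≤ Real.exp (4 * t) := by
  have h1 := h.log_ge
  have h2 := h.σ_lt
  have h3 := h.hσ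
  have hL : 0 < Real.log n := by linarith
  have h4 : (t : ℝ) ≤ 4 * Real.log n := by
    have h5 : (t : ℝ) ≤ 2 * L0 := by exact_mod_cast ht2
    have h6 : (L0 : ℝ) < Real.log n + 1 := by
      rw [h.hL0]
      exact Nat.ceil_lt_add_one hL.le
    linarith
  have h5 : 1 + σ / Real.log n ≤ Real.exp (σ / Real.log n) := by
    linarith [Real.add_one_le_exp (σ / Real.log n)]
  have h6 : 0 ≤ σ / Real.log n := (div_pos h3 hL).le
  calc (1 + σ / Real.log n) ^ (t ^ 2) ≤ Real.exp (σ / Real.log n) ^ (t ^ 2) :=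
        pow_le_pow_left₀ (by linarith) h5 _
    _ = Real.exp ((t ^ 2 : ℕ) * (σ / Real.log n)) := (Real.exp_nat_mul _ _).symm
    _ ≤ Real.exp (4 * t) := by
        apply Real.exp_le_exp.2
        push_cast
        rw [mul_div_assoc', div_le_iff₀ hL]
        have h7 : (t : ℝ) ^ 2 * σ ≤ t ^ 2 := by
          have := sq_nonneg (t : ℝ)
          nlinarith
        have h8 : (0 : ℝ) ≤ t := Nat.cast_nonneg t
        nlinarith

private theorem lnum1_binom (y : ℝ) (N : ℕ) :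
    ∑ j ∈ range (N + 1), ((N.choose j : ℕ) : ℝ) * y ^ j = (1 + y) ^ N := by
  rw [add_comm 1 y, add_pow]
  refine Finset.sum_congr rfl fun j _ => ?_
  rw [one_pow]
  ring

/-- sum over all `j`, `a` -/
private theorem lnum1_row (h : NumH n r σ α α1 κ p L0) {t : ℕ} (ht2 : t ≤ 2 * L0)
    {A : ℝ} (hA : 0 ≤ A) {P : ℕ → ℕ → Prop} (s : Finset ℕ) (c : ℝ) (hc : 0 ≤ c)
    (hs : ∑ a ∈ s, (((r * t).choose a : ℝ) * σ ^ (t - 1 + a)) ≤ c)
    (hP : ∀ j a, P j a → (n : ℝ) ^ t * p ^ (t - 1 + j + a) ≤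
      A * (σ / Real.log n) ^ j * σ ^ (t - 1 + a)) :
    ∑ j ∈ range (t ^ 2 + 1), ∑ a ∈ s, ind (P j a) * fm n r p t j a ≤
      A * Real.exp (5 * t) * c := by
  have h1 := h.log_ge
  have h3 := h.hσ
  have hL : 0 < Real.log n := by linarith
  have hexp := Real.exp_pos (t : ℝ)
  have hyj : 0 ≤ σ / Real.log n := (div_pos h3 hL).le
  calc ∑ j ∈ range (t ^ 2 + 1), ∑ a ∈ s, ind (P j a) * fm n r p t j a
      ≤ ∑ j ∈ range (t ^ 2 + 1), ∑ a ∈ s, (A * Real.exp t) *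
          (((t ^ 2).choose j : ℝ) * (σ / Real.log n) ^ j) *
          (((r * t).choose a : ℝ) * σ ^ (t - 1 + a)) :=
        Finset.sum_le_sum fun j _ => Finset.sum_le_sum fun a _ => lnum1_term h hA (hP j a)
    _ = (A * Real.exp t) * (∑ j ∈ range (t ^ 2 + 1), ((t ^ 2).choose j : ℝ) *
          (σ / Real.log n) ^ j) * ∑ a ∈ s, (((r * t).choose a : ℝ) * σ ^ (t - 1 + a)) := by
        rw [mul_assoc (A * Real.exp t), Finset.sum_mul_sum, Finset.mul_sum]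
        refine Finset.sum_congr rfl fun j _ => ?_
        rw [Finset.mul_sum]
        refine Finset.sum_congr rfl fun a _ => ?_
        ring
    _ = (A * Real.exp t) * (1 + σ / Real.log n) ^ (t ^ 2) *
          ∑ a ∈ s, (((r * t).choose a : ℝ) * σ ^ (t - 1 + a)) := by rw [lnum1_binom]
    _ ≤ (A * Real.exp t) * Real.exp (4 * t) * c := by
        refine mul_le_mul ?_ hs ?_ (by positivity)
        · exact mul_le_mul_of_nonneg_left (lnum1_sum_j h ht2) (by positivity)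
        · exact Finset.sum_nonneg fun a _ => by positivity
    _ = A * Real.exp (5 * t) * c := by
        rw [mul_assoc A, ← Real.exp_add]
        congr 3
        ring

private theorem lnum1_sum_a (h : NumH n r σ α α1 κ p L0) (t : ℕ) :
    ∑ a ∈ range (r * t + 1), (((r * t).choose a : ℝ) * σ ^ (t - 1 + a)) ≤
      σ ^ (t - 1) * 2 ^ (r * t) := by
  have h2 := h.σ_lt
  have h3 := h.hσ
  have h4 : (∑ a ∈ range (r * t + 1), ((r * t).choose a : ℝ)) = 2 ^ (r * t) := by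
    exact_mod_cast Nat.sum_range_choose (r * t)
  rw [← h4, Finset.mul_sum]
  refine Finset.sum_le_sum fun a _ => ?_
  rw [pow_add]
  have h5 : σ ^ a ≤ 1 := pow_le_one₀ h3.le h2.le
  have h6 : 0 ≤ σ ^ (t - 1) := by positivity
  have h7 : (0 : ℝ) ≤ ((r * t).choose a : ℝ) := by positivity
  calc ((r * t).choose a : ℝ) * (σ ^ (t - 1) * σ ^ a)
      = (((r * t).choose a : ℝ) * σ ^ (t - 1)) * σ ^ a := by ring
    _ ≤ (((r * t).choose a : ℝ) * σ ^ (t - 1)) * 1 :=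
        mul_le_mul_of_nonneg_left h5 (mul_nonneg h7 h6)
    _ = σ ^ (t - 1) * ((r * t).choose a : ℝ) := by ring

private theorem lnum1_fin (h : NumH n r σ α α1 κ p L0) {t : ℕ} (ht : 1 ≤ t) (A : ℝ) :
    A * Real.exp (5 * t) * (σ ^ (t - 1) * 2 ^ (r * t)) = A * (Bc r * (Bc r * σ) ^ (t - 1)) := by
  have h1 : Bc r * (Bc r * σ) ^ (t - 1) = Bc r ^ t * σ ^ (t - 1) := by
    rw [mul_pow, ← mul_assoc, ← pow_succ']
    congr 2
    omega
  rw [h1, lnum1_Bc_pow]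
  ring

theorem row_I (h : NumH n r σ α α1 κ p L0) {t : ℕ} (ht : 1 ≤ t) (ht2 : t ≤ 2 * L0) :
    ∑ j ∈ range (t ^ 2 + 1), ∑ a ∈ range (r * t + 1), ind (Vi κ α1 t j a) * fm n r p t j a ≤
      Real.log n * (Bc r * (Bc r * σ) ^ (t - 1)) := by
  have h1 := h.log_ge
  have h3 := h.hσ
  rw [← lnum1_fin h ht]
  exact lnum1_row h ht2 (by linarith) _ _ (by positivity) (lnum1_sum_a h t)
    fun j a hv => fm_i h ht hv

theorem row_I1 (h : NumH n r σ α α1 κ p L0) {t : ℕ} (ht : 1 ≤ t) (ht2 : t ≤ 2 * L0) :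
    ∑ j ∈ range (t ^ 2 + 1), ∑ a ∈ Icc 1 (r * t), ind (Vi κ α1 t j a) * fm n r p t j a ≤
      Real.log n * (Bc r * σ) ^ t := by
  have h1 := h.log_ge
  have h2 := h.σ_lt
  have h3 := h.hσ
  have hs : ∑ a ∈ Icc 1 (r * t), (((r * t).choose a : ℝ) * σ ^ (t - 1 + a)) ≤
      σ ^ t * 2 ^ (r * t) := by
    have h4 : (∑ a ∈ range (r * t + 1), ((r * t).choose a : ℝ)) = 2 ^ (r * t) := by
      exact_mod_cast Nat.sum_range_choose (r * t)
    have h5 : (∑ a ∈ Icc 1 (r * t), ((r * t).choose a : ℝ)) ≤ 2 ^ (r * t) := by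
      rw [← h4]
      refine Finset.sum_le_sum_of_subset_of_nonneg ?_ fun a _ _ => by positivity
      intro a ha
      rw [Finset.mem_Icc] at ha
      rw [Finset.mem_range]
      omega
    calc ∑ a ∈ Icc 1 (r * t), (((r * t).choose a : ℝ) * σ ^ (t - 1 + a))
        ≤ ∑ a ∈ Icc 1 (r * t), σ ^ t * ((r * t).choose a : ℝ) := by
          refine Finset.sum_le_sum fun a ha => ?_
          rw [Finset.mem_Icc] at ha
          have h6 : σ ^ (t - 1 + a) ≤ σ ^ t := pow_le_pow_of_le_one h3.le h2.le (by omega)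
          rw [mul_comm]
          exact mul_le_mul_of_nonneg_right h6 (by positivity)
      _ = σ ^ t * ∑ a ∈ Icc 1 (r * t), ((r * t).choose a : ℝ) := by rw [Finset.mul_sum]
      _ ≤ σ ^ t * 2 ^ (r * t) := mul_le_mul_of_nonneg_left h5 (by positivity)
  have h7 := lnum1_row h ht2 (A := Real.log n) (P := fun j a => Vi κ α1 t j a) (by linarith)
    (Icc 1 (r * t)) _ (by positivity) hs fun j a hv => fm_i h ht hv
  refine h7.trans (le_of_eq ?_)
  rw [mul_pow, lnum1_Bc_pow]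
  ring

theorem Vi_two_le (h : NumH n r σ α α1 κ p L0) {t j : ℕ} (ht : 1 ≤ t) (hv : Vi κ α1 t j 0) : 2 ≤ j := by
  have h1 := h.lt
  have h2 := h.h1
  have h3 := h.hκα
  have ht' : (1 : ℝ) ≤ t := by exact_mod_cast ht
  by_contra hcon
  have hj : j = 0 ∨ j = 1 := by omega
  unfold Vi at hv
  rcases hj with hj | hj
  · rw [hj] at hv
    push_cast at hv
    nlinarith
  · rw [hj] at hv
    push_cast at hv
    nlinarith

private theorem lnum1_choose (N j : ℕ) (hj : 2 ≤ j) :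
    ((N.choose j : ℕ) : ℝ) ≤ (N : ℝ) ^ 2 * (N.choose (j - 2) : ℝ) := by
  have h1 : ∀ i : ℕ, N.choose (i + 1) ≤ N * N.choose i := by
    intro i
    have h2 := Nat.choose_succ_right_eq N i
    calc N.choose (i + 1) ≤ N.choose (i + 1) * (i + 1) := Nat.le_mul_of_pos_right _ (by omega)
      _ = N.choose i * (N - i) := h2
      _ ≤ N.choose i * N := Nat.mul_le_mul_left _ (Nat.sub_le _ _)
      _ = N * N.choose i := mul_comm _ _
  obtain ⟨i, rfl⟩ : ∃ i, j = i + 2 := ⟨j - 2, by omega⟩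
  have h2 : N.choose (i + 2) ≤ N ^ 2 * N.choose i := by
    calc N.choose (i + 2) ≤ N * N.choose (i + 1) := h1 (i + 1)
      _ ≤ N * (N * N.choose i) := Nat.mul_le_mul_left _ (h1 i)
      _ = N ^ 2 * N.choose i := by ring
  rw [Nat.add_sub_cancel]
  exact_mod_cast h2

private theorem lnum1_shift (g : ℕ → ℝ) (hg : ∀ i, 0 ≤ g i) (N : ℕ) (hN : 1 ≤ N) :
    ∑ j ∈ range (N + 1), (if 2 ≤ j then g (j - 2) else 0) ≤ ∑ i ∈ range (N + 1), g i := by
  obtain ⟨m, rfl⟩ : ∃ m, N = m + 1 := ⟨N - 1, by omega⟩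
  rw [Finset.sum_range_succ', Finset.sum_range_succ']
  have h1 : ∑ k ∈ range m, (if 2 ≤ k + 1 + 1 then g (k + 1 + 1 - 2) else 0)
      = ∑ k ∈ range m, g k := by
    refine Finset.sum_congr rfl fun k _ => ?_
    rw [if_pos (by omega)]
    rfl
  rw [h1]
  simp only [show ¬ (2 ≤ 0 + 1) by omega, show ¬ (2 ≤ 0) by omega, if_false, add_zero]
  refine Finset.sum_le_sum_of_subset_of_nonneg ?_ fun a _ _ => hg a
  intro a ha
  rw [Finset.mem_range] at ha ⊢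
  omega

theorem row_I0 (h : NumH n r σ α α1 κ p L0) {t : ℕ} (ht : 1 ≤ t) (ht2 : t ≤ 2 * L0) :
    ∑ j ∈ range (t ^ 2 + 1), ind (Vi κ α1 t j 0) * fm n r p t j 0 ≤
      (t : ℝ) ^ 4 * σ * (Bc r * σ) ^ t / Real.log n := by
  have h1 := h.log_ge
  have h2 := h.σ_lt
  have h3 := h.hσ
  have hL : 0 < Real.log n := by linarith
  have hexp := Real.exp_pos (t : ℝ)
  set y : ℝ := σ / Real.log n with hy
  have hy0 : 0 < y := div_pos h3 hL
  set K : ℝ := Real.log n * Real.exp t * σ ^ (t - 1) with hK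
  have hK0 : 0 < K := by positivity
  have hterm : ∀ j ∈ range (t ^ 2 + 1), ind (Vi κ α1 t j 0) * fm n r p t j 0 ≤
      (if 2 ≤ j then (fun i : ℕ => K * ((t : ℝ) ^ 4 * y ^ 2) *
        (((t ^ 2).choose i : ℝ) * y ^ i)) (j - 2) else 0) := by
    intro j _
    by_cases hv : Vi κ α1 t j 0
    · have hj := Vi_two_le h ht hv
      rw [if_pos hj]
      have h4 := lnum1_term h (r := r) (t := t) (j := j) (a := 0) (A := Real.log n) hL.le
        (P := Vi κ α1 t j 0) (fun hv => fm_i h ht hv)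
      refine h4.trans ?_
      have h5 := lnum1_choose (t ^ 2) j hj
      have h6 : y ^ j = y ^ 2 * y ^ (j - 2) := by
        rw [← pow_add]
        congr 1
        omega
      rw [Nat.choose_zero_right, Nat.cast_one, one_mul, add_zero, ← hy, h6]
      push_cast at h5
      have h7 : (Real.log n * Real.exp t) * (((t ^ 2).choose j : ℝ) * (y ^ 2 * y ^ (j - 2))) *
          σ ^ (t - 1) = (K * y ^ 2 * y ^ (j - 2)) * ((t ^ 2).choose j : ℝ) := by
        rw [hK]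
        ring
      rw [h7]
      calc (K * y ^ 2 * y ^ (j - 2)) * ((t ^ 2).choose j : ℝ)
          ≤ (K * y ^ 2 * y ^ (j - 2)) * (((t : ℝ) ^ 2) ^ 2 * ((t ^ 2).choose (j - 2) : ℝ)) :=
            mul_le_mul_of_nonneg_left h5 (by positivity)
        _ = _ := by ring
    · rw [ind_false hv, zero_mul]
      split_ifs
      · positivity
      · exact le_rfl
  calc ∑ j ∈ range (t ^ 2 + 1), ind (Vi κ α1 t j 0) * fm n r p t j 0
      ≤ ∑ j ∈ range (t ^ 2 + 1), (if 2 ≤ j then (fun i : ℕ => K * ((t : ℝ) ^ 4 * y ^ 2) *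
        (((t ^ 2).choose i : ℝ) * y ^ i)) (j - 2) else 0) := Finset.sum_le_sum hterm
    _ ≤ ∑ i ∈ range (t ^ 2 + 1), K * ((t : ℝ) ^ 4 * y ^ 2) *
        (((t ^ 2).choose i : ℝ) * y ^ i) :=
        lnum1_shift (fun i : ℕ => K * ((t : ℝ) ^ 4 * y ^ 2) * (((t ^ 2).choose i : ℝ) * y ^ i))
          (fun i => by positivity) (t ^ 2) (Nat.one_le_pow _ _ (by omega))
    _ = K * ((t : ℝ) ^ 4 * y ^ 2) * (1 + y) ^ (t ^ 2) := by
        rw [← Finset.mul_sum, lnum1_binom]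
    _ ≤ K * ((t : ℝ) ^ 4 * y ^ 2) * Real.exp (4 * t) :=
        mul_le_mul_of_nonneg_left (lnum1_sum_j h ht2) (by positivity)
    _ = (t : ℝ) ^ 4 * σ * (Real.exp (5 * t) * σ ^ t) / Real.log n := by
        have h8 : σ ^ t = σ ^ (t - 1) * σ := by
          rw [← pow_succ]
          congr 1
          omega
        have h9 : Real.exp (5 * t) = Real.exp t * Real.exp (4 * t) := by
          rw [← Real.exp_add]
          congr 1
          ring
        rw [hK, hy, h8, h9]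
        field_simp
    _ ≤ (t : ℝ) ^ 4 * σ * (Bc r * σ) ^ t / Real.log n := by
        refine div_le_div_of_nonneg_right ?_ hL.le
        refine mul_le_mul_of_nonneg_left ?_ (by positivity)
        rw [mul_pow, lnum1_Bc_pow]
        refine mul_le_mul_of_nonneg_right ?_ (by positivity)
        have h10 : (1 : ℝ) ≤ 2 ^ (r * t) := one_le_pow₀ (by norm_num)
        have h11 := Real.exp_pos (5 * (t : ℝ))
        nlinarith

theorem row_II (h : NumH n r σ α α1 κ p L0) {t : ℕ} (ht : 1 ≤ t) (ht2 : t ≤ 2 * L0) :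
    ∑ j ∈ range (t ^ 2 + 1), ∑ a ∈ range (r * t + 1), ind (Vii κ α1 L0 t j a) * fm n r p t j a ≤
      (n : ℝ) ^ 2 * (Bc r * (Bc r * σ) ^ (t - 1)) := by
  have h1 := h.log_ge
  have h3 := h.hσ
  rw [← lnum1_fin h ht]
  exact lnum1_row h ht2 (by positivity) _ _ (by positivity) (lnum1_sum_a h t)
    fun j a hv => fm_ii h ht hv

end Pool.MP_65847d_pr
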