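import Pool.Agent.Lib.MP_65847d_pr.X.LNum1

/-!
# X/LNum2 : the sums over the sizes

With `L = log n ≥ 1`, `B = Bc r`, `b = B σ ≤ e^(-6) ≤ 1/2`:
* `sum_I1`: `∑_{t=1}^{2 L0} L b^t ≤ L b / (1 - b) ≤ 2 L b`.
* `sum_I0`: `t^4 ≤ 24 e^t` (`Real.pow_div_factorial_le_exp`), so `t^4 b^t ≤ 24 (e e^(-6))^t = 24 e^(-5t) ≤ 24 2^(-t)`; sum `≤ 24`; `σ ≤ 1`: total `≤ 24 / L`.
* `sum_II`: only `t ≥ L0` give a non-zero term (`Vii` contains `L0 ≤ t`); there `b^(t-1) ≤ e^(-6 (t-1)) ≤ e^6 e^(-6 L) = e^6 n^(-6)` (`t ≥ L0 ≥ L`), so each term is `≤ n^2 B e^6 n^(-6)`; at most `2 L0` terms.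
* `sum_It`: `∑ t b^(t-1) ≤ ∑ t 2^(-(t-1)) ≤ 4`.
* `sum_IIt`: `t ≤ 2 L0` times `sum_II`.
-/

set_option autoImplicit false

open Finset

namespace Pool.MP_65847d_pr

open Pool.MP_1bacea_co

variable {n r : ℕ} {σ α α1 κ p : ℝ} {L0 : ℕ}

private lemma lnum2_geo {b : ℝ} (hb : 0 ≤ b) (hb2 : b ≤ 1 / 2) (N : ℕ) :
    ∑ t ∈ Icc 1 N, b ^ t ≤ 2 * b := by
  have key : ∑ t ∈ Icc 1 N, b ^ t ≤ 2 * b * (1 - (1 / 2) ^ N) := by
    induction N with
    | zero => simp
    | succ N ih =>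
      rw [Finset.sum_Icc_succ_top (by omega)]
      have h1 : b ^ (N + 1) ≤ b * (1 / 2) ^ N := by
        rw [pow_succ, mul_comm]
        exact mul_le_mul_of_nonneg_left (pow_le_pow_left₀ hb hb2 N) hb
      have h2 : (1 / 2 : ℝ) ^ (N + 1) = (1 / 2) ^ N / 2 := by rw [pow_succ]; ring
      rw [h2]
      nlinarith
  refine key.trans ?_
  have h3 : (0 : ℝ) ≤ (1 / 2) ^ N := by positivity
  nlinarith

private lemma lnum2_geo' (N : ℕ) :
    ∑ t ∈ Icc 1 N, (t : ℝ) * (1 / 2 : ℝ) ^ (t - 1) ≤ 4 := by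
  have key : ∑ t ∈ Icc 1 N, (t : ℝ) * (1 / 2 : ℝ) ^ (t - 1) ≤ 4 - (2 * N + 4) * (1 / 2) ^ N := by
    induction N with
    | zero => simp
    | succ N ih =>
      rw [Finset.sum_Icc_succ_top (by omega)]
      have h2 : (1 / 2 : ℝ) ^ (N + 1) = (1 / 2) ^ N / 2 := by rw [pow_succ]; ring
      rw [h2, Nat.add_sub_cancel]
      push_cast
      linarith
  refine key.trans ?_
  have h3 : (0 : ℝ) ≤ (2 * N + 4) * (1 / 2) ^ N := by positivity
  linarith

private lemma lnum2_Bc_pos : 0 < Bc r := by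
  unfold Bc
  positivity

private lemma lnum2_b_pos (h : NumH n r σ α α1 κ p L0) : 0 < Bc r * σ :=
  mul_pos lnum2_Bc_pos h.hσ

private lemma lnum2_exp6 : Real.exp (-6) ≤ 1 / 2 := by
  have h1 : Real.exp (-6) = 1 / Real.exp 6 := by rw [Real.exp_neg]; simp
  have h2 : (6 : ℝ) + 1 ≤ Real.exp 6 := Real.add_one_le_exp 6
  rw [h1]
  apply one_div_le_one_div_of_le <;> linarith

private lemma lnum2_b_half (h : NumH n r σ α α1 κ p L0) : Bc r * σ ≤ 1 / 2 :=
  h.hBσ.trans lnum2_exp6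

theorem sum_I1 (h : NumH n r σ α α1 κ p L0) :
    ∑ t ∈ Icc 1 (2 * L0), ∑ j ∈ range (t ^ 2 + 1), ∑ a ∈ Icc 1 (r * t),
      ind (Vi κ α1 t j a) * fm n r p t j a ≤ 2 * (Bc r * σ) * Real.log n := by
  have hL : 0 ≤ Real.log n := zero_le_one.trans h.log_ge
  calc ∑ t ∈ Icc 1 (2 * L0), ∑ j ∈ range (t ^ 2 + 1), ∑ a ∈ Icc 1 (r * t),
      ind (Vi κ α1 t j a) * fm n r p t j a
      ≤ ∑ t ∈ Icc 1 (2 * L0), Real.log n * (Bc r * σ) ^ t := by
        refine Finset.sum_le_sum fun t ht => ?_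
        rw [Finset.mem_Icc] at ht
        exact row_I1 h ht.1 ht.2
    _ = Real.log n * ∑ t ∈ Icc 1 (2 * L0), (Bc r * σ) ^ t := by rw [Finset.mul_sum]
    _ ≤ Real.log n * (2 * (Bc r * σ)) :=
        mul_le_mul_of_nonneg_left (lnum2_geo (lnum2_b_pos h).le (lnum2_b_half h) _) hL
    _ = 2 * (Bc r * σ) * Real.log n := by ring

theorem sum_I0 (h : NumH n r σ α α1 κ p L0) :
    ∑ t ∈ Icc 1 (2 * L0), ∑ j ∈ range (t ^ 2 + 1), ind (Vi κ α1 t j 0) * fm n r p t j 0 ≤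
      24 / Real.log n := by
  have hL : 0 < Real.log n := zero_lt_one.trans_le h.log_ge
  have hterm : ∀ t ∈ Icc 1 (2 * L0),
      ∑ j ∈ range (t ^ 2 + 1), ind (Vi κ α1 t j 0) * fm n r p t j 0 ≤
        24 / Real.log n * (1 / 2 : ℝ) ^ t := by
    intro t ht
    rw [Finset.mem_Icc] at ht
    refine (row_I0 h ht.1 ht.2).trans ?_
    rw [div_mul_eq_mul_div]
    refine div_le_div_of_nonneg_right ?_ hL.le
    have h1 : (t : ℝ) ^ 4 ≤ 24 * Real.exp t := by
      have := Real.pow_div_factorial_le_exp (t : ℝ) (Nat.cast_nonneg t) 4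
      have hf : ((Nat.factorial 4 : ℕ) : ℝ) = 24 := by norm_num [Nat.factorial]
      rw [hf, div_le_iff₀ (by norm_num)] at this
      linarith
    have h2 : (Bc r * σ) ^ t ≤ Real.exp (-6) ^ t :=
      pow_le_pow_left₀ (lnum2_b_pos h).le h.hBσ t
    have h3 : Real.exp t = Real.exp 1 ^ t := by
      rw [← Real.exp_nat_mul]; simp
    have h4 : Real.exp 1 * Real.exp (-6) ≤ 1 / 2 := by
      rw [← Real.exp_add]
      have h5 : Real.exp (1 + -6) = 1 / Real.exp 5 := by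
        rw [show (1 + -6 : ℝ) = -5 by norm_num, Real.exp_neg]; simp
      have h6 : (5 : ℝ) + 1 ≤ Real.exp 5 := Real.add_one_le_exp 5
      rw [h5]
      apply one_div_le_one_div_of_le <;> linarith
    have hσ1 : σ ≤ 1 := h.σ_lt.le
    have hb0 : 0 ≤ (Bc r * σ) ^ t := pow_nonneg (lnum2_b_pos h).le t
    calc (t : ℝ) ^ 4 * σ * (Bc r * σ) ^ t
        ≤ (t : ℝ) ^ 4 * 1 * (Bc r * σ) ^ t := by
          apply mul_le_mul_of_nonneg_right _ hb0
          exact mul_le_mul_of_nonneg_left hσ1 (by positivity)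
      _ ≤ 24 * Real.exp t * Real.exp (-6) ^ t := by
          rw [mul_one]
          exact mul_le_mul h1 h2 hb0 (by positivity)
      _ = 24 * (Real.exp 1 * Real.exp (-6)) ^ t := by rw [h3, mul_pow]; ring
      _ ≤ 24 * (1 / 2) ^ t := by
          apply mul_le_mul_of_nonneg_left _ (by norm_num)
          exact pow_le_pow_left₀ (by positivity) h4 t
  refine (Finset.sum_le_sum hterm).trans ?_
  rw [← Finset.mul_sum]
  have h7 := lnum2_geo (b := (1 / 2 : ℝ)) (by norm_num) le_rfl (2 * L0)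
  have h8 : 0 ≤ 24 / Real.log n := by positivity
  calc 24 / Real.log n * ∑ t ∈ Icc 1 (2 * L0), (1 / 2 : ℝ) ^ t
      ≤ 24 / Real.log n * (2 * (1 / 2)) := mul_le_mul_of_nonneg_left h7 h8
    _ = 24 / Real.log n := by ring

theorem sum_II (h : NumH n r σ α α1 κ p L0) :
    ∑ t ∈ Icc 1 (2 * L0), ∑ j ∈ range (t ^ 2 + 1), ∑ a ∈ range (r * t + 1),
      ind (Vii κ α1 L0 t j a) * fm n r p t j a ≤ 2 * L0 * (Bc r * Real.exp 6) / (n : ℝ) ^ 4 := by
  have hn : (0 : ℝ) < n := by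
    have := h.hn
    positivity
  have hterm : ∀ t ∈ Icc 1 (2 * L0),
      ∑ j ∈ range (t ^ 2 + 1), ∑ a ∈ range (r * t + 1),
        ind (Vii κ α1 L0 t j a) * fm n r p t j a ≤ Bc r * Real.exp 6 / (n : ℝ) ^ 4 := by
    intro t ht
    rw [Finset.mem_Icc] at ht
    by_cases hLt : L0 ≤ t
    · refine (row_II h ht.1 ht.2).trans ?_
      have h1 : (Bc r * σ) ^ (t - 1) ≤ Real.exp 6 / (n : ℝ) ^ 6 := by
        have h2 : (Bc r * σ) ^ (t - 1) ≤ Real.exp (-6) ^ (t - 1) :=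
          pow_le_pow_left₀ (lnum2_b_pos h).le h.hBσ _
        refine h2.trans ?_
        have h3 : Real.exp (-6) ^ (t - 1) = Real.exp (((t - 1 : ℕ) : ℝ) * (-6)) := by
          rw [Real.exp_nat_mul]
        have h4 : (n : ℝ) ^ 6 = Real.exp (6 * Real.log n) := by
          rw [mul_comm, Real.exp_mul, Real.exp_log hn]
          norm_cast
        rw [h3, h4, ← Real.exp_sub]
        apply Real.exp_le_exp.mpr
        have h5 : Real.log n ≤ t := by
          have : Real.log n ≤ (L0 : ℝ) := by rw [h.hL0]; exact Nat.le_ceil _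
          exact this.trans (by exact_mod_cast hLt)
        rw [Nat.cast_sub ht.1]
        push_cast
        linarith
      calc (n : ℝ) ^ 2 * (Bc r * (Bc r * σ) ^ (t - 1))
          ≤ (n : ℝ) ^ 2 * (Bc r * (Real.exp 6 / (n : ℝ) ^ 6)) := by
            apply mul_le_mul_of_nonneg_left _ (by positivity)
            exact mul_le_mul_of_nonneg_left h1 lnum2_Bc_pos.le
        _ = Bc r * Real.exp 6 / (n : ℝ) ^ 4 := by
            field_simp
    · have h0 : ∑ j ∈ range (t ^ 2 + 1), ∑ a ∈ range (r * t + 1),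
        ind (Vii κ α1 L0 t j a) * fm n r p t j a = 0 := by
        refine Finset.sum_eq_zero fun j _ => Finset.sum_eq_zero fun a _ => ?_
        rw [ind_false (fun hv => hLt hv.1), zero_mul]
      rw [h0]
      have := @lnum2_Bc_pos r
      positivity
  refine (Finset.sum_le_sum hterm).trans ?_
  rw [Finset.sum_const, nsmul_eq_mul, Nat.card_Icc]
  simp only [Nat.add_sub_cancel]
  push_cast
  exact le_of_eq (by ring)

theorem sum_It (h : NumH n r σ α α1 κ p L0) :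
    ∑ t ∈ Icc 1 (2 * L0), (t : ℝ) * ∑ j ∈ range (t ^ 2 + 1), ∑ a ∈ range (r * t + 1),
      ind (Vi κ α1 t j a) * fm n r p t j a ≤ 4 * Bc r * Real.log n := by
  have hL : 0 < Real.log n := zero_lt_one.trans_le h.log_ge
  have hterm : ∀ t ∈ Icc 1 (2 * L0),
      (t : ℝ) * ∑ j ∈ range (t ^ 2 + 1), ∑ a ∈ range (r * t + 1),
        ind (Vi κ α1 t j a) * fm n r p t j a ≤
        Bc r * Real.log n * ((t : ℝ) * (1 / 2 : ℝ) ^ (t - 1)) := by
    intro t ht
    rw [Finset.mem_Icc] at ht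
    have h1 := row_I h ht.1 ht.2
    have h2 : (Bc r * σ) ^ (t - 1) ≤ (1 / 2) ^ (t - 1) :=
      pow_le_pow_left₀ (lnum2_b_pos h).le (lnum2_b_half h) _
    have hB := @lnum2_Bc_pos r
    calc (t : ℝ) * ∑ j ∈ range (t ^ 2 + 1), ∑ a ∈ range (r * t + 1),
        ind (Vi κ α1 t j a) * fm n r p t j a
        ≤ (t : ℝ) * (Real.log n * (Bc r * (Bc r * σ) ^ (t - 1))) :=
          mul_le_mul_of_nonneg_left h1 (Nat.cast_nonneg t)
      _ ≤ (t : ℝ) * (Real.log n * (Bc r * (1 / 2) ^ (t - 1))) := by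
          apply mul_le_mul_of_nonneg_left _ (Nat.cast_nonneg t)
          apply mul_le_mul_of_nonneg_left _ hL.le
          exact mul_le_mul_of_nonneg_left h2 hB.le
      _ = Bc r * Real.log n * ((t : ℝ) * (1 / 2 : ℝ) ^ (t - 1)) := by ring
  refine (Finset.sum_le_sum hterm).trans ?_
  rw [← Finset.mul_sum]
  have hB := @lnum2_Bc_pos r
  calc Bc r * Real.log n * ∑ t ∈ Icc 1 (2 * L0), (t : ℝ) * (1 / 2 : ℝ) ^ (t - 1)
      ≤ Bc r * Real.log n * 4 :=
        mul_le_mul_of_nonneg_left (lnum2_geo' _) (by positivity)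
    _ = 4 * Bc r * Real.log n := by ring

end Pool.MP_65847d_pr
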