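import Pool.Agent.Lib.MP_65847d_pr.X.LNum1

/-!
# X/LNum3 : choice of `σ` and of `n0`

`L = log n`, `B = Bc r ≥ 1`, `m = ⌊n^(1/4)⌋₊`, `λ = L / 16`, so `exp (-(2 λ)) = n^(-1/8)`.
Choose `σ = min (ε / 64) (exp (-6)) / B`: `B σ ≤ exp (-6)` and `2 (B σ) L / (L / 16) = 32 B σ ≤ ε / 2`. Everything else holds for all large `n`, uniformly in `α ∈ [d, 1 - d]`:
* `L → ∞`: `24 / L ≤ ε / 8`; `2 ≤ L0` (`L > 1`); `0 ≤ κ` (`L ≥ 1`); `κ = log L / L → 0` so `κ ≤ d ≤ α`; `log (1/σ) / L → 0` so `α1 < 1` (`α ≤ 1 - d`).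
* `p ≤ σ² n^(-α) ≤ n^(-d) → 0`, even `L n^(-d) → 0` and `L0 ≤ L + 1 ≤ 2 L`: the bounds on `p`, `r² p`, `r (2 L0) p`.
* `m ≤ n^(1/4)`: `m r ≤ n` eventually; `m (2 L0 B e^6 / n^4) → 0`; `m (m r / n) 4 B L ≤ 4 r B L n^(-1/2) → 0`: each eventually `≤ ε / 8`.
* `m ≥ n^(1/4) - 1 ≥ n^(1/4) / 2`: `(1 - n^(-1/8) / 2)^m ≤ exp (- m n^(-1/8) / 2) ≤ exp (- n^(1/8) / 4) → 0` (`Real.one_sub_le_exp_neg`, `pow_le_pow_left`).
Use `Filter.eventually` with `isLittleO_log_rpow_atTop` (log n = o(n^s)) etc., then `eventually_atTop.1`.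
-/

set_option autoImplicit false

open Finset Filter Topology

namespace Pool.MP_65847d_pr

private lemma lnum3_Bc (r : ℕ) : 1 ≤ Bc r := by
  unfold Bc
  have h1 : (1 : ℝ) ≤ Real.exp 5 := Real.one_le_exp (by norm_num)
  have h2 : (1 : ℝ) ≤ 2 ^ r := one_le_pow₀ (by norm_num)
  nlinarith

private lemma lnum3_exp6 : Real.exp (-6) ≤ 1 / 2 := by
  have h1 : Real.exp (-6) = 1 / Real.exp 6 := by rw [Real.exp_neg]; simp
  have h2 : (6 : ℝ) + 1 ≤ Real.exp 6 := Real.add_one_le_exp 6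
  rw [h1]
  apply one_div_le_one_div_of_le <;> linarith

private lemma lnum3_a {x : ℝ} (h : 0 ≤ x) : x ^ 2 ≤ (x + 1) ^ 2 ∧ x ≤ (x + 1) ^ 2 ∧
    1 ≤ (x + 1) ^ 2 := by
  refine ⟨by nlinarith, by nlinarith only [h], by nlinarith⟩

private lemma lnum3_b {y m : ℝ} (h : 2 ≤ y) (hm : y ^ 2 - 1 < m) : y ^ 2 / 2 ≤ m := by
  nlinarith only [h, hm]

private lemma lnum3_c {m y : ℝ} (hm : 0 ≤ m) (h : m ≤ y ^ 2) : m * m ≤ y ^ 4 := by
  calc m * m ≤ y ^ 2 * y ^ 2 := mul_le_mul h h hm (by positivity)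
    _ = y ^ 4 := by ring

theorem lower_num (r : ℕ) {d ε : ℝ} (hd : 0 < d) (hε : 0 < ε) :
    ∃ σ : ℝ, 0 < σ ∧ ∃ n0 : ℕ, ∀ n ≥ n0, ∀ α, d ≤ α → α ≤ 1 - d → ∀ p : ℝ, 0 ≤ p →
      p ≤ σ ^ 2 * (n : ℝ) ^ (-α) → ∀ (κ α1 : ℝ) (L0 m : ℕ), κ = Real.log (Real.log n) / Real.log n →
      α1 = α + Real.log (1 / σ) / Real.log n → L0 = ⌈Real.log n⌉₊ → m = ⌊(n : ℝ) ^ (1 / 4 : ℝ)⌋₊ →
      NumH n r σ α α1 κ p L0 ∧ 0 ≤ κ ∧ 2 ≤ L0 ∧ m * r ≤ n ∧ p ≤ 1 ∧ (r : ℝ) ^ 2 * p ≤ 1 / 2 ∧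
      (r : ℝ) * (2 * L0) * p ≤ 1 / 2 ∧
      24 / Real.log n + m * (2 * L0 * (Bc r * Real.exp 6) / (n : ℝ) ^ 4) +
        m * (((m : ℝ) * r) / n * (4 * Bc r * Real.log n)) +
        2 * (Bc r * σ) * Real.log n / (Real.log n / 16) +
        (1 - Real.exp (-(2 * (Real.log n / 16))) / 2) ^ m ≤ ε := by
  have hB1 := lnum3_Bc r
  have hB0 : 0 < Bc r := by linarith
  set B := Bc r with hB
  have hr0 : (0 : ℝ) ≤ r := Nat.cast_nonneg r
  obtain ⟨σ, hσdef⟩ : ∃ σ : ℝ, σ = min (ε / 64) (Real.exp (-6)) / B := ⟨_, rfl⟩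
  have hmin : 0 < min (ε / 64) (Real.exp (-6)) := lt_min (by positivity) (Real.exp_pos _)
  have hσ : 0 < σ := by rw [hσdef]; positivity
  have hBσ : B * σ = min (ε / 64) (Real.exp (-6)) := by rw [hσdef]; field_simp
  have hBσ1 : B * σ ≤ Real.exp (-6) := by rw [hBσ]; exact min_le_right _ _
  have hBσ2 : B * σ ≤ ε / 64 := by rw [hBσ]; exact min_le_left _ _
  have hσ1 : σ ≤ 1 := by
    have : σ ≤ B * σ := le_mul_of_one_le_left hσ.le hB1
    linarith [lnum3_exp6]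
  refine ⟨σ, hσ, ?_⟩
  have hcast : Tendsto (fun n : ℕ => (n : ℝ)) atTop atTop := tendsto_natCast_atTop_atTop
  have hlog : Tendsto (fun n : ℕ => Real.log n) atTop atTop := Real.tendsto_log_atTop.comp hcast
  have E1 : ∀ᶠ n : ℕ in atTop, 192 / ε + |Real.log (1 / σ)| / d + 3 ≤ Real.log n :=
    hlog.eventually_ge_atTop _
  have E2 : ∀ᶠ n : ℕ in atTop, ‖Real.log (Real.log n)‖ ≤ d * ‖Real.log n‖ :=
    hlog.eventually (Real.isLittleO_log_id_atTop.bound hd)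
  have E3 : ∀ᶠ n : ℕ in atTop, ‖Real.log n‖ ≤ (1 / (8 * ((r : ℝ) + 1) ^ 2)) * ‖(n : ℝ) ^ d‖ :=
    hcast.eventually ((isLittleO_log_rpow_atTop hd).bound (by positivity))
  have E4 : ∀ᶠ n : ℕ in atTop, ‖Real.log n‖ ≤ (ε / (32 * ((r : ℝ) + 1) * B)) * ‖(n : ℝ) ^ (1 / 2 : ℝ)‖ :=
    hcast.eventually ((isLittleO_log_rpow_atTop (by norm_num)).bound (by positivity))
  have E5 : ∀ᶠ n : ℕ in atTop, 32 / ε + r + 2 + 32 * B * Real.exp 6 / ε ≤ (n : ℝ) ^ (1 / 8 : ℝ) :=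
    ((tendsto_rpow_atTop (by norm_num)).comp hcast).eventually_ge_atTop _
  obtain ⟨n0, hn0⟩ := eventually_atTop.1 (((((E1.and E2).and E3).and E4).and E5).and
    (eventually_ge_atTop 3))
  refine ⟨n0, ?_⟩
  intro n hn α hα1' hα2 p hp0 hp κ α1 L0 m hκ hα1 hL0 hm
  obtain ⟨⟨⟨⟨⟨e1, e2⟩, e3⟩, e4⟩, e5⟩, e6⟩ := hn0 n hn
  have hnR : (3 : ℝ) ≤ n := by exact_mod_cast e6
  have hn1 : (1 : ℝ) ≤ n := by linarith only [hd, hnR, hα1', hα2]
  have hnpos : (0 : ℝ) < n := by linarith only [hd, hnR, hα1', hα2]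
  set L := Real.log n with hL
  have hq1 : 0 ≤ 192 / ε := by positivity
  have hq2 : 0 ≤ |Real.log (1 / σ)| / d := by positivity
  have hL3 : 3 ≤ L := by linarith only [e1, hq1, hq2]
  have hLpos : 0 < L := by linarith only [e1, hd, hq1, hq2, hα1', hα2]
  have hL192 : 192 / ε ≤ L := by linarith only [e1, hd, hq2, hα1', hα2]
  have hLσ : |Real.log (1 / σ)| / d < L := by linarith only [e1, hd, hq1, hα1', hα2]
  set y := (n : ℝ) ^ (1 / 8 : ℝ) with hy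
  have hq3 : 0 ≤ 32 / ε := by positivity
  have hq4 : 0 ≤ 32 * B * Real.exp 6 / ε := by positivity
  have hy2 : 2 ≤ y := by linarith only [e5, hq3, hq4]
  have hy0 : 0 < y := by linarith only [e5, hd, hq3, hq4, hα1', hα2]
  have hyr : (r : ℝ) ≤ y := by linarith
  have hyε : 32 / ε ≤ y := by linarith only [e5, hd, hq4, hα1', hα2]
  have hyB : 32 * B * Real.exp 6 / ε ≤ y := by linarith
  have hy8 : y ^ 8 = n := by
    rw [hy, ← Real.rpow_natCast, ← Real.rpow_mul hnpos.le]; norm_num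
  have hy2' : (n : ℝ) ^ (1 / 4 : ℝ) = y ^ 2 := by
    rw [hy, ← Real.rpow_natCast, ← Real.rpow_mul hnpos.le]; norm_num
  have hy4' : (n : ℝ) ^ (1 / 2 : ℝ) = y ^ 4 := by
    rw [hy, ← Real.rpow_natCast, ← Real.rpow_mul hnpos.le]; norm_num
  -- `m`
  have hm1 : (m : ℝ) ≤ y ^ 2 := by
    rw [hm, ← hy2']
    exact Nat.floor_le (by positivity)
  have hm2 : y ^ 2 - 1 < (m : ℝ) := by
    rw [hm, ← hy2']
    have := Nat.lt_floor_add_one ((n : ℝ) ^ (1 / 4 : ℝ))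
    linarith only [this]
  have hm3 : y ^ 2 / 2 ≤ (m : ℝ) := lnum3_b hy2 hm2
  have hm0 : (0 : ℝ) ≤ m := Nat.cast_nonneg m
  -- `L0`
  have hL0a : L ≤ (L0 : ℝ) := by rw [hL0]; exact Nat.le_ceil _
  have hL0b : (L0 : ℝ) < L + 1 := by rw [hL0]; exact Nat.ceil_lt_add_one hLpos.le
  have hL0c : (L0 : ℝ) ≤ 2 * L := by linarith only [e1, hL0b, hd, hq1, hq2, hα1', hα2]
  have hLn : L ≤ n := by
    have := Real.log_le_sub_one_of_pos hnpos
    linarith only [hd, hα1', hα2, this]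
  -- `κ`
  have hκ0 : 0 ≤ κ := by
    rw [hκ]
    exact div_nonneg (Real.log_nonneg (by linarith only [e1, hd, hq1, hq2, hα1', hα2])) hLpos.le
  have hκd : κ ≤ d := by
    rw [hκ, div_le_iff₀ hLpos]
    rw [Real.norm_of_nonneg hLpos.le] at e2
    exact (Real.le_norm_self _).trans e2
  have hα1lt : α1 < 1 := by
    rw [hα1]
    have : Real.log (1 / σ) / L < d := by
      rw [div_lt_iff₀ hLpos]
      rw [div_lt_iff₀ hd] at hLσ
      have := le_abs_self (Real.log (1 / σ))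
      linarith only [hLσ, this]
    linarith only [hα2, this]
  -- `p`
  have hnd : (n : ℝ) ^ (-α) ≤ (n : ℝ) ^ (-d) := Real.rpow_le_rpow_of_exponent_le hn1 (by linarith only [hα1'])
  have hpd : p ≤ (n : ℝ) ^ (-d) := by
    refine hp.trans ?_
    have h1 : σ ^ 2 ≤ 1 := pow_le_one₀ hσ.le hσ1
    have h2 : 0 ≤ (n : ℝ) ^ (-α) := by positivity
    exact (mul_le_of_le_one_left h2 h1).trans hnd
  have hndpos : 0 < (n : ℝ) ^ d := by positivity
  have hpL : L * p ≤ 1 / (8 * ((r : ℝ) + 1) ^ 2) := by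
    rw [Real.norm_of_nonneg hLpos.le, Real.norm_of_nonneg hndpos.le] at e3
    calc L * p ≤ L * (n : ℝ) ^ (-d) := mul_le_mul_of_nonneg_left hpd hLpos.le
      _ ≤ (1 / (8 * ((r : ℝ) + 1) ^ 2) * (n : ℝ) ^ d) * (n : ℝ) ^ (-d) :=
          mul_le_mul_of_nonneg_right e3 (by positivity)
      _ = 1 / (8 * ((r : ℝ) + 1) ^ 2) := by
          rw [Real.rpow_neg hnpos.le, mul_assoc, mul_inv_cancel₀ hndpos.ne', mul_one]
  have hr1 : 0 < 8 * ((r : ℝ) + 1) ^ 2 := by positivity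
  rw [le_div_iff₀ hr1] at hpL
  have hLp0 : 0 ≤ L * p := by positivity
  have hpLp : p ≤ L * p := le_mul_of_one_le_left hp0 (by linarith only [e1, hd, hq1, hq2, hα1', hα2])
  obtain ⟨ra, rb, rc⟩ := lnum3_a hr0
  have hr2 : ((r : ℝ) + 1) ^ 2 * (L * p) ≤ 1 / 8 := by linarith only [hpL]
  have hr3 : (r : ℝ) ^ 2 * (L * p) ≤ 1 / 8 := by
    exact le_trans (mul_le_mul_of_nonneg_right ra hLp0) hr2
  have hr4 : (r : ℝ) * (L * p) ≤ 1 / 8 := by
    exact le_trans (mul_le_mul_of_nonneg_right rb hLp0) hr2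
  have hp1 : p ≤ 1 := by
    have : (1 : ℝ) * (L * p) ≤ 1 / 8 := by
      exact le_trans (mul_le_mul_of_nonneg_right rc hLp0) hr2
    linarith only [hd, hpLp, hα1', hα2, this]
  have hLε : 24 / L ≤ ε / 8 := by
    rw [div_le_iff₀ hε] at hL192
    rw [div_le_div_iff₀ hLpos (by norm_num)]
    linarith only [hL192]
  have hT2 : (m : ℝ) * (2 * L0 * (B * Real.exp 6) / (n : ℝ) ^ 4) ≤ ε / 8 := by
    have he6 := Real.exp_pos 6
    have h1 : (m : ℝ) ≤ n := by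
      rw [← hy8]
      refine hm1.trans ?_
      exact pow_le_pow_right₀ (by linarith only [e5, hd, hq3, hq4, hα1', hα2]) (by norm_num)
    have h2 : (L0 : ℝ) ≤ 2 * n := by linarith only [hL0b, hLn, hd, hnR, hα1', hα2]
    have hyn : y ≤ n := by
      rw [← hy8]
      calc y = y ^ 1 := (pow_one y).symm
        _ ≤ y ^ 8 := pow_le_pow_right₀ (by linarith only [e5, hd, hq3, hq4, hα1', hα2]) (by norm_num)
    have h3 : 32 * B * Real.exp 6 ≤ ε * n := by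
      rw [div_le_iff₀ hε] at hyB
      have := mul_le_mul_of_nonneg_left hyn hε.le
      linarith only [hyB, this]
    rw [mul_div_assoc', div_le_iff₀ (by positivity)]
    have hL00 : (0 : ℝ) ≤ L0 := Nat.cast_nonneg _
    calc (m : ℝ) * (2 * L0 * (B * Real.exp 6))
        ≤ n * (2 * (2 * n) * (B * Real.exp 6)) := by
          apply mul_le_mul h1 _ (by positivity) hnpos.le
          apply mul_le_mul_of_nonneg_right _ (by positivity)
          linarith only [hL0b, hLn, hd, hnR, hα1', hα2]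
      _ = (32 * B * Real.exp 6) * (n ^ 2 / 8) := by ring
      _ ≤ (ε * n) * (n ^ 2 / 8) := mul_le_mul_of_nonneg_right h3 (by positivity)
      _ = ε / 8 * (n ^ 3 * 1) := by ring
      _ ≤ ε / 8 * (n ^ 3 * n) := by
          apply mul_le_mul_of_nonneg_left _ (by positivity)
          apply mul_le_mul_of_nonneg_left hn1 (by positivity)
      _ = ε / 8 * (n : ℝ) ^ 4 := by ring
  have hT3 : (m : ℝ) * (((m : ℝ) * r) / n * (4 * B * L)) ≤ ε / 8 := by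
    have hy4pos : 0 < y ^ 4 := by positivity
    rw [hy4', Real.norm_of_nonneg hLpos.le, Real.norm_of_nonneg hy4pos.le] at e4
    have h1 : (m : ℝ) * m ≤ y ^ 4 := lnum3_c hm0 hm1
    have hden : 0 < 32 * ((r : ℝ) + 1) * B := by positivity
    have h2 : L * (32 * ((r : ℝ) + 1) * B) ≤ ε * y ^ 4 := by
      rw [div_mul_eq_mul_div, le_div_iff₀ hden] at e4
      exact e4
    have h3 : 32 * ((r : ℝ) * B * L) ≤ ε * y ^ 4 := by
      refine le_trans ?_ h2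
      have h8 : L * (32 * ((r : ℝ) + 1) * B) = 32 * ((r : ℝ) * B * L) + 32 * (L * B) := by ring
      rw [h8]
      have := mul_pos hLpos hB0
      linarith only [this]
    have h4 : (n : ℝ) = y ^ 4 * y ^ 4 := by rw [← hy8]; ring
    have h5 : (m : ℝ) * (((m : ℝ) * r) / n * (4 * B * L)) = (m * m) * (4 * (r * B * L)) / n := by
      ring
    rw [h5, div_le_iff₀ hnpos]
    have h6 : 0 ≤ 4 * ((r : ℝ) * B * L) := by (clear * - hB1 hL3; positivity)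
    calc (m : ℝ) * m * (4 * (r * B * L)) ≤ y ^ 4 * (4 * (r * B * L)) :=
          mul_le_mul_of_nonneg_right h1 h6
      _ ≤ y ^ 4 * (ε * y ^ 4 / 8) := mul_le_mul_of_nonneg_left (by linarith only [h3]) hy4pos.le
      _ = ε / 8 * n := by rw [h4]; ring
  have hT4 : 2 * (B * σ) * L / (L / 16) ≤ ε / 2 := by
    have : 2 * (B * σ) * L / (L / 16) = 32 * (B * σ) := by field_simp; ring
    rw [this]
    linarith only [hBσ2]
  have hT5 : (1 - Real.exp (-(2 * (L / 16))) / 2) ^ m ≤ ε / 8 := by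
    have h1 : Real.exp (-(2 * (L / 16))) = y⁻¹ := by
      rw [hy, ← Real.rpow_neg hnpos.le, Real.rpow_def_of_pos hnpos]
      congr 1
      rw [← hL]; ring
    rw [h1]
    have hyi : y⁻¹ ≤ 1 / 2 := by
      rw [inv_eq_one_div]
      exact one_div_le_one_div_of_le (by norm_num) hy2
    have hyi0 : 0 < y⁻¹ := by positivity
    have h2 : 1 - y⁻¹ / 2 ≤ Real.exp (-(y⁻¹ / 2)) := Real.one_sub_le_exp_neg _
    have h3 : 0 ≤ 1 - y⁻¹ / 2 := by linarith only [hd, hyi, hα1', hα2]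
    refine (pow_le_pow_left₀ h3 h2 m).trans ?_
    rw [← Real.exp_nat_mul]
    have h4 : y / 4 ≤ (m : ℝ) * (y⁻¹ / 2) := by
      calc y / 4 = y ^ 2 / 2 * (y⁻¹ / 2) := by field_simp; ring
        _ ≤ (m : ℝ) * (y⁻¹ / 2) := mul_le_mul_of_nonneg_right hm3 (by positivity)
    have h5 : (m : ℝ) * -(y⁻¹ / 2) ≤ -(y / 4) := by linarith only [h4]
    refine (Real.exp_le_exp.mpr h5).trans ?_
    have h6 : y / 4 + 1 ≤ Real.exp (y / 4) := Real.add_one_le_exp _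
    rw [Real.exp_neg, inv_eq_one_div, div_le_iff₀ (Real.exp_pos _)]
    rw [div_le_iff₀ hε] at hyε
    have h7 : ε / 8 * (y / 4 + 1) ≤ ε / 8 * Real.exp (y / 4) :=
      mul_le_mul_of_nonneg_left h6 (by positivity)
    have h9 : ε / 8 * (y / 4 + 1) = y * ε / 32 + ε / 8 := by ring
    rw [h9] at h7
    linarith only [h7, hBσ, hBσ2, hmin, hyε]
  refine ⟨⟨e6, hσ, hBσ1, hκ, hα1, by linarith only [hd, hα1'], by linarith only [hα1', hκd], hα1lt, hL0, hp0, hp⟩, hκ0, ?_, ?_,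
    hp1, ?_, ?_, ?_⟩
  · have : (2 : ℝ) ≤ L0 := by linarith only [e1, hL0a, hd, hq1, hq2, hα1', hα2]
    exact_mod_cast this
  · have : (m : ℝ) * r ≤ n := by
      rw [← hy8]
      calc (m : ℝ) * r ≤ y ^ 2 * y := mul_le_mul hm1 hyr hr0 (by positivity)
        _ = y ^ 3 := by ring
        _ ≤ y ^ 8 := pow_le_pow_right₀ (by linarith only [e5, hd, hq3, hq4, hα1', hα2]) (by norm_num)
    exact_mod_cast this
  · have : (r : ℝ) ^ 2 * p ≤ (r : ℝ) ^ 2 * (L * p) := mul_le_mul_of_nonneg_left hpLp (by positivity)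
    linarith only [hd, hr3, hα1', hα2, this]
  · calc (r : ℝ) * (2 * L0) * p ≤ (r : ℝ) * (2 * (2 * L)) * p := by
          apply mul_le_mul_of_nonneg_right _ hp0
          apply mul_le_mul_of_nonneg_left _ hr0
          linarith only [e1, hL0b, hd, hq1, hq2, hα1', hα2]
      _ = 4 * ((r : ℝ) * (L * p)) := by ring
      _ ≤ 1 / 2 := by linarith only [hr4]
  · linarith only [hLε, hT2, hT3, hT4, hT5]

end Pool.MP_65847d_pr
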