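import Pool.Agent.Lib.MP_65847d_pr.X.LDefs2

/-!
# X/LSpan : a parent function for a connected set

Proof: `H := G.induce X` is connected, choose a root `r : X` and put `D x := H.dist r x`. For `x ≠ r` there is a neighbour `y` of `x` in `H` with
`D y + 1 = D x` (last but one vertex of a shortest walk from `r` to `x`, e.g. `SimpleGraph.Reachable.exists_walk_length_eq_dist` or
`SimpleGraph.Connected.exists_walk_length_eq_dist`, take the walk from `x` to `r`, it is `cons h q` with `q.length = D x - 1`; `D y ≤ D x - 1` by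
`SimpleGraph.dist_le` and `D x ≤ D y + 1` by the triangle inequality). Put `π x = y`, `π r = r`, and `π z = z` outside `X`. `x ↦ s(x, π x)` is injective on
`X \ {r}`: if `s(x, π x) = s(x', π x')`, `x ≠ x'`, then `x = π x'`, `x' = π x`, so `D x = D x' - 1` and `D x' = D x - 1`, contradiction (`D ≥ 1` off `r`).
-/

set_option autoImplicit false

open Finset

namespace Pool.MP_65847d_pr

variable {N : Type*} [Fintype N] [DecidableEq N]

theorem exists_parent {G : SimpleGraph N} {X : Finset N} (h : LConn G X) :
    ∃ π : N → N, (∀ x ∈ X, π x ∈ X) ∧ (∀ x ∈ X, π x ≠ x → G.Adj x (π x)) ∧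
      ((X.filter fun x => π x ≠ x).image fun x => s(x, π x)).card + 1 = X.card := by
  classical
  set H := G.induce (X : Set N) with hH
  have hc : H.Connected := h
  obtain ⟨r⟩ := hc.nonempty
  -- for `x ≠ r` a neighbour closer to `r`
  have key : ∀ x : (X : Set N), x ≠ r → ∃ y : (X : Set N), H.Adj x y ∧ H.dist r y + 1 = H.dist r x := by
    intro x hx
    obtain ⟨p, hp⟩ := hc.exists_walk_length_eq_dist x r
    cases p with
    | nil => exact absurd rfl hx
    | @cons _ y _ hadj q =>
      refine ⟨y, hadj, ?_⟩
      rw [SimpleGraph.Walk.length_cons] at hp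
      have h1 : H.dist y r ≤ q.length := SimpleGraph.dist_le q
      have h2 : H.dist x r ≤ H.dist x y + H.dist y r := hc.dist_triangle
      have h3 : H.dist x y = 1 := SimpleGraph.dist_eq_one_iff_adj.2 hadj
      rw [SimpleGraph.dist_comm (u := r) (v := y), SimpleGraph.dist_comm (u := r) (v := x)]
      omega
  let π : N → N := fun z => if hz : z ∈ X then
    (if hr : (⟨z, hz⟩ : (X : Set N)) ≠ r then ((key ⟨z, hz⟩ hr).choose : N) else z) else z
  have hπ : ∀ (x : (X : Set N)) (hr : x ≠ r), π x = ((key x hr).choose : N) := by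
    intro x hr
    have hx : (x : N) ∈ X := x.2
    simp only [π, hx, dif_pos]
    rw [dif_pos hr]
  have hπr : π r = r := by
    have hx : (r : N) ∈ X := r.2
    simp only [π, hx, dif_pos]
    rw [dif_neg (by simp)]
  have hne : ∀ (x : (X : Set N)), x ≠ r → π x ≠ x ∧ G.Adj x (π x) := by
    intro x hr
    have h1 := (key x hr).choose_spec.1
    rw [hπ x hr]
    have h2 : G.Adj x ((key x hr).choose : N) := h1
    exact ⟨h2.ne', h2⟩
  have hmem : ∀ x ∈ X, π x ∈ X := by
    intro x hx
    by_cases hr : (⟨x, hx⟩ : (X : Set N)) = r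
    · have h1 : π x = r := by
        have := hπr
        rw [← hr] at this
        rw [← hr]
        exact this
      rw [h1]
      exact r.2
    · have h1 := hπ ⟨x, hx⟩ hr
      have h2 : π x = ((key ⟨x, hx⟩ hr).choose : N) := h1
      rw [h2]
      exact (key ⟨x, hx⟩ hr).choose.2
  refine ⟨π, hmem, ?_, ?_⟩
  · intro x hx hπx
    by_cases hr : (⟨x, hx⟩ : (X : Set N)) = r
    · exfalso
      apply hπx
      have := hπr
      rw [← hr] at this
      exact this
    · exact (hne ⟨x, hx⟩ hr).2
  · have hfil : X.filter (fun x => π x ≠ x) = X.erase r := by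
      ext x
      rw [mem_filter, mem_erase]
      constructor
      · rintro ⟨hx, h1⟩
        refine ⟨?_, hx⟩
        intro h2
        apply h1
        rw [h2]
        exact hπr
      · rintro ⟨h1, hx⟩
        refine ⟨hx, (hne ⟨x, hx⟩ ?_).1⟩
        intro h2
        apply h1
        rw [← h2]
    have hinj : Set.InjOn (fun x => s(x, π x)) (X.filter (fun x => π x ≠ x) : Set N) := by
      intro x hx x' hx' heq
      rw [hfil] at hx hx'
      have hx1 := mem_erase.1 (mem_coe.1 hx)
      have hx1' := mem_erase.1 (mem_coe.1 hx')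
      have hr : (⟨x, hx1.2⟩ : (X : Set N)) ≠ r := by
        intro h2; apply hx1.1; rw [← h2]
      have hr' : (⟨x', hx1'.2⟩ : (X : Set N)) ≠ r := by
        intro h2; apply hx1'.1; rw [← h2]
      have e1 := hπ ⟨x, hx1.2⟩ hr
      have e2 := hπ ⟨x', hx1'.2⟩ hr'
      have heq' : s(x, π x) = s(x', π x') := heq
      rw [Sym2.eq_iff] at heq'
      rcases heq' with h1 | ⟨h1, h2⟩
      · exact h1.1
      · exfalso
        have d1 := (key ⟨x, hx1.2⟩ hr).choose_spec.2
        have d2 := (key ⟨x', hx1'.2⟩ hr').choose_spec.2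
        have f1 : (key ⟨x, hx1.2⟩ hr).choose = ⟨x', hx1'.2⟩ := by
          apply Subtype.ext
          rw [← e1]
          exact h2
        have f2 : (key ⟨x', hx1'.2⟩ hr').choose = ⟨x, hx1.2⟩ := by
          apply Subtype.ext
          rw [← e2]
          exact h1.symm
        rw [f1] at d1
        rw [f2] at d2
        omega
    rw [card_image_of_injOn hinj, hfil]
    exact card_erase_add_one r.2

end Pool.MP_65847d_pr
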