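import Pool.Agent.Lib.MP_65847d_pr.X.LDefs3
import Pool.Agent.Lib.MP_65847d_pr.X.LCount
import Pool.Agent.Lib.MP_65847d_pr.X.LSpan

/-!
# X/LPat : probability of a pattern on a fixed vertex set

Proof of `Pr_pat`. Let `t = |X|`. (If `X = ∅` the event is false since `LConn` implies nonempty, and the right side is `≥ 0`.) For `π : N → N` let `F π = (X.filter (π x ≠ x)).image (s(x, π x))`. By `exists_parent` the event implies that there is
`π : N → N` with `π x ∈ X` for `x ∈ X`, `|F π| = t - 1` and all pairs of `F π` are edges. Only the restriction of `π` to `X` matters: use functions `π ∈ Fintype.piFinset`/`X → X` (there are `t ^ t`; e.g. index by `{x // x ∈ X} → {x // x ∈ X}` and extend by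
the identity). Let `T = X.offDiag.image (fun q => s(q.1, q.2))` (`|T| ≤ t^2`; all edges inside `X` are in `T`, and the edges inside `X` are the `e ∈ T` with `ω e = true`, see `eR_le_cnt` in C/FMoment.lean) and
`T' = (X ×ˢ univ).image (fun q => s(q.1, R q.2))`, `|T'| = r t` (`≤` suffices), disjoint from `T`. On the event: `e(X) ≥ t - 1 + j`, so there is `J ⊆ T \ F π` with `|J| = j`, all on; and `aR = #{e ∈ T' : on}` (`s(y, R x)` distinct for distinct `(y, x)`:
`R` injective, `y` non-root), so there is `A' ⊆ T'` with `|A'| = a`, all on. So `F π ∪ J ∪ A'` are all on, a set of exactly `t - 1 + j + a` bits (disjoint union): probability `p ^ (t - 1 + j + a)` (`Pr_all_on`). Union bound (`Pr_exists_le`) over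
`π` (`t^t`), `J ∈ powersetCard j T` (`≤ (t^2).choose j`, `Nat.choose_le_choose`), `A' ∈ powersetCard a T'`.
`Pr_pat0` is the same without `A'` and without roots.
-/

set_option autoImplicit false

open Finset

namespace Pool.MP_65847d_pr

open Pool.MP_1bacea_co

private theorem LPat_core {ι κ : Type*} [Fintype ι] [DecidableEq ι] {p : ℝ} (h0 : 0 ≤ p)
    (h1 : p ≤ 1) (s : Finset κ) (T T' : Finset ι) (hd : Disjoint T T') (F : κ → Finset ι)
    (m j a : ℕ) (E : (ι → Bool) → Prop)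
    (hE : ∀ ω, E ω → ∃ k ∈ s, (F k).card = m ∧ F k ⊆ T ∧ (∀ i ∈ F k, ω i = true) ∧
      m + j ≤ cnt ω T ∧ a ≤ cnt ω T') :
    Pr p E ≤ (s.card : ℝ) * (T.card.choose j : ℝ) * (T'.card.choose a : ℝ) * p ^ (m + j + a) := by
  classical
  have hpn : 0 ≤ p ^ (m + j + a) := pow_nonneg h0 _
  have hmono : Pr p E ≤ Pr p (fun ω => ∃ z ∈ s ×ˢ (powersetCard j T ×ˢ powersetCard a T'),
      ((F z.1).card = m ∧ F z.1 ⊆ T ∧ Disjoint (F z.1) z.2.1 ∧
        ∀ i ∈ F z.1 ∪ z.2.1 ∪ z.2.2, ω i = true)) := by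
    refine Pr_mono h0 h1 fun ω hω => ?_
    obtain ⟨k, hk, hFm, hFT, hFon, hT, hT'⟩ := hE ω hω
    have hsub : F k ⊆ T.filter fun i => ω i = true :=
      fun i hi => mem_filter.mpr ⟨hFT hi, hFon i hi⟩
    have hcard : j ≤ ((T.filter fun i => ω i = true) \ F k).card := by
      rw [card_sdiff_of_subset hsub, hFm]
      unfold cnt at hT
      omega
    obtain ⟨J, hJ, hJc⟩ := exists_subset_card_eq hcard
    obtain ⟨A, hA, hAc⟩ := exists_subset_card_eq (s := T'.filter fun i => ω i = true) hT'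
    refine ⟨(k, J, A), ?_, hFm, hFT, ?_, ?_⟩
    · rw [mem_product, mem_product]
      refine ⟨hk, mem_powersetCard.mpr ⟨fun i hi => ?_, hJc⟩,
        mem_powersetCard.mpr ⟨fun i hi => ?_, hAc⟩⟩
      · exact (mem_filter.mp (mem_sdiff.mp (hJ hi)).1).1
      · exact (mem_filter.mp (hA hi)).1
    · rw [disjoint_right]
      exact fun i hi => (mem_sdiff.mp (hJ hi)).2
    · intro i hi
      rcases mem_union.mp hi with hi | hi
      · rcases mem_union.mp hi with hi | hi
        · exact hFon i hi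
        · exact (mem_filter.mp (mem_sdiff.mp (hJ hi)).1).2
      · exact (mem_filter.mp (hA hi)).2
  refine hmono.trans ((Pr_exists_le h0 h1 _ _).trans ?_)
  have hb : ∀ z ∈ s ×ˢ (powersetCard j T ×ˢ powersetCard a T'),
      Pr p (fun ω => (F z.1).card = m ∧ F z.1 ⊆ T ∧ Disjoint (F z.1) z.2.1 ∧
        ∀ i ∈ F z.1 ∪ z.2.1 ∪ z.2.2, ω i = true) ≤ p ^ (m + j + a) := by
    rintro ⟨k, J, A⟩ hz
    rw [mem_product, mem_product] at hz
    obtain ⟨-, hJ, hA⟩ := hz
    rw [mem_powersetCard] at hJ hA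
    by_cases hc : (F k).card = m ∧ F k ⊆ T ∧ Disjoint (F k) J
    · have hdis : Disjoint (F k ∪ J) A :=
        disjoint_of_subset_left (union_subset hc.2.1 hJ.1) (disjoint_of_subset_right hA.1 hd)
      have hcard : (F k ∪ J ∪ A).card = m + j + a := by
        rw [card_union_of_disjoint hdis, card_union_of_disjoint hc.2.2, hc.1, hJ.2, hA.2]
      refine (Pr_mono h0 h1 (B := fun ω => ∀ i ∈ F k ∪ J ∪ A, ω i = true)
        fun ω hω => hω.2.2.2).trans ?_
      rw [Pr_all_on, hcard]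
    · have he : Pr p (fun ω : ι → Bool => (F k).card = m ∧ F k ⊆ T ∧ Disjoint (F k) J ∧
          ∀ i ∈ F k ∪ J ∪ A, ω i = true) = 0 := by
        unfold Pr
        have : (fun ω : ι → Bool => ind ((F k).card = m ∧ F k ⊆ T ∧ Disjoint (F k) J ∧
          ∀ i ∈ F k ∪ J ∪ A, ω i = true)) = fun _ => 0 := by
          funext ω
          exact ind_false fun h => hc ⟨h.1, h.2.1, h.2.2.1⟩
        rw [this, Ex_const]
      exact he.le.trans hpn
  refine (sum_le_sum hb).trans ?_
  rw [sum_const, nsmul_eq_mul, card_product, card_product, card_powersetCard, card_powersetCard]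
  push_cast
  rw [← mul_assoc ((s.card : ℕ) : ℝ)]

variable {N V : Type*} [Fintype N] [DecidableEq N] [Fintype V] [DecidableEq V]

private theorem LPat_eIn (ω : Sym2 N → Bool) (X : Finset N) :
    eIn (Gr ω) X ≤ cnt ω (X.offDiag.image fun q => s(q.1, q.2)) := by
  classical
  unfold eIn cnt
  refine card_le_card_of_injOn id ?_ (fun _ _ _ _ h => h)
  intro e he
  rw [mem_coe, mem_filter] at he
  obtain ⟨_, he1, he2⟩ := he
  rw [id, mem_coe, mem_filter]
  induction e with
  | h a b =>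
    rw [SimpleGraph.mem_edgeSet] at he1
    refine ⟨?_, he1.2⟩
    rw [mem_image]
    exact ⟨(a, b), mem_offDiag.mpr ⟨he2 a (Sym2.mem_mk_left _ _), he2 b (Sym2.mem_mk_right _ _),
      he1.1⟩, rfl⟩

private theorem LPat_aR {R : V → N} (hR : Function.Injective R) {X : Finset N}
    (hX : ∀ a ∈ X, ∀ x, R x ≠ a) (ω : Sym2 N → Bool) :
    aR (Gr ω) R X ≤ cnt ω ((X ×ˢ (univ : Finset V)).image fun q => s(q.1, R q.2)) := by
  classical
  set S2 : Finset (N × V) :=
    (X ×ˢ (univ : Finset V)).filter fun q => (Gr ω).Adj q.1 (R q.2) with hS2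
  have hc2 : aR (Gr ω) R X = S2.card := by
    rw [hS2, card_filter, sum_product, aR]
    refine sum_congr rfl fun y _ => ?_
    rw [lab, card_filter]
  have hinj : Set.InjOn (fun q : N × V => s(q.1, R q.2)) (S2 : Set (N × V)) := by
    rintro ⟨y, x⟩ hq ⟨y', x'⟩ hq' h
    rw [mem_coe, hS2, mem_filter, mem_product] at hq hq'
    simp only [Sym2.eq_iff] at h
    rcases h with ⟨h1, h2⟩ | ⟨h1, _⟩
    · rw [Prod.mk.injEq]
      exact ⟨h1, hR h2⟩
    · exact absurd h1.symm (hX y hq.1.1 x')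
  rw [hc2, ← card_image_of_injOn hinj, cnt]
  refine card_le_card fun e he => ?_
  rw [mem_image] at he
  obtain ⟨⟨y, x⟩, hq, rfl⟩ := he
  rw [hS2, mem_filter] at hq
  rw [mem_filter]
  exact ⟨mem_image_of_mem _ hq.1, hq.2.2⟩

/-- the edges of a parent function -/
private def LPat_F (X : Finset N) (f : {x // x ∈ X} → {x // x ∈ X}) : Finset (Sym2 N) :=
  (X.attach.filter fun x : {x // x ∈ X} => ((f x : {x // x ∈ X}) : N) ≠ (x : N)).image
    fun x : {x // x ∈ X} => s((x : N), ((f x : {x // x ∈ X}) : N))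

private theorem LPat_parent {ω : Sym2 N → Bool} {X : Finset N} (h : LConn (Gr ω) X) :
    ∃ f : {x // x ∈ X} → {x // x ∈ X}, (LPat_F X f).card = X.card - 1 ∧
      LPat_F X f ⊆ (X.offDiag.image fun q => s(q.1, q.2)) ∧
      ∀ i ∈ LPat_F X f, ω i = true := by
  obtain ⟨π, h1, h2, h3⟩ := exists_parent h
  have hF : LPat_F X (fun x => ⟨π x, h1 x x.2⟩) =
      (X.filter fun x => π x ≠ x).image fun x => s(x, π x) := by
    ext e
    unfold LPat_F
    simp only [mem_image, mem_filter, mem_attach, true_and]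
    constructor
    · rintro ⟨x, hx, rfl⟩
      exact ⟨x, ⟨x.2, hx⟩, rfl⟩
    · rintro ⟨x, ⟨hx, hx'⟩, rfl⟩
      exact ⟨⟨x, hx⟩, hx', rfl⟩
  refine ⟨fun x => ⟨π x, h1 x x.2⟩, ?_, ?_, ?_⟩
  · rw [hF]
    omega
  · rw [hF]
    intro e he
    simp only [mem_image, mem_filter] at he
    obtain ⟨x, ⟨hx, hx'⟩, rfl⟩ := he
    rw [mem_image]
    exact ⟨(x, π x), mem_offDiag.mpr ⟨hx, h1 x hx, fun h => hx' h.symm⟩, rfl⟩
  · rw [hF]
    intro e he
    simp only [mem_image, mem_filter] at he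
    obtain ⟨x, ⟨hx, hx'⟩, rfl⟩ := he
    exact (h2 x hx hx').2

private theorem LPat_card (X : Finset N) :
    (X.offDiag.image fun q => s(q.1, q.2)).card ≤ X.card ^ 2 := by
  refine card_image_le.trans ?_
  rw [offDiag_card, pow_two]
  exact Nat.sub_le _ _

theorem Pr_pat {R : V → N} (hR : Function.Injective R) {p : ℝ} (h0 : 0 ≤ p) (h1 : p ≤ 1) {X : Finset N}
    (hX : ∀ a ∈ X, ∀ x, R x ≠ a) (j a : ℕ) :
    Pr p (fun ω : Sym2 N → Bool => Pat (Gr ω) X j ∧ a ≤ aR (Gr ω) R X) ≤
      (X.card : ℝ) ^ X.card * ((X.card ^ 2).choose j : ℝ) * ((Fintype.card V * X.card).choose a : ℝ) *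
        p ^ (X.card - 1 + j + a) := by
  classical
  set T : Finset (Sym2 N) := X.offDiag.image fun q => s(q.1, q.2) with hT
  set T' : Finset (Sym2 N) := (X ×ˢ (univ : Finset V)).image fun q => s(q.1, R q.2) with hT'
  have hd : Disjoint T T' := by
    rw [disjoint_left]
    intro e he he'
    rw [hT, mem_image] at he
    rw [hT', mem_image] at he'
    obtain ⟨⟨y, x⟩, hyx, rfl⟩ := he'
    obtain ⟨⟨b, c⟩, hbc, hq⟩ := he
    rw [mem_offDiag] at hbc
    have hm : R x ∈ s(b, c) := by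
      rw [hq]
      exact Sym2.mem_mk_right _ _
    rcases Sym2.mem_iff.mp hm with h | h
    · exact hX b hbc.1 x h
    · exact hX c hbc.2.1 x h
  have hcore := LPat_core h0 h1 (univ : Finset ({x // x ∈ X} → {x // x ∈ X})) T T' hd (LPat_F X)
    (X.card - 1) j a (fun ω : Sym2 N → Bool => Pat (Gr ω) X j ∧ a ≤ aR (Gr ω) R X) ?_
  · refine hcore.trans ?_
    have hc1 : (univ : Finset ({x // x ∈ X} → {x // x ∈ X})).card = X.card ^ X.card := by
      rw [card_univ, Fintype.card_fun, Fintype.card_coe]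
    rw [hc1]
    push_cast
    have hc2 : ((T.card.choose j : ℕ) : ℝ) ≤ ((X.card ^ 2).choose j : ℕ) := by
      exact_mod_cast Nat.choose_le_choose j (LPat_card X)
    have hc3 : ((T'.card.choose a : ℕ) : ℝ) ≤ ((Fintype.card V * X.card).choose a : ℕ) := by
      have : T'.card ≤ Fintype.card V * X.card := by
        refine card_image_le.trans ?_
        rw [card_product, card_univ, mul_comm]
      exact_mod_cast Nat.choose_le_choose a this
    gcongr
  · rintro ω ⟨⟨hc, he⟩, ha⟩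
    obtain ⟨f, hf1, hf2, hf3⟩ := LPat_parent hc
    refine ⟨f, mem_univ _, hf1, hf2, hf3, ?_, ha.trans (LPat_aR hR hX ω)⟩
    have h5 : eIn (Gr ω) X ≤ cnt ω T := LPat_eIn ω X
    have hne : 1 ≤ X.card := card_pos.mpr hc.nonempty
    omega

theorem Pr_pat0 {p : ℝ} (h0 : 0 ≤ p) (h1 : p ≤ 1) (X : Finset N) (j : ℕ) :
    Pr p (fun ω : Sym2 N → Bool => Pat (Gr ω) X j) ≤
      (X.card : ℝ) ^ X.card * ((X.card ^ 2).choose j : ℝ) * p ^ (X.card - 1 + j) := by
  classical
  have hcore := LPat_core h0 h1 (univ : Finset ({x // x ∈ X} → {x // x ∈ X}))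
    (X.offDiag.image fun q => s(q.1, q.2)) (∅ : Finset (Sym2 N)) (disjoint_empty_right _) (LPat_F X)
    (X.card - 1) j 0 (fun ω : Sym2 N → Bool => Pat (Gr ω) X j) ?_
  · refine hcore.trans ?_
    have hc1 : (univ : Finset ({x // x ∈ X} → {x // x ∈ X})).card = X.card ^ X.card := by
      rw [card_univ, Fintype.card_fun, Fintype.card_coe]
    rw [hc1, Nat.choose_zero_right, Nat.cast_one, mul_one, add_zero]
    push_cast
    have hc2 : (((X.offDiag.image fun q => s(q.1, q.2)).card.choose j : ℕ) : ℝ) ≤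
        ((X.card ^ 2).choose j : ℕ) := by
      exact_mod_cast Nat.choose_le_choose j (LPat_card X)
    gcongr
  · rintro ω ⟨hc, he⟩
    obtain ⟨f, hf1, hf2, hf3⟩ := LPat_parent hc
    refine ⟨f, mem_univ _, hf1, hf2, hf3, ?_, Nat.zero_le _⟩
    have := LPat_eIn ω X
    have hne : 1 ≤ X.card := card_pos.mpr hc.nonempty
    omega

end Pool.MP_65847d_pr
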