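import Pool.Agent.Lib.MP_65847d_pr.X.LPat

/-!
# X/LPhi : expectation of `PhiX` and the union bounds
-/

set_option autoImplicit false

open Finset

namespace Pool.MP_65847d_pr

open Pool.MP_1bacea_co

variable {N V : Type*} [Fintype N] [DecidableEq N] [Fintype V] [DecidableEq V]

theorem choose_mul_pow_le (n t : ℕ) : (n.choose t : ℝ) * (t : ℝ) ^ t ≤ (n : ℝ) ^ t * Real.exp t := by
  have h1 : (n.choose t : ℝ) ≤ (n : ℝ) ^ t / (t.factorial : ℝ) := by
    exact_mod_cast Nat.choose_le_pow_div t n (α := ℝ)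
  have h2 := Real.pow_div_factorial_le_exp (t : ℝ) (Nat.cast_nonneg t) t
  calc (n.choose t : ℝ) * (t : ℝ) ^ t ≤ (n : ℝ) ^ t / (t.factorial : ℝ) * (t : ℝ) ^ t :=
        mul_le_mul_of_nonneg_right h1 (by positivity)
    _ = (n : ℝ) ^ t * ((t : ℝ) ^ t / (t.factorial : ℝ)) := by ring
    _ ≤ (n : ℝ) ^ t * Real.exp t := mul_le_mul_of_nonneg_left h2 (by positivity)

private lemma ind_and (A B : Prop) : ind (A ∧ B) = ind A * ind B := by
  by_cases hA : A
  · by_cases hB : B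
    · rw [ind_true ⟨hA, hB⟩, ind_true hA, ind_true hB, mul_one]
    · rw [ind_false (fun h => hB h.2), ind_false hB, mul_zero]
  · rw [ind_false (fun h => hA h.1), ind_false hA, zero_mul]

private lemma Pr_and_const {ι : Type*} [Fintype ι] [DecidableEq ι] (p : ℝ) (A : Prop)
    (B : (ι → Bool) → Prop) : Pr p (fun ω => A ∧ B ω) = ind A * Pr p B := by
  unfold Pr
  simp only [ind_and]
  exact Ex_mul_left p _ _

omit [Fintype N] [DecidableEq N] in
/-- sums over sets grouped by cardinality -/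
private lemma sum_card_le (S : Finset (Finset N)) (I : Finset ℕ) (hS : ∀ X ∈ S, X.card ∈ I) (c g : ℕ → ℝ)
    (hg : ∀ t, 0 ≤ g t) (hc : ∀ t ∈ I, ((S.filter fun X => X.card = t).card : ℝ) ≤ c t) :
    ∑ X ∈ S, g X.card ≤ ∑ t ∈ I, c t * g t := by
  rw [← sum_fiberwise_of_maps_to hS]
  refine sum_le_sum fun t ht => ?_
  have h1 : ∑ X ∈ S with X.card = t, g X.card = ∑ X ∈ S with X.card = t, g t := by
    refine sum_congr rfl fun X hX => ?_
    rw [(mem_filter.1 hX).2]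
  rw [h1, sum_const, nsmul_eq_mul]
  exact mul_le_mul_of_nonneg_right (hc t ht) (hg t)

omit [DecidableEq N] in
private lemma card_le_choose (S : Finset (Finset N)) (t : ℕ) :
    ((S.filter fun X => X.card = t).card : ℝ) ≤ ((Fintype.card N).choose t : ℝ) := by
  have h : (S.filter fun X => X.card = t) ⊆ powersetCard t (univ : Finset N) := by
    intro X hX
    exact mem_powersetCard.2 ⟨subset_univ _, (mem_filter.1 hX).2⟩
  have h1 := card_le_card h
  rw [card_powersetCard, card_univ] at h1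
  exact_mod_cast h1

private lemma card_le_choose_mem (S : Finset (Finset N)) (v : N) (hv : ∀ X ∈ S, v ∈ X) {t : ℕ}
    (hN : 1 ≤ Fintype.card N) (ht : 1 ≤ t) :
    ((S.filter fun X => X.card = t).card : ℝ) ≤
      (t : ℝ) / (Fintype.card N : ℝ) * ((Fintype.card N).choose t : ℝ) := by
  have h1 : (S.filter fun X => X.card = t).card ≤ (powersetCard (t - 1) (univ.erase v : Finset N)).card := by
    refine card_le_card_of_injOn (fun X => X.erase v) ?_ ?_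
    · intro X hX
      have hX' := mem_filter.1 (mem_coe.1 hX)
      have hX1 := hv X hX'.1
      refine mem_coe.2 (mem_powersetCard.2 ⟨erase_subset_erase v (subset_univ _), ?_⟩)
      rw [card_erase_of_mem hX1, hX'.2]
    · intro X hX Y hY hXY
      have hX1 := hv X (mem_filter.1 (mem_coe.1 hX)).1
      have hY1 := hv Y (mem_filter.1 (mem_coe.1 hY)).1
      rw [← insert_erase hX1, ← insert_erase hY1]
      exact congrArg (insert v) hXY
  rw [card_powersetCard, card_erase_of_mem (mem_univ v), card_univ] at h1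
  obtain ⟨m, hm⟩ : ∃ m, Fintype.card N = m + 1 := ⟨Fintype.card N - 1, by omega⟩
  obtain ⟨s, hs⟩ : ∃ s, t = s + 1 := ⟨t - 1, by omega⟩
  have h2 := Nat.add_one_mul_choose_eq m s
  have e1 : Fintype.card N - 1 = m := by omega
  have e2 : t - 1 = s := by omega
  rw [e1, e2] at h1
  have h5 : ((S.filter fun X => X.card = t).card : ℝ) ≤ (m.choose s : ℝ) := by exact_mod_cast h1
  rw [hm, hs]
  rw [hs] at h5
  have h3 : ((m + 1 : ℕ) : ℝ) * (m.choose s : ℝ) = ((m + 1).choose (s + 1) : ℝ) * ((s + 1 : ℕ) : ℝ) := by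
    exact_mod_cast h2
  have hpos : (0 : ℝ) < ((m + 1 : ℕ) : ℝ) := by positivity
  have h4 : ((s + 1 : ℕ) : ℝ) / ((m + 1 : ℕ) : ℝ) * ((m + 1).choose (s + 1) : ℝ) = (m.choose s : ℝ) := by
    rw [div_mul_eq_mul_div, div_eq_iff hpos.ne']
    linarith
  rw [h4]
  exact h5

theorem Ex_Phi_le {p : ℝ} (h0 : 0 ≤ p) (h1 : p ≤ 1) (r : ℕ) (κ α1 : ℝ) (L0 : ℕ) (Q : Finset N) :
    Ex p (fun ω : Sym2 N → Bool => PhiX r κ α1 p L0 Q ω) ≤
      ∑ t ∈ Icc 1 (2 * L0), ∑ j ∈ range (t ^ 2 + 1), ∑ a ∈ Icc 1 (r * t),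
        ind (Vi κ α1 t j a) * fm (Fintype.card N) r p t j a := by
  classical
  set G : ℕ → ℝ := fun t => ∑ j ∈ range (t ^ 2 + 1), ∑ a ∈ Icc 1 (r * t),
    ind (Vi κ α1 t j a) * ((t : ℝ) ^ t * ((t ^ 2).choose j : ℝ) * p ^ (t - 1 + j)) *
      (((r * t).choose a : ℝ) * p ^ a) with hG
  have hG0 : ∀ t, 0 ≤ G t := fun t => sum_nonneg fun j _ => sum_nonneg fun a _ =>
    mul_nonneg (mul_nonneg (ind_nonneg _) (by positivity)) (by positivity)
  have hE : Ex p (fun ω : Sym2 N → Bool => PhiX r κ α1 p L0 Q ω) ≤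
      ∑ X ∈ (univ \ Q).powerset.filter (fun X => X.card ∈ Icc 1 (2 * L0)), G X.card := by
    unfold PhiX
    rw [Ex_sum]
    refine sum_le_sum fun X _ => ?_
    rw [Ex_sum, hG]
    refine sum_le_sum fun j _ => ?_
    rw [Ex_sum]
    refine sum_le_sum fun a _ => ?_
    have e1 : Ex p (fun ω : Sym2 N → Bool => ind (Vi κ α1 X.card j a ∧ Pat (Gr ω) X j) *
        (((r * X.card).choose a : ℝ) * p ^ a)) = (((r * X.card).choose a : ℝ) * p ^ a) *
          (ind (Vi κ α1 X.card j a) * Pr p (fun ω : Sym2 N → Bool => Pat (Gr ω) X j)) := by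
      rw [← Pr_and_const, Pr, ← Ex_mul_left]
      congr 1
      funext ω
      ring
    rw [e1]
    have h2 := Pr_pat0 h0 h1 X j
    have h3 : 0 ≤ ((r * X.card).choose a : ℝ) * p ^ a := by positivity
    calc (((r * X.card).choose a : ℝ) * p ^ a) *
          (ind (Vi κ α1 X.card j a) * Pr p (fun ω : Sym2 N → Bool => Pat (Gr ω) X j))
        ≤ (((r * X.card).choose a : ℝ) * p ^ a) * (ind (Vi κ α1 X.card j a) *
          ((X.card : ℝ) ^ X.card * ((X.card ^ 2).choose j : ℝ) * p ^ (X.card - 1 + j))) :=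
          mul_le_mul_of_nonneg_left (mul_le_mul_of_nonneg_left h2 (ind_nonneg _)) h3
      _ = _ := by ring
  refine hE.trans ?_
  refine (sum_card_le _ (Icc 1 (2 * L0)) (fun X hX => (mem_filter.1 hX).2)
    (fun t => ((Fintype.card N).choose t : ℝ)) G hG0 (fun t _ => card_le_choose _ t)).trans ?_
  refine sum_le_sum fun t _ => ?_
  rw [hG]
  simp only [mul_sum]
  refine sum_le_sum fun j _ => sum_le_sum fun a _ => ?_
  have h2 := choose_mul_pow_le (Fintype.card N) t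
  have h3 : 0 ≤ ind (Vi κ α1 t j a) * (((t ^ 2).choose j : ℝ) * ((r * t).choose a : ℝ) *
      (p ^ (t - 1 + j) * p ^ a)) := mul_nonneg (ind_nonneg _) (by positivity)
  calc ((Fintype.card N).choose t : ℝ) * (ind (Vi κ α1 t j a) *
        ((t : ℝ) ^ t * ((t ^ 2).choose j : ℝ) * p ^ (t - 1 + j)) * (((r * t).choose a : ℝ) * p ^ a))
      = (((Fintype.card N).choose t : ℝ) * (t : ℝ) ^ t) * (ind (Vi κ α1 t j a) *
        (((t ^ 2).choose j : ℝ) * ((r * t).choose a : ℝ) * (p ^ (t - 1 + j) * p ^ a))) := by ring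
    _ ≤ ((Fintype.card N : ℝ) ^ t * Real.exp t) * (ind (Vi κ α1 t j a) *
        (((t ^ 2).choose j : ℝ) * ((r * t).choose a : ℝ) * (p ^ (t - 1 + j) * p ^ a))) :=
        mul_le_mul_of_nonneg_right h2 h3
    _ = _ := by
        rw [fm, ← pow_add]
        ring

/-- union bound over sets and numbers -/
private lemma Pr_union_aux {p : ℝ} (h0 : 0 ≤ p) (h1 : p ≤ 1) (r L0 : ℕ) (S : Finset (Finset N))
    (hS : ∀ X ∈ S, X.card ∈ Icc 1 (2 * L0)) (C : ℕ → ℕ → ℕ → Prop)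
    (A : Finset N → ℕ → ℕ → (Sym2 N → Bool) → Prop)
    (hA : ∀ X ∈ S, ∀ j a, Pr p (A X j a) ≤ (X.card : ℝ) ^ X.card * ((X.card ^ 2).choose j : ℝ) *
      ((r * X.card).choose a : ℝ) * p ^ (X.card - 1 + j + a)) (J : ℕ → Finset ℕ)
    (c : ℕ → ℝ) (hc0 : ∀ t, 0 ≤ c t)
    (hc : ∀ t ∈ Icc 1 (2 * L0), ((S.filter fun X => X.card = t).card : ℝ) ≤
      c t * ((Fintype.card N).choose t : ℝ)) :
    Pr p (fun ω : Sym2 N → Bool => ∃ X ∈ S, ∃ j ∈ range (X.card ^ 2 + 1), ∃ a ∈ J X.card,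
      C X.card j a ∧ A X j a ω) ≤
      ∑ t ∈ Icc 1 (2 * L0), c t * ∑ j ∈ range (t ^ 2 + 1), ∑ a ∈ J t,
        ind (C t j a) * fm (Fintype.card N) r p t j a := by
  classical
  set G : ℕ → ℝ := fun t => ∑ j ∈ range (t ^ 2 + 1), ∑ a ∈ J t,
    ind (C t j a) * ((t : ℝ) ^ t * ((t ^ 2).choose j : ℝ) * ((r * t).choose a : ℝ) *
      p ^ (t - 1 + j + a)) with hG
  have hG0 : ∀ t, 0 ≤ G t := fun t => sum_nonneg fun j _ => sum_nonneg fun a _ =>
    mul_nonneg (ind_nonneg _) (by positivity)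
  have hE : Pr p (fun ω : Sym2 N → Bool => ∃ X ∈ S, ∃ j ∈ range (X.card ^ 2 + 1), ∃ a ∈ J X.card,
      C X.card j a ∧ A X j a ω) ≤ ∑ X ∈ S, G X.card := by
    refine (Pr_exists_le h0 h1 S _).trans (sum_le_sum fun X hX => ?_)
    refine (Pr_exists_le h0 h1 _ _).trans (sum_le_sum fun j _ => ?_)
    refine (Pr_exists_le h0 h1 _ _).trans (sum_le_sum fun a _ => ?_)
    rw [Pr_and_const]
    exact mul_le_mul_of_nonneg_left (hA X hX j a) (ind_nonneg _)
  refine hE.trans ?_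
  refine (sum_card_le S (Icc 1 (2 * L0)) hS
    (fun t => c t * ((Fintype.card N).choose t : ℝ)) G hG0 hc).trans ?_
  refine sum_le_sum fun t _ => ?_
  rw [mul_assoc]
  refine mul_le_mul_of_nonneg_left ?_ (hc0 t)
  rw [hG]
  simp only [mul_sum]
  refine sum_le_sum fun j _ => sum_le_sum fun a _ => ?_
  have h2 := choose_mul_pow_le (Fintype.card N) t
  have h3 : 0 ≤ ind (C t j a) * (((t ^ 2).choose j : ℝ) * ((r * t).choose a : ℝ) *
      p ^ (t - 1 + j + a)) := mul_nonneg (ind_nonneg _) (by positivity)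
  calc ((Fintype.card N).choose t : ℝ) * (ind (C t j a) *
        ((t : ℝ) ^ t * ((t ^ 2).choose j : ℝ) * ((r * t).choose a : ℝ) * p ^ (t - 1 + j + a)))
      = (((Fintype.card N).choose t : ℝ) * (t : ℝ) ^ t) * (ind (C t j a) *
        (((t ^ 2).choose j : ℝ) * ((r * t).choose a : ℝ) * p ^ (t - 1 + j + a))) := by ring
    _ ≤ ((Fintype.card N : ℝ) ^ t * Real.exp t) * (ind (C t j a) *
        (((t ^ 2).choose j : ℝ) * ((r * t).choose a : ℝ) * p ^ (t - 1 + j + a))) :=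
        mul_le_mul_of_nonneg_right h2 h3
    _ = _ := by
        rw [fm]
        ring

theorem Pr_union0 {p : ℝ} (h0 : 0 ≤ p) (h1 : p ≤ 1) (r : ℕ) (κ α1 : ℝ) (L0 : ℕ) :
    Pr p (fun ω : Sym2 N → Bool => ∃ X : Finset N, X.card ∈ Icc 1 (2 * L0) ∧ ∃ j ≤ X.card ^ 2,
      Vi κ α1 X.card j 0 ∧ Pat (Gr ω) X j) ≤
      ∑ t ∈ Icc 1 (2 * L0), ∑ j ∈ range (t ^ 2 + 1), ind (Vi κ α1 t j 0) * fm (Fintype.card N) r p t j 0 := by
  classical
  have h := Pr_union_aux h0 h1 r L0 (univ.filter fun X : Finset N => X.card ∈ Icc 1 (2 * L0))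
    (fun X hX => (mem_filter.1 hX).2) (Vi κ α1) (fun X j a ω => a = 0 ∧ Pat (Gr ω) X j)
    (fun X _ j a => by
      rw [Pr_and_const]
      by_cases ha : a = 0
      · rw [ind_true ha, one_mul, ha, Nat.choose_zero_right, Nat.cast_one, mul_one, add_zero]
        exact Pr_pat0 h0 h1 X j
      · rw [ind_false ha, zero_mul]
        positivity) (fun _ => {0}) (fun _ => 1) (fun _ => zero_le_one)
    (fun t _ => by rw [one_mul]; exact card_le_choose _ t)
  simp only [one_mul, sum_singleton] at h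
  refine (Pr_mono h0 h1 fun ω hω => ?_).trans h
  obtain ⟨X, hX, j, hj, hV, hP⟩ := hω
  exact ⟨X, mem_filter.2 ⟨mem_univ _, hX⟩, j, mem_range.2 (Nat.lt_succ_of_le hj), 0,
    mem_singleton_self _, hV, rfl, hP⟩

theorem Pr_unionII {R : V → N} (hR : Function.Injective R) {p : ℝ} (h0 : 0 ≤ p) (h1 : p ≤ 1) (κ α1 : ℝ)
    (L0 : ℕ) :
    Pr p (fun ω : Sym2 N → Bool => ∃ X : Finset N, (∀ a ∈ X, ∀ x, R x ≠ a) ∧ X.card ∈ Icc 1 (2 * L0) ∧
      ∃ j ≤ X.card ^ 2, ∃ a ≤ Fintype.card V * X.card, Vii κ α1 L0 X.card j a ∧ Pat (Gr ω) X j ∧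
        a ≤ aR (Gr ω) R X) ≤
      ∑ t ∈ Icc 1 (2 * L0), ∑ j ∈ range (t ^ 2 + 1), ∑ a ∈ range (Fintype.card V * t + 1),
        ind (Vii κ α1 L0 t j a) * fm (Fintype.card N) (Fintype.card V) p t j a := by
  classical
  have h := Pr_union_aux h0 h1 (Fintype.card V) L0 (univ.filter fun X : Finset N =>
      (∀ a ∈ X, ∀ x, R x ≠ a) ∧ X.card ∈ Icc 1 (2 * L0))
    (fun X hX => (mem_filter.1 hX).2.2) (Vii κ α1 L0)
    (fun X j a ω => Pat (Gr ω) X j ∧ a ≤ aR (Gr ω) R X)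
    (fun X hX j a => Pr_pat hR h0 h1 (mem_filter.1 hX).2.1 j a)
    (fun t => range (Fintype.card V * t + 1)) (fun _ => 1) (fun _ => zero_le_one)
    (fun t _ => by rw [one_mul]; exact card_le_choose _ t)
  simp only [one_mul] at h
  refine (Pr_mono h0 h1 fun ω hω => ?_).trans h
  obtain ⟨X, hXR, hX, j, hj, a, ha, hV, hP⟩ := hω
  exact ⟨X, mem_filter.2 ⟨mem_univ _, hXR, hX⟩, j, mem_range.2 (Nat.lt_succ_of_le hj), a,
    mem_range.2 (Nat.lt_succ_of_le ha), hV, hP⟩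

theorem Pr_unionQ {R : V → N} (hR : Function.Injective R) {p : ℝ} (h0 : 0 ≤ p) (h1 : p ≤ 1)
    (hN : 1 ≤ Fintype.card N) (C : ℕ → ℕ → ℕ → Prop) (L0 : ℕ) (Q : Finset N) :
    Pr p (fun ω : Sym2 N → Bool => ∃ X : Finset N, (∀ a ∈ X, ∀ x, R x ≠ a) ∧ (∃ v ∈ Q, v ∈ X) ∧
      X.card ∈ Icc 1 (2 * L0) ∧
      ∃ j ≤ X.card ^ 2, ∃ a ≤ Fintype.card V * X.card, C X.card j a ∧ Pat (Gr ω) X j ∧
        a ≤ aR (Gr ω) R X) ≤
      (Q.card : ℝ) / (Fintype.card N : ℝ) *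
      ∑ t ∈ Icc 1 (2 * L0), (t : ℝ) * ∑ j ∈ range (t ^ 2 + 1), ∑ a ∈ range (Fintype.card V * t + 1),
        ind (C t j a) * fm (Fintype.card N) (Fintype.card V) p t j a := by
  classical
  have h := fun v : N => Pr_union_aux h0 h1 (Fintype.card V) L0 (univ.filter fun X : Finset N =>
      v ∈ X ∧ (∀ a ∈ X, ∀ x, R x ≠ a) ∧ X.card ∈ Icc 1 (2 * L0))
    (fun X hX => (mem_filter.1 hX).2.2.2) C
    (fun X j a ω => Pat (Gr ω) X j ∧ a ≤ aR (Gr ω) R X)
    (fun X hX j a => Pr_pat hR h0 h1 (mem_filter.1 hX).2.2.1 j a)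
    (fun t => range (Fintype.card V * t + 1)) (fun t => (t : ℝ) / (Fintype.card N : ℝ))
    (fun t => by positivity)
    (fun t ht => card_le_choose_mem _ v (fun X hX => (mem_filter.1 hX).2.1) hN (mem_Icc.1 ht).1)
  refine (Pr_mono h0 h1 (B := fun ω => ∃ v ∈ Q, ∃ X ∈ (univ.filter fun X : Finset N =>
      v ∈ X ∧ (∀ a ∈ X, ∀ x, R x ≠ a) ∧ X.card ∈ Icc 1 (2 * L0)),
      ∃ j ∈ range (X.card ^ 2 + 1), ∃ a ∈ range (Fintype.card V * X.card + 1),
      C X.card j a ∧ (Pat (Gr ω) X j ∧ a ≤ aR (Gr ω) R X)) fun ω hω => ?_).trans ?_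
  · obtain ⟨X, hXR, ⟨v, hvQ, hvX⟩, hX, j, hj, a, ha, hV, hP⟩ := hω
    exact ⟨v, hvQ, X, mem_filter.2 ⟨mem_univ _, hvX, hXR, hX⟩, j, mem_range.2 (Nat.lt_succ_of_le hj), a,
      mem_range.2 (Nat.lt_succ_of_le ha), hV, hP⟩
  · refine (Pr_exists_le h0 h1 Q _).trans ((sum_le_sum fun v _ => h v).trans ?_)
    rw [sum_const, nsmul_eq_mul, mul_sum, mul_sum]
    refine le_of_eq (sum_congr rfl fun t _ => ?_)
    ring

end Pool.MP_65847d_pr
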