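import Pool.Agent.Lib.MP_65847d_pr.X.LDefs3
import Pool.Agent.Lib.MP_65847d_pr.X.LHarris
import Pool.Agent.Lib.MP_65847d_pr.X.LMix
import Pool.Agent.Lib.MP_65847d_pr.Lower

/-!
# X/LRes : some root tuple of the reservoir is good

`ρ : Fin m × V → N` injective, `Q` its image, `R k x = ρ (k, x)`.

Proof: `Pr_all_cond_le` with `I` = the pairs with both ends outside `Q`, `J k` = set of the pairs `s(u, R k x)` with
`x : V` and (`u ∉ Q` or `u = R k y` for some `y`), `S ω = (PhiX .. ω ≤ lam)`, `D k ω = ¬ GoodAt κ α1 L0 Q (R k) (Gr ω)`.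
Conditional probability: Harris' inequality for the events that there is no edge inside the roots and that the numbers of
attachments of the violating patterns of `ω` are small.
-/

set_option autoImplicit false

open Finset

namespace Pool.MP_65847d_pr

open Pool.MP_1bacea_co

section

variable {N V : Type*} [Fintype N] [DecidableEq N] [Fintype V] [DecidableEq V]

private theorem lres_pat {ω ω' : Sym2 N → Bool} {X : Finset N} {j : ℕ}
    (h : ∀ a ∈ X, ∀ b ∈ X, ω s(a, b) = ω' s(a, b)) : Pat (Gr ω) X j ↔ Pat (Gr ω') X j := by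
  have h1 : (Gr ω).induce (X : Set N) = (Gr ω').induce (X : Set N) := by
    ext ⟨a, ha⟩ ⟨b, hb⟩
    change (a ≠ b ∧ ω s(a, b) = true) ↔ (a ≠ b ∧ ω' s(a, b) = true)
    rw [h a ha b hb]
  have h2 : eIn (Gr ω) X = eIn (Gr ω') X := by
    unfold eIn
    classical
    refine congrArg Finset.card (Finset.ext fun e => ?_)
    rw [mem_filter, mem_filter]
    refine and_congr_right fun _ => ?_
    induction e with
    | h a b =>
      refine and_congr_left fun hX => ?_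
      rw [SimpleGraph.mem_edgeSet, SimpleGraph.mem_edgeSet]
      change (a ≠ b ∧ ω s(a, b) = true) ↔ (a ≠ b ∧ ω' s(a, b) = true)
      rw [h a (hX a (Sym2.mem_mk_left _ _)) b (hX b (Sym2.mem_mk_right _ _))]
  unfold Pat LConn
  rw [h1, h2]

private theorem lres_phi {r : ℕ} {κ α1 p : ℝ} {L0 : ℕ} {Q : Finset N} {ω ω' : Sym2 N → Bool}
    (h : ∀ a ∉ Q, ∀ b ∉ Q, ω s(a, b) = ω' s(a, b)) :
    PhiX r κ α1 p L0 Q ω = PhiX r κ α1 p L0 Q ω' := by
  unfold PhiX
  refine sum_congr rfl fun X hX => sum_congr rfl fun j _ => sum_congr rfl fun a _ => ?_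
  have hXQ : ∀ a ∈ X, a ∉ Q := fun a ha =>
    (mem_sdiff.1 (mem_powerset.1 (mem_filter.1 hX).1 ha)).2
  have h2 : Pat (Gr ω) X j ↔ Pat (Gr ω') X j :=
    lres_pat fun a ha b hb => h a (hXQ a ha) b (hXQ b hb)
  rw [propext h2]

private theorem lres_aR {ω ω' : Sym2 N → Bool} {R : V → N} {X : Finset N}
    (h : ∀ y ∈ X, ∀ x, ω s(y, R x) = ω' s(y, R x)) : aR (Gr ω) R X = aR (Gr ω') R X := by
  unfold aR
  refine sum_congr rfl fun y hy => ?_
  unfold lab
  classical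
  refine congrArg Finset.card (Finset.ext fun x => ?_)
  rw [mem_filter, mem_filter]
  refine and_congr_right fun _ => ?_
  change (y ≠ R x ∧ ω s(y, R x) = true) ↔ (y ≠ R x ∧ ω' s(y, R x) = true)
  rw [h y hy x]

private theorem lres_good {κ α1 : ℝ} {L0 : ℕ} {Q : Finset N} {R : V → N} {ω ω' : Sym2 N → Bool}
    (h1 : ∀ a ∉ Q, ∀ b ∉ Q, ω s(a, b) = ω' s(a, b))
    (h2 : ∀ y ∉ Q, ∀ x, ω s(y, R x) = ω' s(y, R x))
    (h3 : ∀ x y, ω s(R x, R y) = ω' s(R x, R y)) (hG : GoodAt κ α1 L0 Q R (Gr ω)) :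
    GoodAt κ α1 L0 Q R (Gr ω') := by
  obtain ⟨hG1, hG2⟩ := hG
  refine ⟨?_, ?_⟩
  · rintro x y ⟨hne, hb⟩
    exact hG1 x y ⟨hne, by rw [h3 x y]; exact hb⟩
  · intro X hX hXc j hj a ha hV hP
    have hXQ : ∀ a ∈ X, a ∉ Q := fun a ha => (mem_sdiff.1 (hX ha)).2
    rw [← lres_aR fun y hy x => h2 y (hXQ y hy) x]
    refine hG2 X hX hXc j hj a ha hV ?_
    exact (lres_pat fun a ha b hb => h1 a (hXQ a ha) b (hXQ b hb)).2 hP

private theorem lres_root (R : V → N) {p : ℝ} (h0 : 0 ≤ p) (h1 : p ≤ 1) :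
    Pr p (fun ω : Sym2 N → Bool => ∃ x y, (Gr ω).Adj (R x) (R y)) ≤
      (Fintype.card V : ℝ) ^ 2 * p := by
  classical
  refine (Pr_mono h0 h1 (B := fun ω => ∃ q ∈ (univ : Finset V) ×ˢ (univ : Finset V),
    ω s(R q.1, R q.2) = true) fun ω hω => ?_).trans ?_
  · obtain ⟨x, y, h⟩ := hω
    exact ⟨(x, y), mem_product.mpr ⟨mem_univ _, mem_univ _⟩, h.2⟩
  refine (Pr_exists_le h0 h1 _ _).trans ?_
  have h2 : ∀ q ∈ (univ : Finset V) ×ˢ (univ : Finset V),
      Pr p (fun ω : Sym2 N → Bool => ω s(R q.1, R q.2) = true) = p := by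
    intro q _
    have h3 := Pr_all_on (p := p) ({s(R q.1, R q.2)} : Finset (Sym2 N))
    rw [card_singleton, pow_one] at h3
    rw [← h3]
    congr 1
    funext ω
    simp
  rw [sum_congr rfl h2, sum_const, nsmul_eq_mul, card_product, card_univ]
  push_cast
  apply le_of_eq
  ring

private theorem lres_cnt {R : V → N} (hR : Function.Injective R) {X : Finset N}
    (hX : ∀ a ∈ X, ∀ x, R x ≠ a) (ω : Sym2 N → Bool) :
    aR (Gr ω) R X ≤ cnt ω ((X ×ˢ (univ : Finset V)).image fun q => s(q.1, R q.2)) := by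
  classical
  set S2 : Finset (N × V) :=
    (X ×ˢ (univ : Finset V)).filter fun q => (Gr ω).Adj q.1 (R q.2) with hS2
  have hc2 : ∑ y ∈ X, (lab (Gr ω) R y).card = S2.card := by
    rw [hS2, card_filter, sum_product]
    refine sum_congr rfl fun y _ => ?_
    rw [lab, card_filter]
  have hinj : Set.InjOn (fun q : N × V => s(q.1, R q.2)) (S2 : Set (N × V)) := by
    rintro ⟨y, x⟩ hq ⟨y', x'⟩ hq' h
    rw [mem_coe, hS2, mem_filter, mem_product] at hq hq'
    simp only [Sym2.eq_iff] at h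
    rcases h with ⟨h1, h2⟩ | ⟨h1, _⟩
    · rw [Prod.mk.injEq]
      exact ⟨h1, hR h2⟩
    · exact absurd h1.symm (hX y hq.1.1 x')
  have himg : (S2.image fun q => s(q.1, R q.2)).card = S2.card := card_image_of_injOn hinj
  have hsub : (S2.image fun q => s(q.1, R q.2)) ⊆
      ((X ×ˢ (univ : Finset V)).image fun q => s(q.1, R q.2)).filter fun i => ω i = true := by
    intro e he
    rw [mem_image] at he
    obtain ⟨⟨y, x⟩, hq, rfl⟩ := he
    rw [hS2, mem_filter] at hq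
    rw [mem_filter]
    exact ⟨mem_image_of_mem _ hq.1, hq.2.2⟩
  have hcard := card_le_card hsub
  rw [himg, ← hc2] at hcard
  exact hcard

/-- probability of many attachments -/
private theorem lres_att {R : V → N} (hR : Function.Injective R) {X : Finset N}
    (hX : ∀ a ∈ X, ∀ x, R x ≠ a) {p : ℝ} (h0 : 0 ≤ p) (h1 : p ≤ 1) (a : ℕ) :
    1 - ((Fintype.card V * X.card).choose a : ℝ) * p ^ a ≤
      Pr p (fun ω : Sym2 N → Bool => aR (Gr ω) R X < a) := by
  have h2 : Pr p (fun ω : Sym2 N → Bool => a ≤ aR (Gr ω) R X) ≤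
      ((Fintype.card V * X.card).choose a : ℝ) * p ^ a := by
    refine (Pr_mono h0 h1 fun ω hω => le_trans hω (lres_cnt hR hX ω)).trans ?_
    refine (Pr_cnt_ge h0 h1 _ a).trans ?_
    refine mul_le_mul_of_nonneg_right ?_ (pow_nonneg h0 _)
    have h3 : ((X ×ˢ (univ : Finset V)).image fun q => s(q.1, R q.2)).card ≤
        Fintype.card V * X.card := by
      refine card_image_le.trans ?_
      rw [card_product, card_univ, mul_comm]
    exact_mod_cast Nat.choose_le_choose a h3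
  have h4 : Pr p (fun ω : Sym2 N → Bool => aR (Gr ω) R X < a) =
      1 - Pr p (fun ω : Sym2 N → Bool => a ≤ aR (Gr ω) R X) := by
    rw [← Pr_not]
    congr 1
    funext ω
    exact propext not_le.symm
  rw [h4]
  linarith

/-- the indices of the violating patterns -/
private noncomputable def lresT (r : ℕ) (κ α1 : ℝ) (L0 : ℕ) (Q : Finset N) (ω : Sym2 N → Bool) :
    Finset (Σ _ : Finset N, ℕ × ℕ) :=
  open scoped Classical in
  (((univ \ Q).powerset.filter (fun X => X.card ∈ Icc 1 (2 * L0))).sigma fun X =>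
    range (X.card ^ 2 + 1) ×ˢ Icc 1 (r * X.card)).filter fun q =>
      Vi κ α1 q.1.card q.2.1 q.2.2 ∧ Pat (Gr ω) q.1 q.2.1

private theorem lresT_mem {r : ℕ} {κ α1 : ℝ} {L0 : ℕ} {Q : Finset N} {ω : Sym2 N → Bool}
    {q : Σ _ : Finset N, ℕ × ℕ} : q ∈ lresT r κ α1 L0 Q ω ↔
      ((q.1 ⊆ univ \ Q ∧ q.1.card ∈ Icc 1 (2 * L0)) ∧ q.2.1 ≤ q.1.card ^ 2 ∧
        q.2.2 ∈ Icc 1 (r * q.1.card)) ∧ Vi κ α1 q.1.card q.2.1 q.2.2 ∧ Pat (Gr ω) q.1 q.2.1 := by
  classical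
  unfold lresT
  rw [mem_filter, mem_sigma, mem_filter, mem_powerset, mem_product, mem_range, Nat.lt_succ_iff]

private theorem lresT_sum {r : ℕ} {κ α1 p : ℝ} {L0 : ℕ} {Q : Finset N} {ω : Sym2 N → Bool} :
    ∑ q ∈ lresT r κ α1 L0 Q ω, (((r * q.1.card).choose q.2.2 : ℝ) * p ^ q.2.2) =
      PhiX r κ α1 p L0 Q ω := by
  classical
  unfold lresT PhiX
  rw [sum_filter, sum_sigma]
  refine sum_congr rfl fun X _ => ?_
  rw [sum_product]
  refine sum_congr rfl fun j _ => sum_congr rfl fun a _ => ?_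
  by_cases h : Vi κ α1 X.card j a ∧ Pat (Gr ω) X j
  · rw [if_pos h, ind_true h, one_mul]
  · rw [if_neg h, ind_false h, zero_mul]

/-- attachments are increasing -/
private theorem lres_aR_mono {ω ω' : Sym2 N → Bool} (h : ∀ i, ω i = true → ω' i = true)
    (R : V → N) (X : Finset N) : aR (Gr ω) R X ≤ aR (Gr ω') R X := by
  classical
  unfold aR
  refine sum_le_sum fun y _ => card_le_card ?_
  intro x hx
  unfold lab at hx ⊢
  rw [mem_filter] at hx ⊢
  exact ⟨hx.1, hx.2.1, h _ hx.2.2⟩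

/-- the conditional probability -/
private theorem lres_cond {R : V → N} (hR : Function.Injective R) {Q : Finset N}
    (hRQ : ∀ x, R x ∈ Q) {p : ℝ} (h0 : 0 ≤ p) (h1 : p ≤ 1) {κ α1 : ℝ} {L0 : ℕ}
    (hp1 : (Fintype.card V : ℝ) ^ 2 * p ≤ 1 / 2) (hp2 : (Fintype.card V : ℝ) * (2 * L0) * p ≤ 1 / 2)
    {lam : ℝ} {I : Finset (Sym2 N)} (hI : ∀ e, e ∈ I ↔ ∀ z ∈ e, z ∉ Q) {ω : Sym2 N → Bool}
    (hω : PhiX (Fintype.card V) κ α1 p L0 Q ω ≤ lam) :
    Real.exp (-(2 * lam)) / 2 ≤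
      Pr p (fun ω' : Sym2 N → Bool => GoodAt κ α1 L0 Q R (Gr (mixI I ω ω'))) := by
  classical
  set r := Fintype.card V with hr
  let A : Option (Σ _ : Finset N, ℕ × ℕ) → (Sym2 N → Bool) → Prop := fun o ω' =>
    match o with
    | none => ∀ x y, ¬ (Gr ω').Adj (R x) (R y)
    | some q => aR (Gr ω') R q.1 < q.2.2
  have hA : ∀ k ∈ insertNone (lresT r κ α1 L0 Q ω), ∀ τ τ' : Sym2 N → Bool,
      (∀ i, τ i = true → τ' i = true) → A k τ' → A k τ := by
    intro k _ τ τ' hτ hk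
    match k with
    | none =>
      intro x y hxy
      exact hk x y ⟨hxy.1, hτ _ hxy.2⟩
    | some q => exact lt_of_le_of_lt (lres_aR_mono hτ R q.1) hk
  have hH := Pr_harris h0 h1 (insertNone (lresT r κ α1 L0 Q ω)) A hA
  rw [prod_insertNone] at hH
  -- the first factor
  have hB : 1 / 2 ≤ Pr p (A none) := by
    have h2 := lres_root (N := N) R h0 h1
    have h3 : Pr p (A none) = 1 - Pr p (fun ω : Sym2 N → Bool => ∃ x y, (Gr ω).Adj (R x) (R y)) := by
      rw [← Pr_not]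
      congr 1
      funext τ
      apply propext
      change (∀ x y, ¬ (Gr τ).Adj (R x) (R y)) ↔ _
      push Not
      rfl
    rw [h3]
    linarith
  -- the other factors
  have hq : ∀ q ∈ lresT r κ α1 L0 Q ω,
      Real.exp (-(2 * (((r * q.1.card).choose q.2.2 : ℝ) * p ^ q.2.2))) ≤ Pr p (A (some q)) := by
    intro q hq
    rw [lresT_mem] at hq
    obtain ⟨⟨⟨hX, hXc⟩, -, ha⟩, -, -⟩ := hq
    rw [mem_Icc] at hXc ha
    have hXR : ∀ a ∈ q.1, ∀ x, R x ≠ a := by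
      rintro a ha x rfl
      exact (mem_sdiff.1 (hX ha)).2 (hRQ x)
    refine le_trans ?_ (lres_att hR hXR h0 h1 q.2.2)
    apply exp_neg_two_mul_le
    · exact mul_nonneg (Nat.cast_nonneg _) (pow_nonneg h0 _)
    · have h2 : ((r * q.1.card).choose q.2.2 : ℝ) ≤ ((r * q.1.card : ℕ) : ℝ) ^ q.2.2 := by
        exact_mod_cast Nat.choose_le_pow _ _
      calc ((r * q.1.card).choose q.2.2 : ℝ) * p ^ q.2.2
          ≤ ((r * q.1.card : ℕ) : ℝ) ^ q.2.2 * p ^ q.2.2 :=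
            mul_le_mul_of_nonneg_right h2 (pow_nonneg h0 _)
        _ = (((r * q.1.card : ℕ) : ℝ) * p) ^ q.2.2 := (mul_pow _ _ _).symm
        _ ≤ (1 / 2) ^ q.2.2 := by
            apply pow_le_pow_left₀ (mul_nonneg (Nat.cast_nonneg _) h0)
            refine le_trans ?_ hp2
            apply mul_le_mul_of_nonneg_right _ h0
            push_cast
            apply mul_le_mul_of_nonneg_left _ (Nat.cast_nonneg _)
            exact_mod_cast hXc.2
        _ ≤ (1 / 2) ^ 1 := pow_le_pow_of_le_one (by norm_num) (by norm_num) ha.1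
        _ = 1 / 2 := pow_one _
  have hprod : Real.exp (-(2 * lam)) ≤ ∏ q ∈ lresT r κ α1 L0 Q ω, Pr p (A (some q)) := by
    calc Real.exp (-(2 * lam)) ≤ Real.exp (-(2 * PhiX r κ α1 p L0 Q ω)) := by
          apply Real.exp_le_exp.2
          linarith
      _ = ∏ q ∈ lresT r κ α1 L0 Q ω,
          Real.exp (-(2 * (((r * q.1.card).choose q.2.2 : ℝ) * p ^ q.2.2))) := by
          rw [← Real.exp_sum, sum_neg_distrib, ← mul_sum, lresT_sum]
      _ ≤ _ := prod_le_prod (fun q _ => (Real.exp_pos _).le) hq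
  have hmain : Real.exp (-(2 * lam)) / 2 ≤
      Pr p (A none) * ∏ q ∈ lresT r κ α1 L0 Q ω, Pr p (A (some q)) := by
    calc Real.exp (-(2 * lam)) / 2 = 1 / 2 * Real.exp (-(2 * lam)) := by ring
      _ ≤ _ := mul_le_mul hB hprod (Real.exp_pos _).le (by linarith)
  refine (hmain.trans hH).trans (Pr_mono h0 h1 fun ω' hω' => ?_)
  -- the good event
  have hmI : ∀ a ∉ Q, ∀ b ∉ Q, mixI I ω ω' s(a, b) = ω s(a, b) := by
    intro a ha b hb
    unfold mixI
    rw [if_pos]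
    rw [hI]
    intro z hz
    rcases Sym2.mem_iff.1 hz with rfl | rfl
    · exact ha
    · exact hb
  have hmJ : ∀ y x, mixI I ω ω' s(y, R x) = ω' s(y, R x) := by
    intro y x
    unfold mixI
    rw [if_neg]
    rw [hI]
    intro h
    exact h (R x) (Sym2.mem_mk_right _ _) (hRQ x)
  refine ⟨?_, ?_⟩
  · rintro x y ⟨hne, hb⟩
    rw [hmJ] at hb
    have h2 : ∀ x y, ¬ (Gr ω').Adj (R x) (R y) := hω' none none_mem_insertNone
    exact h2 x y ⟨hne, hb⟩
  · intro X hX hXc j hj a ha hV hP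
    have hXQ : ∀ a ∈ X, a ∉ Q := fun a ha => (mem_sdiff.1 (hX ha)).2
    rw [lres_aR fun y _ x => hmJ y x]
    have hP' : Pat (Gr ω) X j :=
      (lres_pat fun a ha b hb => (hmI a (hXQ a ha) b (hXQ b hb)).symm).2 hP
    have hmem : (⟨X, (j, a)⟩ : Σ _ : Finset N, ℕ × ℕ) ∈ lresT r κ α1 L0 Q ω := by
      rw [lresT_mem]
      exact ⟨⟨⟨hX, hXc⟩, hj, ha⟩, hV, hP'⟩
    exact hω' (some ⟨X, (j, a)⟩) (some_mem_insertNone.2 hmem)

end

variable {N V : Type*} [Fintype N] [DecidableEq N] [Fintype V] [DecidableEq V]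

theorem Pr_reservoir {m : ℕ} (ρ : Fin m × V → N) (hρ : Function.Injective ρ) {Q : Finset N}
    (hQ : ∀ z, z ∈ Q ↔ ∃ q, ρ q = z) {p : ℝ} (h0 : 0 ≤ p) (h1 : p ≤ 1) {κ α1 : ℝ} {L0 : ℕ}
    (hp1 : (Fintype.card V : ℝ) ^ 2 * p ≤ 1 / 2) (hp2 : (Fintype.card V : ℝ) * (2 * L0) * p ≤ 1 / 2)
    {lam : ℝ} (hlam : 0 ≤ lam) :
    Pr p (fun ω : Sym2 N → Bool => PhiX (Fintype.card V) κ α1 p L0 Q ω ≤ lam ∧
      ∀ k : Fin m, ¬ GoodAt κ α1 L0 Q (fun x => ρ (k, x)) (Gr ω)) ≤ (1 - Real.exp (-(2 * lam)) / 2) ^ m := by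
  classical
  set I : Finset (Sym2 N) := univ.filter fun e => ∀ z ∈ e, z ∉ Q with hIdef
  have hI : ∀ e, e ∈ I ↔ ∀ z ∈ e, z ∉ Q := fun e => by
    rw [hIdef, mem_filter]
    exact ⟨fun h => h.2, fun h => ⟨mem_univ _, h⟩⟩
  have hIab : ∀ a ∉ Q, ∀ b ∉ Q, s(a, b) ∈ I := by
    intro a ha b hb
    rw [hI]
    intro z hz
    rcases Sym2.mem_iff.1 hz with rfl | rfl
    · exact ha
    · exact hb
  have hρQ : ∀ q, ρ q ∈ Q := fun q => (hQ _).2 ⟨q, rfl⟩
  let J : Fin m → Set (Sym2 N) := fun k =>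
    {e | ∃ u x, e = s(u, ρ (k, x)) ∧ (u ∉ Q ∨ ∃ y, u = ρ (k, y))}
  have hJ : ∀ k l, k ≠ l → Disjoint (J k) (J l) := by
    intro k l hkl
    rw [Set.disjoint_left]
    rintro e ⟨u, x, rfl, hu⟩ ⟨u', x', he, -⟩
    rcases Sym2.eq_iff.1 he with ⟨-, h⟩ | ⟨h, -⟩
    · exact hkl (congrArg Prod.fst (hρ h))
    · rcases hu with hu | ⟨y, hy⟩
      · exact hu (by rw [h]; exact hρQ _)
      · rw [hy] at h
        exact hkl (congrArg Prod.fst (hρ h))
  have hx : 0 ≤ 1 - Real.exp (-(2 * lam)) / 2 := by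
    have : Real.exp (-(2 * lam)) ≤ 1 := Real.exp_le_one_iff.2 (by linarith)
    linarith
  refine Pr_all_cond_le h0 h1 I m J hJ (fun ω => PhiX (Fintype.card V) κ α1 p L0 Q ω ≤ lam) ?_
    (fun k ω => ¬ GoodAt κ α1 L0 Q (fun x => ρ (k, x)) (Gr ω)) ?_ hx ?_
  · intro ω ω' h
    rw [lres_phi fun a ha b hb => h _ (hIab a ha b hb)]
  · intro k ω ω' h
    have e1 : ∀ a ∉ Q, ∀ b ∉ Q, ω s(a, b) = ω' s(a, b) := fun a ha b hb =>
      h _ (Or.inl (hIab a ha b hb))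
    have e2 : ∀ y ∉ Q, ∀ x, ω s(y, ρ (k, x)) = ω' s(y, ρ (k, x)) := fun y hy x =>
      h _ (Or.inr ⟨y, x, rfl, Or.inl hy⟩)
    have e3 : ∀ x y, ω s(ρ (k, x), ρ (k, y)) = ω' s(ρ (k, x), ρ (k, y)) := fun x y =>
      h _ (Or.inr ⟨ρ (k, x), y, rfl, Or.inr ⟨x, rfl⟩⟩)
    refine not_congr ⟨fun hG => lres_good e1 e2 e3 hG, fun hG => ?_⟩
    exact lres_good (fun a ha b hb => (e1 a ha b hb).symm) (fun y hy x => (e2 y hy x).symm)
      (fun x y => (e3 x y).symm) hG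
  · intro ω hω k
    have h2 := lres_cond (R := fun x => ρ (k, x)) (fun x y hxy => congrArg Prod.snd (hρ hxy))
      (fun x => hρQ _) h0 h1 (κ := κ) (α1 := α1) hp1 hp2 hI hω
    rw [Pr_not p (fun ω' => GoodAt κ α1 L0 Q (fun x => ρ (k, x)) (Gr (mixI I ω ω')))]
    linarith

end Pool.MP_65847d_pr
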