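import Pool.Agent.Lib.MP_65847d_pr.X.LCount

/-!
# X/LStep : deletion of a minimal piece

`X` is a connected subset of `T` with `s X ≤ 2 L0` which minimises `wX α1 g` among all such sets, `w' := wX α1 g X < α1`. `φ` colours `X` with `W (φ x) ≥ w'`.
New labels `stA A G X φ y = A y ∪ {φ x : x ∈ X, x ~ y}`, new costs `stg = g y + dgX G X y * (α1 - w')`, new size function
`sts Y = s (Y ∪ X)` if `Y` is adjacent to `X`, else `s Y`. Claim: `DLHyp` holds for `T \ X` with these and the level `w'`.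

Preliminaries. `w0 ≤ wX α1 g Y` for every connected `Y ⊆ T` with `s Y ≤ 2 L0` (`inv1`, `j = 0`, `LConn.card_le`); so `κ ≤ w0 ≤ w'`. `g y ≥ 0` on `T` (costs are sums of `kap ≥ 0`).
`wX (Y ∪ X) = wX Y + wX X - α1` for disjoint `X, Y`. `wX α1 stg Y = wX α1 g Y - m (α1 - w')`, `m = ∑_{y ∈ Y} dgX G X y`; `m = 0` iff `Y` is not adjacent to `X`.
* cost: for `w ≥ w'` the sum over the union is `≤ ∑_{A y} kap + ∑_{x ∈ X, x ~ y} kap α W w (φ x)` (`Finset.sum_union_inter`-type bound for nonneg. terms, `sum_image_le` type bound), and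
  `kap α W w (φ x) ≤ max 0 (α - w') < α1 - w'` (since `w' ≤ min (W (φ x)) w`, `α < α1`, `w' < α1`). So total `≤ g y + dg * (α1 - w')`.
* cost': if `dg > 0` the bound is strict; if `dg = 0` use the old `cost'` (at `w ≥ w' ≥ w0`).
* mono, sub: case distinction; e.g. if `Y` is adjacent to `X`: `s (Y ∪ Z ∪ X) ≤ s (Y ∪ X) + s Z ≤ sts Y + sts Z` (`s Z ≤ sts Z` by `mono`).
* single: first `s X < L0`: otherwise `inv2` for `X`, `j = 0`, gives `2 ≤ w' < α1 < 1`. If `{y}` is adjacent to `X`: `sts {y} = s ({y} ∪ X) ≤ s {y} + s X ≤ 2 L0`; if it were `≥ L0` then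
  `{y} ∪ X` is connected and `inv2`, `j = 0`: `2 ≤ wX ({y} ∪ X) = 1 - α1 - g y + w' ≤ 1`, contradiction.
* inv1: `Y ⊆ T \ X` connected, `sts Y ≤ 2 L0`, `|Y| + j ≤ e(Y) + 1`. Not adjacent: for `j ≥ 1` from the old `inv1` (`(j-1) w0 ≤ (j-1) w'`), for `j = 0` the claim is `w' ≤ wX Y`: minimality.
  Adjacent, `m ≥ 1`: `Y ∪ X` is connected (`LConn.union`), `J := j + m - 1` satisfies `|Y ∪ X| + J ≤ e(Y ∪ X) + 1` (`eIn_union`, `LConn.card_le` for `X`). If `J ≥ 1`: old `inv1` for `Y ∪ X`, `J`: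
  `wX' Y ≥ J α1 - (J-1) w0 + α1 - w' - m (α1 - w') = j α1 + (m-1) w' - (J-1) w0 ≥ j α1 - (j-1) w'` as `(J-1)(w' - w0) ≥ 0`. If `J = 0` (`j = 0`, `m = 1`): `w' ≤ wX (Y ∪ X) = wX Y + w' - α1 = wX' Y`.
* inv2: same with `L0 ≤ sts Y`: not adjacent: old `inv2`; adjacent: old `inv2` for `Y ∪ X`, `J`: `wX' Y ≥ 2 + J α1 - J w0 + α1 - w' - m (α1 - w') = 2 + j α1 + (m-1) w' - J w0 ≥ 2 + j α1 - j w'`.
-/

set_option autoImplicit false
set_option linter.unusedSectionVars false

open Finset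

namespace Pool.MP_65847d_pr

section

variable {N V : Type*} [Fintype N] [DecidableEq N] [Fintype V] [DecidableEq V]

open Classical in
/-- new labels -/
noncomputable def stA (A : N → Finset V) (G : SimpleGraph N) (X : Finset N) (φ : N → V) (y : N) : Finset V :=
  A y ∪ (X.filter fun x => G.Adj y x).image φ

/-- new costs -/
noncomputable def stg (α1 : ℝ) (g : N → ℝ) (G : SimpleGraph N) (X : Finset N) (y : N) : ℝ :=
  g y + (dgX G X y : ℝ) * (α1 - wX α1 g X)

open Classical in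
/-- new size function -/
noncomputable def sts (s : Finset N → ℕ) (G : SimpleGraph N) (X : Finset N) (Y : Finset N) : ℕ :=
  if ∃ y ∈ Y, ∃ x ∈ X, G.Adj y x then s (Y ∪ X) else s Y

private theorem ls_kap_nonneg (α : ℝ) (W : V → ℝ) (w : ℝ) (a : V) : 0 ≤ kap α W w a := le_max_left _ _

private theorem ls_wX_union {α1 : ℝ} {g : N → ℝ} {X Y : Finset N} (h : Disjoint Y X) :
    wX α1 g (Y ∪ X) = wX α1 g Y + wX α1 g X - α1 := by
  unfold wX
  rw [Finset.sum_union h]
  ring

private theorem ls_wX_stg {α1 : ℝ} {g : N → ℝ} (G : SimpleGraph N) (X Y : Finset N) :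
    wX α1 (stg α1 g G X) Y =
      wX α1 g Y - ((∑ y ∈ Y, dgX G X y : ℕ) : ℝ) * (α1 - wX α1 g X) := by
  have h1 : wX α1 (stg α1 g G X) Y = α1 + ∑ y ∈ Y, (1 - α1 - stg α1 g G X y) := rfl
  have h2 : wX α1 g Y = α1 + ∑ y ∈ Y, (1 - α1 - g y) := rfl
  rw [h1, h2]
  have h3 : ∑ y ∈ Y, (1 - α1 - stg α1 g G X y) =
      ∑ y ∈ Y, (1 - α1 - g y) - ∑ y ∈ Y, (dgX G X y : ℝ) * (α1 - wX α1 g X) := by
    rw [← Finset.sum_sub_distrib]
    apply Finset.sum_congr rfl
    intro y _
    unfold stg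
    ring
  rw [h3, ← Finset.sum_mul]
  push_cast
  ring

private theorem ls_m_zero {G : SimpleGraph N} {X Y : Finset N}
    (h : ¬ ∃ y ∈ Y, ∃ x ∈ X, G.Adj y x) : ∑ y ∈ Y, dgX G X y = 0 := by
  classical
  apply Finset.sum_eq_zero
  intro y hy
  unfold dgX
  rw [Finset.card_eq_zero, Finset.filter_eq_empty_iff]
  intro x hx hadj
  exact h ⟨y, hy, x, hx, hadj⟩

private theorem ls_m_pos {G : SimpleGraph N} {X Y : Finset N}
    (h : ∃ y ∈ Y, ∃ x ∈ X, G.Adj y x) : 1 ≤ ∑ y ∈ Y, dgX G X y := by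
  classical
  obtain ⟨y, hy, x, hx, hadj⟩ := h
  have h1 : 1 ≤ dgX G X y := by
    unfold dgX
    apply Finset.card_pos.mpr
    exact ⟨x, Finset.mem_filter.mpr ⟨hx, hadj⟩⟩
  calc 1 ≤ dgX G X y := h1
    _ ≤ ∑ y ∈ Y, dgX G X y :=
      Finset.single_le_sum (f := fun y => dgX G X y) (fun i _ => Nat.zero_le _) hy

private theorem ls_sts_pos {s : Finset N → ℕ} {G : SimpleGraph N} {X Y : Finset N}
    (h : ∃ y ∈ Y, ∃ x ∈ X, G.Adj y x) : sts s G X Y = s (Y ∪ X) := by
  unfold sts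
  rw [if_pos h]

private theorem ls_sts_neg {s : Finset N → ℕ} {G : SimpleGraph N} {X Y : Finset N}
    (h : ¬ ∃ y ∈ Y, ∃ x ∈ X, G.Adj y x) : sts s G X Y = s Y := by
  unfold sts
  rw [if_neg h]

private theorem ls_le_sts {s : Finset N → ℕ} {G : SimpleGraph N} {X : Finset N}
    (hm : ∀ A B : Finset N, A ⊆ B → s A ≤ s B) (Y : Finset N) : s Y ≤ sts s G X Y := by
  by_cases h : ∃ y ∈ Y, ∃ x ∈ X, G.Adj y x
  · rw [ls_sts_pos h]
    exact hm _ _ Finset.subset_union_left
  · rw [ls_sts_neg h]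

private theorem ls_kap_lt {α α1 w w' : ℝ} (hα : α < α1) (hw' : w' < α1) (hw : w' ≤ w) {W : V → ℝ} {a : V}
    (ha : w' ≤ W a) : kap α W w a < α1 - w' := by
  unfold kap
  have hmin : w' ≤ min (W a) w := le_min ha hw
  apply max_lt
  · linarith
  · linarith

/-- cost estimate for the new labels -/
private theorem ls_cost_le {α α1 w w' : ℝ} (hα : α < α1) (hw' : w' < α1) (hw : w' ≤ w) {W : V → ℝ}
    (G : SimpleGraph N) (A : N → Finset V) (X : Finset N) (φ : N → V)
    (hφ : ∀ x ∈ X, w' ≤ W (φ x)) (y : N) :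
    ∑ a ∈ stA A G X φ y, kap α W w a ≤
      ∑ a ∈ A y, kap α W w a + (dgX G X y : ℝ) * (α1 - w') ∧
    (0 < dgX G X y → ∑ a ∈ stA A G X φ y, kap α W w a <
      ∑ a ∈ A y, kap α W w a + (dgX G X y : ℝ) * (α1 - w')) := by
  classical
  set F := X.filter fun x => G.Adj y x with hF
  have hst : stA A G X φ y = A y ∪ F.image φ := by
    unfold stA
    rw [hF]
  have hdg : dgX G X y = F.card := by
    unfold dgX
    rw [hF]
  have h1 : ∑ a ∈ stA A G X φ y, kap α W w a ≤
      ∑ a ∈ A y, kap α W w a + ∑ a ∈ F.image φ, kap α W w a := by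
    rw [hst]
    have h := Finset.sum_union_inter (s₁ := A y) (s₂ := F.image φ) (f := fun a => kap α W w a)
    have h0 : 0 ≤ ∑ a ∈ A y ∩ F.image φ, kap α W w a :=
      Finset.sum_nonneg fun a _ => ls_kap_nonneg α W w a
    linarith
  have h2 : ∑ a ∈ F.image φ, kap α W w a ≤ ∑ x ∈ F, kap α W w (φ x) := by
    have h := Finset.sum_fiberwise_of_maps_to (s := F) (t := F.image φ) (g := φ)
      (fun x hx => Finset.mem_image_of_mem φ hx) (fun x => kap α W w (φ x))
    rw [← h]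
    apply Finset.sum_le_sum
    intro a ha
    obtain ⟨x, hx, rfl⟩ := Finset.mem_image.mp ha
    exact Finset.single_le_sum (f := fun z => kap α W w (φ z))
      (fun z _ => ls_kap_nonneg α W w (φ z)) (Finset.mem_filter.mpr ⟨hx, rfl⟩)
  have h3 : ∀ x ∈ F, kap α W w (φ x) < α1 - w' := by
    intro x hx
    exact ls_kap_lt hα hw' hw (hφ x (Finset.mem_filter.mp hx).1)
  have h4 : ∑ x ∈ F, kap α W w (φ x) ≤ (F.card : ℝ) * (α1 - w') := by
    have := Finset.sum_le_card_nsmul F (fun x => kap α W w (φ x)) (α1 - w')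
      (fun x hx => (h3 x hx).le)
    simpa [nsmul_eq_mul] using this
  refine ⟨?_, ?_⟩
  · rw [hdg]
    linarith
  · intro hpos
    rw [hdg] at hpos ⊢
    have hne : F.Nonempty := Finset.card_pos.mp hpos
    have h5 : ∑ x ∈ F, kap α W w (φ x) < ∑ _x ∈ F, (α1 - w') :=
      Finset.sum_lt_sum_of_nonempty hne h3
    rw [Finset.sum_const, nsmul_eq_mul] at h5
    linarith

private theorem ls_stA_zero {G : SimpleGraph N} {A : N → Finset V} {X : Finset N} {φ : N → V} {y : N}
    (h : dgX G X y = 0) : stA A G X φ y = A y := by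
  classical
  unfold dgX at h
  rw [Finset.card_eq_zero] at h
  unfold stA
  have h2 : (X.filter fun x => G.Adj y x) = ∅ := by
    rw [← h]
  ext a
  simp only [Finset.mem_union, Finset.mem_image]
  constructor
  · rintro (ha | ⟨x, hx, _⟩)
    · exact ha
    · exfalso
      have : x ∈ (∅ : Finset N) := by
        rw [← h]
        convert hx
      simp at this
  · intro ha
    exact Or.inl ha

theorem dl_step {κ α α1 : ℝ} (hα : α < α1) (h1 : α1 < 1) {W : V → ℝ} {G : SimpleGraph N} {T : Finset N}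
    {A : N → Finset V} {g : N → ℝ} {s : Finset N → ℕ} {L0 : ℕ} {w0 : ℝ}
    (h : DLHyp κ α α1 W G T A g s L0 w0) {X : Finset N} (hX : X ⊆ T) (hXc : LConn G X)
    (hXs : s X ≤ 2 * L0)
    (hmin : ∀ Y ⊆ T, LConn G Y → s Y ≤ 2 * L0 → wX α1 g X ≤ wX α1 g Y) (hlt : wX α1 g X < α1)
    {φ : N → V} (hφ : ∀ x ∈ X, wX α1 g X ≤ W (φ x)) :
    DLHyp κ α α1 W G (T \ X) (stA A G X φ) (stg α1 g G X) (sts s G X) L0 (wX α1 g X) := by
  classical
  set w' := wX α1 g X with hw'
  -- P1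
  have P1 : ∀ Y ⊆ T, LConn G Y → s Y ≤ 2 * L0 → w0 ≤ wX α1 g Y := by
    intro Y hY hc hs
    have := h.inv1 Y hY hc hs 0 (by simpa using hc.card_le)
    simpa using this
  have hww : w0 ≤ w' := P1 X hX hXc hXs
  have P2 : ∀ y ∈ T, 0 ≤ g y := by
    intro y hy
    have h0 : 0 ≤ ∑ a ∈ A y, kap α W w0 a := Finset.sum_nonneg fun a _ => ls_kap_nonneg α W w0 a
    exact h0.trans (h.cost y hy w0 le_rfl)
  have hsX : s X < L0 := by
    by_contra hcon
    have := h.inv2 X hX hXc (not_lt.mp hcon) hXs 0 (by simpa using hXc.card_le)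
    simp only [Nat.cast_zero, zero_mul, add_zero, sub_zero] at this
    linarith
  have hsub : ∀ Y : Finset N, Y ⊆ T \ X → Y ⊆ T ∧ Disjoint Y X := by
    intro Y hY
    refine ⟨fun y hy => (Finset.mem_sdiff.mp (hY hy)).1, ?_⟩
    rw [Finset.disjoint_left]
    intro y hy
    exact (Finset.mem_sdiff.mp (hY hy)).2
  -- union with an adjacent set
  have hUn : ∀ Y : Finset N, Y ⊆ T \ X → LConn G Y → (∃ y ∈ Y, ∃ x ∈ X, G.Adj y x) →
      LConn G (Y ∪ X) ∧ Y ∪ X ⊆ T := by
    rintro Y hY hYc ⟨y, hy, x, hx, hadj⟩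
    exact ⟨hYc.union hXc hy hx hadj, Finset.union_subset (hsub Y hY).1 hX⟩
  have hcount : ∀ Y : Finset N, Y ⊆ T \ X → (∃ y ∈ Y, ∃ x ∈ X, G.Adj y x) →
      ∀ j : ℕ, Y.card + j ≤ eIn G Y + 1 →
      (Y ∪ X).card + (j + ∑ y ∈ Y, dgX G X y - 1) ≤ eIn G (Y ∪ X) + 1 := by
    intro Y hY hadj j hj
    have hm := ls_m_pos hadj
    have hd := (hsub Y hY).2
    have h1 : (Y ∪ X).card = Y.card + X.card := Finset.card_union_of_disjoint hd
    have h2 : eIn G (Y ∪ X) = eIn G X + eIn G Y + ∑ y ∈ Y, dgX G X y := by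
      rw [Finset.union_comm]
      exact eIn_union G hd.symm
    have h3 := hXc.card_le
    omega
  refine ⟨?_, ?_, ?_, ?_, ?_, ?_, ?_, ?_⟩
  · exact h.hκ.trans hww
  · -- cost
    intro y hy w hw
    have hyT := (Finset.mem_sdiff.mp hy).1
    have h1 := (ls_cost_le hα hlt hw G A X φ hφ y).1
    have h2 := h.cost y hyT w (hww.trans hw)
    have h3 : stg α1 g G X y = g y + (dgX G X y : ℝ) * (α1 - w') := rfl
    rw [h3]
    linarith
  · -- cost'
    intro y hy w hw hpos
    have hyT := (Finset.mem_sdiff.mp hy).1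
    have h3 : stg α1 g G X y = g y + (dgX G X y : ℝ) * (α1 - w') := rfl
    rw [h3]
    rcases Nat.eq_zero_or_pos (dgX G X y) with h0 | h0
    · rw [ls_stA_zero h0] at hpos ⊢
      have := h.cost' y hyT w (hww.trans hw) hpos
      rw [h0]
      simpa using this
    · have h1 := (ls_cost_le hα hlt hw G A X φ hφ y).2 h0
      have h2 := h.cost y hyT w (hww.trans hw)
      linarith
  · -- mono
    intro B C hBC
    by_cases hB : ∃ y ∈ B, ∃ x ∈ X, G.Adj y x
    · have hC : ∃ y ∈ C, ∃ x ∈ X, G.Adj y x := by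
        obtain ⟨y, hy, r⟩ := hB
        exact ⟨y, hBC hy, r⟩
      rw [ls_sts_pos hB, ls_sts_pos hC]
      exact h.mono _ _ (Finset.union_subset_union_left hBC)
    · rw [ls_sts_neg hB]
      exact (h.mono _ _ hBC).trans (ls_le_sts h.mono C)
  · -- sub
    intro B C
    by_cases hB : ∃ y ∈ B, ∃ x ∈ X, G.Adj y x
    · have hBC : ∃ y ∈ B ∪ C, ∃ x ∈ X, G.Adj y x := by
        obtain ⟨y, hy, r⟩ := hB
        exact ⟨y, Finset.mem_union_left _ hy, r⟩
      rw [ls_sts_pos hBC, ls_sts_pos hB]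
      have h1 : B ∪ C ∪ X = (B ∪ X) ∪ C := by
        rw [Finset.union_assoc, Finset.union_comm C X, ← Finset.union_assoc]
      rw [h1]
      exact (h.sub _ _).trans (Nat.add_le_add_left (ls_le_sts h.mono C) _)
    · by_cases hC : ∃ y ∈ C, ∃ x ∈ X, G.Adj y x
      · have hBC : ∃ y ∈ B ∪ C, ∃ x ∈ X, G.Adj y x := by
          obtain ⟨y, hy, r⟩ := hC
          exact ⟨y, Finset.mem_union_right _ hy, r⟩
        rw [ls_sts_pos hBC, ls_sts_pos hC, Finset.union_assoc]
        exact (h.sub _ _).trans (Nat.add_le_add_right (ls_le_sts h.mono B) _)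
      · have hBC : ¬ ∃ y ∈ B ∪ C, ∃ x ∈ X, G.Adj y x := by
          rintro ⟨y, hy, r⟩
          rcases Finset.mem_union.mp hy with hy | hy
          · exact hB ⟨y, hy, r⟩
          · exact hC ⟨y, hy, r⟩
        rw [ls_sts_neg hBC, ls_sts_neg hB, ls_sts_neg hC]
        exact h.sub _ _
  · -- single
    intro y hy
    have hyT := (Finset.mem_sdiff.mp hy).1
    have hs := h.single y hyT
    by_cases hB : ∃ z ∈ ({y} : Finset N), ∃ x ∈ X, G.Adj z x
    · rw [ls_sts_pos hB]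
      have h1 := h.sub {y} X
      by_contra hcon
      have hcon' := not_lt.mp hcon
      have hY : ({y} : Finset N) ⊆ T \ X := Finset.singleton_subset_iff.mpr hy
      obtain ⟨hc, hsT⟩ := hUn {y} hY (LConn.singleton G y) hB
      have h2 := h.inv2 _ hsT hc hcon' (by omega) 0 (by simpa using hc.card_le)
      rw [ls_wX_union (hsub _ hY).2] at h2
      have h3 : wX α1 g {y} = α1 + (1 - α1 - g y) := by
        unfold wX
        rw [Finset.sum_singleton]
      have h4 := P2 y hyT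
      rw [h3] at h2
      simp only [Nat.cast_zero, zero_mul, add_zero, sub_zero] at h2
      linarith
    · rw [ls_sts_neg hB]
      exact hs
  · -- inv1
    intro Y hY hYc hYs j hj
    rw [ls_wX_stg]
    by_cases hB : ∃ y ∈ Y, ∃ x ∈ X, G.Adj y x
    · rw [ls_sts_pos hB] at hYs
      have hm := ls_m_pos hB
      have hcnt := hcount Y hY hB j hj
      obtain ⟨hc, hsT⟩ := hUn Y hY hYc hB
      have hu := ls_wX_union (α1 := α1) (g := g) (hsub Y hY).2
      set m := ∑ y ∈ Y, dgX G X y with hmdef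
      rcases Nat.eq_zero_or_pos (j + m - 1) with hJ | hJ
      · have hj0 : j = 0 := by omega
        have hm1 : m = 1 := by omega
        have h1 := hmin _ hsT hc hYs
        rw [hu] at h1
        rw [hj0, hm1]
        push_cast
        linarith
      · have h1 := h.inv1 _ hsT hc hYs _ hcnt
        rw [hu] at h1
        have hJr : ((j + m - 1 : ℕ) : ℝ) = (j : ℝ) + m - 1 := by
          rw [Nat.cast_sub (by omega)]
          push_cast
          ring
        rw [hJr] at h1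
        have hJ1 : (1 : ℝ) ≤ (j : ℝ) + m - 1 := by
          rw [← hJr]
          exact_mod_cast hJ
        have h2 : 0 ≤ ((j : ℝ) + m - 1 - 1) * (w' - w0) :=
          mul_nonneg (by linarith) (by linarith)
        nlinarith
    · rw [ls_sts_neg hB] at hYs
      rw [ls_m_zero hB]
      have hYT := (hsub Y hY).1
      rcases Nat.eq_zero_or_pos j with hj0 | hj0
      · have h1 := hmin Y hYT hYc hYs
        rw [hj0]
        push_cast
        linarith
      · have h1 := h.inv1 Y hYT hYc hYs j hj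
        have hj1 : (1 : ℝ) ≤ j := by exact_mod_cast hj0
        have h2 : 0 ≤ ((j : ℝ) - 1) * (w' - w0) := mul_nonneg (by linarith) (by linarith)
        push_cast
        nlinarith
  · -- inv2
    intro Y hY hYc hYl hYs j hj
    rw [ls_wX_stg]
    by_cases hB : ∃ y ∈ Y, ∃ x ∈ X, G.Adj y x
    · rw [ls_sts_pos hB] at hYs hYl
      have hm := ls_m_pos hB
      have hcnt := hcount Y hY hB j hj
      obtain ⟨hc, hsT⟩ := hUn Y hY hYc hB
      have hu := ls_wX_union (α1 := α1) (g := g) (hsub Y hY).2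
      set m := ∑ y ∈ Y, dgX G X y with hmdef
      have h1 := h.inv2 _ hsT hc hYl hYs _ hcnt
      rw [hu] at h1
      have hJr : ((j + m - 1 : ℕ) : ℝ) = (j : ℝ) + m - 1 := by
        rw [Nat.cast_sub (by omega)]
        push_cast
        ring
      have hJ0 : (0 : ℝ) ≤ ((j + m - 1 : ℕ) : ℝ) := Nat.cast_nonneg _
      rw [hJr] at h1 hJ0
      have h2 : 0 ≤ ((j : ℝ) + m - 1) * (w' - w0) :=
        mul_nonneg (by linarith) (by linarith)
      nlinarith
    · rw [ls_sts_neg hB] at hYs hYl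
      rw [ls_m_zero hB]
      have hYT := (hsub Y hY).1
      have h1 := h.inv2 Y hYT hYc hYl hYs j hj
      have h2 : 0 ≤ (j : ℝ) * (w' - w0) := mul_nonneg (Nat.cast_nonneg _) (by linarith)
      push_cast
      nlinarith

end

end Pool.MP_65847d_pr
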