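import Pool.Agent.Lib.MP_65847d_pr.X.LDet
import Pool.Agent.Lib.MP_65847d_pr.X.LRes
import Pool.Agent.Lib.MP_65847d_pr.X.LPhi
import Pool.Agent.Lib.MP_65847d_pr.X.LNum2
import Pool.Agent.Lib.MP_65847d_pr.X.LNum3

/-!
# X/LowerX : a vector stable from the level `κ_n` gives surjective homomorphisms at `c n ^ (-α)`
-/

set_option autoImplicit false

open Finset Filter Topology

namespace Pool.MP_65847d_pr

open Pool.MP_1bacea_co

variable {V : Type*} [Fintype V] [DecidableEq V]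

theorem eIn_le_sq {N : Type*} [Fintype N] [DecidableEq N] (G : SimpleGraph N) (X : Finset N) :
    eIn G X ≤ X.card ^ 2 := by
  classical
  have h : eIn G X ≤ ((X ×ˢ X).image fun q => s(q.1, q.2)).card := by
    unfold eIn
    apply card_le_card
    intro e he
    rw [mem_filter] at he
    induction e using Sym2.ind with
    | _ a b =>
      rw [mem_image]
      exact ⟨(a, b), mem_product.2 ⟨he.2.2 a (Sym2.mem_mk_left _ _), he.2.2 b (Sym2.mem_mk_right _ _)⟩, rfl⟩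
  refine h.trans (card_image_le.trans ?_)
  rw [card_product, pow_two]

/-- if no root tuple is good then one of the bad events happens -/
theorem good_cases {N : Type*} [Fintype N] [DecidableEq N] {κ α1 : ℝ} {L0 m : ℕ} (ρ : Fin m × V → N)
    (Q : Finset N) (lam p : ℝ) (ω : Sym2 N → Bool)
    (h : ∀ k : Fin m, ¬ GoodR κ α1 L0 (Gr ω) (fun x => ρ (k, x))) :
    (∃ X : Finset N, X.card ∈ Icc 1 (2 * L0) ∧ ∃ j ≤ X.card ^ 2, Vi κ α1 X.card j 0 ∧ Pat (Gr ω) X j) ∨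
    (∃ k ∈ (univ : Finset (Fin m)), ∃ X : Finset N, (∀ a ∈ X, ∀ x, (fun x => ρ (k, x)) x ≠ a) ∧
      X.card ∈ Icc 1 (2 * L0) ∧ ∃ j ≤ X.card ^ 2, ∃ a ≤ Fintype.card V * X.card,
        Vii κ α1 L0 X.card j a ∧ Pat (Gr ω) X j ∧ a ≤ aR (Gr ω) (fun x => ρ (k, x)) X) ∨
    (∃ k ∈ (univ : Finset (Fin m)), ∃ X : Finset N, (∀ a ∈ X, ∀ x, (fun x => ρ (k, x)) x ≠ a) ∧
      (∃ v ∈ Q, v ∈ X) ∧ X.card ∈ Icc 1 (2 * L0) ∧
      ∃ j ≤ X.card ^ 2, ∃ a ≤ Fintype.card V * X.card, Vi κ α1 X.card j a ∧ Pat (Gr ω) X j ∧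
        a ≤ aR (Gr ω) (fun x => ρ (k, x)) X) ∨
    lam < PhiX (Fintype.card V) κ α1 p L0 Q ω ∨
    (PhiX (Fintype.card V) κ α1 p L0 Q ω ≤ lam ∧
      ∀ k : Fin m, ¬ GoodAt κ α1 L0 Q (fun x => ρ (k, x)) (Gr ω)) := by
  classical
  by_contra hcon
  simp only [not_or] at hcon
  obtain ⟨h1, h2, h3, h4, h5⟩ := hcon
  rw [not_lt] at h4
  rw [not_and] at h5
  have h6 := h5 h4
  push Not at h6
  obtain ⟨k, hk⟩ := h6
  apply h k
  refine ⟨hk.1, fun X hX hXc hX2 j hj => ?_⟩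
  have hX1 : 1 ≤ X.card := by
    have := hXc.nonempty
    exact card_pos.2 this
  have hmem : X.card ∈ Icc 1 (2 * L0) := mem_Icc.2 ⟨hX1, hX2⟩
  have hjle : j ≤ X.card ^ 2 := by
    have := eIn_le_sq (Gr ω) X
    omega
  have hale : aR (Gr ω) (fun x => ρ (k, x)) X ≤ Fintype.card V * X.card := by
    unfold aR
    rw [mul_comm, ← smul_eq_mul]
    apply sum_le_card_nsmul
    intro y _
    exact card_le_univ _
  have hpat : Pat (Gr ω) X j := ⟨hXc, hj⟩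
  constructor
  · by_contra hvi
    rw [not_le] at hvi
    have hvi' : Vi κ α1 X.card j (aR (Gr ω) (fun x => ρ (k, x)) X) := hvi
    by_cases hQ : ∃ v ∈ Q, v ∈ X
    · exact h3 ⟨k, mem_univ _, X, hX, hQ, hmem, j, hjle, _, hale, hvi', hpat, le_rfl⟩
    · have hsub : X ⊆ univ \ Q := by
        intro v hv
        exact mem_sdiff.2 ⟨mem_univ _, fun hvQ => hQ ⟨v, hvQ, hv⟩⟩
      rcases Nat.eq_zero_or_pos (aR (Gr ω) (fun x => ρ (k, x)) X) with h0 | h0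
      · rw [h0] at hvi'
        exact h1 ⟨X, hmem, j, hjle, hvi', hpat⟩
      · exact absurd (hk.2 X hsub hmem j hjle _ (mem_Icc.2 ⟨h0, hale⟩) hvi' hpat) (lt_irrefl _)
  · intro hL
    by_contra hvii
    rw [not_le] at hvii
    exact h2 ⟨k, mem_univ _, X, hX, hmem, j, hjle, _, hale, ⟨hL, hvii⟩, hpat, le_rfl⟩

theorem lower_X {E : V → V → Prop} (hE : ∀ a b, E a b → E b a) [Nonempty V] {d : ℝ} (hd : 0 < d) {ε : ℝ}
    (hε : 0 < ε) : ∃ c : ℝ, 0 < c ∧ ∃ n0 : ℕ, ∀ n ≥ n0, ∀ α, d ≤ α → α ≤ 1 - d →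
      (∃ W, StableFrom E (Real.log (Real.log n) / Real.log n) α W) → ∀ p : ℝ, 0 ≤ p →
      p ≤ c * (n : ℝ) ^ (-α) →
      Pr p (fun ω : Sym2 (Fin n) → Bool => ¬ SurjHom E (Gr ω)) ≤ ε := by
  classical
  set r : ℕ := Fintype.card V with hr
  obtain ⟨σ, hσ, n0, hn0⟩ := lower_num r hd hε
  refine ⟨σ ^ 2, by positivity, n0, fun n hn α hα1' hα2' hW p h0 hp => ?_⟩
  obtain ⟨W, hW⟩ := hW
  set κ : ℝ := Real.log (Real.log n) / Real.log n with hκdef
  set α1 : ℝ := α + Real.log (1 / σ) / Real.log n with hα1def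
  set L0 : ℕ := ⌈Real.log n⌉₊ with hL0def
  set m : ℕ := ⌊(n : ℝ) ^ (1 / 4 : ℝ)⌋₊ with hmdef
  obtain ⟨H, hκ0, hL2, hmr, h1, hp1, hp2, htot⟩ :=
    hn0 n hn α hα1' hα2' p h0 hp κ α1 L0 m rfl rfl rfl rfl
  have hn1 : 1 ≤ n := by have := H.hn; omega
  have hnr : (0 : ℝ) < n := by exact_mod_cast hn1
  have hL1 : 1 ≤ Real.log n := H.log_ge
  have hL0' : 0 < Real.log n := by linarith
  -- the reservoir
  have hcard : Fintype.card (Fin m × V) ≤ Fintype.card (Fin n) := by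
    simp only [Fintype.card_prod, Fintype.card_fin]
    exact hmr
  obtain ⟨ρ⟩ : Nonempty (Fin m × V ↪ Fin n) := Function.Embedding.nonempty_of_card_le hcard
  set Q : Finset (Fin n) := univ.image ρ with hQdef
  have hQ : ∀ z, z ∈ Q ↔ ∃ q, ρ q = z := by
    intro z
    rw [hQdef, mem_image]
    constructor
    · rintro ⟨q, _, hq⟩; exact ⟨q, hq⟩
    · rintro ⟨q, hq⟩; exact ⟨q, mem_univ _, hq⟩
  have hQc : (Q.card : ℝ) ≤ (m : ℝ) * r := by
    have h3 : Q.card ≤ Fintype.card (Fin m × V) := by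
      rw [hQdef]
      exact card_image_le.trans (le_of_eq card_univ)
    simp only [Fintype.card_prod, Fintype.card_fin] at h3
    exact_mod_cast h3
  have hRinj : ∀ k : Fin m, Function.Injective fun x => ρ (k, x) := by
    intro k x y hxy
    have := ρ.injective hxy
    exact (Prod.mk.inj this).2
  set lam : ℝ := Real.log n / 16 with hlam
  have hlam0 : 0 < lam := by rw [hlam]; positivity
  -- events
  set B1 : (Sym2 (Fin n) → Bool) → Prop := fun ω => ∃ X : Finset (Fin n), X.card ∈ Icc 1 (2 * L0) ∧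
    ∃ j ≤ X.card ^ 2, Vi κ α1 X.card j 0 ∧ Pat (Gr ω) X j with hB1
  set B2 : (Sym2 (Fin n) → Bool) → Prop := fun ω => ∃ k ∈ (univ : Finset (Fin m)),
    ∃ X : Finset (Fin n), (∀ a ∈ X, ∀ x, (fun x => ρ (k, x)) x ≠ a) ∧
      X.card ∈ Icc 1 (2 * L0) ∧ ∃ j ≤ X.card ^ 2, ∃ a ≤ Fintype.card V * X.card,
        Vii κ α1 L0 X.card j a ∧ Pat (Gr ω) X j ∧ a ≤ aR (Gr ω) (fun x => ρ (k, x)) X with hB2
  set B3 : (Sym2 (Fin n) → Bool) → Prop := fun ω => ∃ k ∈ (univ : Finset (Fin m)),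
    ∃ X : Finset (Fin n), (∀ a ∈ X, ∀ x, (fun x => ρ (k, x)) x ≠ a) ∧
      (∃ v ∈ Q, v ∈ X) ∧ X.card ∈ Icc 1 (2 * L0) ∧
      ∃ j ≤ X.card ^ 2, ∃ a ≤ Fintype.card V * X.card, Vi κ α1 X.card j a ∧ Pat (Gr ω) X j ∧
        a ≤ aR (Gr ω) (fun x => ρ (k, x)) X with hB3
  set B4 : (Sym2 (Fin n) → Bool) → Prop := fun ω => lam < PhiX r κ α1 p L0 Q ω with hB4
  set B5 : (Sym2 (Fin n) → Bool) → Prop := fun ω => PhiX r κ α1 p L0 Q ω ≤ lam ∧
      ∀ k : Fin m, ¬ GoodAt κ α1 L0 Q (fun x => ρ (k, x)) (Gr ω) with hB5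
  have hsub : ∀ ω : Sym2 (Fin n) → Bool, ¬ SurjHom E (Gr ω) → B1 ω ∨ B2 ω ∨ B3 ω ∨ B4 ω ∨ B5 ω := by
    intro ω hω
    apply good_cases (fun q => ρ q) Q lam p ω
    intro k hk
    exact hω (surjHom_of_good hE hκ0 H.hκα H.hα H.lt H.h1 hL2 (hRinj k) hW hk)
  have hP1 : Pr p B1 ≤ 24 / Real.log n := by
    have h4 := Pr_union0 (N := Fin n) h0 h1 r κ α1 L0
    rw [Fintype.card_fin] at h4
    exact h4.trans (sum_I0 H)
  have hP2 : Pr p B2 ≤ m * (2 * L0 * (Bc r * Real.exp 6) / (n : ℝ) ^ 4) := by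
    refine (Pr_exists_le h0 h1 _ _).trans ?_
    have h4 : ∀ k ∈ (univ : Finset (Fin m)), Pr p (fun ω : Sym2 (Fin n) → Bool =>
        ∃ X : Finset (Fin n), (∀ a ∈ X, ∀ x, (fun x => ρ (k, x)) x ≠ a) ∧
        X.card ∈ Icc 1 (2 * L0) ∧ ∃ j ≤ X.card ^ 2, ∃ a ≤ Fintype.card V * X.card,
          Vii κ α1 L0 X.card j a ∧ Pat (Gr ω) X j ∧ a ≤ aR (Gr ω) (fun x => ρ (k, x)) X) ≤
        2 * L0 * (Bc r * Real.exp 6) / (n : ℝ) ^ 4 := by
      intro k _
      have h5 := Pr_unionII (hRinj k) h0 h1 κ α1 L0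
      rw [Fintype.card_fin] at h5
      exact h5.trans (sum_II H)
    refine (sum_le_sum h4).trans ?_
    rw [sum_const, card_univ, Fintype.card_fin, nsmul_eq_mul]
  have hP3 : Pr p B3 ≤ m * (((m : ℝ) * r) / n * (4 * Bc r * Real.log n)) := by
    refine (Pr_exists_le h0 h1 _ _).trans ?_
    have h4 : ∀ k ∈ (univ : Finset (Fin m)), Pr p (fun ω : Sym2 (Fin n) → Bool =>
        ∃ X : Finset (Fin n), (∀ a ∈ X, ∀ x, (fun x => ρ (k, x)) x ≠ a) ∧
        (∃ v ∈ Q, v ∈ X) ∧ X.card ∈ Icc 1 (2 * L0) ∧ ∃ j ≤ X.card ^ 2,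
          ∃ a ≤ Fintype.card V * X.card, Vi κ α1 X.card j a ∧ Pat (Gr ω) X j ∧
          a ≤ aR (Gr ω) (fun x => ρ (k, x)) X) ≤
        ((m : ℝ) * r) / n * (4 * Bc r * Real.log n) := by
      intro k _
      have h5 := Pr_unionQ (hRinj k) h0 h1 (by rw [Fintype.card_fin]; exact hn1) (Vi κ α1) L0 Q
      rw [Fintype.card_fin] at h5
      refine h5.trans ?_
      have h6 := sum_It H
      have h7 : 0 ≤ 4 * Bc r * Real.log n := by
        unfold Bc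
        positivity
      calc _ ≤ (Q.card : ℝ) / n * (4 * Bc r * Real.log n) :=
            mul_le_mul_of_nonneg_left h6 (by positivity)
        _ ≤ _ := by
            refine mul_le_mul_of_nonneg_right ?_ h7
            gcongr
    refine (sum_le_sum h4).trans ?_
    rw [sum_const, card_univ, Fintype.card_fin, nsmul_eq_mul]
  have hP4 : Pr p B4 ≤ 2 * (Bc r * σ) * Real.log n / (Real.log n / 16) := by
    have h4 : Pr p B4 ≤ Ex p (fun ω : Sym2 (Fin n) → Bool => lam⁻¹ * PhiX r κ α1 p L0 Q ω) := by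
      refine Pr_le_Ex h0 h1 ?_ ?_
      · intro ω
        refine mul_nonneg (inv_nonneg.2 hlam0.le) ?_
        unfold PhiX
        refine sum_nonneg fun X _ => sum_nonneg fun j _ => sum_nonneg fun a _ => ?_
        exact mul_nonneg (ind_nonneg _) (by positivity)
      · intro ω hω
        have h5 : lam < PhiX r κ α1 p L0 Q ω := hω
        rw [inv_mul_eq_div, le_div_iff₀ hlam0]
        linarith
    rw [Ex_mul_left] at h4
    have h5 := Ex_Phi_le (N := Fin n) h0 h1 r κ α1 L0 Q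
    rw [Fintype.card_fin] at h5
    have h6 := h5.trans (sum_I1 H)
    refine h4.trans ?_
    rw [inv_mul_eq_div]
    exact div_le_div_of_nonneg_right h6 hlam0.le
  have hP5 : Pr p B5 ≤ (1 - Real.exp (-(2 * (Real.log n / 16))) / 2) ^ m :=
    Pr_reservoir (fun q => ρ q) ρ.injective hQ h0 h1 hp1 hp2 hlam0.le
  rw [hlam] at htot
  refine le_trans ?_ htot
  calc Pr p (fun ω : Sym2 (Fin n) → Bool => ¬ SurjHom E (Gr ω))
      ≤ Pr p (fun ω => B1 ω ∨ B2 ω ∨ B3 ω ∨ B4 ω ∨ B5 ω) := Pr_mono h0 h1 hsub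
    _ ≤ Pr p B1 + (Pr p B2 + (Pr p B3 + (Pr p B4 + Pr p B5))) := by
        refine (Pr_or_le h0 h1 _ _).trans (add_le_add le_rfl ?_)
        refine (Pr_or_le h0 h1 _ _).trans (add_le_add le_rfl ?_)
        refine (Pr_or_le h0 h1 _ _).trans (add_le_add le_rfl ?_)
        exact Pr_or_le h0 h1 _ _
    _ ≤ _ := by linarith

end Pool.MP_65847d_pr
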