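import Pool.Agent.Lib.MP_65847d_pr.X.QDefs

/-!
# X/QBase : simple closure properties

All by `SL.pos`, `SL.compl`, `SL.inter`. `preimage`: induction on `SL S`; for `pos` the coefficient of `x k` is
`∑ i with f i = k, c i` (`Finset.sum_fiberwise`). `empty`: `pos 0 0`. `nonneg`: complement of `0 < - ...`.
-/

set_option autoImplicit false

open Finset

namespace Pool.MP_65847d_pr

namespace SL

variable {ι κ : Type*} [Fintype ι] [Fintype κ]

theorem empty : SL (∅ : Set (ι → ℝ)) := by
  have h := SL.pos (ι := ι) (0 : ι → ℚ) 0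
  convert h using 1
  ext x
  simp

theorem univ : SL (Set.univ : Set (ι → ℝ)) := by
  have h := (empty (ι := ι)).compl
  rwa [Set.compl_empty] at h

theorem union {S T : Set (ι → ℝ)} (hS : SL S) (hT : SL T) : SL (S ∪ T) := by
  have h := (hS.compl.inter hT.compl).compl
  rwa [Set.compl_inter, compl_compl, compl_compl] at h

theorem nonneg (c : ι → ℚ) (d : ℚ) : SL {x : ι → ℝ | 0 ≤ ∑ i, (c i : ℝ) * x i + (d : ℝ)} := by
  have h := (SL.pos (ι := ι) (fun i => - c i) (-d)).compl
  convert h using 1
  ext x
  have e : ∑ i, ((- c i : ℚ) : ℝ) * x i + ((-d : ℚ) : ℝ) = -(∑ i, (c i : ℝ) * x i + (d : ℝ)) := by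
    push_cast
    rw [neg_add, ← Finset.sum_neg_distrib]
    congr 1
    exact Finset.sum_congr rfl fun i _ => by ring
  simp only [Set.mem_compl_iff, Set.mem_ofPred_eq]
  rw [e, not_lt]
  constructor
  · intro h
    linarith
  · intro h
    linarith

theorem forall_finite {β : Type*} [Finite β] {S : β → Set (ι → ℝ)} (hS : ∀ b, SL (S b)) :
    SL {x | ∀ b, x ∈ S b} := by
  classical
  have := Fintype.ofFinite β
  have key : ∀ s : Finset β, SL {x | ∀ b ∈ s, x ∈ S b} := by
    intro s
    induction s using Finset.induction_on with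
    | empty =>
      convert (univ (ι := ι)) using 1
      ext x
      simp
    | insert a s _ ih =>
      convert (hS a).inter ih using 1
      ext x
      simp
  convert key Finset.univ using 1
  ext x
  simp

theorem exists_finite {β : Type*} [Finite β] {S : β → Set (ι → ℝ)} (hS : ∀ b, SL (S b)) :
    SL {x | ∃ b, x ∈ S b} := by
  have h := (forall_finite (fun b => (hS b).compl)).compl
  convert h using 1
  ext x
  simp

theorem imp {S T : Set (ι → ℝ)} (hS : SL S) (hT : SL T) : SL {x | x ∈ S → x ∈ T} := by
  convert hS.compl.union hT using 1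
  ext x
  simp only [Set.mem_ofPred_eq, Set.mem_union, Set.mem_compl_iff]
  exact imp_iff_not_or

/-- constant conditions -/
theorem const (P : Prop) : SL {_x : ι → ℝ | P} := by
  by_cases h : P
  · convert (univ (ι := ι)) using 1
    ext x
    simp [h]
  · convert (empty (ι := ι)) using 1
    ext x
    simp [h]

/-- renaming of variables -/
theorem preimage (f : ι → κ) {S : Set (ι → ℝ)} (hS : SL S) :
    SL {x : κ → ℝ | (fun i => x (f i)) ∈ S} := by
  classical
  induction hS with
  | pos c d =>
    convert SL.pos (ι := κ) (fun k => ∑ i with f i = k, c i) d using 1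
    ext x
    simp only [Set.mem_ofPred_eq]
    have e : ∑ i, (c i : ℝ) * x (f i) = ∑ k, ((∑ i with f i = k, c i : ℚ) : ℝ) * x k := by
      rw [← Finset.sum_fiberwise Finset.univ f]
      refine Finset.sum_congr rfl fun k _ => ?_
      push_cast
      rw [Finset.sum_mul]
      refine Finset.sum_congr rfl fun i hi => ?_
      rw [Finset.mem_filter] at hi
      rw [hi.2]
    rw [e]
  | compl _ ih => exact ih.compl
  | inter _ _ ih1 ih2 => exact ih1.inter ih2

/-- comparison of two variables -/
theorem lt (i j : ι) : SL {x : ι → ℝ | x i < x j} := by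
  classical
  convert SL.pos (ι := ι) (Pi.single j 1 - Pi.single i 1) 0 using 1
  ext x
  simp only [Set.mem_ofPred_eq, Pi.sub_apply, Rat.cast_sub, sub_mul, Finset.sum_sub_distrib]
  have h : ∀ j : ι, ∑ k, (((Pi.single j 1 : ι → ℚ) k : ℚ) : ℝ) * x k = x j := by
    intro j
    rw [Finset.sum_eq_single j]
    · simp
    · intro b _ hb
      simp [hb]
    · simp
  rw [h, h]
  simp

theorem le (i j : ι) : SL {x : ι → ℝ | x i ≤ x j} := by
  convert (lt j i).compl using 1
  ext x
  simp

theorem lt_const (i : ι) (d : ℚ) : SL {x : ι → ℝ | x i < (d : ℝ)} := by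
  classical
  convert SL.pos (ι := ι) (-Pi.single i 1) d using 1
  ext x
  simp only [Set.mem_ofPred_eq]
  have h : ∑ k, (((-Pi.single i 1 : ι → ℚ) k : ℚ) : ℝ) * x k = -x i := by
    rw [Finset.sum_eq_single i]
    · simp
    · intro b _ hb
      simp [hb]
    · simp
  rw [h]
  constructor
  · intro h
    linarith
  · intro h
    linarith

theorem const_lt (i : ι) (d : ℚ) : SL {x : ι → ℝ | (d : ℝ) < x i} := by
  classical
  convert SL.pos (ι := ι) (Pi.single i 1) (-d) using 1
  ext x
  simp only [Set.mem_ofPred_eq]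
  have h : ∑ k, (((Pi.single i 1 : ι → ℚ) k : ℚ) : ℝ) * x k = x i := by
    rw [Finset.sum_eq_single i]
    · simp
    · intro b _ hb
      simp [hb]
    · simp
  rw [h]
  push_cast
  constructor
  · intro h
    linarith
  · intro h
    linarith

theorem eq_const (i : ι) (d : ℚ) : SL {x : ι → ℝ | x i = (d : ℝ)} := by
  convert (lt_const i d).compl.inter (const_lt i d).compl using 1
  ext x
  simp only [Set.mem_ofPred_eq, Set.mem_inter_iff, Set.mem_compl_iff, not_lt]
  exact ⟨fun h => ⟨h.ge, h.le⟩, fun h => le_antisymm h.2 h.1⟩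

end SL

end Pool.MP_65847d_pr
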