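import Mathlib

/-!
# X/QDefs : sets defined by linear inequalities with rational coefficients
-/

set_option autoImplicit false

open Finset

namespace Pool.MP_65847d_pr

/-- The family of all subsets of `ι → ℝ` which are Boolean combinations of open half spaces with rational
coefficients. -/
inductive SL {ι : Type*} [Fintype ι] : Set (ι → ℝ) → Prop
  | pos (c : ι → ℚ) (d : ℚ) : SL {x | 0 < ∑ i, (c i : ℝ) * x i + (d : ℝ)}
  | compl {S : Set (ι → ℝ)} : SL S → SL Sᶜ
  | inter {S T : Set (ι → ℝ)} : SL S → SL T → SL (S ∩ T)

end Pool.MP_65847d_pr
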