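import Pool.Agent.Lib.MP_65847d_pr.X.QBase

/-!
# X/QInf : the infimum of the fibre of a planar set is affine with rational coefficients near `0`

Proof. Let `𝓕` be the finite set of affine forms `f (κ, α) = a κ + b α + c` which occur in the definition of `S`: formally, show by
induction on `SL S` that there is a finite set `𝓕` of triples of rationals such that membership of `x` in `S` depends only on
the signs of the numbers `f x`, `f ∈ 𝓕` (if `0 < f x ↔ 0 < f y` for all `f ∈ 𝓕`, then `x ∈ S ↔ y ∈ S`).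
Let `ρ f κ = -(a κ + c) / b` be the roots (`b ≠ 0`). There is `ε > 0` such that on `(0, ε)` all differences `ρ f - ρ g`, and all forms
with `b = 0`, have constant sign (`<`, `=` or `>`; an affine function of `κ` has constant sign on some `(0, ε)`). Fix `κ₁ ∈ (0, ε)`;
`m = sInf S_κ₁` is a root `ρ f κ₁` (otherwise there is an open interval around `m` without roots, on which membership is constant, a
contradiction with `m` being the infimum of a set bounded below); then for every `κ ∈ (0, ε)` the infimum of `S_κ` is `ρ f κ`.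
-/

set_option autoImplicit false

open Finset Filter Topology

namespace Pool.MP_65847d_pr

namespace QInfAux

/-- value of an affine form -/
private noncomputable def ev (f : ℚ × ℚ × ℚ) (κ a : ℝ) : ℝ :=
  (f.1 : ℝ) * κ + (f.2.1 : ℝ) * a + (f.2.2 : ℝ)

/-- value of an affine function -/
private noncomputable def rt (g : ℚ × ℚ) (κ : ℝ) : ℝ := (g.1 : ℝ) * κ + (g.2 : ℝ)

private theorem forms {S : Set (Fin 2 → ℝ)} (hS : SL S) :
    ∃ F : Finset (ℚ × ℚ × ℚ), ∀ κ a κ' a' : ℝ,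
      (∀ f ∈ F, (0 < ev f κ a ↔ 0 < ev f κ' a')) → (![κ, a] ∈ S ↔ ![κ', a'] ∈ S) := by
  classical
  induction hS with
  | pos c d =>
    refine ⟨{(c 0, c 1, d)}, fun κ a κ' a' h => ?_⟩
    have := h _ (Finset.mem_singleton_self _)
    simpa [ev, Fin.sum_univ_two] using this
  | compl _ ih =>
    obtain ⟨F, hF⟩ := ih
    exact ⟨F, fun κ a κ' a' h => not_congr (hF κ a κ' a' h)⟩
  | inter _ _ ih1 ih2 =>
    obtain ⟨F, hF⟩ := ih1
    obtain ⟨G, hG⟩ := ih2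
    exact ⟨F ∪ G, fun κ a κ' a' h =>
      and_congr (hF κ a κ' a' fun f hf => h f (Finset.mem_union_left _ hf))
        (hG κ a κ' a' fun f hf => h f (Finset.mem_union_right _ hf))⟩

private theorem ev_sign (u v : ℝ) :
    ∀ᶠ κ in 𝓝[>] (0 : ℝ), (0 < u * κ + v ↔ (0 < v ∨ (v = 0 ∧ 0 < u))) := by
  have ht : Tendsto (fun κ : ℝ => u * κ + v) (𝓝[>] 0) (𝓝 v) := by
    have hc : Continuous fun κ : ℝ => u * κ + v := by fun_prop
    have := (hc.tendsto 0).mono_left (nhdsWithin_le_nhds (s := Set.Ioi (0 : ℝ)))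
    simpa using this
  rcases lt_trichotomy v 0 with h | h | h
  · filter_upwards [ht.eventually_lt_const h] with κ hκ
    constructor
    · intro h'; linarith
    · rintro (h' | h')
      · linarith
      · linarith [h'.1]
  · subst h
    filter_upwards [self_mem_nhdsWithin] with κ hκ
    have hκ' : 0 < κ := hκ
    constructor
    · intro h'
      right
      refine ⟨rfl, ?_⟩
      rw [add_zero] at h'
      exact (pos_iff_pos_of_mul_pos h').2 hκ'
    · rintro (h' | h')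
      · exact absurd h' (lt_irrefl _)
      · rw [add_zero]; exact mul_pos h'.2 hκ'
  · filter_upwards [ht.eventually_const_lt h] with κ hκ
    exact ⟨fun _ => Or.inl h, fun _ => hκ⟩

private theorem core (R : Finset (ℚ × ℚ)) (T : ℝ → Set ℝ) (δ : ℝ) (hδ : 0 < δ)
    (hcmp : ∀ g ∈ R, ∀ g' ∈ R, ∀ κ κ' : ℝ, 0 < κ → κ ≤ δ → 0 < κ' → κ' ≤ δ →
      (rt g κ < rt g' κ ↔ rt g κ' < rt g' κ'))
    (hT : ∀ κ κ' a a' : ℝ, 0 < κ → κ ≤ δ → 0 < κ' → κ' ≤ δ →
      (∀ g ∈ R, (rt g κ < a ↔ rt g κ' < a') ∧ (a < rt g κ ↔ a' < rt g κ')) →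
      (a ∈ T κ ↔ a' ∈ T κ'))
    (hne : (T δ).Nonempty) (hbd : ∀ a ∈ T δ, 0 ≤ a) :
    ∃ g ∈ R, ∀ κ, 0 < κ → κ ≤ δ → sInf (T κ) = rt g κ := by
  classical
  have hbb : BddBelow (T δ) := ⟨0, fun a ha => hbd a ha⟩
  set m1 := sInf (T δ) with hm1
  have hlb : ∀ a ∈ T δ, m1 ≤ a := fun a ha => csInf_le hbb ha
  -- a point just above `m`
  have habove : ∀ κ m w : ℝ, m < w → ∃ b, m < b ∧ b < w ∧ ∀ g ∈ R, m < rt g κ → b < rt g κ := by
    intro κ m w hw
    obtain ⟨b, h1, h2⟩ := Order.exists_between_finsets (lo := {m})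
      (hi := insert w ((R.image fun g => rt g κ).filter fun y => m < y)) (by
        intro x hx y hy
        rw [Finset.mem_singleton] at hx
        subst hx
        rcases Finset.mem_insert.1 hy with h | h
        · rw [h]; exact hw
        · exact (Finset.mem_filter.1 h).2)
    refine ⟨b, h1 m (Finset.mem_singleton_self _), h2 w (Finset.mem_insert_self _ _), ?_⟩
    intro g hg hmg
    exact h2 _ (Finset.mem_insert_of_mem (Finset.mem_filter.2
      ⟨Finset.mem_image_of_mem (fun g => rt g κ) hg, hmg⟩))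
  have hbelow : ∀ κ m : ℝ, ∃ b, b < m ∧ ∀ g ∈ R, rt g κ < m → rt g κ < b := by
    intro κ m
    obtain ⟨b, h1, h2⟩ := Order.exists_between_finsets
      (lo := (R.image fun g => rt g κ).filter fun y => y < m) (hi := {m}) (by
        intro x hx y hy
        rw [Finset.mem_singleton] at hy
        subst hy
        exact (Finset.mem_filter.1 hx).2)
    refine ⟨b, h2 m (Finset.mem_singleton_self _), ?_⟩
    intro g hg hmg
    exact h1 _ (Finset.mem_filter.2 ⟨Finset.mem_image_of_mem (fun g => rt g κ) hg, hmg⟩)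
  -- `m1` is a root
  obtain ⟨g0, hg0, hg0m⟩ : ∃ g ∈ R, rt g δ = m1 := by
    by_contra hcon
    push Not at hcon
    obtain ⟨b0, hb0, -, hb0'⟩ := habove δ m1 (m1 + 1) (by linarith)
    obtain ⟨a0, ha0, ha0'⟩ := hbelow δ m1
    obtain ⟨a, haT, hab⟩ := exists_lt_of_csInf_lt hne hb0
    have hma := hlb a haT
    have : a0 ∈ T δ := by
      refine (hT δ δ a a0 hδ le_rfl hδ le_rfl fun g hg => ?_).1 haT
      rcases lt_or_gt_of_ne (hcon g hg) with h | h
      · exact ⟨iff_of_true (lt_of_lt_of_le h hma) (ha0' g hg h),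
          iff_of_false (not_lt.2 ((le_of_lt h).trans hma)) (not_lt.2 (ha0' g hg h).le)⟩
      · exact ⟨iff_of_false (not_lt.2 (hab.trans (hb0' g hg h)).le) (not_lt.2 (ha0.trans h).le),
          iff_of_true (hab.trans (hb0' g hg h)) (ha0.trans h)⟩
    exact absurd (hlb a0 this) (not_le.2 ha0)
  refine ⟨g0, hg0, fun κ hκ hκδ => ?_⟩
  -- transfer from `κ` to `δ`
  have htrans : ∀ a : ℝ, ∃ a' : ℝ, ∀ g ∈ R,
      (rt g κ < a ↔ rt g δ < a') ∧ (a < rt g κ ↔ a' < rt g δ) := by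
    intro a
    by_cases hE : ∃ g ∈ R, rt g κ = a
    · obtain ⟨g1, hg1, hg1a⟩ := hE
      refine ⟨rt g1 δ, fun g hg => ?_⟩
      rw [← hg1a]
      exact ⟨hcmp g hg g1 hg1 κ δ hκ hκδ hδ le_rfl, hcmp g1 hg1 g hg κ δ hκ hκδ hδ le_rfl⟩
    · push Not at hE
      obtain ⟨a', h1, h2⟩ := Order.exists_between_finsets
        (lo := (R.filter fun g => rt g κ < a).image fun g => rt g δ)
        (hi := (R.filter fun g => a < rt g κ).image fun g => rt g δ) (by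
          intro x hx y hy
          obtain ⟨g, hg, rfl⟩ := Finset.mem_image.1 hx
          obtain ⟨g', hg', rfl⟩ := Finset.mem_image.1 hy
          rw [Finset.mem_filter] at hg hg'
          exact (hcmp g hg.1 g' hg'.1 κ δ hκ hκδ hδ le_rfl).1 (hg.2.trans hg'.2))
      refine ⟨a', fun g hg => ?_⟩
      rcases lt_or_gt_of_ne (hE g hg) with h | h
      · have h3 := h1 (rt g δ) (Finset.mem_image_of_mem (fun g => rt g δ)
          (Finset.mem_filter.2 ⟨hg, h⟩))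
        exact ⟨iff_of_true h h3, iff_of_false (not_lt.2 h.le) (not_lt.2 h3.le)⟩
      · have h3 := h2 (rt g δ) (Finset.mem_image_of_mem (fun g => rt g δ)
          (Finset.mem_filter.2 ⟨hg, h⟩))
        exact ⟨iff_of_false (not_lt.2 h.le) (not_lt.2 h3.le), iff_of_true h h3⟩
  have hlow : ∀ a ∈ T κ, rt g0 κ ≤ a := by
    intro a ha
    by_contra hlt
    rw [not_le] at hlt
    obtain ⟨a', ha'⟩ := htrans a
    have h1 : a' ∈ T δ := (hT κ δ a a' hκ hκδ hδ le_rfl ha').1 ha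
    have h2 : a' < rt g0 δ := (ha' g0 hg0).2.1 hlt
    rw [hg0m] at h2
    exact absurd (hlb a' h1) (not_le.2 h2)
  have hclose : ∀ w, rt g0 κ < w → ∃ a ∈ T κ, a < w := by
    intro w hw
    by_cases hm : m1 ∈ T δ
    · refine ⟨rt g0 κ, ?_, hw⟩
      refine (hT δ κ m1 (rt g0 κ) hδ le_rfl hκ hκδ fun g hg => ?_).1 hm
      rw [← hg0m]
      exact ⟨hcmp g hg g0 hg0 δ κ hδ le_rfl hκ hκδ, hcmp g0 hg0 g hg δ κ hδ le_rfl hκ hκδ⟩
    · obtain ⟨b0, hb0, -, hb0'⟩ := habove δ m1 (m1 + 1) (by linarith)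
      obtain ⟨a1, ha1T, ha1b⟩ := exists_lt_of_csInf_lt hne hb0
      have hma : m1 < a1 := lt_of_le_of_ne (hlb a1 ha1T) (by rintro h; exact hm (h ▸ ha1T))
      obtain ⟨b, hb, hbw, hb'⟩ := habove κ (rt g0 κ) w hw
      refine ⟨b, ?_, hbw⟩
      refine (hT δ κ a1 b hδ le_rfl hκ hκδ fun g hg => ?_).1 ha1T
      have hc := hcmp g0 hg0 g hg δ κ hδ le_rfl hκ hκδ
      rw [hg0m] at hc
      rcases le_or_gt (rt g δ) m1 with h | h
      · have h3 : rt g κ ≤ rt g0 κ := by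
          rw [← not_lt, ← hc, not_lt]; exact h
        exact ⟨iff_of_true (lt_of_le_of_lt h hma) (lt_of_le_of_lt h3 hb),
          iff_of_false (not_lt.2 (h.trans hma.le)) (not_lt.2 (h3.trans hb.le))⟩
      · have h3 : rt g0 κ < rt g κ := hc.1 h
        have h4 := hb0' g hg h
        have h5 := hb' g hg h3
        exact ⟨iff_of_false (not_lt.2 (ha1b.trans h4).le) (not_lt.2 h5.le),
          iff_of_true (ha1b.trans h4) h5⟩
  obtain ⟨a, ha, -⟩ := hclose (rt g0 κ + 1) (by linarith)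
  exact csInf_eq_of_forall_ge_of_forall_gt_exists_lt ⟨a, ha⟩ hlow hclose

end QInfAux

open QInfAux in
theorem SL.inf_affine {S : Set (Fin 2 → ℝ)} (hS : SL S) {ε : ℝ} (hε : 0 < ε)
    (hne : ∀ κ, 0 < κ → κ ≤ ε → ∃ a : ℝ, ![κ, a] ∈ S)
    (hbd : ∀ κ a, 0 < κ → κ ≤ ε → ![κ, a] ∈ S → 0 ≤ a) :
    ∃ (al be : ℚ) (δ : ℝ), 0 < δ ∧ ∀ κ : ℝ, 0 < κ → κ ≤ δ →
      sInf {a : ℝ | ![κ, a] ∈ S} = (al : ℝ) - (be : ℝ) * κ := by
  classical
  obtain ⟨F, hF⟩ := forms hS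
  set R : Finset (ℚ × ℚ) := (F.filter fun f => f.2.1 ≠ 0).image
    fun f => (-f.1 / f.2.1, -f.2.2 / f.2.1) with hR
  have h1 : ∀ᶠ κ in 𝓝[>] (0 : ℝ), ∀ f ∈ F, (0 < (f.1 : ℝ) * κ + (f.2.2 : ℝ) ↔
      (0 < (f.2.2 : ℝ) ∨ ((f.2.2 : ℝ) = 0 ∧ 0 < (f.1 : ℝ)))) :=
    (Filter.eventually_all_finset F).2 fun f _ => ev_sign _ _
  have h2 : ∀ᶠ κ in 𝓝[>] (0 : ℝ), ∀ g ∈ R, ∀ g' ∈ R,
      (0 < ((g'.1 : ℝ) - g.1) * κ + ((g'.2 : ℝ) - g.2) ↔
      (0 < ((g'.2 : ℝ) - g.2) ∨ (((g'.2 : ℝ) - g.2) = 0 ∧ 0 < ((g'.1 : ℝ) - g.1)))) :=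
    (Filter.eventually_all_finset R).2 fun g _ =>
      (Filter.eventually_all_finset R).2 fun g' _ => ev_sign _ _
  have h3 : ∀ᶠ κ in 𝓝[>] (0 : ℝ), κ ≤ ε := by
    have : ∀ᶠ κ in 𝓝[>] (0 : ℝ), κ ∈ Set.Ioc 0 ε := Ioc_mem_nhdsGT hε
    filter_upwards [this] with κ hκ using hκ.2
  obtain ⟨δ, hδ, hsub⟩ := mem_nhdsGT_iff_exists_Ioc_subset.1 ((h1.and h2).and h3)
  have hδ0 : 0 < δ := hδ
  have hcmp : ∀ g ∈ R, ∀ g' ∈ R, ∀ κ κ' : ℝ, 0 < κ → κ ≤ δ → 0 < κ' → κ' ≤ δ →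
      (rt g κ < rt g' κ ↔ rt g κ' < rt g' κ') := by
    intro g hg g' hg' κ κ' hκ hκδ hκ' hκδ'
    have e1 := (hsub ⟨hκ, hκδ⟩).1.2 g hg g' hg'
    have e2 := (hsub ⟨hκ', hκδ'⟩).1.2 g hg g' hg'
    have e3 : ∀ κ : ℝ, rt g κ < rt g' κ ↔ 0 < ((g'.1 : ℝ) - g.1) * κ + ((g'.2 : ℝ) - g.2) := by
      intro κ
      unfold rt
      rw [← sub_pos]
      have : (g'.1 : ℝ) * κ + g'.2 - (g.1 * κ + g.2) = (g'.1 - g.1) * κ + (g'.2 - g.2) := by ring
      rw [this]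
    rw [e3, e3, e1, e2]
  have hev : ∀ f ∈ F, f.2.1 ≠ 0 → ∀ κ a : ℝ,
      ev f κ a = (f.2.1 : ℝ) * (a - rt (-f.1 / f.2.1, -f.2.2 / f.2.1) κ) := by
    intro f _ hf κ a
    have hf' : (f.2.1 : ℝ) ≠ 0 := by exact_mod_cast hf
    unfold ev rt
    push_cast
    field_simp
    ring
  have hT : ∀ κ κ' a a' : ℝ, 0 < κ → κ ≤ δ → 0 < κ' → κ' ≤ δ →
      (∀ g ∈ R, (rt g κ < a ↔ rt g κ' < a') ∧ (a < rt g κ ↔ a' < rt g κ')) →
      (a ∈ {a : ℝ | ![κ, a] ∈ S} ↔ a' ∈ {a : ℝ | ![κ', a] ∈ S}) := by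
    intro κ κ' a a' hκ hκδ hκ' hκδ' h
    refine hF κ a κ' a' fun f hf => ?_
    by_cases hq : f.2.1 = 0
    · have e1 := (hsub ⟨hκ, hκδ⟩).1.1 f hf
      have e2 := (hsub ⟨hκ', hκδ'⟩).1.1 f hf
      unfold ev
      rw [hq]
      simp only [Rat.cast_zero, zero_mul, add_zero]
      rw [e1, e2]
    · have hg := h _ (Finset.mem_image_of_mem (fun f : ℚ × ℚ × ℚ => (-f.1 / f.2.1, -f.2.2 / f.2.1))
        (Finset.mem_filter.2 ⟨hf, hq⟩))
      rw [hev f hf hq, hev f hf hq]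
      have hq' : (f.2.1 : ℝ) ≠ 0 := by exact_mod_cast hq
      rcases lt_or_gt_of_ne hq' with h' | h'
      · have e : ∀ z : ℝ, 0 < (f.2.1 : ℝ) * z ↔ z < 0 := fun z => by
          constructor
          · intro hz; by_contra hz'; rw [not_lt] at hz'
            have := mul_nonpos_of_nonpos_of_nonneg h'.le hz'
            linarith
          · intro hz; exact mul_pos_of_neg_of_neg h' hz
        rw [e, e, sub_neg, sub_neg]
        exact hg.2
      · rw [mul_pos_iff_of_pos_left h', mul_pos_iff_of_pos_left h', sub_pos, sub_pos]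
        exact hg.1
  have hδε : δ ≤ ε := (hsub ⟨hδ0, le_rfl⟩).2
  obtain ⟨g, -, hg⟩ := core R (fun κ => {a : ℝ | ![κ, a] ∈ S}) δ hδ0 hcmp hT
    (hne δ hδ0 hδε) (fun a ha => hbd δ a hδ0 hδε ha)
  refine ⟨g.2, -g.1, δ, hδ0, fun κ hκ hκδ => ?_⟩
  rw [hg κ hκ hκδ]
  unfold rt
  push_cast
  ring

end Pool.MP_65847d_pr
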