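import Pool.Agent.Lib.MP_65847d_pr.X.QStab
import Pool.Agent.Lib.MP_65847d_pr.X.QInf
import Pool.Agent.Lib.MP_65847d_pr.X.FK

/-!
# X/QFinal : the exponent is affine with rational coefficients near `0`

Let `k0` be the number of `finite_K`, `c` as in `hpos`. For `0 < κ ≤ c/2`, `κ ≤ α < 1` stability for forests with at most `k0` vertices is
the same as `StableFrom` (`finite_K` and restriction), and by `hpos` no `α < c` has a vector which is `StableFrom E κ α`. So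
`expoFrom E κ = sInf {a | ![κ, a] ∈ S}`, `S = {x | x 0 ≤ x 1 ∧ 0 < x 1 ∧ x 1 < 1 ∧ ∃ W, StabB E k0 (x 0) (x 1) W} ∪ {x | x 1 = 1}`
(both sets `{α | 0 < α, α < 1, ∃ W, StableFrom ..} ∪ {1}` and the fibre of `S` coincide above `κ`, and the first one has no element `< c`).
Apply `SL.inf_affine`.
-/

set_option autoImplicit false

open Finset

namespace Pool.MP_65847d_pr

theorem expo_affine {V : Type} [Fintype V] {E : V → V → Prop} (hE : ∀ a b, E a b → E b a)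
    (hpos : ∃ c : ℝ, 0 < c ∧ ∀ κ, 0 < κ → κ ≤ c → c ≤ expoFrom E κ) :
    ∃ (al be : ℚ) (k0 : ℝ), 0 < k0 ∧ ∀ κ : ℝ, 0 < κ → κ ≤ k0 →
      expoFrom E κ = (al : ℝ) - (be : ℝ) * κ := by
  obtain ⟨k0, hk0⟩ := finite_K (V := V) hE
  obtain ⟨c, hc, hcexp⟩ := hpos
  -- the planar set
  have hSL : SL {x : Fin 2 → ℝ | (x 0 ≤ x 1 ∧ ((0 : ℚ) : ℝ) < x 1 ∧ x 1 < ((1 : ℚ) : ℝ) ∧
      ∃ W : V → ℝ, StabB E k0 (x 0) (x 1) W) ∨ x 1 = ((1 : ℚ) : ℝ)} :=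
    ((SL.le 0 1).inter ((SL.const_lt 1 0).inter ((SL.lt_const 1 1).inter (SL_stab E k0)))).union
      (SL.eq_const 1 1)
  have hmem : ∀ κ a : ℝ, (![κ, a] ∈ {x : Fin 2 → ℝ | (x 0 ≤ x 1 ∧ ((0 : ℚ) : ℝ) < x 1 ∧
      x 1 < ((1 : ℚ) : ℝ) ∧ ∃ W : V → ℝ, StabB E k0 (x 0) (x 1) W) ∨ x 1 = ((1 : ℚ) : ℝ)}) ↔
      ((κ ≤ a ∧ 0 < a ∧ a < 1 ∧ ∃ W : V → ℝ, StabB E k0 κ a W) ∨ a = 1) := by
    intro κ a
    simp
  -- the fibres
  have hfib : ∀ κ : ℝ, 0 < κ → κ ≤ c →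
      {a : ℝ | ![κ, a] ∈ {x : Fin 2 → ℝ | (x 0 ≤ x 1 ∧ ((0 : ℚ) : ℝ) < x 1 ∧
        x 1 < ((1 : ℚ) : ℝ) ∧ ∃ W : V → ℝ, StabB E k0 (x 0) (x 1) W) ∨ x 1 = ((1 : ℚ) : ℝ)}} =
      {α : ℝ | 0 < α ∧ α < 1 ∧ ∃ W : V → ℝ, StableFrom E κ α W} ∪ {1} := by
    intro κ hκ hκc
    have hbdd : BddBelow ({α : ℝ | 0 < α ∧ α < 1 ∧ ∃ W : V → ℝ, StableFrom E κ α W} ∪ {1}) := by
      refine ⟨0, ?_⟩
      rintro a (ha | ha)
      · exact ha.1.le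
      · rw [ha]
        exact zero_le_one
    ext a
    constructor
    · intro ha
      rcases (hmem κ a).1 ha with ⟨h1, h2, h3, W, hW⟩ | h1
      · left
        refine ⟨h2, h3, W, hk0 κ a W h2 h3 h1 hW.1 ?_⟩
        intro w hw m hm K A hK hR
        exact hW.2 w hw m (Nat.lt_succ_iff.1 hm) K A hK hR
      · right
        exact h1
    · rintro (⟨h2, h3, W, hW⟩ | ha)
      · refine (hmem κ a).2 (Or.inl ⟨?_, h2, h3, W, hW.1, ?_⟩)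
        · have h4 : expoFrom E κ ≤ a := csInf_le hbdd (Or.inl ⟨h2, h3, W, hW⟩)
          exact hκc.trans ((hcexp κ hκ hκc).trans h4)
        · intro w hw k _ K A hK hR
          exact hW.2 w hw k K A hK hR
      · exact (hmem κ a).2 (Or.inr ha)
  obtain ⟨al, be, δ, hδ, h⟩ := SL.inf_affine hSL hc
    (fun κ _ _ => ⟨1, (hmem κ 1).2 (Or.inr rfl)⟩) (fun κ a hκ _ ha => by
      rcases (hmem κ a).1 ha with h1 | h1
      · exact h1.2.1.le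
      · rw [h1]
        exact zero_le_one)
  refine ⟨al, be, min δ c, lt_min hδ hc, fun κ hκ hκ' => ?_⟩
  rw [← h κ hκ (hκ'.trans (min_le_left _ _)), hfib κ hκ (hκ'.trans (min_le_right _ _))]
  rfl

end Pool.MP_65847d_pr
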