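import Pool.Agent.Lib.MP_65847d_pr.X.QProj

/-!
# X/QMany : elimination of several variables

`exists_sum`: induction on the finite type `κ` (`Fintype.induction_empty_option`, `SL.preimage` for the
renamings) with `SL.exists_option`. `forall_sum`: complement.
-/

set_option autoImplicit false

open Finset

namespace Pool.MP_65847d_pr

private theorem qmany_aux (κ : Type) [Fintype κ] : ∀ (ι : Type) [Fintype ι]
    (S : Set (ι ⊕ κ → ℝ)), SL S → SL {x : ι → ℝ | ∃ y : κ → ℝ, Sum.elim x y ∈ S} := by
  refine Fintype.induction_empty_option (P := fun (κ : Type) [Fintype κ] =>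
    ∀ (ι : Type) [Fintype ι]
    (S : Set (ι ⊕ κ → ℝ)), SL S → SL {x : ι → ℝ | ∃ y : κ → ℝ, Sum.elim x y ∈ S}) ?_ ?_ ?_ κ
  · intro α β _ e ih ι _ S hS
    letI : Fintype α := Fintype.ofEquiv β e.symm
    have h1 := SL.preimage (fun i : ι ⊕ β => (Sum.map id e.symm i : ι ⊕ α)) hS
    have h2 := ih ι _ h1
    have heq : {x : ι → ℝ | ∃ y : β → ℝ, Sum.elim x y ∈ S} =
        {x : ι → ℝ | ∃ y : α → ℝ, Sum.elim x y ∈
          {x : ι ⊕ α → ℝ | (fun i : ι ⊕ β => x (Sum.map id e.symm i)) ∈ S}} := by
      ext x
      simp only [Set.mem_setOf_eq]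
      constructor
      · rintro ⟨y, hy⟩
        refine ⟨fun a => y (e a), ?_⟩
        convert hy using 1
        funext i
        rcases i with i | b
        · simp
        · simp
      · rintro ⟨y, hy⟩
        refine ⟨fun b => y (e.symm b), ?_⟩
        convert hy using 1
        funext i
        rcases i with i | b
        · simp
        · simp
    rw [heq]
    exact h2
  · intro ι _ S hS
    have h1 := SL.preimage (fun i : ι ⊕ PEmpty => (Sum.elim id PEmpty.elim i : ι)) hS
    convert h1 using 1
    ext x
    simp only [Set.mem_setOf_eq]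
    constructor
    · rintro ⟨y, hy⟩
      convert hy using 1
      funext i
      rcases i with i | b
      · simp
      · exact b.elim
    · intro hy
      refine ⟨fun b => b.elim, ?_⟩
      convert hy using 1
      funext i
      rcases i with i | b
      · simp
      · exact b.elim
  · intro α _ ih ι _ S hS
    have h1 := SL.preimage (fun i : ι ⊕ Option α =>
      (Sum.elim (fun i => some (Sum.inl i)) (fun o => o.map Sum.inr) i : Option (ι ⊕ α))) hS
    have h2 := SL.exists_option h1
    have h3 := ih ι _ h2
    convert h3 using 1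
    ext x
    simp only [Set.mem_setOf_eq]
    constructor
    · rintro ⟨y, hy⟩
      refine ⟨fun a => y (some a), y none, ?_⟩
      convert hy using 1
      funext i
      rcases i with i | (_ | b)
      · simp
      · simp
      · simp
    · rintro ⟨y, t, hy⟩
      refine ⟨fun o => o.elim t y, ?_⟩
      convert hy using 1
      funext i
      rcases i with i | (_ | b)
      · simp
      · simp
      · simp

theorem SL.exists_sum {ι κ : Type} [Fintype ι] [Fintype κ] {S : Set (ι ⊕ κ → ℝ)} (hS : SL S) :
    SL {x : ι → ℝ | ∃ y : κ → ℝ, Sum.elim x y ∈ S} :=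
  qmany_aux κ ι S hS

theorem SL.forall_sum {ι κ : Type} [Fintype ι] [Fintype κ] {S : Set (ι ⊕ κ → ℝ)} (hS : SL S) :
    SL {x : ι → ℝ | ∀ y : κ → ℝ, Sum.elim x y ∈ S} := by
  have h := SL.compl (SL.exists_sum (SL.compl hS))
  convert h using 1
  ext x
  simp

end Pool.MP_65847d_pr
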