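import Pool.Agent.Lib.MP_65847d_pr.X.QBase

/-!
# X/QProj : elimination of one variable

Ferrante-Rackoff: whether `(t, x)` lies in `S` depends only on the truth values of finitely many conditions
`0 < a_k t + b_k(x)`. With the roots `r_k(x) = - b_k(x) / a_k`, every `t` has the same truth values as one of the test points
`0`, `(r_k + r_l) / 2 + e`, `e = -1, 0, 1`, which are affine in `x`.
-/

set_option autoImplicit false

open Finset

namespace Pool.MP_65847d_pr

namespace SL

variable {ι κ : Type*} [Fintype ι] [Fintype κ]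

/-- value of an affine form -/
def ev (f : (ι → ℚ) × ℚ) (x : ι → ℝ) : ℝ := ∑ i, (f.1 i : ℝ) * x i + (f.2 : ℝ)

/-- affine substitution -/
theorem subst (A : κ → (ι → ℚ) × ℚ) {S : Set (κ → ℝ)} (hS : SL S) :
    SL {x : ι → ℝ | (fun k => ev (A k) x) ∈ S} := by
  induction hS with
  | pos c d =>
    convert SL.pos (ι := ι) (fun i => ∑ k, c k * (A k).1 i) (∑ k, c k * (A k).2 + d) using 1
    ext x
    simp only [Set.mem_ofPred_eq, ev]
    have e : ∑ k, (c k : ℝ) * (∑ i, ((A k).1 i : ℝ) * x i + ((A k).2 : ℝ)) + (d : ℝ) =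
        ∑ i, ((∑ k, c k * (A k).1 i : ℚ) : ℝ) * x i + ((∑ k, c k * (A k).2 + d : ℚ) : ℝ) := by
      push_cast
      simp only [mul_add, Finset.sum_add_distrib, Finset.mul_sum, Finset.sum_mul]
      rw [Finset.sum_comm, add_assoc]
      congr 1
      refine Finset.sum_congr rfl fun i _ => Finset.sum_congr rfl fun k _ => ?_
      ring
    rw [e]
  | compl _ ih => exact ih.compl
  | inter _ _ ih1 ih2 => exact ih1.inter ih2

/-- membership depends only on finitely many truth values -/
theorem exists_forms {S : Set (κ → ℝ)} (hS : SL S) :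
    ∃ F : Finset ((κ → ℚ) × ℚ), ∀ p q : κ → ℝ, (∀ f ∈ F, (0 < ev f p ↔ 0 < ev f q)) →
      (p ∈ S ↔ q ∈ S) := by
  classical
  induction hS with
  | pos c d =>
    refine ⟨{(c, d)}, fun p q h => ?_⟩
    exact h (c, d) (Finset.mem_singleton_self _)
  | compl _ ih =>
    obtain ⟨F, hF⟩ := ih
    exact ⟨F, fun p q h => not_congr (hF p q h)⟩
  | inter _ _ ih1 ih2 =>
    obtain ⟨F, hF⟩ := ih1
    obtain ⟨G, hG⟩ := ih2
    refine ⟨F ∪ G, fun p q h => ?_⟩
    exact and_congr (hF p q fun f hf => h f (Finset.mem_union_left _ hf))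
      (hG p q fun f hf => h f (Finset.mem_union_right _ hf))

/-- the test points -/
theorem exists_test (R : Finset ℝ) (t : ℝ) :
    ∃ τ : ℝ, (τ = 0 ∨ ∃ r ∈ R, ∃ s ∈ R, ∃ e : Fin 3, τ = (r + s) / 2 + ((e : ℕ) : ℝ) - 1) ∧
      ∀ r ∈ R, (r < τ ↔ r < t) ∧ (τ < r ↔ t < r) := by
  classical
  by_cases ht : t ∈ R
  · refine ⟨t, Or.inr ⟨t, ht, t, ht, 1, ?_⟩, fun r _ => ⟨Iff.rfl, Iff.rfl⟩⟩
    simp
  have hne : ∀ r ∈ R, r < t ∨ t < r := fun r hr => lt_or_gt_of_ne fun h => ht (h ▸ hr)
  rcases (R.filter (· < t)).eq_empty_or_nonempty with hlo | hlo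
  · rcases (R.filter (t < ·)).eq_empty_or_nonempty with hhi | hhi
    · refine ⟨0, Or.inl rfl, fun r hr => ?_⟩
      exfalso
      rcases hne r hr with h | h
      · exact (Finset.filter_eq_empty_iff.1 hlo) hr h
      · exact (Finset.filter_eq_empty_iff.1 hhi) hr h
    · obtain ⟨b, hb, hb'⟩ := Finset.exists_min_image _ id hhi
      rw [Finset.mem_filter] at hb
      refine ⟨b - 1, Or.inr ⟨b, hb.1, b, hb.1, 0, by simp⟩, fun r hr => ?_⟩
      have hr' : t < r := (hne r hr).resolve_left fun h => (Finset.filter_eq_empty_iff.1 hlo) hr h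
      have h1 : b ≤ r := hb' r (Finset.mem_filter.2 ⟨hr, hr'⟩)
      constructor
      · constructor
        · intro h
          linarith
        · intro h
          linarith
      · constructor
        · intro _
          exact hr'
        · intro _
          linarith
  · obtain ⟨a, ha, ha'⟩ := Finset.exists_max_image _ id hlo
    rw [Finset.mem_filter] at ha
    rcases (R.filter (t < ·)).eq_empty_or_nonempty with hhi | hhi
    · refine ⟨a + 1, Or.inr ⟨a, ha.1, a, ha.1, 2, by norm_num; ring⟩, fun r hr => ?_⟩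
      have hr' : r < t := (hne r hr).resolve_right fun h => (Finset.filter_eq_empty_iff.1 hhi) hr h
      have h1 : r ≤ a := ha' r (Finset.mem_filter.2 ⟨hr, hr'⟩)
      constructor
      · constructor
        · intro _
          exact hr'
        · intro _
          linarith
      · constructor
        · intro h
          linarith
        · intro h
          linarith
    · obtain ⟨b, hb, hb'⟩ := Finset.exists_min_image _ id hhi
      rw [Finset.mem_filter] at hb
      refine ⟨(a + b) / 2, Or.inr ⟨a, ha.1, b, hb.1, 1, by simp⟩, fun r hr => ?_⟩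
      have hab : a < b := ha.2.trans hb.2
      rcases hne r hr with h | h
      · have h1 : r ≤ a := ha' r (Finset.mem_filter.2 ⟨hr, h⟩)
        constructor
        · exact ⟨fun _ => h, fun _ => by linarith⟩
        · exact ⟨fun h2 => by linarith, fun h2 => by linarith⟩
      · have h1 : b ≤ r := hb' r (Finset.mem_filter.2 ⟨hr, h⟩)
        constructor
        · exact ⟨fun h2 => by linarith, fun h2 => by linarith⟩
        · exact ⟨fun _ => h, fun _ => by linarith⟩

/-- the root of a form in the variable `none` -/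
def root (f : (Option ι → ℚ) × ℚ) : (ι → ℚ) × ℚ :=
  (fun i => -(f.1 (some i)) / f.1 none, -f.2 / f.1 none)

/-- the test point as an affine form -/
def test (f g : (Option ι → ℚ) × ℚ) (e : Fin 3) : (ι → ℚ) × ℚ :=
  (fun i => ((root f).1 i + (root g).1 i) / 2, ((root f).2 + (root g).2) / 2 + ((e : ℕ) : ℚ) - 1)

theorem ev_test (f g : (Option ι → ℚ) × ℚ) (e : Fin 3) (x : ι → ℝ) :
    ev (test f g e) x = (ev (root f) x + ev (root g) x) / 2 + ((e : ℕ) : ℝ) - 1 := by
  unfold ev test
  push_cast
  have h : ∑ i, (((root f).1 i : ℝ) + ((root g).1 i : ℝ)) / 2 * x i =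
      (∑ i, ((root f).1 i : ℝ) * x i + ∑ i, ((root g).1 i : ℝ) * x i) / 2 := by
    rw [← Finset.sum_add_distrib, Finset.sum_div]
    exact Finset.sum_congr rfl fun i _ => by ring
  rw [h]
  ring

theorem ev_option (f : (Option ι → ℚ) × ℚ) (t : ℝ) (x : ι → ℝ) :
    ev f (fun o : Option ι => o.elim t x) =
      (f.1 none : ℝ) * t + (∑ i, (f.1 (some i) : ℝ) * x i + (f.2 : ℝ)) := by
  unfold ev
  rw [Fintype.sum_option]
  simp only [Option.elim]
  ring

theorem ev_root (f : (Option ι → ℚ) × ℚ) (x : ι → ℝ) :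
    ev (root f) x = -(∑ i, (f.1 (some i) : ℝ) * x i + (f.2 : ℝ)) / (f.1 none : ℝ) := by
  unfold ev root
  push_cast
  have h : ∑ i, -(f.1 (some i) : ℝ) / (f.1 none : ℝ) * x i =
      -(∑ i, (f.1 (some i) : ℝ) * x i) / (f.1 none : ℝ) := by
    rw [← Finset.sum_neg_distrib, Finset.sum_div]
    exact Finset.sum_congr rfl fun i _ => by ring
  rw [h]
  ring

/-- same truth value -/
theorem ev_congr (f : (Option ι → ℚ) × ℚ) (t τ : ℝ) (x : ι → ℝ)
    (h : (ev (root f) x < τ ↔ ev (root f) x < t) ∧ (τ < ev (root f) x ↔ t < ev (root f) x)) :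
    0 < ev f (fun o : Option ι => o.elim τ x) ↔ 0 < ev f (fun o : Option ι => o.elim t x) := by
  rw [ev_option, ev_option]
  set b : ℝ := ∑ i, (f.1 (some i) : ℝ) * x i + (f.2 : ℝ) with hb
  have hr : ev (root f) x = -b / (f.1 none : ℝ) := ev_root f x
  rw [hr] at h
  rcases lt_trichotomy (f.1 none : ℝ) 0 with h0 | h0 | h0
  · have k : ∀ u : ℝ, 0 < (f.1 none : ℝ) * u + b ↔ u < -b / (f.1 none : ℝ) := by
      intro u
      rw [lt_div_iff_of_neg h0]
      constructor
      · intro h
        linarith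
      · intro h
        linarith
    rw [k, k]
    exact h.2
  · rw [h0]
    simp
  · have k : ∀ u : ℝ, 0 < (f.1 none : ℝ) * u + b ↔ -b / (f.1 none : ℝ) < u := by
      intro u
      rw [div_lt_iff₀ h0]
      constructor
      · intro h
        linarith
      · intro h
        linarith
    rw [k, k]
    exact h.1

/-- substitution of an affine form for the variable `none` -/
theorem subst_none (u : (ι → ℚ) × ℚ) {S : Set (Option ι → ℝ)} (hS : SL S) :
    SL {x : ι → ℝ | (fun o : Option ι => o.elim (ev u x) x) ∈ S} := by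
  classical
  convert subst (fun o : Option ι => o.elim u (fun i => (Pi.single i 1, 0))) hS using 1
  ext x
  simp only [Set.mem_ofPred_eq]
  have e : (fun o : Option ι => o.elim (ev u x) x) =
      fun k : Option ι => ev (k.elim u (fun i => (Pi.single i 1, 0))) x := by
    funext o
    cases o with
    | none => rfl
    | some i =>
      simp only [Option.elim, ev]
      rw [Finset.sum_eq_single i]
      · simp
      · intro b _ hb
        simp [hb]
      · simp
  rw [e]

end SL

theorem SL.exists_option {ι : Type*} [Fintype ι] {S : Set (Option ι → ℝ)} (hS : SL S) :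
    SL {x : ι → ℝ | ∃ t : ℝ, (fun o : Option ι => o.elim t x) ∈ S} := by
  classical
  obtain ⟨F, hF⟩ := SL.exists_forms hS
  have h0 : SL {x : ι → ℝ | (fun o : Option ι => o.elim (0 : ℝ) x) ∈ S} := by
    convert SL.subst_none (0, 0) hS using 1
    ext x
    simp [SL.ev]
  have h1 : SL {x : ι → ℝ | ∃ b : F × F × Fin 3,
      x ∈ {x : ι → ℝ | (fun o : Option ι => o.elim (SL.ev (SL.test b.1.1 b.2.1.1 b.2.2) x) x) ∈ S}} :=
    SL.exists_finite fun b => SL.subst_none _ hS
  convert h0.union h1 using 1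
  ext x
  simp only [Set.mem_ofPred_eq, Set.mem_union]
  constructor
  · rintro ⟨t, ht⟩
    obtain ⟨τ, hτ, hτ'⟩ := SL.exists_test (F.image fun f => SL.ev (SL.root f) x) t
    have hmem : (fun o : Option ι => o.elim τ x) ∈ S := by
      refine (hF _ _ fun f hf => ?_).2 ht
      exact SL.ev_congr f t τ x (hτ' _ (Finset.mem_image_of_mem _ hf))
    rcases hτ with rfl | ⟨r, hr, s, hs, e, rfl⟩
    · exact Or.inl hmem
    · right
      rw [Finset.mem_image] at hr hs
      obtain ⟨f, hf, rfl⟩ := hr
      obtain ⟨g, hg, rfl⟩ := hs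
      refine ⟨(⟨f, hf⟩, ⟨g, hg⟩, e), ?_⟩
      rw [SL.ev_test]
      exact hmem
  · rintro (h | ⟨b, hb⟩)
    · exact ⟨0, h⟩
    · exact ⟨_, hb⟩

end Pool.MP_65847d_pr
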