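import Pool.Agent.Lib.MP_65847d_pr.C.Defs

/-!
# Stability from a level on
-/

set_option autoImplicit false

open Finset

namespace Pool.MP_65847d_pr

/-- `W` is stable at `α` from the level `κ` on. -/
def StableFrom {V : Type*} (E : V → V → Prop) (κ α : ℝ) (W : V → ℝ) : Prop :=
  (∀ a, 0 ≤ W a ∧ W a ≤ 1) ∧
    ∀ w : ℝ, κ ≤ w → ∀ (k : ℕ) (K : SimpleGraph (Fin k)) (A : Fin k → Finset V),
      K.IsAcyclic → Rich α W w K A → Colours E W w K A

/-- The infimum of `1` and of all `α` in `(0, 1)` at which some vector is stable from the level `κ` on. -/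
noncomputable def expoFrom {V : Type*} (E : V → V → Prop) (κ : ℝ) : ℝ :=
  sInf ({α : ℝ | 0 < α ∧ α < 1 ∧ ∃ W : V → ℝ, StableFrom E κ α W} ∪ {1})

end Pool.MP_65847d_pr
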