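import Pool.Agent.Lib.MP_65847d_pr.X.QMany
import Pool.Agent.Lib.MP_65847d_pr.X.XDefs

/-!
# X/QStab : bounded stability is a condition given by linear inequalities with rational coefficients

Variables: `x 0 = κ`, `x 1 = α`, `W a` (`a : V`), `w`. Proof: `{(κ, α, W)}` is the set of all points satisfying
`0 ≤ W a ≤ 1` and for all `w` and all (finitely many) `k ≤ k0`, `K`, `A`: `κ ≤ w`, `K.IsAcyclic`, `Rich`, imply `Colours`.
* `Colours E W w K A` is a finite disjunction (over `φ : Fin k → V`) of constant conditions and `w ≤ W (φ i)`.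
* `Rich α W w K A` is a finite conjunction (over `U`; connectedness is a constant condition) of `w < wgt α W w A U`, and since
  `- kap α W w a = min 0 (min (W a) w - α) = min 0 (W a - α) (w - α)`, this holds iff for every choice function
  `c : ι × V → Fin 3` the affine inequality `w < α + ∑ y ∈ U, (1 - α + ∑ a ∈ A y, [0, W a - α, w - α] (c (y, a)))` holds
  (the sum of minima is the minimum of the sums).
Use `SL.forall_sum` with `κ = Unit` (or `Fin 1`) for `w` and `SL.exists_sum` with `κ = V` for `W`.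
-/

set_option autoImplicit false

open Finset

namespace Pool.MP_65847d_pr

/-- stability of `W` for levels `w ≥ κ` and forests with at most `k0` vertices -/
def StabB {V : Type*} (E : V → V → Prop) (k0 : ℕ) (κ α : ℝ) (W : V → ℝ) : Prop :=
  (∀ a, 0 ≤ W a ∧ W a ≤ 1) ∧
    ∀ w : ℝ, κ ≤ w → ∀ k ≤ k0, ∀ (K : SimpleGraph (Fin k)) (A : Fin k → Finset V),
      K.IsAcyclic → Rich α W w K A → Colours E W w K A

namespace QStabAux

variable {τ : Type*} [Fintype τ]

/-- affine forms with rational coefficients -/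
private def Aff (f : (τ → ℝ) → ℝ) : Prop :=
  ∃ (c : τ → ℚ) (d : ℚ), ∀ u, f u = ∑ i, (c i : ℝ) * u i + (d : ℝ)

private theorem Aff.coord (i : τ) : Aff (fun u : τ → ℝ => u i) := by
  classical
  refine ⟨Pi.single i 1, 0, fun u => ?_⟩
  rw [Finset.sum_eq_single i]
  · simp
  · intro j _ hj
    simp [Pi.single_eq_of_ne hj]
  · intro h; exact absurd (Finset.mem_univ i) h

private theorem Aff.const (q : ℚ) : Aff (fun _ : τ → ℝ => (q : ℝ)) :=
  ⟨0, q, fun u => by simp⟩

private theorem Aff.add {f g : (τ → ℝ) → ℝ} (hf : Aff f) (hg : Aff g) :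
    Aff (fun u => f u + g u) := by
  obtain ⟨c, d, h⟩ := hf
  obtain ⟨c', d', h'⟩ := hg
  refine ⟨c + c', d + d', fun u => ?_⟩
  show f u + g u = _
  rw [h, h']
  simp only [Pi.add_apply]
  push_cast
  simp only [add_mul, Finset.sum_add_distrib]
  ring

private theorem Aff.neg {f : (τ → ℝ) → ℝ} (hf : Aff f) : Aff (fun u => - f u) := by
  obtain ⟨c, d, h⟩ := hf
  refine ⟨-c, -d, fun u => ?_⟩
  show -f u = _
  rw [h]
  simp only [Pi.neg_apply]
  push_cast
  simp only [neg_mul, Finset.sum_neg_distrib]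
  ring

private theorem Aff.sub {f g : (τ → ℝ) → ℝ} (hf : Aff f) (hg : Aff g) :
    Aff (fun u => f u - g u) := by
  have := hf.add hg.neg
  simpa [sub_eq_add_neg] using this

private theorem Aff.sum {β : Type*} (s : Finset β) {f : β → (τ → ℝ) → ℝ} (hf : ∀ b ∈ s, Aff (f b)) :
    Aff (fun u => ∑ b ∈ s, f b u) := by
  classical
  induction s using Finset.induction_on with
  | empty => simpa using (Aff.const (τ := τ) 0)
  | insert b s hb ih =>
    simp only [Finset.sum_insert hb]
    exact (hf b (Finset.mem_insert_self _ _)).add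
      (ih fun b' hb' => hf b' (Finset.mem_insert_of_mem hb'))

private theorem Aff.lt {f g : (τ → ℝ) → ℝ} (hf : Aff f) (hg : Aff g) : SL {u | f u < g u} := by
  obtain ⟨c, d, h⟩ := hg.sub hf
  have := SL.pos c d
  convert this using 1
  ext u
  simp only [Set.mem_ofPred_eq, ← h, sub_pos]

private theorem Aff.le {f g : (τ → ℝ) → ℝ} (hf : Aff f) (hg : Aff g) : SL {u | f u ≤ g u} := by
  have := (hg.lt hf).compl
  convert this using 1
  ext u
  simp

/-- the three affine pieces of `- kap` -/
private noncomputable def piece (α Wa w : ℝ) : Fin 3 → ℝ := ![0, Wa - α, w - α]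

private theorem neg_max_le (α Wa w : ℝ) (c : Fin 3) : -max 0 (α - min Wa w) ≤ piece α Wa w c := by
  fin_cases c <;> simp only [piece]
  · simp
  · have h1 : α - min Wa w ≤ max 0 (α - min Wa w) := le_max_right _ _
    have h2 := min_le_left Wa w
    simp
    linarith
  · have h1 : α - min Wa w ≤ max 0 (α - min Wa w) := le_max_right _ _
    have h2 := min_le_right Wa w
    simp
    linarith

private theorem exists_piece (α Wa w : ℝ) : ∃ c : Fin 3, -max 0 (α - min Wa w) = piece α Wa w c := by
  rcases le_total (α - min Wa w) 0 with h | h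
  · exact ⟨0, by simp [piece, max_eq_left h]⟩
  · rcases le_total Wa w with h' | h'
    · exact ⟨1, by rw [max_eq_right h, min_eq_left h']; simp [piece]⟩
    · exact ⟨2, by rw [max_eq_right h, min_eq_right h']; simp [piece]⟩

private theorem lt_wgt_iff {V ι : Type*} (α : ℝ) (W : V → ℝ) (w : ℝ) (A : ι → Finset V) (U : Finset ι) :
    w < wgt α W w A U ↔ ∀ c : ι × V → Fin 3,
      w < α + ∑ y ∈ U, (1 - α + ∑ a ∈ A y, piece α (W a) w (c (y, a))) := by
  have key : wgt α W w A U =
      α + ∑ y ∈ U, (1 - α + ∑ a ∈ A y, -max 0 (α - min (W a) w)) := by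
    unfold wgt kap
    congr 1
    refine Finset.sum_congr rfl fun y _ => ?_
    rw [Finset.sum_neg_distrib]
    ring
  rw [key]
  constructor
  · intro h c
    refine lt_of_lt_of_le h ?_
    gcongr
    exact neg_max_le _ _ _ _
  · intro h
    choose c hc using fun a : V => exists_piece α (W a) w
    have := h (fun p => c p.2)
    simp only [← hc] at this
    exact this

private theorem SL_rich {V : Type*} {k : ℕ} [Finite V] (al wv : τ) (Wv : V → τ)
    (K : SimpleGraph (Fin k)) (A : Fin k → Finset V) :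
    SL {u : τ → ℝ | Rich (u al) (fun a => u (Wv a)) (u wv) K A} := by
  have h : ∀ U : Finset (Fin k), SL {u : τ → ℝ | (K.induce (U : Set (Fin k))).Connected →
      u wv < wgt (u al) (fun a => u (Wv a)) (u wv) A U} := by
    intro U
    refine SL.imp (SL.const _) ?_
    have h2 : SL {u : τ → ℝ | ∀ c : Fin k × V → Fin 3,
        u wv < u al + ∑ y ∈ U, (1 - u al + ∑ a ∈ A y, piece (u al) (u (Wv a)) (u wv) (c (y, a)))} := by
      refine SL.forall_finite fun c => ?_
      refine Aff.lt (Aff.coord wv) ((Aff.coord al).add (Aff.sum _ fun y _ => ?_))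
      refine Aff.add (Aff.sub (by simpa using Aff.const (τ := τ) 1) (Aff.coord al))
        (Aff.sum _ fun a _ => ?_)
      have h3 : ∀ d : Fin 3, Aff (fun u : τ → ℝ => piece (u al) (u (Wv a)) (u wv) d) := by
        intro d
        fin_cases d
        · simpa [piece] using Aff.const (τ := τ) 0
        · simpa [piece] using (Aff.coord (Wv a)).sub (Aff.coord al)
        · simpa [piece] using (Aff.coord wv).sub (Aff.coord al)
      exact h3 _
    convert h2 using 1
    ext u
    exact lt_wgt_iff _ _ _ _ _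
  exact SL.forall_finite h

private theorem SL_colours {V : Type*} {k : ℕ} [Finite V] (E : V → V → Prop) (wv : τ) (Wv : V → τ)
    (K : SimpleGraph (Fin k)) (A : Fin k → Finset V) :
    SL {u : τ → ℝ | Colours E (fun a => u (Wv a)) (u wv) K A} := by
  have h : ∀ φ : Fin k → V, SL {u : τ → ℝ | (∀ i j, K.Adj i j → E (φ i) (φ j)) ∧
      (∀ i, u wv ≤ u (Wv (φ i))) ∧ ∀ i, ∀ a ∈ A i, E (φ i) a} := by
    intro φ
    exact (SL.const _).inter ((SL.forall_finite fun i => SL.le wv (Wv (φ i))).inter (SL.const _))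
  exact SL.exists_finite h

end QStabAux

open QStabAux in
theorem SL_stab {V : Type} [Fintype V] (E : V → V → Prop) (k0 : ℕ) :
    SL {x : Fin 2 → ℝ | ∃ W : V → ℝ, StabB E k0 (x 0) (x 1) W} := by
  have hS2 : SL {u : (Fin 2 ⊕ V) ⊕ Unit → ℝ | u (Sum.inl (Sum.inl 0)) ≤ u (Sum.inr ()) →
      ∀ (k : Fin (k0 + 1)) (K : SimpleGraph (Fin k)) (A : Fin k → Finset V), K.IsAcyclic →
        Rich (u (Sum.inl (Sum.inl 1))) (fun a => u (Sum.inl (Sum.inr a))) (u (Sum.inr ())) K A →
        Colours E (fun a => u (Sum.inl (Sum.inr a))) (u (Sum.inr ())) K A} := by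
    refine SL.imp (SL.le _ _) ?_
    refine SL.forall_finite fun k => ?_
    have : Finite (SimpleGraph (Fin k)) := by infer_instance
    refine SL.forall_finite fun K => ?_
    refine SL.forall_finite fun A => ?_
    refine SL.imp (SL.const _) ?_
    exact SL.imp (SL_rich _ _ (fun a => Sum.inl (Sum.inr a)) K A)
      (SL_colours E _ (fun a => Sum.inl (Sum.inr a)) K A)
  have hS1 := hS2.forall_sum
  have hS0 : SL {z : Fin 2 ⊕ V → ℝ | ∀ a : V, 0 ≤ z (Sum.inr a) ∧ z (Sum.inr a) ≤ 1} := by
    refine SL.forall_finite fun a => ?_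
    have h0 : Aff (fun _ : Fin 2 ⊕ V → ℝ => (0 : ℝ)) := by
      simpa using Aff.const (τ := Fin 2 ⊕ V) 0
    have h1 : Aff (fun _ : Fin 2 ⊕ V → ℝ => (1 : ℝ)) := by
      simpa using Aff.const (τ := Fin 2 ⊕ V) 1
    exact (Aff.le h0 (Aff.coord (Sum.inr a))).inter (Aff.le (Aff.coord (Sum.inr a)) h1)
  have hT := (hS0.inter hS1).exists_sum
  convert hT using 1
  ext x
  simp only [Set.mem_ofPred_eq, Set.mem_inter_iff, StabB]
  refine exists_congr fun W => and_congr Iff.rfl ⟨fun h y => ?_, fun h w hw k hk K A => ?_⟩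
  · intro hy k K A
    exact h (y ()) hy k (Nat.lt_succ_iff.1 k.2) K A
  · exact h (fun _ => w) hw ⟨k, Nat.lt_succ_iff.2 hk⟩ K A

end Pool.MP_65847d_pr
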