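import Pool.Agent.Lib.MP_65847d_pr.X.UDefs

/-!
# X/UCard : counting copies and their pairs

* `mem_Cop`: unfold (`mem_product`, `mem_filter`, `Fintype.mem_piFinset`).
* `cpairs_card`: the edges of the tree `K` on `Fin k`: `k - 1` of them (`SimpleGraph.IsTree.card_edgeFinset` : card + 1 = k; the filtered set is `K.edgeFinset`, `k ≥ 1`), `Sym2.map c.1` is injective since `c.1` is (`Sym2.map.injective`). `q ↦ s(c.1 q.1.1, c.2 q)` is
  injective on `Lpos A`: `c.1 i ∈ X`, `c.2 q ∈ D q.1.2`, `X` is disjoint from all `D a`, so equality of pairs gives `c.1 i = c.1 i'` and `c.2 q = c.2 q'`, so `i = i'` and (`D` disjoint) `a = a'`. The two images are disjoint (the first consists of pairs with both ends in `X`).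
  `Fintype.card (Lpos A) = ∑ i, (A i).card` (`Fintype.card_subtype`/`card_sigma`: filter of `univ ×ˢ univ`, `card_filter`, `sum_product`).
* `cpairs_disjoint`: every pair of `cpairs K A c` contains a vertex `c.1 i ∈ X`, and all its vertices in `X` are of the form `c.1 j`; so a common pair gives a common vertex `c.1 i = c'.1 j`.
* `Cop_card_le`: `card_product`, `Fintype.card_piFinset`, `∏ q : Lpos A, |D q.1.2| = ∏ i, ∏ a ∈ A i, |D a|` (`Finset.prod_sigma`, `Fintype.prod_prod_type`/`prod_subtype`), `card_filter_le`.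
* `cpairs_inside`: every pair of a copy has both ends in `U'` if `U'` contains all `c.1 i` and all `D a`, and one end in `X`.
-/

set_option autoImplicit false

open Finset

namespace Pool.MP_65847d_pr

open Pool.MP_1bacea_co

variable {N V : Type*} [Fintype N] [DecidableEq N] [Fintype V] [DecidableEq V]

theorem mem_Cop {k : ℕ} {A : Fin k → Finset V} {D : V → Finset N} {X : Finset N}
    {c : (Fin k → N) × (Lpos A → N)} :
    c ∈ Cop A D X ↔ (∀ i, c.1 i ∈ X) ∧ Function.Injective c.1 ∧ ∀ q : Lpos A, c.2 q ∈ D q.1.2 := by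
  classical
  unfold Cop
  rw [mem_product, mem_filter, Fintype.mem_piFinset, Fintype.mem_piFinset, and_assoc]

theorem mem_cpairs {k : ℕ} {K : SimpleGraph (Fin k)} {A : Fin k → Finset V}
    {c : (Fin k → N) × (Lpos A → N)} {e : Sym2 N} :
    e ∈ cpairs K A c ↔ (∃ i j, K.Adj i j ∧ e = s(c.1 i, c.1 j)) ∨ ∃ q : Lpos A, e = s(c.1 q.1.1, c.2 q) := by
  classical
  unfold cpairs
  rw [mem_union, mem_image, mem_image]
  constructor
  · rintro (⟨e', he', rfl⟩ | ⟨q, _, rfl⟩)
    · left
      rw [mem_filter] at he'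
      revert he'
      induction e' using Sym2.ind with
      | _ i j =>
        intro he'
        exact ⟨i, j, he'.2, rfl⟩
    · exact Or.inr ⟨q, rfl⟩
  · rintro (⟨i, j, hij, rfl⟩ | ⟨q, rfl⟩)
    · exact Or.inl ⟨s(i, j), mem_filter.mpr ⟨mem_univ _, hij⟩, rfl⟩
    · exact Or.inr ⟨q, mem_univ _, rfl⟩

theorem cpairs_card {k : ℕ} {K : SimpleGraph (Fin k)} (hK : K.IsTree) {A : Fin k → Finset V}
    {D : V → Finset N} {X : Finset N} (hX : ∀ a, Disjoint X (D a))
    (hDD : ∀ a b, a ≠ b → Disjoint (D a) (D b)) {c : (Fin k → N) × (Lpos A → N)} (hc : c ∈ Cop A D X) :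
    (cpairs K A c).card = mK A := by
  classical
  obtain ⟨hcX, hinj, hcD⟩ := mem_Cop.mp hc
  have hne : ∀ i (q : Lpos A), c.1 i ≠ c.2 q := by
    intro i q h
    exact disjoint_left.mp (hX q.1.2) (hcX i) (h ▸ hcD q)
  have h1 : ((univ : Finset (Sym2 (Fin k))).filter fun e => e ∈ K.edgeSet).card = k - 1 := by
    have h2 := hK.card_edgeFinset
    rw [Fintype.card_fin] at h2
    have h3 : ((univ : Finset (Sym2 (Fin k))).filter fun e => e ∈ K.edgeSet) = K.edgeFinset := by
      ext e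
      simp
    rw [h3]
    omega
  have h2 : Fintype.card (Lpos A) = ∑ i, (A i).card := by
    rw [Fintype.card_subtype, card_filter, Fintype.sum_prod_type]
    refine sum_congr rfl fun i _ => ?_
    simp
  have h3 : Function.Injective fun q : Lpos A => s(c.1 q.1.1, c.2 q) := by
    intro q q' h
    have h4 : s(c.1 q.1.1, c.2 q) = s(c.1 q'.1.1, c.2 q') := h
    rw [Sym2.eq_iff] at h4
    rcases h4 with ⟨h5, h6⟩ | ⟨h5, -⟩
    · have h7 : q.1.1 = q'.1.1 := hinj h5
      have h8 : q.1.2 = q'.1.2 := by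
        by_contra h9
        exact disjoint_left.mp (hDD _ _ h9) (hcD q) (h6 ▸ hcD q')
      exact Subtype.ext (Prod.ext h7 h8)
    · exact absurd h5 (hne _ _)
  unfold cpairs mK
  rw [card_union_of_disjoint, card_image_of_injective _ (Sym2.map.injective hinj),
    card_image_of_injective _ h3, card_univ, h2, h1]
  rw [disjoint_left]
  intro e he he'
  obtain ⟨e', he', rfl⟩ := mem_image.mp he
  obtain ⟨q, _, hq⟩ := mem_image.mp he'
  revert hq
  induction e' using Sym2.ind with
  | _ i j =>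
    intro hq
    rw [Sym2.map_mk, Sym2.eq_iff] at hq
    rcases hq with ⟨-, h5⟩ | ⟨-, h5⟩
    · exact hne _ _ h5.symm
    · exact hne _ _ h5.symm

theorem cpairs_disjoint {k : ℕ} {K : SimpleGraph (Fin k)} {A : Fin k → Finset V}
    {D : V → Finset N} {X : Finset N} (hX : ∀ a, Disjoint X (D a))
    {c c' : (Fin k → N) × (Lpos A → N)} (hc : c ∈ Cop A D X) (hc' : c' ∈ Cop A D X) (h : ¬ Touch c c') :
    Disjoint (cpairs K A c) (cpairs K A c') := by
  classical
  obtain ⟨hcX, hinj, hcD⟩ := mem_Cop.mp hc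
  obtain ⟨hcX', hinj', hcD'⟩ := mem_Cop.mp hc'
  have hne : ∀ i (q : Lpos A), c.1 i ≠ c'.2 q := by
    intro i q h
    exact disjoint_left.mp (hX q.1.2) (hcX i) (h ▸ hcD' q)
  have hne' : ∀ i (q : Lpos A), c'.1 i ≠ c.2 q := by
    intro i q h
    exact disjoint_left.mp (hX q.1.2) (hcX' i) (h ▸ hcD q)
  have hT : ∀ i j, c.1 i ≠ c'.1 j := fun i j hij => h ⟨i, j, hij⟩
  rw [disjoint_left]
  intro e he he'
  rw [mem_cpairs] at he he'
  rcases he with ⟨i, j, -, rfl⟩ | ⟨q, rfl⟩
  · rcases he' with ⟨i', j', -, h1⟩ | ⟨q', h1⟩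
    · rw [Sym2.eq_iff] at h1
      rcases h1 with ⟨h1, -⟩ | ⟨h1, -⟩
      · exact hT _ _ h1
      · exact hT _ _ h1
    · rw [Sym2.eq_iff] at h1
      rcases h1 with ⟨h1, -⟩ | ⟨-, h1⟩
      · exact hT _ _ h1
      · exact hT _ _ h1
  · rcases he' with ⟨i', j', -, h1⟩ | ⟨q', h1⟩
    · rw [Sym2.eq_iff] at h1
      rcases h1 with ⟨h1, -⟩ | ⟨h1, -⟩
      · exact hT _ _ h1
      · exact hT _ _ h1
    · rw [Sym2.eq_iff] at h1
      rcases h1 with ⟨h1, -⟩ | ⟨h1, -⟩
      · exact hT _ _ h1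
      · exact hne _ _ h1

theorem Cop_card_le {k : ℕ} (A : Fin k → Finset V) (D : V → Finset N) (X : Finset N) :
    ((Cop A D X).card : ℝ) ≤ (X.card : ℝ) ^ k * ∏ i, ∏ a ∈ A i, ((D a).card : ℝ) := by
  classical
  have h1 : ∏ q : Lpos A, (D q.1.2).card = ∏ i, ∏ a ∈ A i, (D a).card := by
    rw [← Finset.prod_subtype ((univ : Finset (Fin k × V)).filter fun q => q.2 ∈ A q.1)
      (fun q => by simp) (fun q : Fin k × V => (D q.2).card), Finset.prod_filter,
      Fintype.prod_prod_type]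
    refine prod_congr rfl fun i _ => ?_
    simp
  have h2 : (Cop A D X).card ≤ X.card ^ k * ∏ i, ∏ a ∈ A i, (D a).card := by
    unfold Cop
    rw [card_product, Fintype.card_piFinset (fun q : Lpos A => D q.1.2), h1]
    refine Nat.mul_le_mul_right _ ((card_filter_le _ _).trans ?_)
    rw [Fintype.card_piFinset_const]
  exact_mod_cast h2

end Pool.MP_65847d_pr
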