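import Pool.Agent.Lib.MP_65847d_pr.X.UCard

/-!
# X/UCopies : many disjoint copies (failure probability)

`Pr_no_family` (Maximal.lean) with `Ω = Cop A D X`, `E = cpairs K A`, `R = Touch`, `m = mK A`, `K := M`. `Touch` is reflexive (`k ≥ 1` since `K` is a tree, `hK.connected.nonempty`) and symmetric. `|Ω| p^m ≤ Λ` by `Cop_card_le` and `hΛ`.
For `F ⊆ Ω`, `|F| < M`: `Z := F.biUnion (fun c => univ.image c.1)`, `|Z| ≤ k |F| ≤ k M`. If for all `b ∈ Ω` not touching any `a ∈ F` some pair is off, then there is no `ψ` as in `hδ`: from such a `ψ` and attachments `z ∈ D a` (choice) we get `b = (ψ, z) ∈ Ω` (`mem_Cop`), not touching `F` (`ψ i ∉ Z`), all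
pairs on (`mem_cpairs`; `(Gr ω).Adj u v` gives `ω s(u,v) = true`). So the event is contained in the event of `hδ`; `Pr_mono`.
-/

set_option autoImplicit false

open Finset

namespace Pool.MP_65847d_pr

open Pool.MP_1bacea_co

variable {N V : Type*} [Fintype N] [DecidableEq N] [Fintype V] [DecidableEq V]

theorem Pr_no_copies {k : ℕ} {p : ℝ} (h0 : 0 ≤ p) (h1 : p ≤ 1) {K : SimpleGraph (Fin k)} (hK : K.IsTree)
    (A : Fin k → Finset V) {D : V → Finset N} {X : Finset N} (hX : ∀ a, Disjoint X (D a))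
    (hDD : ∀ a b, a ≠ b → Disjoint (D a) (D b)) (M : ℕ) {Λ δ : ℝ}
    (hΛ : (X.card : ℝ) ^ k * (∏ i, ∏ a ∈ A i, ((D a).card : ℝ)) * p ^ mK A ≤ Λ) (hδ0 : 0 ≤ δ)
    (hδ : ∀ Z : Finset N, Z.card ≤ k * M → Pr p (fun ω : Sym2 N → Bool =>
      ¬ ∃ ψ : Fin k → N, Function.Injective ψ ∧ (∀ i, ψ i ∈ X) ∧ (∀ i, ψ i ∉ Z) ∧
        (∀ i j, K.Adj i j → (Gr ω).Adj (ψ i) (ψ j)) ∧
        ∀ i, ∀ a ∈ A i, ∃ z ∈ D a, (Gr ω).Adj (ψ i) z) ≤ δ) :
    Pr p (fun ω : Sym2 N → Bool => ¬ CopyFam K A D X M ω) ≤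
      (∑ j ∈ range M, Λ ^ j / (j.factorial : ℝ)) * δ := by
  classical
  obtain ⟨x0⟩ := hK.1.nonempty
  refine Pr_no_family h0 h1 (Cop A D X) (cpairs K A) Touch (fun a _ => ⟨x0, x0, rfl⟩)
    (fun a b ⟨i, j, hij⟩ => ⟨j, i, hij.symm⟩) (mK A) (fun c hc => cpairs_card hK hX hDD hc)
    (fun a ha b hb hab => cpairs_disjoint hX ha hb hab) M ?_ hδ0 ?_
  · refine le_trans ?_ hΛ
    exact mul_le_mul_of_nonneg_right (Cop_card_le A D X) (pow_nonneg h0 _)
  · intro F hF hFc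
    set Z : Finset N := F.biUnion fun c => univ.image c.1 with hZ
    have hZc : Z.card ≤ k * M := by
      calc Z.card ≤ ∑ c ∈ F, (univ.image c.1).card := card_biUnion_le
        _ ≤ ∑ c ∈ F, k := by
            refine Finset.sum_le_sum fun c _ => ?_
            refine card_image_le.trans ?_
            simp
        _ = F.card * k := by rw [Finset.sum_const, smul_eq_mul]
        _ ≤ k * M := by
            rw [mul_comm]
            exact Nat.mul_le_mul_left _ hFc.le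
    refine (Pr_mono h0 h1 ?_).trans (hδ Z hZc)
    rintro ω hω ⟨ψ, hinj, hψX, hψZ, hadj, hlab⟩
    choose z hz hz' using hlab
    set b : (Fin k → N) × (Lpos A → N) := (ψ, fun q => z q.1.1 q.1.2 q.2) with hb
    have hbmem : b ∈ Cop A D X := mem_Cop.2 ⟨hψX, hinj, fun q => hz q.1.1 q.1.2 q.2⟩
    obtain ⟨e, he, hfalse⟩ := hω b hbmem (by
      rintro a ha ⟨i, j, hij⟩
      apply hψZ j
      rw [hZ, mem_biUnion]
      exact ⟨a, ha, mem_image.2 ⟨i, mem_univ _, hij⟩⟩)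
    rcases mem_cpairs.1 he with ⟨i, j, hij, rfl⟩ | ⟨q, rfl⟩
    · have h2 : ω s(ψ i, ψ j) = true := (hadj i j hij).2
      have h3 : ω s(ψ i, ψ j) = false := hfalse
      rw [h2] at h3
      exact Bool.noConfusion h3
    · have h2 : ω s(ψ q.1.1, z q.1.1 q.1.2 q.2) = true := (hz' q.1.1 q.1.2 q.2).2
      have h3 : ω s(ψ q.1.1, z q.1.1 q.1.2 q.2) = false := hfalse
      rw [h2] at h3
      exact Bool.noConfusion h3

end Pool.MP_65847d_pr
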