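import Pool.Agent.Lib.MP_65847d_pr.X.FKDefs
import Pool.Agent.Lib.MP_65847d_pr.C.ExpStep

/-!
# Definitions for the exact upper bound
-/

set_option autoImplicit false

open Finset

namespace Pool.MP_65847d_pr

open Pool.MP_1bacea_co

section

variable {N V : Type*} [Fintype N] [DecidableEq N]

open Classical in
/-- the vector of a family of disjoint sets `D a`: `x ^ WD a` is the size of `D a`, and `1` for large sets -/
noncomputable def WD (x α : ℝ) (D : V → Finset N) (a : V) : ℝ :=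
  if x ^ α ≤ ((D a).card : ℝ) then 1 else Real.log ((D a).card : ℝ) / Real.log x

/-- there is a map which sends `D a` to `a` and respects all edges which are not inside `U` -/
def HEv (E : V → V → Prop) (D : V → Finset N) (U : Finset N) (ω : Sym2 N → Bool) : Prop :=
  ∃ f : N → V, (∀ a, ∀ v ∈ D a, f v = a) ∧
    ∀ u v, (Gr ω).Adj u v → ¬ (u ∈ U ∧ v ∈ U) → E (f u) (f v)

/-- label positions -/
abbrev Lpos {k : ℕ} (A : Fin k → Finset V) : Type _ := {q : Fin k × V // q.2 ∈ A q.1}

/-- possible copies with vertices in `X` and attachments in the sets `D a` -/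
noncomputable def Cop [Fintype V] [DecidableEq V] {k : ℕ} (A : Fin k → Finset V) (D : V → Finset N)
    (X : Finset N) : Finset ((Fin k → N) × (Lpos A → N)) := by
  classical exact
    ((Fintype.piFinset fun _ : Fin k => X).filter fun ψ => Function.Injective ψ) ×ˢ
      (Fintype.piFinset fun q : Lpos A => D q.1.2)

/-- the pairs of a copy -/
noncomputable def cpairs [Fintype V] [DecidableEq V] {k : ℕ} (K : SimpleGraph (Fin k)) (A : Fin k → Finset V)
    (c : (Fin k → N) × (Lpos A → N)) : Finset (Sym2 N) := by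
  classical exact
    ((univ : Finset (Sym2 (Fin k))).filter fun e => e ∈ K.edgeSet).image (Sym2.map c.1) ∪
      (univ : Finset (Lpos A)).image fun q => s(c.1 q.1.1, c.2 q)

/-- two copies share a vertex -/
def Touch {k : ℕ} {A : Fin k → Finset V} (c c' : (Fin k → N) × (Lpos A → N)) : Prop :=
  ∃ i j, c.1 i = c'.1 j

/-- number of pairs of a copy of a tree with labels -/
def mK {k : ℕ} (A : Fin k → Finset V) : ℕ := k - 1 + ∑ i, (A i).card

/-- there are `M` vertex disjoint copies -/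
def CopyFam [Fintype V] [DecidableEq V] {k : ℕ} (K : SimpleGraph (Fin k)) (A : Fin k → Finset V)
    (D : V → Finset N) (X : Finset N) (M : ℕ) (ω : Sym2 N → Bool) : Prop :=
  ∃ F ∈ (Cop A D X).powersetCard M, (∀ c ∈ F, ∀ c' ∈ F, c ≠ c' → ¬ Touch c c') ∧
    ∀ c ∈ F, ∀ e ∈ cpairs K A c, ω e = true

open Classical in
/-- target sizes of the exploration with blocks of size `m` -/
noncomputable def tsz (p m : ℝ) {k : ℕ} (K : SimpleGraph (Fin k)) (A : Fin k → Finset V)
    (D : V → Finset N) (i : Fin k) : ℝ :=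
  m / 2 * ((∏ a ∈ A i, min 1 (p * ((D a).card : ℝ)) / 2) *
    ∏ j : {j : Fin k // j < i ∧ K.Adj j i}, min 1 (p * tsz p m K A D j.1) / 2)
termination_by i
decreasing_by exact j.2.1

/-- elimination order: every vertex has at most one neighbour above it -/
def EOrd {k : ℕ} (K : SimpleGraph (Fin k)) : Prop :=
  ∀ i j l, i < j → i < l → K.Adj i j → K.Adj i l → j = l

end

/-- the numbers: `5` -/
noncomputable def uc5 (r k0 : ℕ) : ℝ := 1 / (8 * (k0 : ℝ) * 2 ^ (r + k0))

/-- constant in the exponent of the failure probability -/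
noncomputable def uc6 (r k0 : ℕ) : ℝ := uc5 r k0 ^ k0 / 32

/-- exponent of `3 C` in the expected number of copies -/
def ug (r k0 : ℕ) : ℕ := k0 + k0 * r + 2

/-- numerical setting of the upper bound -/
structure UH (n r k0 : ℕ) (d C α p : ℝ) : Prop where
  hk0 : 1 ≤ k0
  hr : 1 ≤ r
  hn : 3 ≤ n
  hd : 0 < d
  hα : d ≤ α
  hα1 : α ≤ 1 - d
  hC : 12 * (k0 : ℝ) * r ≤ C
  hbig : 64 * (k0 : ℝ) ^ 2 * r * C * (8 * (k0 : ℝ) * 2 ^ (r + k0)) ^ k0 ≤ (n : ℝ) ^ d
  hp : p = C * (n : ℝ) ^ (-α)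
  hp1 : p ≤ 1

/-- invariant of the states -/
structure StInv {V : Type*} [Fintype V] (E : V → V → Prop) (κ α : ℝ) (k0 : ℕ) {n : ℕ}
    (D : V → Finset (Fin n)) (U : Finset (Fin n)) : Prop where
  ne : ∀ a, (D a).Nonempty
  sub : ∀ a, D a ⊆ U
  disj : ∀ a b, a ≠ b → Disjoint (D a) (D b)
  Ucard : (U.card : ℝ) ≤ 3 * k0 * ∑ a, ((D a).card : ℝ)
  small : ∀ k ≤ k0, ∀ (K : SimpleGraph (Fin k)) (A : Fin k → Finset V) (w : ℝ),
    Tight E κ α (WD (n : ℝ) α D) K A w → ∀ a, ((D a).card : ℝ) ≤ 3 * (n : ℝ) ^ (min w α)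

end Pool.MP_65847d_pr
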