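import Pool.Agent.Lib.MP_65847d_pr.X.UDefs
import Pool.Agent.Lib.MP_65847d_pr.C.EmbedFixed

/-!
# X/UEmbed : exploration with exact sizes

Copy of the proof of `Pr_embed_fixed` (C/EmbedFixed.lean): blocks `C i ⊆ X \ Z`, `|C i| = m` pairwise disjoint (`embf_blocks` applied to `F = X \ Z`, `k * m ≤ |X| - |Z| ≤ |X \ Z|`), disjoint from all `D a`. `expS_step` with `s = tsz p m K A D`, `t = tsz .. i`,
`qa a = min 1 (p |D a|) / 2`, `qc j = min 1 (p * s j) / 2`: `min 1 (p x) / 2 ≤ 1 - (1 - p)^M` for every natural `M ≥ x ≥ 0` by `one_sub_pow_ge` (Upper.lean) with `p0 = p`, `K = min x (1/p)` (`p = 0`: the left side is `0`), and `2 t = |C i| ∏ qa ∏ qc` by the definition of `tsz` (`rw [tsz]`; products over the same index sets).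
So `Pr (some i has |expS i| < tsz i) ≤ ∑_i exp (-(tsz i / 8)) ≤ k exp (-(t/8))` (take the smallest bad `i`); otherwise all `expS i` are nonempty (`tsz i ≥ t > 0`) and `extract` gives `ψ` with `ψ i ∈ C i`, injective because the blocks are disjoint.
-/

set_option autoImplicit false

open Finset

namespace Pool.MP_65847d_pr

open Pool.MP_1bacea_co

private lemma uembed_min {p x : ℝ} (h0 : 0 ≤ p) (h1 : p ≤ 1) (hx : 0 ≤ x) {M : ℕ} (hM : x ≤ M) :
    min 1 (p * x) / 2 ≤ 1 - (1 - p) ^ M := by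
  rcases h0.eq_or_lt with h | h
  · rw [← h, zero_mul, min_eq_right zero_le_one]
    simp
  · have h2 : p * min x (1 / p) = min 1 (p * x) := by
      rw [mul_min_of_nonneg _ _ h0, mul_one_div_cancel h.ne', min_comm]
    rw [← h2]
    refine one_sub_pow_ge h0 le_rfl h1 (le_min hx (by positivity)) ?_ ((min_le_left _ _).trans hM)
    rw [h2]
    exact min_le_left _ _

theorem Pr_no_embed {V : Type*} [Fintype V] [DecidableEq V] {n k : ℕ} {p : ℝ} (h0 : 0 ≤ p) (h1 : p ≤ 1)
    {K : SimpleGraph (Fin k)} (A : Fin k → Finset V) (hord : EOrd K) {D : V → Finset (Fin n)}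
    {X : Finset (Fin n)} (hX : ∀ a, Disjoint X (D a)) (hDD : ∀ a b, a ≠ b → Disjoint (D a) (D b))
    (Z : Finset (Fin n)) {m : ℕ} (hm : k * m + Z.card ≤ X.card) {t : ℝ} (ht0 : 0 < t)
    (ht : ∀ i, t ≤ tsz p m K A D i) :
    Pr p (fun ω : Sym2 (Fin n) → Bool =>
      ¬ ∃ ψ : Fin k → Fin n, Function.Injective ψ ∧ (∀ i, ψ i ∈ X) ∧ (∀ i, ψ i ∉ Z) ∧
        (∀ i j, K.Adj i j → (Gr ω).Adj (ψ i) (ψ j)) ∧
        ∀ i, ∀ a ∈ A i, ∃ z ∈ D a, (Gr ω).Adj (ψ i) z) ≤ k * Real.exp (-(t / 8)) := by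
  classical
  have hFc : k * m ≤ (X \ Z).card := by
    have := Finset.le_card_sdiff Z X
    omega
  obtain ⟨C, hCF, hCm, hCC⟩ := embf_blocks (X \ Z) hFc
  have hCX : ∀ i, ∀ x ∈ C i, x ∈ X := fun i x hx => (mem_sdiff.mp (hCF i hx)).1
  have hCZ : ∀ i, ∀ x ∈ C i, x ∉ Z := fun i x hx => (mem_sdiff.mp (hCF i hx)).2
  have hCD : ∀ i a, Disjoint (C i) (D a) := by
    intro i a
    rw [disjoint_left]
    intro x hx hxD
    exact disjoint_left.mp (hX a) (hCX i x hx) hxD
  let s : Fin k → ℝ := fun i => tsz p m K A D i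
  have hspos : ∀ i, 0 < s i := fun i => ht0.trans_le (ht i)
  have hstep : ∀ i, Pr p (fun ω : Sym2 (Fin n) → Bool =>
      (∀ j, j < i → s j ≤ ((expS K A D C ω j).card : ℝ)) ∧
      ((expS K A D C ω i).card : ℝ) < s i) ≤ Real.exp (-(t / 8)) := by
    intro i
    refine (expS_step h0 h1 K A D C hCC hCD hDD i s (s i)
      (fun a => min 1 (p * ((D a).card : ℝ)) / 2)
      (fun j => min 1 (p * s j) / 2)
      (fun a => by positivity) (fun j => ?_) ?_ ?_ ?_).trans ?_
    · have := hspos j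
      positivity
    · intro a _
      exact uembed_min h0 h1 (Nat.cast_nonneg _) le_rfl
    · intro j _ _ m hm
      exact uembed_min h0 h1 (hspos j).le hm
    · rw [hCm i]
      have h5 : s i = (m : ℝ) / 2 * ((∏ a ∈ A i, min 1 (p * ((D a).card : ℝ)) / 2) *
          ∏ j : {j : Fin k // j < i ∧ K.Adj j i}, min 1 (p * s j.1) / 2) := by
        show tsz p m K A D i = _
        rw [tsz]
      conv_lhs => rw [h5]
      apply le_of_eq
      ring
    · apply Real.exp_le_exp.mpr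
      have : t ≤ s i := ht i
      linarith
  have hexi : Pr p (fun ω : Sym2 (Fin n) → Bool => ∃ i ∈ (univ : Finset (Fin k)),
      (∀ j, j < i → s j ≤ ((expS K A D C ω j).card : ℝ)) ∧
      ((expS K A D C ω i).card : ℝ) < s i) ≤ k * Real.exp (-(t / 8)) := by
    refine (Pr_exists_le h0 h1 _ _).trans ((sum_le_sum fun i _ => hstep i).trans ?_)
    rw [sum_const, nsmul_eq_mul, card_univ, Fintype.card_fin]
  refine (Pr_mono h0 h1 fun ω hω => ?_).trans hexi
  by_contra hcon
  push Not at hcon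
  apply hω
  have hlarge : ∀ i, s i ≤ ((expS K A D C ω i).card : ℝ) := by
    intro i
    induction i using WellFoundedLT.induction with
    | _ i ih => exact hcon i (mem_univ _) ih
  have hne : ∀ i, (expS K A D C ω i).Nonempty := by
    intro i
    rw [← card_pos]
    have : (0 : ℝ) < ((expS K A D C ω i).card : ℝ) := (hspos i).trans_le (hlarge i)
    exact_mod_cast this
  obtain ⟨ψ, h2, h3, h4⟩ := extract K A hord D C hCC hCD ω hne
  refine ⟨ψ, ?_, fun i => hCX i _ (h2 i), fun i => hCZ i _ (h2 i), h3, h4⟩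
  intro i j hij
  by_contra hne'
  exact disjoint_left.mp (hCC i j hne') (h2 i) (hij ▸ h2 j)

end Pool.MP_65847d_pr
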