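import Pool.Agent.Lib.MP_65847d_pr.X.USize
import Pool.Agent.Lib.MP_65847d_pr.X.UCopies
import Pool.Agent.Lib.MP_65847d_pr.X.UEmbed

/-!
# X/UFailHigh : failure probability at a high level `α < w`, `K` is one vertex

Let `x = (n:ℝ)`, `r = |V|`, `W = WD x α D`, `k = 1` (`subst`). `X ⊆ univ \ U` with `|X| = min (n / 4) ⌈C x^(1+α-w)⌉₊` (`exists_subset_card_eq`; `|univ \ U| ≥ 3n/4`).
For a label `a` (saturated: `x^α ≤ |D a|`, `W a = 1`, `kap = 0`, `1 ≤ C ≤ p |D a| ≤ 3 C` by `hsmall`; non saturated: `|D a| = x^(W a)` (`WD_card`), `W a < α`, `kap = α - W a`, `p |D a| = C x^(-kap)`). In both cases `x^(-kap) ≤ min 1 (p |D a|)`, `p |D a| ≤ 3 C x^(-kap)`; and if `p |D a| < 1` then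
`min 1 (p |D a|) = C x^(-kap)`. `∑_{a ∈ A 0} kap = 1 - w` (`hT.eq`, `univ = {0}`).
-/

set_option autoImplicit false

open Finset

namespace Pool.MP_65847d_pr

open Pool.MP_1bacea_co

/-- consequences of the numerical hypotheses -/
private theorem fh_num {n r k0 : ℕ} {d C α p : ℝ} (H : UH n r k0 d C α p) :
    (12 : ℝ) ≤ C ∧ (1 : ℝ) ≤ n ∧ 64 * (k0 : ℝ) * r * C ≤ (n : ℝ) ^ (1 - α) ∧ 0 < α ∧ α < 1 := by
  have hk0 : (1 : ℝ) ≤ k0 := by exact_mod_cast H.hk0
  have hr : (1 : ℝ) ≤ r := by exact_mod_cast H.hr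
  have hn : (1 : ℝ) ≤ n := by
    have := H.hn
    exact_mod_cast (show 1 ≤ n by omega)
  have hC : 12 * (k0 : ℝ) * r ≤ C := H.hC
  have hkr : (1 : ℝ) ≤ (k0 : ℝ) * r := by nlinarith
  have hC12 : (12 : ℝ) ≤ C := by nlinarith only [hC, hkr]
  refine ⟨hC12, hn, ?_, lt_of_lt_of_le H.hd H.hα, by linarith [H.hα1, H.hd]⟩
  have h1 : (n : ℝ) ^ d ≤ (n : ℝ) ^ (1 - α) :=
    Real.rpow_le_rpow_of_exponent_le hn (by linarith [H.hα1])
  refine le_trans ?_ (H.hbig.trans h1)
  have h2 : (1 : ℝ) ≤ (8 * (k0 : ℝ) * 2 ^ (r + k0)) ^ k0 := by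
    apply one_le_pow₀
    have : (1 : ℝ) ≤ 2 ^ (r + k0) := one_le_pow₀ (by norm_num)
    nlinarith only [hk0, this]
  have h3 : 0 ≤ 64 * (k0 : ℝ) * r * C := by positivity
  calc 64 * (k0 : ℝ) * r * C = 64 * (k0 : ℝ) * r * C * 1 * 1 := by ring
    _ ≤ 64 * (k0 : ℝ) * r * C * k0 * (8 * (k0 : ℝ) * 2 ^ (r + k0)) ^ k0 := by
        apply mul_le_mul (mul_le_mul_of_nonneg_left hk0 h3) h2 (by norm_num) (by positivity)
    _ = _ := by ring

/-- the factor of a label -/
private theorem fh_label {V : Type*} {n : ℕ} {α p C w : ℝ} {D : V → Finset (Fin n)}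
    (hn3 : 3 ≤ n) (hn : (1 : ℝ) ≤ n) (hC : 12 ≤ C) (hα0 : 0 < α) (hα1 : α < 1) (hw : α < w) (hw1 : w ≤ 1)
    (hp : p = C * (n : ℝ) ^ (-α)) (a : V) (hne : (D a).Nonempty)
    (hsmall : ((D a).card : ℝ) ≤ 3 * (n : ℝ) ^ α) :
    (n : ℝ) ^ (-kap α (WD (n : ℝ) α D) w a) ≤ 1 ∧
    C * (n : ℝ) ^ (-kap α (WD (n : ℝ) α D) w a) ≤ p * (D a).card ∧
    p * (D a).card ≤ 3 * C * (n : ℝ) ^ (-kap α (WD (n : ℝ) α D) w a) := by
  have hn0 : (0 : ℝ) < n := by linarith
  have hkap0 : 0 ≤ kap α (WD (n : ℝ) α D) w a := le_max_left _ _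
  refine ⟨Real.rpow_le_one_of_one_le_of_nonpos hn (by linarith), ?_⟩
  by_cases hsat : (n : ℝ) ^ α ≤ ((D a).card : ℝ)
  · have hW : WD (n : ℝ) α D a = 1 := by
      unfold WD
      rw [if_pos hsat]
    have hk : kap α (WD (n : ℝ) α D) w a = 0 := by
      unfold kap
      rw [hW, min_eq_right hw1, max_eq_left (by linarith)]
    rw [hk, neg_zero, Real.rpow_zero, mul_one, mul_one, hp]
    have e1 : (n : ℝ) ^ (-α) * (n : ℝ) ^ α = 1 := by
      rw [← Real.rpow_add hn0, neg_add_cancel, Real.rpow_zero]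
    have hpos : (0 : ℝ) < (n : ℝ) ^ (-α) := Real.rpow_pos_of_pos hn0 _
    constructor
    · calc C = C * ((n : ℝ) ^ (-α) * (n : ℝ) ^ α) := by rw [e1, mul_one]
        _ ≤ C * ((n : ℝ) ^ (-α) * ((D a).card : ℝ)) := by
            apply mul_le_mul_of_nonneg_left _ (by linarith)
            exact mul_le_mul_of_nonneg_left hsat hpos.le
        _ = _ := by ring
    · calc C * (n : ℝ) ^ (-α) * ((D a).card : ℝ) = C * ((n : ℝ) ^ (-α) * ((D a).card : ℝ)) := by ring
        _ ≤ C * ((n : ℝ) ^ (-α) * (3 * (n : ℝ) ^ α)) := by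
            apply mul_le_mul_of_nonneg_left _ (by linarith)
            exact mul_le_mul_of_nonneg_left hsmall hpos.le
        _ = 3 * C * ((n : ℝ) ^ (-α) * (n : ℝ) ^ α) := by ring
        _ = _ := by rw [e1, mul_one]
  · push Not at hsat
    have hWdef : WD (n : ℝ) α D a = Real.log ((D a).card : ℝ) / Real.log n := by
      unfold WD
      rw [if_neg (not_le.2 hsat)]
    have hcpos : (0 : ℝ) < ((D a).card : ℝ) := by exact_mod_cast hne.card_pos
    have hlog : 0 < Real.log n := Real.log_pos (by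
      have : (3 : ℝ) ≤ n := by exact_mod_cast hn3
      linarith)
    have hWlt : WD (n : ℝ) α D a < α := by
      rw [hWdef, div_lt_iff₀ hlog]
      have := Real.log_lt_log hcpos hsat
      rwa [Real.log_rpow hn0] at this
    have hcard : (n : ℝ) ^ WD (n : ℝ) α D a = ((D a).card : ℝ) := WD_card hn3 hne (by linarith)
    have hk : kap α (WD (n : ℝ) α D) w a = α - WD (n : ℝ) α D a := by
      unfold kap
      rw [min_eq_left (by linarith), max_eq_right (by linarith)]
    have e1 : p * ((D a).card : ℝ) = C * (n : ℝ) ^ (-kap α (WD (n : ℝ) α D) w a) := by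
      rw [hk, hp, ← hcard, mul_assoc, ← Real.rpow_add hn0]
      congr 2
      ring
    rw [e1]
    have : 0 ≤ C * (n : ℝ) ^ (-kap α (WD (n : ℝ) α D) w a) := by positivity
    constructor
    · exact le_rfl
    · linarith

theorem fail_high {V : Type*} [Fintype V] [DecidableEq V] {E : V → V → Prop} {n k k0 : ℕ}
    {κ d C α p w : ℝ} (H : UH n (Fintype.card V) k0 d C α p) {K : SimpleGraph (Fin k)}
    {A : Fin k → Finset V} {D : V → Finset (Fin n)} {U : Finset (Fin n)}
    (hne : ∀ a, (D a).Nonempty) (hDU : ∀ a, D a ⊆ U) (hDD : ∀ a b, a ≠ b → Disjoint (D a) (D b))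
    (hU : (U.card : ℝ) ≤ n / 4) (hT : Tight E κ α (WD (n : ℝ) α D) K A w) (hwα : α < w) (hk1 : k = 1)
    (hsmall : ∀ a, ((D a).card : ℝ) ≤ 3 * (n : ℝ) ^ α) {M : ℕ}
    (hM : (M : ℝ) ≤ 3 * k0 * Fintype.card V * (n : ℝ) ^ α) :
    ∃ X : Finset (Fin n), Disjoint X U ∧
      (X.card : ℝ) ^ k * (∏ i, ∏ a ∈ A i, ((D a).card : ℝ)) * p ^ mK A ≤
        (3 * C) ^ ug (Fintype.card V) k0 * (n : ℝ) ^ α ∧
      Pr p (fun ω : Sym2 (Fin n) → Bool => ¬ CopyFam K A D X M ω) ≤
        (∑ j ∈ range M, ((3 * C) ^ ug (Fintype.card V) k0 * (n : ℝ) ^ α) ^ j / (j.factorial : ℝ)) *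
          (k0 * Real.exp (-(uc6 (Fintype.card V) k0 * (C * (n : ℝ) ^ α) / 8))) := by
  classical
  subst hk1
  obtain ⟨hC12, hn1, hbig, hα0, hα1⟩ := fh_num H
  have hn0 : (0 : ℝ) < n := by linarith
  have hk0 : (1 : ℝ) ≤ k0 := by exact_mod_cast H.hk0
  have hr : (1 : ℝ) ≤ (Fintype.card V : ℝ) := by exact_mod_cast H.hr
  have hw1 := hT.w_le
  have hC0 : (0 : ℝ) < C := by linarith
  set r : ℕ := Fintype.card V with hrdef
  set e : V → ℝ := fun a => (n : ℝ) ^ (-kap α (WD (n : ℝ) α D) w a) with he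
  have hlab : ∀ a, e a ≤ 1 ∧ C * e a ≤ p * (D a).card ∧ p * (D a).card ≤ 3 * C * e a := fun a =>
    fh_label H.hn hn1 hC12 hα0 hα1 hwα hw1 H.hp a (hne a) (hsmall a)
  have hepos : ∀ a, 0 < e a := fun a => Real.rpow_pos_of_pos hn0 _
  -- the product of the `e a`
  have hprod : ∏ a ∈ A 0, e a = (n : ℝ) ^ (w - 1) := by
    have h1 : ∑ a ∈ A 0, kap α (WD (n : ℝ) α D) w a = 1 - w := by
      have h2 := hT.eq
      unfold wgt at h2
      simp only [Fin.isValue, univ_unique, Fin.default_eq_zero, sum_singleton] at h2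
      linarith only [h2]
    rw [he]
    simp only
    rw [← Real.rpow_sum_of_pos hn0, sum_neg_distrib, h1]
    congr 1
    ring
  have hAr : (A 0).card ≤ r := card_le_univ _
  set y : ℝ := C * (n : ℝ) ^ (1 + α - w) with hy
  have hxα : (1 : ℝ) ≤ (n : ℝ) ^ α := Real.one_le_rpow hn1 hα0.le
  have hyα : C * (n : ℝ) ^ α ≤ y := by
    rw [hy]
    apply mul_le_mul_of_nonneg_left _ hC0.le
    exact Real.rpow_le_rpow_of_exponent_le hn1 (by linarith)
  have hy1 : 12 ≤ y := by nlinarith only [hC12, hxα, hyα]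
  have hxx : (n : ℝ) ^ (1 - α) * (n : ℝ) ^ α = n := by
    rw [← Real.rpow_add hn0]
    rw [show 1 - α + α = (1 : ℝ) by ring, Real.rpow_one]
  have hkr : (1 : ℝ) ≤ (k0 : ℝ) * r := by nlinarith only [hk0, hr]
  have hbign : 64 * (k0 : ℝ) * r * C * (n : ℝ) ^ α ≤ n := by
    calc 64 * (k0 : ℝ) * r * C * (n : ℝ) ^ α ≤ (n : ℝ) ^ (1 - α) * (n : ℝ) ^ α :=
          mul_le_mul_of_nonneg_right hbig (by positivity)
      _ = n := hxx
  have hCn : 64 * C * (n : ℝ) ^ α ≤ n := by
    refine le_trans ?_ hbign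
    have : 0 ≤ C * (n : ℝ) ^ α := by positivity
    nlinarith only [hkr, hα0, hα1, this]
  have hn64 : (64 : ℝ) ≤ n := by nlinarith only [hC12, hCn, hw1, hwα, hxα, hα0, hα1]
  -- the set X
  obtain ⟨X, hXsub, hXcard⟩ : ∃ X ⊆ (univ \ U : Finset (Fin n)), X.card = min (n / 4) ⌈y⌉₊ := by
    apply exists_subset_card_eq
    have h1 : (univ \ U : Finset (Fin n)).card = n - U.card := by
      rw [card_sdiff_of_subset (subset_univ _), card_univ, Fintype.card_fin]
    rw [h1]
    have h2 : U.card ≤ n / 4 := by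
      rw [Nat.le_div_iff_mul_le (by norm_num)]
      have : (U.card : ℝ) * 4 ≤ n := by linarith
      exact_mod_cast this
    have h3 : min (n / 4) ⌈y⌉₊ ≤ n / 4 := min_le_left _ _
    omega
  have hXU : Disjoint X U := by
    rw [disjoint_left]
    intro v hv hvU
    exact (mem_sdiff.1 (hXsub hv)).2 hvU
  have hXD : ∀ a, Disjoint X (D a) := fun a => hXU.mono_right (hDU a)
  have hXle : (X.card : ℝ) ≤ 2 * y := by
    have h1 : X.card ≤ ⌈y⌉₊ := by rw [hXcard]; exact min_le_right _ _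
    have h2 : (X.card : ℝ) ≤ (⌈y⌉₊ : ℝ) := by exact_mod_cast h1
    have h3 := (Nat.ceil_lt_add_one (show 0 ≤ y by linarith)).le
    linarith
  have hXge : (n : ℝ) / 8 ≤ X.card ∨ y ≤ X.card := by
    rcases min_choice (n / 4) ⌈y⌉₊ with h | h
    · left
      rw [hXcard, h]
      have h1 : n < 4 * (n / 4) + 4 := by omega
      have h2 : (n : ℝ) < 4 * ((n / 4 : ℕ) : ℝ) + 4 := by exact_mod_cast h1
      linarith only [h2, hn64, hα0, hα1]
    · right
      rw [hXcard, h]
      exact Nat.le_ceil y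
  have hM2 : 4 * (M : ℝ) ≤ X.card := by
    rcases hXge with h | h
    · refine le_trans ?_ h
      have h1 : 4 * (M : ℝ) ≤ 12 * ((k0 : ℝ) * r) * (n : ℝ) ^ α := by
        calc 4 * (M : ℝ) ≤ 4 * (3 * k0 * r * (n : ℝ) ^ α) := by linarith
          _ = _ := by ring
      have h2 : 12 * ((k0 : ℝ) * r) * (n : ℝ) ^ α * 8 ≤ n := by
        refine le_trans ?_ hbign
        have h3 : 0 ≤ (k0 : ℝ) * r * (n : ℝ) ^ α := by positivity
        nlinarith only [hC12, hM]
      linarith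
    · refine le_trans ?_ (hyα.trans h)
      have h3 : 12 * (k0 : ℝ) * r ≤ C := H.hC
      have h4 : 12 * (k0 : ℝ) * r * (n : ℝ) ^ α ≤ C * (n : ℝ) ^ α :=
        mul_le_mul_of_nonneg_right h3 (by positivity)
      linarith
  -- Λ
  have hΛ : (X.card : ℝ) ^ 1 * (∏ i, ∏ a ∈ A i, ((D a).card : ℝ)) * p ^ mK A ≤
      (3 * C) ^ ug r k0 * (n : ℝ) ^ α := by
    have hmK : mK A = (A 0).card := by
      unfold mK
      simp
    have e1 : (X.card : ℝ) ^ 1 * (∏ i, ∏ a ∈ A i, ((D a).card : ℝ)) * p ^ mK A =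
        X.card * ∏ a ∈ A 0, (p * ((D a).card : ℝ)) := by
      rw [hmK, prod_mul_distrib, prod_const]
      simp only [Fin.isValue, univ_unique, Fin.default_eq_zero, prod_singleton, pow_one]
      ring
    rw [e1]
    have hp0 : 0 ≤ p := by
      rw [H.hp]
      positivity
    have h1 : ∏ a ∈ A 0, (p * ((D a).card : ℝ)) ≤ (3 * C) ^ (A 0).card * (n : ℝ) ^ (w - 1) := by
      calc ∏ a ∈ A 0, (p * ((D a).card : ℝ)) ≤ ∏ a ∈ A 0, (3 * C * e a) :=
            prod_le_prod (fun a _ => by positivity) fun a _ => (hlab a).2.2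
        _ = _ := by rw [prod_mul_distrib, prod_const, hprod]
    have h2 : 0 ≤ (3 * C) ^ (A 0).card * (n : ℝ) ^ (w - 1) := by positivity
    calc (X.card : ℝ) * ∏ a ∈ A 0, (p * ((D a).card : ℝ)) ≤
          (2 * y) * ((3 * C) ^ (A 0).card * (n : ℝ) ^ (w - 1)) :=
          mul_le_mul hXle h1 (prod_nonneg fun a _ => by positivity) (by linarith)
      _ = (2 * C) * (3 * C) ^ (A 0).card * ((n : ℝ) ^ (1 + α - w) * (n : ℝ) ^ (w - 1)) := by
          rw [hy]; ring
      _ = (2 * C) * (3 * C) ^ (A 0).card * (n : ℝ) ^ α := by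
          rw [← Real.rpow_add hn0]
          congr 2
          ring
      _ ≤ (3 * C) * (3 * C) ^ (A 0).card * (n : ℝ) ^ α := by
          have h3 : 0 ≤ (3 * C) ^ (A 0).card * (n : ℝ) ^ α := by positivity
          nlinarith only [h3, hC12]
      _ = (3 * C) ^ ((A 0).card + 1) * (n : ℝ) ^ α := by rw [pow_succ]; ring
      _ ≤ (3 * C) ^ ug r k0 * (n : ℝ) ^ α := by
          apply mul_le_mul_of_nonneg_right _ (by positivity)
          apply pow_le_pow_right₀ (by linarith)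
          unfold ug
          have h5 : r ≤ k0 * r := Nat.le_mul_of_pos_left _ H.hk0
          omega
  refine ⟨X, hXU, hΛ, ?_⟩
  have hp0 : 0 ≤ p := by
    rw [H.hp]
    positivity
  refine Pr_no_copies hp0 H.hp1 hT.tree A hXD hDD M hΛ (by positivity) fun Z hZ => ?_
  have huc5pos : 0 < uc5 r k0 := by
    unfold uc5
    positivity
  have huc5le : uc5 r k0 ≤ 1 / 2 ^ r := by
    unfold uc5
    apply one_div_le_one_div_of_le (by positivity)
    rw [pow_add]
    have h1 : (1 : ℝ) ≤ 2 ^ k0 := one_le_pow₀ (by norm_num)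
    have h2 : (0 : ℝ) < 2 ^ r := by positivity
    calc (2 : ℝ) ^ r = 1 * (2 ^ r * 1) := by ring
      _ ≤ (8 * (k0 : ℝ)) * (2 ^ r * 2 ^ k0) := by
          apply mul_le_mul (by linarith) (mul_le_mul_of_nonneg_left h1 h2.le) (by positivity) (by positivity)
  have hpow1 : (1 : ℝ) / 2 ^ r ≤ 1 := by
    rw [div_le_one (by positivity)]
    exact one_le_pow₀ (by norm_num)
  have huc6 : uc6 r k0 ≤ 1 / 2 ^ r / 32 := by
    unfold uc6
    apply div_le_div_of_nonneg_right _ (by norm_num)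
    refine le_trans ?_ huc5le
    calc uc5 r k0 ^ k0 ≤ uc5 r k0 ^ 1 :=
          pow_le_pow_of_le_one huc5pos.le (huc5le.trans hpow1) H.hk0
      _ = _ := pow_one _
  have huc6pos : 0 < uc6 r k0 := by
    unfold uc6
    positivity
  have hZ' : Z.card ≤ M := by simpa using hZ
  have hZX : Z.card ≤ X.card := by
    have : (Z.card : ℝ) ≤ (M : ℝ) := by exact_mod_cast hZ'
    have hM0 : (0 : ℝ) ≤ M := Nat.cast_nonneg _
    have h2 : (Z.card : ℝ) ≤ X.card := by linarith
    exact_mod_cast h2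
  set m : ℕ := X.card - Z.card with hm
  have hmge : (X.card : ℝ) / 2 ≤ m := by
    have h1 : (m : ℝ) = X.card - Z.card := by
      rw [hm, Nat.cast_sub hZX]
    have h2 : (Z.card : ℝ) ≤ (M : ℝ) := by exact_mod_cast hZ'
    have hM0 : (0 : ℝ) ≤ M := Nat.cast_nonneg _
    rw [h1]
    linarith only [h1, h2, hM2]
  -- the size
  have hQ : uc6 r k0 * (C * (n : ℝ) ^ α) ≤
      (m : ℝ) / 2 * ∏ a ∈ A 0, (min 1 (p * ((D a).card : ℝ)) / 2) := by
    have hCx : 0 ≤ C * (n : ℝ) ^ α := by positivity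
    have hmin0 : ∀ a, 0 ≤ min 1 (p * ((D a).card : ℝ)) := fun a => le_min zero_le_one (by (clear * - hne hp0; positivity))
    have hmine : ∀ a, e a ≤ min 1 (p * ((D a).card : ℝ)) := by
      intro a
      refine le_min (hlab a).1 (le_trans ?_ (hlab a).2.1)
      have := hepos a
      nlinarith only [hC12, this]
    have e2 : ∏ a ∈ A 0, (min 1 (p * ((D a).card : ℝ)) / 2) =
        (∏ a ∈ A 0, min 1 (p * ((D a).card : ℝ))) / 2 ^ (A 0).card := by
      rw [prod_div_distrib, prod_const]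
    have h2r : (1 : ℝ) / 2 ^ r ≤ 1 / 2 ^ (A 0).card :=
      one_div_le_one_div_of_le (by positivity) (pow_le_pow_right₀ (by norm_num) hAr)
    have hPge : ∀ z : ℝ, 0 ≤ z → z ≤ ∏ a ∈ A 0, min 1 (p * ((D a).card : ℝ)) →
        (X.card : ℝ) / 4 * (z * (1 / 2 ^ r)) ≤
          (m : ℝ) / 2 * ∏ a ∈ A 0, (min 1 (p * ((D a).card : ℝ)) / 2) := by
      intro z hz0 hz
      rw [e2, div_eq_mul_one_div (∏ a ∈ A 0, min 1 (p * ((D a).card : ℝ)))]
      apply mul_le_mul
      · linarith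
      · exact mul_le_mul hz h2r (by positivity) (hz0.trans hz)
      · positivity
      · positivity
    have hmain : (1 : ℝ) / 2 ^ r / 32 * (C * (n : ℝ) ^ α) ≤
        (m : ℝ) / 2 * ∏ a ∈ A 0, (min 1 (p * ((D a).card : ℝ)) / 2) := by
      have hr2 : (0 : ℝ) < 1 / 2 ^ r := by positivity
      have hprodge : (n : ℝ) ^ (w - 1) ≤ ∏ a ∈ A 0, min 1 (p * ((D a).card : ℝ)) := by
        rw [← hprod]
        exact prod_le_prod (fun a _ => (hepos a).le) fun a _ => hmine a
      rcases hXge with h | h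
      · -- |X| ≥ n / 8
        by_cases hall : ∀ a ∈ A 0, 1 ≤ p * ((D a).card : ℝ)
        · have h1 : (1 : ℝ) ≤ ∏ a ∈ A 0, min 1 (p * ((D a).card : ℝ)) := by
            rw [prod_congr rfl fun a ha => min_eq_left (hall a ha), prod_const_one]
          refine le_trans ?_ (hPge 1 zero_le_one h1)
          have h2 : C * (n : ℝ) ^ α ≤ n := by nlinarith only [hCn]
          calc (1 : ℝ) / 2 ^ r / 32 * (C * (n : ℝ) ^ α) ≤ 1 / 2 ^ r / 32 * n :=
                mul_le_mul_of_nonneg_left h2 (by positivity)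
            _ = (n : ℝ) / 8 / 4 * (1 * (1 / 2 ^ r)) := by ring
            _ ≤ _ := by
                apply mul_le_mul_of_nonneg_right _ (by positivity)
                linarith only [h]
        · push Not at hall
          obtain ⟨a₀, ha₀, hlt⟩ := hall
          have h1 : C * (n : ℝ) ^ (w - 1) ≤ ∏ a ∈ A 0, min 1 (p * ((D a).card : ℝ)) := by
            rw [← hprod, ← mul_prod_erase (A 0) e ha₀, ← mul_prod_erase (A 0) _ ha₀, ← mul_assoc]
            apply mul_le_mul
            · rw [min_eq_right hlt.le]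
              exact (hlab a₀).2.1
            · exact prod_le_prod (fun a _ => (hepos a).le) fun a _ => hmine a
            · exact prod_nonneg fun a _ => (hepos a).le
            · exact hmin0 a₀
          refine le_trans ?_ (hPge _ (by positivity) h1)
          have h2 : (n : ℝ) * (n : ℝ) ^ (w - 1) = (n : ℝ) ^ w := by
            nth_rewrite 1 [← Real.rpow_one (n : ℝ)]
            rw [← Real.rpow_add hn0]
            congr 1
            ring
          have h3 : (n : ℝ) ^ α ≤ (n : ℝ) ^ w := Real.rpow_le_rpow_of_exponent_le hn1 hwα.le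
          calc (1 : ℝ) / 2 ^ r / 32 * (C * (n : ℝ) ^ α) ≤ 1 / 2 ^ r / 32 * (C * (n : ℝ) ^ w) := by
                apply mul_le_mul_of_nonneg_left _ (by positivity)
                exact mul_le_mul_of_nonneg_left h3 hC0.le
            _ = (n : ℝ) / 8 / 4 * (C * (n : ℝ) ^ (w - 1) * (1 / 2 ^ r)) := by rw [← h2]; ring
            _ ≤ _ := by
                apply mul_le_mul_of_nonneg_right _ (by positivity)
                linarith only [h]
      · -- |X| ≥ y
        refine le_trans ?_ (hPge _ (by positivity) hprodge)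
        have h2 : y * (n : ℝ) ^ (w - 1) = C * (n : ℝ) ^ α := by
          rw [hy, mul_assoc, ← Real.rpow_add hn0]
          congr 2
          ring
        calc (1 : ℝ) / 2 ^ r / 32 * (C * (n : ℝ) ^ α) ≤ 1 / 2 ^ r / 4 * (C * (n : ℝ) ^ α) := by
              apply mul_le_mul_of_nonneg_right _ hCx
              apply div_le_div_of_nonneg_left hr2.le (by norm_num) (by norm_num)
          _ = y / 4 * ((n : ℝ) ^ (w - 1) * (1 / 2 ^ r)) := by rw [← h2]; ring
          _ ≤ _ := by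
              apply mul_le_mul_of_nonneg_right _ (by positivity)
              linarith only [h]
    exact (mul_le_mul_of_nonneg_right huc6 hCx).trans hmain
  have htsz : ∀ i : Fin 1, uc6 r k0 * (C * (n : ℝ) ^ α) ≤ tsz p (m : ℝ) K A D i := by
    intro i
    have hi : i = 0 := Subsingleton.elim _ _
    subst hi
    rw [tsz]
    have hempty : IsEmpty {j : Fin 1 // j < 0 ∧ K.Adj j 0} :=
      ⟨fun j => absurd j.2.1 (by simp)⟩
    rw [Fintype.prod_empty, mul_one]
    exact hQ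
  have hord : EOrd K := by
    intro i j l hij _ _ _
    exact absurd hij (by
      rw [Subsingleton.elim i j]
      exact lt_irrefl _)
  refine (Pr_no_embed hp0 H.hp1 A hord hXD hDD Z (m := m) (by omega)
    (t := uc6 r k0 * (C * (n : ℝ) ^ α)) (by positivity) htsz).trans ?_
  have hexp : 0 ≤ Real.exp (-(uc6 r k0 * (C * (n : ℝ) ^ α) / 8)) := (Real.exp_pos _).le
  push_cast
  exact mul_le_mul_of_nonneg_right hk0 hexp

end Pool.MP_65847d_pr
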