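import Pool.Agent.Lib.MP_65847d_pr.X.USize
import Pool.Agent.Lib.MP_65847d_pr.X.UCopies
import Pool.Agent.Lib.MP_65847d_pr.X.UEmbed

/-!
# X/UFailLow : failure probability at a low level `w ≤ α`

Take `X = univ \ U`. Let `x = (n:ℝ)`, `r = |V|`, `W = WD x α D`.
* `Λ`: `|X| ≤ n`, `p ^ mK A = p^(k-1) ∏ i, ∏ a ∈ A i, p`, so the left side is `≤ n^k p^(k-1) ∏_i ∏_{a ∈ A i} (p |D a|) = n^k (C x^(-α))^(k-1) ∏∏ C x^(-(α - W a)) = C^(mK A) x^(k - α (k-1) - ∑∑ (α - W a)) = C^(mK A) x^(wgt univ) = C^(mK A) x^w` (`hT.eq`, `kap = α - W a` for the labels,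
  `WD_card`). `mK A ≤ k0 + k0 r ≤ ug r k0`, `1 ≤ C ≤ 3 C`.
* `Pr_no_copies` with `δ = k0 exp (-(uc6 (C x^w) / 8))`: for `|Z| ≤ k M`: `Pr_no_embed` with `m = (|X| - |Z|) / k` (natural division): `|X| ≥ 3n/4`, `|Z| ≤ k M ≤ 3 k0² r x^w ≤ n/8` (`x^(1-w) ≥ x^(1-α) ≥ x^d ≥ 64 k0² r`), so `m ≥ 5n/(8k) - 1 ≥ n/(4 k0)` (`n ≥ x^d ≥ 64 k0²`, as `d ≤ 1`).
  `t = uc5^k0 (C x^w)` by `tsz_low`; `uc6 = uc5^k0 / 32 ≤ uc5^k0`, `k ≤ k0`.
-/

set_option autoImplicit false

open Finset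

namespace Pool.MP_65847d_pr

open Pool.MP_1bacea_co

private theorem UFailLow_lab {V : Type*} [Fintype V] [DecidableEq V] {E : V → V → Prop} {n k k0 : ℕ}
    {κ d C α p w : ℝ} (H : UH n (Fintype.card V) k0 d C α p) {K : SimpleGraph (Fin k)}
    {A : Fin k → Finset V} {D : V → Finset (Fin n)}
    (hne : ∀ a, (D a).Nonempty) (hwα : w ≤ α)
    (hlab : ∀ i, ∀ a ∈ A i, WD (n : ℝ) α D a < w) (i : Fin k) (a : V) (ha : a ∈ A i) :
    p * ((D a).card : ℝ) = C * (n : ℝ) ^ (-(α - WD (n : ℝ) α D a)) ∧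
      kap α (WD (n : ℝ) α D) w a = α - WD (n : ℝ) α D a := by
  have hα1 : α < 1 := lt_of_le_of_lt H.hα1 (by linarith [H.hd])
  have h1 := hlab i a ha
  have hn0 : (0 : ℝ) < n := by
    have := H.hn
    exact_mod_cast (show 0 < n by omega)
  refine ⟨?_, ?_⟩
  · rw [H.hp, ← WD_card H.hn (hne a) (by linarith), mul_assoc, ← Real.rpow_add hn0]
    congr 2
    ring
  · unfold kap
    rw [min_eq_left h1.le, max_eq_right (by linarith)]

theorem fail_low {V : Type*} [Fintype V] [DecidableEq V] {E : V → V → Prop} {n k k0 : ℕ}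
    {κ d C α p w : ℝ} (H : UH n (Fintype.card V) k0 d C α p) (hk : k ≤ k0) {K : SimpleGraph (Fin k)}
    {A : Fin k → Finset V} (hord : EOrd K) {D : V → Finset (Fin n)} {U : Finset (Fin n)}
    (hne : ∀ a, (D a).Nonempty) (hDU : ∀ a, D a ⊆ U) (hDD : ∀ a b, a ≠ b → Disjoint (D a) (D b))
    (hU : (U.card : ℝ) ≤ n / 4) (hT : Tight E κ α (WD (n : ℝ) α D) K A w) (hwα : w ≤ α)
    (hlab : ∀ i, ∀ a ∈ A i, WD (n : ℝ) α D a < w) {M : ℕ}
    (hM : (M : ℝ) ≤ 3 * k0 * Fintype.card V * (n : ℝ) ^ w) :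
    ∃ X : Finset (Fin n), Disjoint X U ∧
      (X.card : ℝ) ^ k * (∏ i, ∏ a ∈ A i, ((D a).card : ℝ)) * p ^ mK A ≤
        (3 * C) ^ ug (Fintype.card V) k0 * (n : ℝ) ^ w ∧
      Pr p (fun ω : Sym2 (Fin n) → Bool => ¬ CopyFam K A D X M ω) ≤
        (∑ j ∈ range M, ((3 * C) ^ ug (Fintype.card V) k0 * (n : ℝ) ^ w) ^ j / (j.factorial : ℝ)) *
          (k0 * Real.exp (-(uc6 (Fintype.card V) k0 * (C * (n : ℝ) ^ w) / 8))) := by
  classical
  set r : ℕ := Fintype.card V with hr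
  set W : V → ℝ := WD (n : ℝ) α D with hW
  have hα1 : α < 1 := lt_of_le_of_lt H.hα1 (by linarith [H.hd])
  have hn3 := H.hn
  have hn1 : (1 : ℝ) ≤ n := by exact_mod_cast (show 1 ≤ n by omega)
  have hn0 : (0 : ℝ) < n := by linarith
  have hk01 : (1 : ℝ) ≤ k0 := by exact_mod_cast H.hk0
  have hr1 : (1 : ℝ) ≤ r := by exact_mod_cast H.hr
  have hC1 : 1 ≤ C := by
    have h1 := H.hC
    have h2 : (1 : ℝ) ≤ (k0 : ℝ) * r := one_le_mul_of_one_le_of_one_le hk01 hr1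
    nlinarith
  have hp0 : 0 ≤ p := by rw [H.hp]; positivity
  have hk1 : 1 ≤ k := by
    obtain ⟨v⟩ := hT.tree.connected.nonempty
    have := v.2
    omega
  have hkR : (1 : ℝ) ≤ k := by exact_mod_cast hk1
  have hkk0 : (k : ℝ) ≤ k0 := by exact_mod_cast hk
  have hlabf := fun i a ha => UFailLow_lab (K := K) (E := E) (κ := κ) H hne hwα hlab i a ha
  -- bigness
  have hbig1 : 64 * (k0 : ℝ) ^ 2 * r ≤ (n : ℝ) ^ d := by
    refine le_trans ?_ H.hbig
    have h3 : (1 : ℝ) ≤ (8 * (k0 : ℝ) * 2 ^ (r + k0)) ^ k0 := by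
      apply one_le_pow₀
      have h4 : (1 : ℝ) ≤ 2 ^ (r + k0) := one_le_pow₀ (by norm_num)
      nlinarith
    have h5 : (1 : ℝ) ≤ C * (8 * (k0 : ℝ) * 2 ^ (r + k0)) ^ k0 := one_le_mul_of_one_le_of_one_le hC1 h3
    have h6 : (0 : ℝ) ≤ 64 * (k0 : ℝ) ^ 2 * r := by positivity
    calc 64 * (k0 : ℝ) ^ 2 * r = 64 * (k0 : ℝ) ^ 2 * r * 1 := by ring
      _ ≤ 64 * (k0 : ℝ) ^ 2 * r * (C * (8 * (k0 : ℝ) * 2 ^ (r + k0)) ^ k0) :=
          mul_le_mul_of_nonneg_left h5 h6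
      _ = _ := by ring
  have hwn : 64 * (k0 : ℝ) ^ 2 * r * (n : ℝ) ^ w ≤ n := by
    have h1 : (n : ℝ) ^ d * (n : ℝ) ^ w ≤ n := by
      rw [← Real.rpow_add hn0]
      calc (n : ℝ) ^ (d + w) ≤ (n : ℝ) ^ (1 : ℝ) :=
            Real.rpow_le_rpow_of_exponent_le hn1 (by linarith [H.hα1])
        _ = n := Real.rpow_one _
    exact (mul_le_mul_of_nonneg_right hbig1 (by positivity)).trans h1
  have hn64 : 64 * (k0 : ℝ) ≤ n := by
    have h1 : (n : ℝ) ^ d ≤ n := by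
      calc (n : ℝ) ^ d ≤ (n : ℝ) ^ (1 : ℝ) :=
            Real.rpow_le_rpow_of_exponent_le hn1 (by linarith [H.hα1, H.hα])
        _ = n := Real.rpow_one _
    have h2 : 64 * (k0 : ℝ) ≤ 64 * (k0 : ℝ) ^ 2 * r := by
      have : (1 : ℝ) ≤ (k0 : ℝ) * r := one_le_mul_of_one_le_of_one_le hk01 hr1
      nlinarith
    linarith
  have hΛ : ((univ \ U).card : ℝ) ^ k * (∏ i, ∏ a ∈ A i, ((D a).card : ℝ)) * p ^ mK A ≤
      (3 * C) ^ ug r k0 * (n : ℝ) ^ w := by
    have hXn : ((univ \ U).card : ℝ) ≤ n := by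
      have : (univ \ U).card ≤ n := by
        refine (card_le_univ _).trans ?_
        rw [Fintype.card_fin]
      exact_mod_cast this
    have hP : (∏ i, ∏ a ∈ A i, ((D a).card : ℝ)) * p ^ (∑ i, (A i).card) =
        C ^ (∑ i, (A i).card) * (n : ℝ) ^ (-∑ i, ∑ a ∈ A i, (α - W a)) := by
      have e1 : p ^ (∑ i, (A i).card) = ∏ i : Fin k, ∏ _a ∈ A i, p := by
        simp only [prod_const]
        rw [Finset.prod_pow_eq_pow_sum]
      rw [e1, ← Finset.prod_mul_distrib]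
      have e2 : ∀ i : Fin k, (∏ a ∈ A i, ((D a).card : ℝ)) * ∏ _a ∈ A i, p =
          C ^ (A i).card * (n : ℝ) ^ (-∑ a ∈ A i, (α - W a)) := by
        intro i
        rw [← Finset.prod_mul_distrib, ← Finset.sum_neg_distrib, Real.rpow_sum_of_pos hn0,
          ← Finset.prod_const, ← Finset.prod_mul_distrib]
        refine prod_congr rfl fun a ha => ?_
        rw [mul_comm]
        exact (hlabf i a ha).1
      rw [prod_congr rfl fun i _ => e2 i, Finset.prod_mul_distrib, Finset.prod_pow_eq_pow_sum,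
        ← Real.rpow_sum_of_pos hn0, Finset.sum_neg_distrib]
    have hpk : p ^ (k - 1) = C ^ (k - 1) * (n : ℝ) ^ (-(α * ((k : ℝ) - 1))) := by
      rw [H.hp, mul_pow, ← Real.rpow_natCast ((n : ℝ) ^ (-α)), ← Real.rpow_mul hn0.le]
      congr 2
      rw [Nat.cast_sub hk1]
      push_cast
      ring
    have hwt : w = (k : ℝ) + -(α * ((k : ℝ) - 1)) + -∑ i, ∑ a ∈ A i, (α - W a) := by
      have h1 := hT.eq
      unfold wgt at h1
      have h2 : ∑ y : Fin k, (1 - α - ∑ a ∈ A y, kap α W w a) =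
          (k : ℝ) * (1 - α) - ∑ i, ∑ a ∈ A i, (α - W a) := by
        rw [Finset.sum_sub_distrib, sum_const, card_univ, Fintype.card_fin, nsmul_eq_mul]
        congr 1
        exact sum_congr rfl fun i _ => sum_congr rfl fun a ha => (hlabf i a ha).2
      rw [h2] at h1
      linarith
    calc ((univ \ U).card : ℝ) ^ k * (∏ i, ∏ a ∈ A i, ((D a).card : ℝ)) * p ^ mK A
        ≤ (n : ℝ) ^ k * (∏ i, ∏ a ∈ A i, ((D a).card : ℝ)) * p ^ mK A := by
          gcongr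
      _ = (n : ℝ) ^ k * p ^ (k - 1) * ((∏ i, ∏ a ∈ A i, ((D a).card : ℝ)) * p ^ (∑ i, (A i).card)) := by
          unfold mK
          rw [pow_add]
          ring
      _ = C ^ mK A * (n : ℝ) ^ w := by
          rw [hP, hpk, ← Real.rpow_natCast (n : ℝ) k]
          have e3 : (n : ℝ) ^ w = (n : ℝ) ^ (k : ℝ) * (n : ℝ) ^ (-(α * ((k : ℝ) - 1))) *
              (n : ℝ) ^ (-∑ i, ∑ a ∈ A i, (α - W a)) := by
            rw [← Real.rpow_add hn0, ← Real.rpow_add hn0, ← hwt]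
          rw [e3]
          unfold mK
          rw [pow_add]
          ring
      _ ≤ (3 * C) ^ ug r k0 * (n : ℝ) ^ w := by
          refine mul_le_mul_of_nonneg_right ?_ (by positivity)
          have hm : mK A ≤ ug r k0 := by
            unfold mK ug
            have h1 : ∑ i, (A i).card ≤ k0 * r := by
              calc ∑ i, (A i).card ≤ ∑ _i : Fin k, r := sum_le_sum fun i _ => card_le_univ _
                _ = k * r := by rw [sum_const, card_univ, Fintype.card_fin, smul_eq_mul]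
                _ ≤ k0 * r := Nat.mul_le_mul_right _ hk
            omega
          calc C ^ mK A ≤ C ^ ug r k0 := pow_le_pow_right₀ hC1 hm
            _ ≤ (3 * C) ^ ug r k0 := by
                gcongr
                linarith
  have hXD : ∀ a, Disjoint (univ \ U) (D a) := fun a => disjoint_sdiff_self_left.mono_right (hDU a)
  refine ⟨univ \ U, disjoint_sdiff_self_left, hΛ, ?_⟩
  refine Pr_no_copies hp0 H.hp1 hT.tree A hXD hDD M hΛ (by positivity) fun Z hZ => ?_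
  set m : ℕ := ((univ \ U).card - Z.card) / k with hm
  have hXc : (3 : ℝ) * n / 4 ≤ ((univ \ U).card : ℝ) := by
    have h1 : (univ \ U).card = n - U.card := by
      rw [card_sdiff_of_subset (subset_univ _), card_univ, Fintype.card_fin]
    have h2 : U.card ≤ n := by
      have := card_le_univ U
      rwa [Fintype.card_fin] at this
    rw [h1, Nat.cast_sub h2]
    linarith
  have hZc : (Z.card : ℝ) ≤ n / 8 := by
    have h1 : (Z.card : ℝ) ≤ k * M := by exact_mod_cast hZ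
    have h2 : (k : ℝ) * M ≤ k0 * (3 * k0 * r * (n : ℝ) ^ w) :=
      mul_le_mul hkk0 hM (Nat.cast_nonneg _) (by positivity)
    nlinarith
  have hZX : Z.card ≤ (univ \ U).card := by
    have : (Z.card : ℝ) ≤ ((univ \ U).card : ℝ) := by linarith
    exact_mod_cast this
  have hmk : k * m + Z.card ≤ (univ \ U).card := by
    have : k * m ≤ (univ \ U).card - Z.card := Nat.mul_div_le _ _
    omega
  have hmR : (n : ℝ) / (4 * k0) ≤ (m : ℝ) := by
    have h1 : (univ \ U).card - Z.card < k * (m + 1) := by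
      rw [hm]
      exact Nat.lt_mul_div_succ _ (by omega)
    have h2 : (((univ \ U).card - Z.card : ℕ) : ℝ) < (k : ℝ) * (m + 1) := by exact_mod_cast h1
    rw [Nat.cast_sub hZX] at h2
    have h3 : (k : ℝ) * (m + 1) ≤ k0 * (m + 1) := mul_le_mul_of_nonneg_right hkk0 (by positivity)
    rw [div_le_iff₀ (by positivity)]
    nlinarith
  have ht := fun i => tsz_low (m := (m : ℝ)) H hk hord hne hT hwα hlab hmR i
  have h5pos : 0 < uc5 r k0 := by unfold uc5; positivity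
  have ht0 : 0 < uc5 r k0 ^ k0 * (C * (n : ℝ) ^ w) := by positivity
  refine (Pr_no_embed hp0 H.hp1 A hord hXD hDD Z hmk ht0 ht).trans ?_
  refine mul_le_mul hkk0 ?_ (Real.exp_pos _).le (by positivity)
  apply Real.exp_le_exp.2
  have h6 : uc6 r k0 * (C * (n : ℝ) ^ w) ≤ uc5 r k0 ^ k0 * (C * (n : ℝ) ^ w) := by
    refine mul_le_mul_of_nonneg_right ?_ (by positivity)
    unfold uc6
    have : 0 < uc5 r k0 ^ k0 := by positivity
    linarith
  linarith

end Pool.MP_65847d_pr
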