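import Pool.Agent.Lib.MP_65847d_pr.X.UDefs
import Pool.Agent.Lib.MP_65847d_pr.C.LeafOrder

/-!
# X/UMin : a tight violation of minimal level, with a good order of the vertices

* Finitely many levels: if `Tight E κ α W K A w` then `w = α + ∑ i, (1 - α - ∑ a ∈ A i, (α - W a))` (first alternative of `alt`: `kap α W w a = α - W a` for the labels since `W a < w ≤ α`) or `w = α + ∑ i, (1 - α - ∑ a ∈ A i, max 0 (α - W a))` (second alternative: `α < w`, so `kap α W w a = max 0 (α - W a)`).
  So the set of all tight levels with `k ≤ k0` is contained in a finite set (finitely many `k ≤ k0`, `K : SimpleGraph (Fin k)`, `A : Fin k → Finset V`); a nonempty finite set of reals has a minimum (`Set.Finite.exists_minimal`, or `Set.exists_min_image` for the finite set `{w | ∃ k ≤ k0, ∃ K A, Tight ..}`, `Set.Finite.subset`).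
* Order: `exists_elim_order K hK.IsAcyclic` gives `e : Fin k ≃ Fin k`. `K' = K.comap e`, `A' i = A (e i)`: `Tight E κ α W K' A' w`: `K' ≃g K` (`SimpleGraph.Iso.comap`), so `K'` is a tree (`SimpleGraph.Iso.isTree_iff` or connected + acyclic as in C/Transport.lean); `wgt .. A' U = wgt .. A (U.map e)` and connected sets correspond to connected sets
  (see C/Transport.lean); `wgt univ` equal; `Colours` for `K'` gives `Colours` for `K` (`φ ∘ e.symm`); `alt` clear.
-/

set_option autoImplicit false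

open Finset

namespace Pool.MP_65847d_pr

private theorem umin_wgt_low {V : Type*} {α w : ℝ} {W : V → ℝ} {k : ℕ} {A : Fin k → Finset V}
    (hw : w ≤ α) (hA : ∀ i, ∀ a ∈ A i, W a < w) :
    wgt α W w A univ = α + ∑ i, (1 - α - ∑ a ∈ A i, (α - W a)) := by
  unfold wgt
  congr 1
  refine Finset.sum_congr rfl fun i _ => ?_
  congr 1
  refine Finset.sum_congr rfl fun a ha => ?_
  have h := hA i a ha
  unfold kap
  rw [min_eq_left h.le, max_eq_right (by linarith)]

private theorem umin_wgt_high {V : Type*} {α w : ℝ} {W : V → ℝ} {k : ℕ} {A : Fin k → Finset V}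
    (hw : α < w) :
    wgt α W w A univ = α + ∑ i, (1 - α - ∑ a ∈ A i, max 0 (α - W a)) := by
  unfold wgt
  congr 1
  refine Finset.sum_congr rfl fun i _ => ?_
  congr 1
  refine Finset.sum_congr rfl fun a _ => ?_
  unfold kap
  rcases le_total (W a) w with h | h
  · rw [min_eq_left h]
  · rw [min_eq_right h, max_eq_left (by linarith), max_eq_left (by linarith)]

private theorem umin_finite {V : Type*} [Fintype V] (E : V → V → Prop) (κ α : ℝ) (W : V → ℝ) (k0 : ℕ) :
    {w : ℝ | ∃ k ≤ k0, ∃ (K : SimpleGraph (Fin k)) (A : Fin k → Finset V),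
      Tight E κ α W K A w}.Finite := by
  classical
  have hfin : (⋃ k ∈ Set.Iic k0, ⋃ A : Fin k → Finset V,
      ({α + ∑ i, (1 - α - ∑ a ∈ A i, (α - W a)),
        α + ∑ i, (1 - α - ∑ a ∈ A i, max 0 (α - W a))} : Set ℝ)).Finite := by
    refine (Set.finite_Iic k0).biUnion fun k _ => ?_
    exact Set.finite_iUnion fun A => Set.toFinite _
  refine hfin.subset ?_
  rintro w ⟨k, hk, K, A, hT⟩
  refine Set.mem_biUnion (Set.mem_Iic.mpr hk) (Set.mem_iUnion.mpr ⟨A, ?_⟩)
  rcases hT.alt with ⟨h1, h2⟩ | ⟨h1, -⟩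
  · left
    rw [← umin_wgt_low h1 h2, hT.eq]
  · right
    show w = _
    rw [← umin_wgt_high h1, hT.eq]

private theorem umin_transport {V : Type*} {E : V → V → Prop} {κ α w : ℝ} {W : V → ℝ} {k : ℕ}
    {K : SimpleGraph (Fin k)} {A : Fin k → Finset V} (hT : Tight E κ α W K A w) (e : Fin k ≃ Fin k) :
    Tight E κ α W (K.comap e) (fun i => A (e i)) w := by
  classical
  refine ⟨?_, hT.lt_w, hT.w_le, ?_, ?_, ?_, ?_⟩
  · exact (SimpleGraph.Iso.isTree_iff (SimpleGraph.Iso.comap e K)).mpr hT.tree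
  · intro U hU
    have h1 : wgt α W w (fun i => A (e i)) U = wgt α W w A (U.map e.toEmbedding) := by
      unfold wgt
      rw [Finset.sum_map]
      rfl
    rw [h1]
    apply hT.ge
    have hm : ∀ x : (U : Set (Fin k)), e x.1 ∈ ((U.map e.toEmbedding : Finset (Fin k)) : Set (Fin k)) := by
      intro x
      rw [Finset.mem_coe, Finset.mem_map]
      exact ⟨x.1, x.2, rfl⟩
    let f : ((K.comap e).induce (U : Set (Fin k))) →g
        (K.induce ((U.map e.toEmbedding : Finset (Fin k)) : Set (Fin k))) :=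
      { toFun := fun x => ⟨e x.1, hm x⟩
        map_rel' := fun {a b} h => h }
    refine hU.map f ?_
    rintro ⟨y, hy⟩
    rw [Finset.mem_coe, Finset.mem_map] at hy
    obtain ⟨x, hx, rfl⟩ := hy
    exact ⟨⟨x, hx⟩, rfl⟩
  · refine Eq.trans ?_ hT.eq
    unfold wgt
    congr 1
    exact Equiv.sum_comp e fun y => (1 - α - ∑ a ∈ A y, kap α W w a)
  · rintro ⟨φ, h1, h2, h3⟩
    apply hT.ncol
    refine ⟨fun i => φ (e.symm i), fun i j hij => ?_, fun i => h2 _, fun i a ha => ?_⟩
    · apply h1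
      simpa using hij
    · apply h3
      simpa using ha
  · rcases hT.alt with ⟨h1, h2⟩ | h
    · exact Or.inl ⟨h1, fun i a ha => h2 (e i) a ha⟩
    · exact Or.inr h

theorem exists_min_tight {V : Type*} [Fintype V] {E : V → V → Prop} {κ α : ℝ} {W : V → ℝ} {k0 : ℕ}
    (h : ∃ k ≤ k0, ∃ (K : SimpleGraph (Fin k)) (A : Fin k → Finset V) (w : ℝ), Tight E κ α W K A w) :
    ∃ k ≤ k0, ∃ (K : SimpleGraph (Fin k)) (A : Fin k → Finset V) (w : ℝ), Tight E κ α W K A w ∧ EOrd K ∧
      ∀ k' ≤ k0, ∀ (K' : SimpleGraph (Fin k')) (A' : Fin k' → Finset V) (w' : ℝ),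
        Tight E κ α W K' A' w' → w ≤ w' := by
  have hne : {w : ℝ | ∃ k ≤ k0, ∃ (K : SimpleGraph (Fin k)) (A : Fin k → Finset V),
      Tight E κ α W K A w}.Nonempty := by
    obtain ⟨k, hk, K, A, w, hT⟩ := h
    exact ⟨w, k, hk, K, A, hT⟩
  obtain ⟨w, ⟨k, hk, K, A, hT⟩, hmin⟩ := Set.exists_min_image _ id (umin_finite E κ α W k0) hne
  obtain ⟨e, he⟩ := exists_elim_order K hT.tree.isAcyclic
  refine ⟨k, hk, K.comap e, fun i => A (e i), w, umin_transport hT e, fun i j l h1 h2 h3 h4 =>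
    he i j l h1 h2 h3 h4, fun k' hk' K' A' w' hT' => hmin w' ⟨k', hk', K', A', hT'⟩⟩

end Pool.MP_65847d_pr
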