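import Pool.Agent.Lib.MP_65847d_pr.X.UCard
import Pool.Agent.Lib.MP_65847d_pr.Maximal

/-!
# X/UStep : one step of the growth process

Claim: `HEv E D U ω` and `CopyFam K A D X M ω` (with `k |V| b ≤ M`, `b ≥ 1`) imply that for some `i : Fin k`, `a : V` with `W a < w` there is `F ⊆ Cop A D X`, `|F| = b`, pairwise non-touching, all pairs on, such that `HEv E (Function.update D a S) U' ω`, where
`S = F.image (fun c => c.1 i)` and `U' = U ∪ F.biUnion (fun c => univ.image c.1)`.
Proof: let `f` be the map. For `c ∈ F₀` (the family of `M` copies) the colouring `φ j = f (c.1 j)` of `K` respects the edges of `K` and the labels (`c.1 j ∈ X` is not in `U`; the pairs of `c` are edges of `Gr ω`: different ends since `c.1` is injective and `X` is disjoint from `D a`; `f (c.2 q) = q.1.2`), so by `hncol` some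
`j` has `W (f (c.1 j)) < w`. Pigeonhole (`Finset.exists_lt_card_fiber_of_mul_lt_card_of_maps_to` or: if every fibre of `c ↦ (j, f (c.1 j))` in `Fin k × V` had `< b` elements, `M ≤ k |V| (b - 1)`): a subset `F` of `F₀` of exactly `b` copies with the same `(i, a)`. `|S| = b` (non-touching copies have different `c.1 i`),
`S ⊆ X`, `f = a` on `S`; `HEv` for `(update D a S, U')` with the same `f` (edges not inside `U' ⊇ U` are not inside `U`).

Independence: for fixed `(i, a)` and `F` the event that all pairs of `F` are on depends on the bits in `F.biUnion (cpairs K A)`, all of which are inside `U'` (`D a ⊆ U`), and has probability `p ^ (mK A * b)` (`Pr_all_on`, `card_biUnion` with `cpairs_card`, `cpairs_disjoint`), while `HEv E (update D a S) U'` depends only on the bits `s(u,v)` not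
inside `U'`. `Pr_and_indep` (Maximal.lean). So (`Pr_exists_le` over `(i, a)` and over `F ∈ (Cop A D X).powersetCard b`)
`Pr (HEv D U) ≤ Pr (¬ CopyFam) + ∑_{(i,a)} ∑_F p^(mK A * b) δ' ≤ Pr (¬ CopyFam) + k |V| * C(|Cop|, b) p^(mK A b) δ'` and `C(|Cop|, b) p^(mK A b) ≤ (|Cop| p^(mK A))^b / b! ≤ Λ^b / b!` (`Nat.choose_le_pow_div`, `Cop_card_le`).
(For `W a ≥ w` or touching `F` the event is empty: put these conditions into the event.)
-/

set_option autoImplicit false

open Finset

namespace Pool.MP_65847d_pr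

open Pool.MP_1bacea_co

variable {N V : Type*} [Fintype N] [DecidableEq N] [Fintype V] [DecidableEq V]

omit [DecidableEq V] in
private theorem ustep_hev_congr {E : V → V → Prop} {D : V → Finset N} {U : Finset N}
    {ω ω' : Sym2 N → Bool} (h : ∀ u v, ¬ (u ∈ U ∧ v ∈ U) → ω s(u, v) = ω' s(u, v)) :
    HEv E D U ω → HEv E D U ω' := by
  rintro ⟨f, hf, hE⟩
  refine ⟨f, hf, fun u v huv hU => hE u v ⟨huv.1, ?_⟩ hU⟩
  rw [h u v hU]
  exact huv.2

private theorem ustep_det [Nonempty V] {E : V → V → Prop} {k : ℕ} {K : SimpleGraph (Fin k)}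
    (hK : K.IsTree) (A : Fin k → Finset V) {D : V → Finset N} {U X : Finset N}
    (hDU : ∀ a, D a ⊆ U) (hXU : Disjoint X U) {W : V → ℝ} {w : ℝ} (hncol : ¬ Colours E W w K A)
    {M b : ℕ} (hb : 1 ≤ b) (hM : k * Fintype.card V * b ≤ M) {ω : Sym2 N → Bool}
    (h1 : HEv E D U ω) (h2 : CopyFam K A D X M ω) :
    ∃ ia : Fin k × V, ∃ F ∈ (Cop A D X).powersetCard b,
      (W ia.2 < w ∧ ∀ c ∈ F, ∀ c' ∈ F, c ≠ c' → ¬ Touch c c') ∧
      (∀ e ∈ F.biUnion (cpairs K A), ω e = true) ∧
      HEv E (Function.update D ia.2 (F.image fun c => c.1 ia.1))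
        (U ∪ F.biUnion fun c => univ.image c.1) ω := by
  classical
  obtain ⟨f, hf, hE⟩ := h1
  obtain ⟨F₀, hF₀, htouch, hon⟩ := h2
  rw [mem_powersetCard] at hF₀
  haveI : Nonempty (Fin k) := hK.connected.nonempty
  have key : ∀ c ∈ F₀, ∃ j : Fin k, W (f (c.1 j)) < w := by
    intro c hc
    by_contra hcon
    push Not at hcon
    apply hncol
    have hcC := mem_Cop.mp (hF₀.1 hc)
    refine ⟨fun j => f (c.1 j), fun i j hij => ?_, fun i => hcon i, fun i a ha => ?_⟩
    · refine hE _ _ ⟨fun h => hij.ne (hcC.2.1 h),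
        hon c hc _ (mem_cpairs.mpr (Or.inl ⟨i, j, hij, rfl⟩))⟩ ?_
      exact fun h => disjoint_left.mp hXU (hcC.1 i) h.1
    · have hq := hcC.2.2 ⟨(i, a), ha⟩
      have hadj : (Gr ω).Adj (c.1 i) (c.2 ⟨(i, a), ha⟩) := by
        refine ⟨?_, hon c hc _ (mem_cpairs.mpr (Or.inr ⟨⟨(i, a), ha⟩, rfl⟩))⟩
        intro h
        exact disjoint_left.mp hXU (hcC.1 i) (h ▸ hDU a hq)
      have h3 := hE _ _ hadj fun h => disjoint_left.mp hXU (hcC.1 i) h.1
      rwa [hf a _ hq] at h3
  choose! j hj using key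
  obtain ⟨⟨i, a⟩, -, hcard⟩ := exists_le_card_fiber_of_mul_le_card_of_maps_to (s := F₀)
    (t := (univ : Finset (Fin k × V))) (f := fun c => (j c, f (c.1 (j c)))) (n := b)
    (fun _ _ => mem_univ _) univ_nonempty
    (by rw [card_univ, Fintype.card_prod, Fintype.card_fin, hF₀.2]; exact hM)
  obtain ⟨F, hFsub, hFb⟩ := exists_subset_card_eq hcard
  have hF : ∀ c ∈ F, c ∈ F₀ ∧ W a < w ∧ f (c.1 i) = a := by
    intro c hc
    have h3 := mem_filter.mp (hFsub hc)
    have h4 : j c = i := congrArg Prod.fst h3.2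
    have h5 : f (c.1 (j c)) = a := congrArg Prod.snd h3.2
    have h6 := hj c h3.1
    rw [h5] at h6
    rw [h4] at h5
    exact ⟨h3.1, h6, h5⟩
  have hFne : F.Nonempty := card_pos.mp (by omega)
  obtain ⟨c₀, hc₀⟩ := hFne
  refine ⟨(i, a), F, mem_powersetCard.mpr ⟨fun c hc => hF₀.1 (hF c hc).1, hFb⟩,
    ⟨(hF c₀ hc₀).2.1, fun c hc c' hc' => htouch c (hF c hc).1 c' (hF c' hc').1⟩, ?_, f, ?_, ?_⟩
  · intro e he
    obtain ⟨c, hc, hec⟩ := mem_biUnion.mp he
    exact hon c (hF c hc).1 e hec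
  · intro a' v hv
    by_cases haa : a' = a
    · subst haa
      rw [Function.update_self] at hv
      obtain ⟨c, hc, rfl⟩ := mem_image.mp hv
      exact (hF c hc).2.2
    · rw [Function.update_of_ne haa] at hv
      exact hf a' v hv
  · intro u v huv hU
    exact hE u v huv fun h => hU ⟨mem_union_left _ h.1, mem_union_left _ h.2⟩

private theorem ustep_one {E : V → V → Prop} {k : ℕ} {p : ℝ} (h0 : 0 ≤ p) (h1 : p ≤ 1)
    {K : SimpleGraph (Fin k)} (hK : K.IsTree) (A : Fin k → Finset V) {D : V → Finset N} {U X : Finset N}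
    (hDU : ∀ a, D a ⊆ U) (hXU : Disjoint X U) (hDD : ∀ a b, a ≠ b → Disjoint (D a) (D b)) {W : V → ℝ}
    {w : ℝ} {b : ℕ} {δ' : ℝ} (hδ0 : 0 ≤ δ')
    (hδ : ∀ a, W a < w → ∀ S U' : Finset N, S ⊆ X → S.card = b → U ⊆ U' → S ⊆ U' →
      U'.card ≤ U.card + k * b → Pr p (HEv E (Function.update D a S) U') ≤ δ')
    (ia : Fin k × V) {F : Finset ((Fin k → N) × (Lpos A → N))} (hF : F ∈ (Cop A D X).powersetCard b) :
    Pr p (fun ω : Sym2 N → Bool => (W ia.2 < w ∧ ∀ c ∈ F, ∀ c' ∈ F, c ≠ c' → ¬ Touch c c') ∧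
      (∀ e ∈ F.biUnion (cpairs K A), ω e = true) ∧
      HEv E (Function.update D ia.2 (F.image fun c => c.1 ia.1))
        (U ∪ F.biUnion fun c => univ.image c.1) ω) ≤ p ^ (mK A * b) * δ' := by
  classical
  rw [mem_powersetCard] at hF
  by_cases hc : W ia.2 < w ∧ ∀ c ∈ F, ∀ c' ∈ F, c ≠ c' → ¬ Touch c c'
  · have hXD : ∀ a, Disjoint X (D a) := fun a => disjoint_of_subset_right (hDU a) hXU
    have hcard : (F.biUnion (cpairs K A)).card = mK A * b := by
      rw [card_biUnion fun c hcF c' hcF' hne =>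
        cpairs_disjoint hXD (hF.1 hcF) (hF.1 hcF') (hc.2 c hcF c' hcF' hne),
        sum_congr rfl fun c hcF => cpairs_card hK hXD hDD (hF.1 hcF), sum_const, hF.2, smul_eq_mul,
        mul_comm]
    have hS : (F.image fun c => c.1 ia.1).card = b := by
      rw [card_image_of_injOn, hF.2]
      intro c hcF c' hcF' h
      by_contra hne
      exact hc.2 c hcF c' hcF' hne ⟨ia.1, ia.1, h⟩
    have hUc : (U ∪ F.biUnion fun c => univ.image c.1).card ≤ U.card + k * b := by
      refine (card_union_le _ _).trans (Nat.add_le_add_left ?_ _)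
      refine card_biUnion_le.trans ?_
      calc ∑ c ∈ F, (univ.image c.1).card ≤ ∑ _c ∈ F, k := by
            refine sum_le_sum fun c _ => card_image_le.trans ?_
            rw [card_univ, Fintype.card_fin]
        _ = k * b := by rw [sum_const, hF.2, smul_eq_mul, mul_comm]
    have hinU : ∀ c ∈ F, ∀ i, c.1 i ∈ U ∪ F.biUnion fun c => univ.image c.1 := fun c hcF i =>
      mem_union_right _ (mem_biUnion.mpr ⟨c, hcF, mem_image_of_mem _ (mem_univ i)⟩)
    have hfin := hδ ia.2 hc.1 (F.image fun c => c.1 ia.1) (U ∪ F.biUnion fun c => univ.image c.1)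
      (by
        intro v hv
        obtain ⟨c, hcF, rfl⟩ := mem_image.mp hv
        exact (mem_Cop.mp (hF.1 hcF)).1 _) hS subset_union_left
      (by
        intro v hv
        obtain ⟨c, hcF, rfl⟩ := mem_image.mp hv
        exact hinU c hcF _) hUc
    calc _ ≤ Pr p (fun ω : Sym2 N → Bool => (∀ e ∈ F.biUnion (cpairs K A), ω e = true) ∧
        HEv E (Function.update D ia.2 (F.image fun c => c.1 ia.1))
          (U ∪ F.biUnion fun c => univ.image c.1) ω) := Pr_mono h0 h1 fun ω hω => hω.2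
      _ = Pr p (fun ω : Sym2 N → Bool => ∀ e ∈ F.biUnion (cpairs K A), ω e = true) *
          Pr p (HEv E (Function.update D ia.2 (F.image fun c => c.1 ia.1))
            (U ∪ F.biUnion fun c => univ.image c.1)) := by
          refine Pr_and_indep _ _ (F.biUnion (cpairs K A) : Set (Sym2 N))
            {e | ∃ u v, e = s(u, v) ∧ ¬ (u ∈ (U ∪ F.biUnion fun c => univ.image c.1) ∧
              v ∈ (U ∪ F.biUnion fun c => univ.image c.1))} ?_ ?_ ?_
          · rw [Set.disjoint_left]
            rintro e he ⟨u, v, huv, hnot⟩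
            rw [mem_coe, mem_biUnion] at he
            obtain ⟨c, hcF, hec⟩ := he
            apply hnot
            rcases mem_cpairs.mp hec with ⟨i, j, -, h⟩ | ⟨q, h⟩
            · rw [h] at huv
              rcases Sym2.eq_iff.mp huv with ⟨h3, h4⟩ | ⟨h3, h4⟩
              · rw [← h3, ← h4]
                exact ⟨hinU c hcF i, hinU c hcF j⟩
              · rw [← h3, ← h4]
                exact ⟨hinU c hcF j, hinU c hcF i⟩
            · have hq : c.2 q ∈ U ∪ F.biUnion fun c => univ.image c.1 :=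
                mem_union_left _ (hDU _ ((mem_Cop.mp (hF.1 hcF)).2.2 q))
              rw [h] at huv
              rcases Sym2.eq_iff.mp huv with ⟨h3, h4⟩ | ⟨h3, h4⟩
              · rw [← h3, ← h4]
                exact ⟨hinU c hcF _, hq⟩
              · rw [← h3, ← h4]
                exact ⟨hq, hinU c hcF _⟩
          · intro ω ω' h
            refine forall_congr' fun e => forall_congr' fun he => ?_
            rw [h e he]
          · intro ω ω' h
            constructor
            · exact ustep_hev_congr fun u v huv => h _ ⟨u, v, rfl, huv⟩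
            · exact ustep_hev_congr fun u v huv => (h _ ⟨u, v, rfl, huv⟩).symm
      _ ≤ p ^ (mK A * b) * δ' := by
          rw [Pr_all_on, hcard]
          exact mul_le_mul_of_nonneg_left hfin (by positivity)
  · have : Pr p (fun ω : Sym2 N → Bool =>
      (W ia.2 < w ∧ ∀ c ∈ F, ∀ c' ∈ F, c ≠ c' → ¬ Touch c c') ∧
      (∀ e ∈ F.biUnion (cpairs K A), ω e = true) ∧
      HEv E (Function.update D ia.2 (F.image fun c => c.1 ia.1))
        (U ∪ F.biUnion fun c => univ.image c.1) ω) ≤ Ex p (fun _ : Sym2 N → Bool => (0 : ℝ)) :=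
      Ex_mono h0 h1 fun ω => le_of_eq (ind_false fun h => hc h.1)
    rw [Ex_const] at this
    exact this.trans (by positivity)

theorem Pr_step [Nonempty V] {E : V → V → Prop} {k : ℕ} {p : ℝ} (h0 : 0 ≤ p) (h1 : p ≤ 1)
    {K : SimpleGraph (Fin k)} (hK : K.IsTree) (A : Fin k → Finset V) {D : V → Finset N} {U X : Finset N}
    (hDU : ∀ a, D a ⊆ U) (hXU : Disjoint X U) (hDD : ∀ a b, a ≠ b → Disjoint (D a) (D b)) {W : V → ℝ}
    {w : ℝ} (hncol : ¬ Colours E W w K A) {M b : ℕ} (hb : 1 ≤ b) (hM : k * Fintype.card V * b ≤ M) {Λ : ℝ}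
    (hΛ : (X.card : ℝ) ^ k * (∏ i, ∏ a ∈ A i, ((D a).card : ℝ)) * p ^ mK A ≤ Λ) {δ' : ℝ} (hδ0 : 0 ≤ δ')
    (hδ : ∀ a, W a < w → ∀ S U' : Finset N, S ⊆ X → S.card = b → U ⊆ U' → S ⊆ U' →
      U'.card ≤ U.card + k * b → Pr p (HEv E (Function.update D a S) U') ≤ δ') :
    Pr p (HEv E D U) ≤ Pr p (fun ω : Sym2 N → Bool => ¬ CopyFam K A D X M ω) +
      ((k : ℝ) * Fintype.card V) * (Λ ^ b / (b.factorial : ℝ)) * δ' := by
  classical
  have hΛ0 : ((Cop A D X).card : ℝ) * p ^ mK A ≤ Λ :=
    (mul_le_mul_of_nonneg_right (Cop_card_le A D X) (by positivity)).trans hΛ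
  calc Pr p (HEv E D U) ≤ Pr p (fun ω : Sym2 N → Bool => ¬ CopyFam K A D X M ω ∨
        ∃ ia ∈ (univ : Finset (Fin k × V)), ∃ F ∈ (Cop A D X).powersetCard b,
          (W ia.2 < w ∧ ∀ c ∈ F, ∀ c' ∈ F, c ≠ c' → ¬ Touch c c') ∧
          (∀ e ∈ F.biUnion (cpairs K A), ω e = true) ∧
          HEv E (Function.update D ia.2 (F.image fun c => c.1 ia.1))
            (U ∪ F.biUnion fun c => univ.image c.1) ω) := by
        refine Pr_mono h0 h1 fun ω hω => ?_
        by_cases hcf : CopyFam K A D X M ω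
        · right
          obtain ⟨ia, h⟩ := ustep_det hK A hDU hXU hncol hb hM hω hcf
          exact ⟨ia, mem_univ _, h⟩
        · exact Or.inl hcf
    _ ≤ Pr p (fun ω : Sym2 N → Bool => ¬ CopyFam K A D X M ω) +
        Pr p (fun ω : Sym2 N → Bool =>
        ∃ ia ∈ (univ : Finset (Fin k × V)), ∃ F ∈ (Cop A D X).powersetCard b,
          (W ia.2 < w ∧ ∀ c ∈ F, ∀ c' ∈ F, c ≠ c' → ¬ Touch c c') ∧
          (∀ e ∈ F.biUnion (cpairs K A), ω e = true) ∧
          HEv E (Function.update D ia.2 (F.image fun c => c.1 ia.1))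
            (U ∪ F.biUnion fun c => univ.image c.1) ω) := Pr_or_le h0 h1 _ _
    _ ≤ Pr p (fun ω : Sym2 N → Bool => ¬ CopyFam K A D X M ω) +
        ∑ _ia : Fin k × V, ∑ _F ∈ (Cop A D X).powersetCard b, p ^ (mK A * b) * δ' := by
        gcongr
        refine (Pr_exists_le h0 h1 _ _).trans (sum_le_sum fun ia _ => ?_)
        refine (Pr_exists_le h0 h1 _ _).trans (sum_le_sum fun F hF => ?_)
        exact ustep_one h0 h1 hK A hDU hXU hDD hδ0 hδ ia hF
    _ ≤ _ := by
        gcongr
        rw [sum_const, sum_const, card_univ, Fintype.card_prod, Fintype.card_fin, card_powersetCard,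
          nsmul_eq_mul, nsmul_eq_mul]
        have hch : (((Cop A D X).card.choose b : ℕ) : ℝ) ≤ ((Cop A D X).card : ℝ) ^ b / (b.factorial : ℝ) :=
          Nat.choose_le_pow_div b _
        have hx : (((Cop A D X).card.choose b : ℕ) : ℝ) * p ^ (mK A * b) ≤
            Λ ^ b / (b.factorial : ℝ) := by
          calc _ ≤ ((Cop A D X).card : ℝ) ^ b / (b.factorial : ℝ) * p ^ (mK A * b) :=
                mul_le_mul_of_nonneg_right hch (by positivity)
            _ = (((Cop A D X).card : ℝ) * p ^ mK A) ^ b / (b.factorial : ℝ) := by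
                rw [mul_pow, ← pow_mul]; ring
            _ ≤ _ := by gcongr
        push_cast
        calc (k : ℝ) * (Fintype.card V : ℝ) * ((((Cop A D X).card.choose b : ℕ) : ℝ) *
              (p ^ (mK A * b) * δ')) = (k : ℝ) * (Fintype.card V : ℝ) *
              ((((Cop A D X).card.choose b : ℕ) : ℝ) * p ^ (mK A * b)) * δ' := by ring
          _ ≤ _ := by gcongr

end Pool.MP_65847d_pr
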