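import Pool.Agent.Lib.MP_65847d_pr.X.UMono
import Pool.Agent.Lib.MP_65847d_pr.X.UMin
import Pool.Agent.Lib.MP_65847d_pr.X.UStep
import Pool.Agent.Lib.MP_65847d_pr.X.UFailLow
import Pool.Agent.Lib.MP_65847d_pr.X.UFailHigh

/-!
# X/UInd : the probability of `HEv` for all states, by induction

Strong induction on `n - ∑ a, |D a|` (natural numbers; `∑ |D a| ≤ n` because the `D a` are disjoint subsets of `Fin n`), generalising `D`, `U`. Let `W = WD n α D` (`0 ≤ W ≤ 1`: `log |D a| / log n` with `1 ≤ |D a| < n^α ≤ n`), take the minimal tight `(K, A, w)` of `exists_min_tight (htight W _)`,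
`s = n^(min w α)`. `s ≥ log n ≥ 1` (`w > κ`, `n^w ≥ n^κ ≥ log n`, `n^α ≥ log n`; `n ≥ 3`). `∑ |D a| ≤ 3 r s` (`hI.small`), `|U| ≤ 3 k0 · 3 r s = 9 k0 r s ≤ n/4` (`s ≤ n^α`, `n^(1-α) ≥ n^d ≥ 64 k0² r`). `b = ⌈2 s⌉₊`, `M = k0 r b ≤ 3 k0 r s`.
`fail_low` (`min w α = w`) or `fail_high` (`min w α = α`), according to `hT.alt`: get `X` with `Λ = (3C)^g s` and the bound of `Pr (¬ CopyFam)`, which is `≤ exp (-((3 r K0 + r + 1) s)) / 2` by `hA`, and this is `≤ (1/2) n^(-(r+1)) exp (-(K0 ∑ |D a|))` (`∑ |D a| ≤ 3 r s`, `exp (-((r+1) s)) ≤ exp (-((r+1) log n)) = n^(-(r+1))`).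
`Pr_step` with `δ' = n^(-(r+1)) exp (-(K0 (∑ |D a| + s)))`: for the successors `StInv.succ` (`S ⊆ X` is disjoint from `U`) gives the invariant and `∑ |D' c| ≥ ∑ |D c| + s`, in particular the measure decreases (`s ≥ 1`), induction hypothesis and `K0 ≥ 0`. The second term is
`k r Λ^b/b! δ' ≤ (k0 r Λ^b / b! exp (-(K0 s))) n^(-(r+1)) exp (-(K0 ∑ |D a|)) ≤ (1/2) n^(-(r+1)) exp (..)` by `hB`.
-/

set_option autoImplicit false

open Finset

namespace Pool.MP_65847d_pr

open Pool.MP_1bacea_co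

private theorem uind_WD {V : Type*} [Fintype V] {n : ℕ} {α d : ℝ} (hn : 3 ≤ n) (hd : 0 < d)
    (hα1 : α ≤ 1 - d) {D : V → Finset (Fin n)} (hne : ∀ a, (D a).Nonempty) (a : V) :
    0 ≤ WD (n : ℝ) α D a ∧ WD (n : ℝ) α D a ≤ 1 := by
  have hn3 : (3 : ℝ) ≤ n := by exact_mod_cast hn
  have hlog : 0 < Real.log n := Real.log_pos (by linarith)
  have hcard : (1 : ℝ) ≤ ((D a).card : ℝ) := by exact_mod_cast (hne a).card_pos
  unfold WD
  by_cases h : (n : ℝ) ^ α ≤ ((D a).card : ℝ)
  · rw [if_pos h]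
    exact ⟨zero_le_one, le_rfl⟩
  · rw [if_neg h]
    push Not at h
    refine ⟨div_nonneg (Real.log_nonneg hcard) hlog.le, ?_⟩
    rw [div_le_one hlog]
    apply Real.log_le_log (by linarith)
    calc ((D a).card : ℝ) ≤ (n : ℝ) ^ α := h.le
      _ ≤ (n : ℝ) ^ (1 : ℝ) := Real.rpow_le_rpow_of_exponent_le (by linarith) (by linarith)
      _ = n := Real.rpow_one _

private theorem uind_sum_le {V : Type*} [Fintype V] {n : ℕ} {D : V → Finset (Fin n)}
    (hdisj : ∀ a b, a ≠ b → Disjoint (D a) (D b)) : ∑ a, (D a).card ≤ n := by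
  classical
  rw [← Finset.card_biUnion (fun a _ b _ hab => hdisj a b hab)]
  calc (Finset.univ.biUnion D).card ≤ (Finset.univ : Finset (Fin n)).card :=
        Finset.card_le_card (Finset.subset_univ _)
    _ = n := by rw [Finset.card_univ, Fintype.card_fin]

private theorem uind_s {n : ℕ} {κ α w : ℝ} (hn : 3 ≤ n) (hlog : Real.log n ≤ (n : ℝ) ^ κ)
    (hlogα : Real.log n ≤ (n : ℝ) ^ α) (hw : κ < w) :
    Real.log n ≤ (n : ℝ) ^ (min w α) ∧ 1 ≤ (n : ℝ) ^ (min w α) := by
  have hn3 : (3 : ℝ) ≤ n := by exact_mod_cast hn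
  have hl1 : 1 ≤ Real.log n := by
    rw [Real.le_log_iff_exp_le (by linarith)]
    have := Real.exp_one_lt_d9
    linarith
  have h1 : Real.log n ≤ (n : ℝ) ^ (min w α) := by
    rcases le_total w α with h | h
    · rw [min_eq_left h]
      exact hlog.trans (Real.rpow_le_rpow_of_exponent_le (by linarith) hw.le)
    · rw [min_eq_right h]
      exact hlogα
  exact ⟨h1, hl1.trans h1⟩

/-- the sets are small compared with `n` -/
private theorem uind_big {n r k0 : ℕ} {d C α p w : ℝ} (H : UH n r k0 d C α p) :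
    36 * ((k0 : ℝ) * r) * (n : ℝ) ^ (min w α) ≤ n := by
  have hn3 : (3 : ℝ) ≤ n := by exact_mod_cast H.hn
  have hk : (1 : ℝ) ≤ k0 := by exact_mod_cast H.hk0
  have hr : (1 : ℝ) ≤ r := by exact_mod_cast H.hr
  have hn0 : (0 : ℝ) < n := by linarith
  have hkr : (1 : ℝ) ≤ (k0 : ℝ) * r := one_le_mul_of_one_le_of_one_le hk hr
  have hC : 1 ≤ C := by
    have := H.hC
    nlinarith
  have h1 : (n : ℝ) ^ (min w α) ≤ (n : ℝ) ^ α :=
    Real.rpow_le_rpow_of_exponent_le (by linarith) (min_le_right _ _)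
  have h2 : (n : ℝ) ^ α * (n : ℝ) ^ d ≤ n := by
    rw [← Real.rpow_add hn0]
    calc (n : ℝ) ^ (α + d) ≤ (n : ℝ) ^ (1 : ℝ) :=
          Real.rpow_le_rpow_of_exponent_le (by linarith) (by linarith [H.hα1])
      _ = n := Real.rpow_one _
  have h3 : 64 * ((k0 : ℝ) * r) ≤ (n : ℝ) ^ d := by
    refine le_trans ?_ H.hbig
    have e1 : (1 : ℝ) ≤ (8 * (k0 : ℝ) * 2 ^ (r + k0)) ^ k0 := by
      apply one_le_pow₀
      have : (1 : ℝ) ≤ 2 ^ (r + k0) := one_le_pow₀ (by norm_num)
      nlinarith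
    have e2 : (k0 : ℝ) * r ≤ (k0 : ℝ) ^ 2 * r := by nlinarith
    have e3 : 64 * ((k0 : ℝ) * r) ≤ 64 * (k0 : ℝ) ^ 2 * r * C := by
      have : 64 * ((k0 : ℝ) * r) ≤ 64 * (k0 : ℝ) ^ 2 * r := by linarith
      have e4 : (0 : ℝ) ≤ 64 * (k0 : ℝ) ^ 2 * r := by positivity
      nlinarith
    have e5 : (0 : ℝ) ≤ 64 * (k0 : ℝ) ^ 2 * r * C := by positivity
    nlinarith
  have h4 : (0 : ℝ) ≤ (n : ℝ) ^ α := Real.rpow_nonneg hn0.le _
  calc 36 * ((k0 : ℝ) * r) * (n : ℝ) ^ (min w α) ≤ 36 * ((k0 : ℝ) * r) * (n : ℝ) ^ α := by gcongr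
    _ ≤ (n : ℝ) ^ d * (n : ℝ) ^ α := by
        apply mul_le_mul_of_nonneg_right _ h4
        linarith
    _ ≤ n := by rw [mul_comm]; exact h2

theorem HEv_bound {V : Type*} [Fintype V] [DecidableEq V] {E : V → V → Prop} {n k0 : ℕ} {κ d C α p : ℝ}
    (H : UH n (Fintype.card V) k0 d C α p) (hκ : 0 ≤ κ) (hlog : Real.log n ≤ (n : ℝ) ^ κ)
    (hlogα : Real.log n ≤ (n : ℝ) ^ α)
    (htight : ∀ W : V → ℝ, (∀ a, 0 ≤ W a ∧ W a ≤ 1) → ∃ k ≤ k0, ∃ (K : SimpleGraph (Fin k))
      (A : Fin k → Finset V) (w : ℝ), Tight E κ α W K A w) {K0 : ℝ} (hK0 : 0 ≤ K0)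
    (hA : ∀ s : ℝ, 1 ≤ s → ∀ b M : ℕ, b = ⌈2 * s⌉₊ → M = k0 * Fintype.card V * b →
        (∑ j ∈ range M, ((3 * C) ^ ug (Fintype.card V) k0 * s) ^ j / (j.factorial : ℝ)) *
          (k0 * Real.exp (-(uc6 (Fintype.card V) k0 * (C * s) / 8))) ≤
          Real.exp (-((3 * Fintype.card V * K0 + Fintype.card V + 1) * s)) / 2)
    (hB : ∀ s : ℝ, 1 ≤ s → ∀ b : ℕ, b = ⌈2 * s⌉₊ →
        ((k0 : ℝ) * Fintype.card V) * (((3 * C) ^ ug (Fintype.card V) k0 * s) ^ b / (b.factorial : ℝ)) *
          Real.exp (-(K0 * s)) ≤ 1 / 2)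
    (D : V → Finset (Fin n)) (U : Finset (Fin n)) (hI : StInv E κ α k0 D U) :
    Pr p (HEv E D U) ≤ (n : ℝ) ^ (-((Fintype.card V : ℝ) + 1)) *
      Real.exp (-(K0 * ∑ a, ((D a).card : ℝ))) := by
  have hn3 : (3 : ℝ) ≤ n := by exact_mod_cast H.hn
  have hn0 : (0 : ℝ) < n := by linarith
  have hk0 : (1 : ℝ) ≤ k0 := by exact_mod_cast H.hk0
  have hr1 : (1 : ℝ) ≤ (Fintype.card V : ℝ) := by exact_mod_cast H.hr
  have hC0 : 0 ≤ C := by
    have := H.hC
    have h2 : (0 : ℝ) ≤ 12 * (k0 : ℝ) * (Fintype.card V : ℝ) := by positivity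
    linarith
  have hp0 : 0 ≤ p := by
    rw [H.hp]
    exact mul_nonneg hC0 (Real.rpow_nonneg hn0.le _)
  have main : ∀ (N : ℕ) (D : V → Finset (Fin n)) (U : Finset (Fin n)),
      n - ∑ a, (D a).card = N → StInv E κ α k0 D U →
      Pr p (HEv E D U) ≤ (n : ℝ) ^ (-((Fintype.card V : ℝ) + 1)) *
        Real.exp (-(K0 * ∑ a, ((D a).card : ℝ))) := by
    intro N
    induction N using Nat.strong_induction_on with
    | _ N ih =>
      intro D U hN hI
      obtain ⟨k, hk, K, A, w, hT, hord, hmin⟩ := exists_min_tight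
        (htight (WD (n : ℝ) α D) (fun a => uind_WD H.hn H.hd H.hα1 hI.ne a))
      obtain ⟨hs2, hs1⟩ := uind_s (α := α) H.hn hlog hlogα hT.lt_w
      have hbigU := uind_big (w := w) H
      set s : ℝ := (n : ℝ) ^ (min w α) with hs
      have hs0 : 0 < s := by linarith
      have hsmall : ∀ a, ((D a).card : ℝ) ≤ 3 * s := hI.small k hk K A w hT
      set T : ℝ := ∑ a, ((D a).card : ℝ) with hTdef
      have hTs : T ≤ 3 * (Fintype.card V : ℝ) * s := by
        calc T ≤ ∑ _a : V, 3 * s := Finset.sum_le_sum fun a _ => hsmall a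
          _ = 3 * (Fintype.card V : ℝ) * s := by
              rw [Finset.sum_const, Finset.card_univ, nsmul_eq_mul]
              ring
      have hU : (U.card : ℝ) ≤ n / 4 := by
        have h1 := hI.Ucard
        rw [← hTdef] at h1
        have h2 : 3 * (k0 : ℝ) * T ≤ 3 * k0 * (3 * (Fintype.card V : ℝ) * s) :=
          mul_le_mul_of_nonneg_left hTs (by positivity)
        have h3 : 3 * (k0 : ℝ) * (3 * (Fintype.card V : ℝ) * s) =
            9 * ((k0 : ℝ) * (Fintype.card V : ℝ)) * s := by ring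
        have h4 : 36 * ((k0 : ℝ) * (Fintype.card V : ℝ)) * s =
            4 * (9 * ((k0 : ℝ) * (Fintype.card V : ℝ)) * s) := by ring
        linarith
      set b : ℕ := ⌈2 * s⌉₊ with hb
      have hb1 : 1 ≤ b := Nat.one_le_ceil_iff.2 (by linarith)
      have hb3 : (b : ℝ) ≤ 3 * s := by
        have := Nat.ceil_lt_add_one (show 0 ≤ 2 * s by linarith)
        rw [← hb] at this
        linarith
      set M : ℕ := k0 * Fintype.card V * b with hM
      have hMs : (M : ℝ) ≤ 3 * k0 * (Fintype.card V : ℝ) * s := by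
        rw [hM]
        push_cast
        calc (k0 : ℝ) * (Fintype.card V : ℝ) * b ≤ (k0 : ℝ) * (Fintype.card V : ℝ) * (3 * s) := by
              gcongr
          _ = 3 * k0 * (Fintype.card V : ℝ) * s := by ring
      have hX : ∃ X : Finset (Fin n), Disjoint X U ∧
          (X.card : ℝ) ^ k * (∏ i, ∏ a ∈ A i, ((D a).card : ℝ)) * p ^ mK A ≤
            (3 * C) ^ ug (Fintype.card V) k0 * s ∧
          Pr p (fun ω : Sym2 (Fin n) → Bool => ¬ CopyFam K A D X M ω) ≤
            (∑ j ∈ range M, ((3 * C) ^ ug (Fintype.card V) k0 * s) ^ j / (j.factorial : ℝ)) *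
              (k0 * Real.exp (-(uc6 (Fintype.card V) k0 * (C * s) / 8))) := by
        rcases hT.alt with ⟨hwα, hlab⟩ | ⟨hwα, hk1⟩
        · have e : min w α = w := min_eq_left hwα
          rw [e] at hs
          rw [hs] at hMs ⊢
          exact fail_low H hk hord hI.ne hI.sub hI.disj hU hT hwα hlab hMs
        · have e : min w α = α := min_eq_right hwα.le
          rw [e] at hs
          rw [hs] at hMs hsmall ⊢
          exact fail_high H hI.ne hI.sub hI.disj hU hT hwα hk1 hsmall hMs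
      obtain ⟨X, hXU, hΛ, hfail⟩ := hX
      have hfail2 := hfail.trans (hA s hs1 b M rfl rfl)
      have hB2 := hB s hs1 b rfl
      set Λ : ℝ := (3 * C) ^ ug (Fintype.card V) k0 * s with hΛdef
      have hΛ0 : 0 ≤ Λ := by positivity
      set q : ℝ := (n : ℝ) ^ (-((Fintype.card V : ℝ) + 1)) with hq
      have hq0 : 0 < q := Real.rpow_pos_of_pos hn0 _
      haveI : Nonempty V := Fintype.card_pos_iff.mp H.hr
      have hstep := Pr_step hp0 H.hp1 hT.tree A hI.sub hXU hI.disj hT.ncol hb1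
        (show k * Fintype.card V * b ≤ M from
          Nat.mul_le_mul_right b (Nat.mul_le_mul_right _ hk)) hΛ
        (δ' := q * Real.exp (-(K0 * (T + s)))) (by positivity) (by
          intro a ha S U' hSX hSc hUU hSU' hUc
          have hSU : Disjoint S U := Finset.disjoint_of_subset_left hSX hXU
          obtain ⟨hI', hsum⟩ := StInv.succ H hκ hI hk hT hmin ha hSU hSc hUU hSU'
            (by rw [hSc]; exact hUc)
          have hsum' : ∑ c, (D c).card < ∑ c, (Function.update D a S c).card := by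
            have h1 : ((∑ c, (D c).card : ℕ) : ℝ) < ((∑ c, (Function.update D a S c).card : ℕ) : ℝ) := by
              push_cast
              linarith
            exact_mod_cast h1
          have hle := uind_sum_le hI'.disj
          have h2 := ih (n - ∑ c, (Function.update D a S c).card) (by omega)
            (Function.update D a S) U' rfl hI'
          refine h2.trans ?_
          apply mul_le_mul_of_nonneg_left _ hq0.le
          apply Real.exp_le_exp.2
          have h3 := mul_le_mul_of_nonneg_left hsum hK0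
          linarith)
      refine hstep.trans ?_
      have hE1 : Real.exp (-((3 * Fintype.card V * K0 + Fintype.card V + 1) * s)) / 2 ≤
          q * Real.exp (-(K0 * T)) / 2 := by
        apply div_le_div_of_nonneg_right _ (by norm_num)
        have e1 : q = Real.exp (-(((Fintype.card V : ℝ) + 1) * Real.log n)) := by
          rw [hq, Real.rpow_def_of_pos hn0]
          congr 1
          ring
        rw [e1, ← Real.exp_add]
        apply Real.exp_le_exp.2
        have e2 := mul_le_mul_of_nonneg_left hTs hK0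
        have e3 : ((Fintype.card V : ℝ) + 1) * Real.log n ≤ ((Fintype.card V : ℝ) + 1) * s :=
          mul_le_mul_of_nonneg_left hs2 (by positivity)
        nlinarith
      have hE2 : ((k : ℝ) * Fintype.card V) * (Λ ^ b / (b.factorial : ℝ)) *
          (q * Real.exp (-(K0 * (T + s)))) ≤ q * Real.exp (-(K0 * T)) / 2 := by
        have e1 : Real.exp (-(K0 * (T + s))) = Real.exp (-(K0 * T)) * Real.exp (-(K0 * s)) := by
          rw [← Real.exp_add]
          congr 1
          ring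
        have e2 : (k : ℝ) ≤ k0 := by exact_mod_cast hk
        have e3 : 0 ≤ Λ ^ b / (b.factorial : ℝ) := by positivity
        have e4 : ((k : ℝ) * Fintype.card V) * (Λ ^ b / (b.factorial : ℝ)) *
            Real.exp (-(K0 * s)) ≤ 1 / 2 := by
          refine le_trans ?_ hB2
          gcongr
        have e5 : 0 ≤ q * Real.exp (-(K0 * T)) := by positivity
        calc ((k : ℝ) * Fintype.card V) * (Λ ^ b / (b.factorial : ℝ)) *
              (q * Real.exp (-(K0 * (T + s))))
            = (((k : ℝ) * Fintype.card V) * (Λ ^ b / (b.factorial : ℝ)) *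
              Real.exp (-(K0 * s))) * (q * Real.exp (-(K0 * T))) := by rw [e1]; ring
          _ ≤ 1 / 2 * (q * Real.exp (-(K0 * T))) := mul_le_mul_of_nonneg_right e4 e5
          _ = q * Real.exp (-(K0 * T)) / 2 := by ring
      linarith
  exact main _ D U rfl hI

end Pool.MP_65847d_pr
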