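import Pool.Agent.Lib.MP_65847d_pr.X.USize

/-!
# X/UMono : the levels do not decrease, the invariant persists

`tight_mono`: suppose `w' < min w α`, where `(K', A', w')` is tight for `W'`. Then the first alternative of `alt` holds: all labels `c` of `A'` have `W' c < w'`, so `a` is not a label (`w' < min w α < W' a`), and `W' = W` on the labels; so the weights (`kap` only looks at the labels) are the same for `W` and `W'`, and `Colours E W w' K' A'` would
imply `Colours E W' w' K' A'` (`W ≤ W'`). So `(K', A', w')` is tight for `W`, contradiction to `w ≤ w'` (`hmin`).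

`StInv.succ`: `x = (n:ℝ)`, `s = x ^ min w α ≥ 1` (`κ < w`, `0 ≤ κ`, `0 < α`), `b = ⌈2 s⌉₊`, `2 s ≤ b ≤ 2 s + 1 ≤ 3 s`. `W a < w` (`W = WD x α D`): not saturated (`W = 1 ≥ w`, `hT.w_le`), so `|D a| < x^α` and `|D a| = x^(W a) < x^w` (`WD_card`), so `|D a| ≤ s`. `W' = WD x α (update D a S)`, `W' c = W c` for `c ≠ a`.
`W' a > min w α`: if saturated `W' a = 1 > α`; otherwise `x^(W' a) = b ≥ 2 s > s = x^(min w α)`. `W a ≤ W' a`: if saturated `W' a = 1 ≥ W a`; else `W a = log |D a| / log x ≤ log b / log x`.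
* ne: `b ≥ 1`; sub, disj: clear (`S` disjoint from `U ⊇ D c`); sum: `∑ |update D a S c| = ∑ |D c| - |D a| + b ≥ ∑ |D c| + s`; Ucard: `|U'| ≤ |U| + k b ≤ 3 k0 ∑ |D c| + k0 (3 s) ≤ 3 k0 ∑ |update ..|`.
* small: for `(K', A', w')` tight for `W'`, `k' ≤ k0`: `min w α ≤ min w' α` by `tight_mono`, and all sizes are `≤ 3 s` (`hI.small` for `(K, A, w)`, and `b ≤ 3 s`).
-/

set_option autoImplicit false

open Finset

namespace Pool.MP_65847d_pr

theorem tight_mono {V : Type*} [Fintype V] {E : V → V → Prop} {κ α : ℝ} {W W' : V → ℝ} {k0 : ℕ} {w : ℝ}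
    {a : V} (hle : ∀ c, W c ≤ W' c) (hne : ∀ c, c ≠ a → W' c = W c)
    (hmin : ∀ k' ≤ k0, ∀ (K' : SimpleGraph (Fin k')) (A' : Fin k' → Finset V) (w' : ℝ),
      Tight E κ α W K' A' w' → w ≤ w') (ha : min w α < W' a) {k' : ℕ} (hk' : k' ≤ k0)
    {K' : SimpleGraph (Fin k')} {A' : Fin k' → Finset V} {w' : ℝ} (hT : Tight E κ α W' K' A' w') :
    min w α ≤ min w' α := by
  by_contra hcon
  rw [not_le] at hcon
  have h1 : w' < α := by
    by_contra h
    rw [not_lt] at h
    rw [min_eq_right h] at hcon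
    exact absurd (min_le_right w α) (not_le.2 hcon)
  rw [min_eq_left h1.le] at hcon
  have hlab : ∀ i, ∀ c ∈ A' i, W' c < w' := by
    rcases hT.alt with h | h
    · exact h.2
    · exact absurd h.1 (not_lt.2 h1.le)
  have hWW : ∀ i, ∀ c ∈ A' i, W' c = W c := fun i c hc => by
    refine hne c fun hca => ?_
    rw [hca] at hc
    have := hlab i a hc
    linarith
  have hwgt : ∀ U : Finset (Fin k'), wgt α W w' A' U = wgt α W' w' A' U := fun U => by
    unfold wgt
    congr 1
    refine sum_congr rfl fun y _ => ?_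
    congr 1
    refine sum_congr rfl fun c hc => ?_
    unfold kap
    rw [hWW y c hc]
  have hT' : Tight E κ α W K' A' w' := by
    refine ⟨hT.tree, hT.lt_w, hT.w_le, fun U hU => ?_, ?_, fun hcol => hT.ncol ?_, Or.inl ⟨h1.le, fun i c hc => ?_⟩⟩
    · rw [hwgt]
      exact hT.ge U hU
    · rw [hwgt]
      exact hT.eq
    · obtain ⟨φ, p1, p2, p3⟩ := hcol
      exact ⟨φ, p1, fun i => (p2 i).trans (hle _), p3⟩
    · rw [← hWW i c hc]
      exact hlab i c hc
  have := hmin k' hk' K' A' w' hT'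
  have h2 := min_le_left w α
  linarith

private lemma umono_WD_sat {n : ℕ} {V : Type*} {α : ℝ} {D : V → Finset (Fin n)} {a : V}
    (h : (n : ℝ) ^ α ≤ ((D a).card : ℝ)) : WD (n : ℝ) α D a = 1 := by
  classical
  unfold WD
  rw [if_pos h]

private lemma umono_WD_non {n : ℕ} {V : Type*} {α : ℝ} {D : V → Finset (Fin n)} {a : V}
    (h : ¬ (n : ℝ) ^ α ≤ ((D a).card : ℝ)) :
    WD (n : ℝ) α D a = Real.log ((D a).card : ℝ) / Real.log (n : ℝ) := by
  classical
  unfold WD
  rw [if_neg h]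

private lemma umono_WD_congr {n : ℕ} {V : Type*} {α : ℝ} {D D' : V → Finset (Fin n)} {a : V}
    (h : D a = D' a) : WD (n : ℝ) α D a = WD (n : ℝ) α D' a := by
  unfold WD
  rw [h]

theorem StInv.succ {V : Type*} [Fintype V] [DecidableEq V] {E : V → V → Prop} {n k k0 : ℕ} {κ d C α p w : ℝ}
    (H : UH n (Fintype.card V) k0 d C α p) (hκ : 0 ≤ κ) {D : V → Finset (Fin n)} {U : Finset (Fin n)}
    (hI : StInv E κ α k0 D U) (hk : k ≤ k0) {K : SimpleGraph (Fin k)} {A : Fin k → Finset V}
    (hT : Tight E κ α (WD (n : ℝ) α D) K A w)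
    (hmin : ∀ k' ≤ k0, ∀ (K' : SimpleGraph (Fin k')) (A' : Fin k' → Finset V) (w' : ℝ),
      Tight E κ α (WD (n : ℝ) α D) K' A' w' → w ≤ w') {a : V} (ha : WD (n : ℝ) α D a < w)
    {S U' : Finset (Fin n)} (hSU : Disjoint S U) (hS : S.card = ⌈2 * (n : ℝ) ^ (min w α)⌉₊)
    (hUU : U ⊆ U') (hSU' : S ⊆ U') (hc : U'.card ≤ U.card + k * S.card) :
    StInv E κ α k0 (Function.update D a S) U' ∧
      ∑ c, ((D c).card : ℝ) + (n : ℝ) ^ (min w α) ≤ ∑ c, ((Function.update D a S c).card : ℝ) := by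
  have hx3 : (3 : ℝ) ≤ n := by exact_mod_cast H.hn
  have hx1 : (1 : ℝ) < n := by linarith
  have hx0 : (0 : ℝ) < n := by linarith
  have hlog : 0 < Real.log (n : ℝ) := Real.log_pos hx1
  have hd := H.hd
  have hα0 : 0 < α := by linarith [H.hα]
  have hα1 : α < 1 := by linarith [H.hα1]
  have hw0 : 0 < w := lt_of_le_of_lt hκ hT.lt_w
  have hm0 : 0 < min w α := lt_min hw0 hα0
  obtain ⟨s, hs⟩ : ∃ s, s = (n : ℝ) ^ (min w α) := ⟨_, rfl⟩
  rw [← hs] at hS ⊢
  have hs1 : 1 ≤ s := by
    rw [hs]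
    exact Real.one_le_rpow hx1.le hm0.le
  have hb1 : 2 * s ≤ (S.card : ℝ) := by
    rw [hS]
    exact Nat.le_ceil _
  have hb2 : (S.card : ℝ) ≤ 3 * s := by
    rw [hS]
    have := Nat.ceil_lt_add_one (show (0 : ℝ) ≤ 2 * s by linarith)
    linarith
  have hW1 : WD (n : ℝ) α D a < 1 := ha.trans_le hT.w_le
  have hns : ¬ (n : ℝ) ^ α ≤ ((D a).card : ℝ) := fun h => by
    rw [umono_WD_sat h] at hW1
    exact lt_irrefl _ hW1
  have hDa : ((D a).card : ℝ) ≤ s := by
    rw [hs]
    rcases le_total w α with h | h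
    · rw [min_eq_left h, ← WD_card H.hn (hI.ne a) hW1]
      exact Real.rpow_le_rpow_of_exponent_le hx1.le ha.le
    · rw [min_eq_right h]
      exact (not_le.1 hns).le
  have hDa0 : (0 : ℝ) < ((D a).card : ℝ) := by
    rw [Nat.cast_pos, card_pos]
    exact hI.ne a
  have hup : ∀ c, c ≠ a → Function.update D a S c = D c := fun c h => Function.update_of_ne h S D
  have hua : Function.update D a S a = S := Function.update_self a S D
  have hne' : ∀ c, c ≠ a → WD (n : ℝ) α (Function.update D a S) c = WD (n : ℝ) α D c := fun c h =>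
    umono_WD_congr (hup c h)
  have hWa : WD (n : ℝ) α D a ≤ WD (n : ℝ) α (Function.update D a S) a ∧
      min w α < WD (n : ℝ) α (Function.update D a S) a := by
    by_cases hsat : (n : ℝ) ^ α ≤ ((Function.update D a S a).card : ℝ)
    · rw [umono_WD_sat hsat]
      exact ⟨hW1.le, (min_le_right _ _).trans_lt hα1⟩
    · rw [umono_WD_non hsat, umono_WD_non hns, hua]
      constructor
      · refine div_le_div_of_nonneg_right ?_ hlog.le
        exact Real.log_le_log hDa0 (by linarith)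
      · rw [lt_div_iff₀ hlog, ← Real.log_rpow hx0, ← hs]
        exact Real.log_lt_log (by linarith) (by linarith)
  have hle : ∀ c, WD (n : ℝ) α D c ≤ WD (n : ℝ) α (Function.update D a S) c := fun c => by
    by_cases h : c = a
    · rw [h]
      exact hWa.1
    · rw [hne' c h]
  have hsum : ∑ c, ((D c).card : ℝ) + s ≤ ∑ c, ((Function.update D a S c).card : ℝ) := by
    rw [← add_sum_erase univ (fun c => ((D c).card : ℝ)) (mem_univ a),
      ← add_sum_erase univ (fun c => ((Function.update D a S c).card : ℝ)) (mem_univ a)]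
    have h2 : ∑ c ∈ univ.erase a, ((Function.update D a S c).card : ℝ)
        = ∑ c ∈ univ.erase a, ((D c).card : ℝ) :=
      sum_congr rfl fun c hc => by rw [hup c (ne_of_mem_erase hc)]
    rw [h2, hua]
    linarith
  refine ⟨⟨fun c => ?_, fun c => ?_, fun c c' hcc => ?_, ?_, fun k' hk' K' A' w' hT' c => ?_⟩, hsum⟩
  · by_cases h : c = a
    · rw [h, hua, ← card_pos]
      have : (0 : ℝ) < S.card := by linarith
      exact_mod_cast this
    · rw [hup c h]
      exact hI.ne c
  · by_cases h : c = a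
    · rw [h, hua]
      exact hSU'
    · rw [hup c h]
      exact (hI.sub c).trans hUU
  · by_cases h : c = a
    · have h' : c' ≠ a := fun h2 => hcc (h.trans h2.symm)
      rw [h, hua, hup c' h']
      exact hSU.mono_right (hI.sub c')
    · by_cases h' : c' = a
      · rw [h', hua, hup c h]
        exact (hSU.mono_right (hI.sub c)).symm
      · rw [hup c h, hup c' h']
        exact hI.disj c c' hcc
  · have h1 : (U'.card : ℝ) ≤ U.card + k * S.card := by exact_mod_cast hc
    have h2 := hI.Ucard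
    have hk0 : (0 : ℝ) ≤ k0 := Nat.cast_nonneg _
    have hkk : (k : ℝ) ≤ k0 := by exact_mod_cast hk
    have h3 : (k : ℝ) * S.card ≤ k0 * (3 * s) :=
      mul_le_mul hkk hb2 (Nat.cast_nonneg _) hk0
    have h4 := mul_le_mul_of_nonneg_left hsum (show (0 : ℝ) ≤ 3 * k0 by positivity)
    calc (U'.card : ℝ) ≤ 3 * k0 * ∑ c, ((D c).card : ℝ) + k0 * (3 * s) := by linarith
      _ = 3 * k0 * (∑ c, ((D c).card : ℝ) + s) := by ring
      _ ≤ _ := h4
  · have h1 := tight_mono hle hne' hmin hWa.2 hk' hT'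
    have h2 : s ≤ (n : ℝ) ^ (min w' α) := by
      rw [hs]
      exact Real.rpow_le_rpow_of_exponent_le hx1.le h1
    by_cases h : c = a
    · rw [h, hua]
      linarith
    · rw [hup c h]
      have h3 := hI.small k hk K A w hT c
      rw [← hs] at h3
      linarith

end Pool.MP_65847d_pr
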