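import Pool.Agent.Lib.MP_65847d_pr.X.UDefs
import Pool.Agent.Lib.MP_65847d_pr.Maximal

/-!
# X/UNum : choice of the constants `C` and `K0`

`g = ug r k0`, `Λ0 = (3 C)^g`. For `s ≥ 1`, `b = ⌈2 s⌉₊ ≤ 2 s + 1 ≤ 3 s`, `M = k0 r b ≤ 3 k0 r s`, `ℓ = log (3 C) ≥ 0` (`C ≥ 12 k0 r ≥ 12`).
(B) `(Λ0 s)^b / b! = Λ0^b (s^b / b!) ≤ Λ0^b exp s` (`Real.pow_div_factorial_le_exp`) `≤ exp (3 g ℓ s + s)`. With `K0 := 3 g ℓ + 1 + 2 k0 r` : `k0 r exp (3 g ℓ s + s - K0 s) = k0 r exp (- 2 k0 r s) ≤ k0 r exp (- 2 k0 r) ≤ 1/2` (`y exp (-2y) ≤ 1/2` because `exp (2 y) ≥ 1 + 2 y ≥ 2 y`).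
(A) `sum_pow_factorial_le` (Maximal.lean) with `θ = 1 / Λ0` (`≤ 1`): `∑_{j<M} (Λ0 s)^j / j! ≤ Λ0^M exp s ≤ exp (3 k0 r g ℓ s + s)`; so the left side is `≤ k0 exp (3 k0 r g ℓ s + s - uc6 C s / 8)`, and `k0 ≤ exp k0 ≤ exp (k0 s)`, `1/2 ≥ exp (-1) ≥ exp (-s)`. It suffices that
`3 k0 r g ℓ + 1 + k0 + 1 + (3 r K0 + r + 1) ≤ uc6 C / 8`, where `K0 = 3 g ℓ + 1 + 2 k0 r`, `ℓ = log (3 C)`: true for all large `C` (`uc6 > 0` does not depend on `C`; `Real.isLittleO_log_id_atTop`, or `log (3C) ≤ 2 sqrt (3 C)`...). So: `Filter.eventually` in `C`, choose one `C`.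
-/

set_option autoImplicit false

open Finset Filter Topology

namespace Pool.MP_65847d_pr

private lemma unum_choose {α0 α1 u : ℝ} (h0 : 0 ≤ α0) (h1 : 0 ≤ α1) (hu : 0 < u) (c : ℝ) :
    ∃ C : ℝ, c ≤ C ∧ 1 ≤ C ∧ α1 * Real.log (3 * C) + α0 ≤ u * C := by
  have hε : 0 < u / (6 * (α1 + 1)) := by positivity
  have h2 := Real.isLittleO_log_id_atTop.bound hε
  have h3 : Tendsto (fun C : ℝ => 3 * C) atTop atTop := tendsto_id.const_mul_atTop (by norm_num)
  obtain ⟨C, h4, h5, h6, h7⟩ := ((h3.eventually h2).and ((eventually_ge_atTop c).and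
    ((eventually_ge_atTop (1 : ℝ)).and (eventually_ge_atTop (2 * α0 / u))))).exists
  refine ⟨C, h5, h6, ?_⟩
  have h8 : Real.log (3 * C) ≤ u / (6 * (α1 + 1)) * (3 * C) := by
    have h9 : ‖Real.log (3 * C)‖ ≤ u / (6 * (α1 + 1)) * ‖(3 * C : ℝ)‖ := h4
    rw [Real.norm_of_nonneg (by linarith : (0 : ℝ) ≤ 3 * C)] at h9
    exact (Real.le_norm_self _).trans h9
  have h10 : α1 * Real.log (3 * C) ≤ u * C / 2 := by
    have h11 : 0 ≤ Real.log (3 * C) := Real.log_nonneg (by linarith)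
    calc α1 * Real.log (3 * C) ≤ (α1 + 1) * Real.log (3 * C) := by nlinarith
      _ ≤ (α1 + 1) * (u / (6 * (α1 + 1)) * (3 * C)) :=
          mul_le_mul_of_nonneg_left h8 (by linarith)
      _ = u * C / 2 := by
          field_simp
          ring
  have h12 : α0 ≤ u * C / 2 := by
    rw [div_le_iff₀ hu] at h7
    linarith
  linarith

theorem exists_consts (r k0 : ℕ) (hr : 1 ≤ r) (hk0 : 1 ≤ k0) :
    ∃ C K0 : ℝ, 12 * (k0 : ℝ) * r ≤ C ∧ 0 ≤ K0 ∧
      (∀ s : ℝ, 1 ≤ s → ∀ b M : ℕ, b = ⌈2 * s⌉₊ → M = k0 * r * b →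
        (∑ j ∈ range M, ((3 * C) ^ ug r k0 * s) ^ j / (j.factorial : ℝ)) *
          (k0 * Real.exp (-(uc6 r k0 * (C * s) / 8))) ≤
          Real.exp (-((3 * r * K0 + r + 1) * s)) / 2) ∧
      (∀ s : ℝ, 1 ≤ s → ∀ b : ℕ, b = ⌈2 * s⌉₊ →
        ((k0 : ℝ) * r) * (((3 * C) ^ ug r k0 * s) ^ b / (b.factorial : ℝ)) * Real.exp (-(K0 * s)) ≤
          1 / 2) := by
  have hrR : (1 : ℝ) ≤ r := by exact_mod_cast hr
  have hkR : (1 : ℝ) ≤ k0 := by exact_mod_cast hk0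
  have hkr : (1 : ℝ) ≤ (k0 : ℝ) * r := by nlinarith
  obtain ⟨g, hg⟩ : ∃ g, g = ug r k0 := ⟨_, rfl⟩
  rw [← hg]
  have hu6 : 0 < uc6 r k0 := by
    unfold uc6 uc5
    positivity
  obtain ⟨C, hC1, hC2, hC3⟩ := unum_choose
    (α0 := 1 + k0 + 1 + 3 * r * (1 + 2 * (k0 * r)) + r + 1)
    (α1 := 3 * (k0 * r) * g + 9 * r * g) (u := uc6 r k0 / 8) (by positivity) (by positivity)
    (by positivity) (12 * (k0 : ℝ) * r)
  obtain ⟨ℓ, hℓ⟩ : ∃ ℓ, ℓ = Real.log (3 * C) := ⟨_, rfl⟩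
  rw [← hℓ] at hC3
  have hℓ0 : 0 ≤ ℓ := by
    rw [hℓ]
    exact Real.log_nonneg (by linarith)
  have hΛ : ∀ j : ℕ, ((3 * C) ^ g) ^ j = Real.exp (g * ℓ * j) := by
    intro j
    have h1 : (3 * C : ℝ) = Real.exp ℓ := by
      rw [hℓ, Real.exp_log (by linarith)]
    rw [h1, ← Real.exp_nat_mul, ← Real.exp_nat_mul]
    congr 1
    ring
  have hgl : 0 ≤ (g : ℝ) * ℓ := by positivity
  refine ⟨C, 3 * (g * ℓ) + 1 + 2 * (k0 * r), hC1, by positivity, ?_, ?_⟩
  · intro s hs b M hb hM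
    have hb3 : (b : ℝ) ≤ 3 * s := by
      have := (Nat.ceil_lt_add_one (a := 2 * s) (by linarith)).le
      rw [← hb] at this
      linarith
    have hM3 : (M : ℝ) ≤ 3 * (k0 * r) * s := by
      rw [hM]
      push_cast
      nlinarith
    have hΛ0 : 0 < (3 * C) ^ g := by positivity
    have hΛ1 : 1 ≤ (3 * C) ^ g := one_le_pow₀ (by linarith)
    have h1 := sum_pow_factorial_le (Λ := (3 * C) ^ g * s) (θ := 1 / (3 * C) ^ g)
      (by positivity) (by positivity) (by rw [div_le_one hΛ0]; exact hΛ1) M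
    have h2 : 1 / (3 * C) ^ g * ((3 * C) ^ g * s) = s := by field_simp
    rw [h2, one_div_one_div, hΛ, ← Real.exp_add] at h1
    have h3 : (k0 : ℝ) ≤ Real.exp (k0 * s) := by
      have := Real.add_one_le_exp ((k0 : ℝ) * s)
      nlinarith
    have h4 : Real.exp (-s) ≤ 1 / 2 := by
      have h5 : Real.exp (-s) ≤ Real.exp (-1) := Real.exp_le_exp.mpr (by linarith)
      have h6 : Real.exp (-1) ≤ 1 / 2 := by
        rw [Real.exp_neg, inv_le_comm₀ (Real.exp_pos _) (by norm_num)]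
        have := Real.add_one_le_exp (1 : ℝ)
        norm_num
        linarith
      linarith
    calc (∑ j ∈ range M, ((3 * C) ^ g * s) ^ j / (j.factorial : ℝ)) *
          (k0 * Real.exp (-(uc6 r k0 * (C * s) / 8)))
        ≤ Real.exp (g * ℓ * M + s) * (Real.exp (k0 * s) *
            Real.exp (-(uc6 r k0 * (C * s) / 8))) := by
          apply mul_le_mul h1 _ (by positivity) (by positivity)
          exact mul_le_mul_of_nonneg_right h3 (by positivity)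
      _ = Real.exp (g * ℓ * M + s + (k0 * s + -(uc6 r k0 * (C * s) / 8))) := by
          rw [← Real.exp_add, ← Real.exp_add]
      _ ≤ Real.exp (-((3 * r * (3 * (g * ℓ) + 1 + 2 * (k0 * r)) + r + 1) * s) + -s) := by
          apply Real.exp_le_exp.mpr
          have h5 : (g : ℝ) * ℓ * M ≤ g * ℓ * (3 * (k0 * r) * s) :=
            mul_le_mul_of_nonneg_left hM3 hgl
          have h6 := mul_le_mul_of_nonneg_right hC3 (by linarith : (0 : ℝ) ≤ s)
          nlinarith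
      _ = Real.exp (-((3 * r * (3 * (g * ℓ) + 1 + 2 * (k0 * r)) + r + 1) * s)) *
            Real.exp (-s) := by rw [Real.exp_add]
      _ ≤ Real.exp (-((3 * r * (3 * (g * ℓ) + 1 + 2 * (k0 * r)) + r + 1) * s)) * (1 / 2) :=
          mul_le_mul_of_nonneg_left h4 (by positivity)
      _ = _ := by ring
  · intro s hs b hb
    have hb3 : (b : ℝ) ≤ 3 * s := by
      have := (Nat.ceil_lt_add_one (a := 2 * s) (by linarith)).le
      rw [← hb] at this
      linarith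
    have h1 : ((3 * C) ^ g * s) ^ b / (b.factorial : ℝ) ≤ Real.exp (g * ℓ * (3 * s) + s) := by
      rw [mul_pow, mul_div_assoc, hΛ, Real.exp_add]
      apply mul_le_mul _ (Real.pow_div_factorial_le_exp s (by linarith) b) (by positivity)
        (by positivity)
      exact Real.exp_le_exp.mpr (mul_le_mul_of_nonneg_left hb3 hgl)
    obtain ⟨y, hy⟩ : ∃ y : ℝ, y = (k0 : ℝ) * r := ⟨_, rfl⟩
    rw [← hy] at hkr ⊢
    calc y * (((3 * C) ^ g * s) ^ b / (b.factorial : ℝ)) *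
          Real.exp (-((3 * (g * ℓ) + 1 + 2 * y) * s))
        ≤ y * Real.exp (g * ℓ * (3 * s) + s) * Real.exp (-((3 * (g * ℓ) + 1 + 2 * y) * s)) := by
          apply mul_le_mul_of_nonneg_right _ (by positivity)
          exact mul_le_mul_of_nonneg_left h1 (by linarith)
      _ = y * Real.exp (-(2 * y * s)) := by
          rw [mul_assoc, ← Real.exp_add]
          congr 2
          ring
      _ ≤ y * Real.exp (-(2 * y)) := by
          apply mul_le_mul_of_nonneg_left _ (by linarith)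
          apply Real.exp_le_exp.mpr
          nlinarith
      _ ≤ 1 / 2 := by
          rw [Real.exp_neg, ← div_eq_mul_inv, div_le_iff₀ (Real.exp_pos _)]
          have := Real.add_one_le_exp (2 * y)
          linarith

end Pool.MP_65847d_pr
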