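import Pool.Agent.Lib.MP_65847d_pr.X.UDefs

/-!
# X/URoot : the initial states

* `surj_roots`: `f` surjective homomorphism, `ρ a` a preimage of `a` (injective); `HEv` with the map `f`.
* `StInv_init`: `ne`, `sub`, `disj` clear; `|U| = |V| ≤ 3 k0 ∑ 1`; small: `1 ≤ 3 x^(min w α)` as `w > κ ≥ 0`, `α > 0`, `n ≥ 1`.
* `Pr_surj_le`: union bound (`Pr_exists_le`) over the finset of injective `ρ : V → Fin n`, at most `n ^ |V|` of them.
-/

set_option autoImplicit false

open Finset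

namespace Pool.MP_65847d_pr

open Pool.MP_1bacea_co

theorem surj_roots {V : Type*} [Fintype V] [DecidableEq V] {E : V → V → Prop} {n : ℕ}
    {ω : Sym2 (Fin n) → Bool} (h : SurjHom E (Gr ω)) :
    ∃ ρ : V → Fin n, Function.Injective ρ ∧ HEv E (fun a => {ρ a}) (univ.image ρ) ω := by
  obtain ⟨f, hs, hf⟩ := h
  choose ρ hρ using hs
  refine ⟨ρ, ?_, f, ?_, ?_⟩
  · intro a b hab
    have := congrArg f hab
    rwa [hρ, hρ] at this
  · intro a v hv
    rw [mem_singleton] at hv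
    rw [hv, hρ]
  · intro u v huv _
    exact hf u v huv

theorem StInv_init {V : Type*} [Fintype V] [DecidableEq V] {E : V → V → Prop} {n k0 : ℕ} {κ d C α p : ℝ}
    (H : UH n (Fintype.card V) k0 d C α p) (hκ : 0 ≤ κ) {ρ : V → Fin n} (hρ : Function.Injective ρ) :
    StInv E κ α k0 (fun a => {ρ a}) (univ.image ρ) := by
  have hk0 : (1 : ℝ) ≤ k0 := by exact_mod_cast H.hk0
  refine ⟨fun a => singleton_nonempty _, fun a => ?_, fun a b hab => ?_, ?_, ?_⟩
  · rw [singleton_subset_iff]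
    exact mem_image_of_mem _ (mem_univ _)
  · rw [disjoint_singleton]
    exact fun h => hab (hρ h)
  · have h1 : (univ.image ρ).card ≤ Fintype.card V := card_image_le
    have h2 : ((univ.image ρ).card : ℝ) ≤ (Fintype.card V : ℝ) := by exact_mod_cast h1
    simp only [card_singleton, Nat.cast_one, sum_const, card_univ, nsmul_eq_mul, mul_one]
    have h3 : (0 : ℝ) ≤ (Fintype.card V : ℝ) := Nat.cast_nonneg _
    nlinarith
  · intro k _ K A w hT a
    simp only [card_singleton, Nat.cast_one]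
    have hn : (1 : ℝ) ≤ n := by
      have := H.hn
      exact_mod_cast (show 1 ≤ n by omega)
    have hm : 0 ≤ min w α := le_min (hκ.trans hT.lt_w.le) (H.hd.le.trans H.hα)
    have h4 : (1 : ℝ) ≤ (n : ℝ) ^ (min w α) := Real.one_le_rpow hn hm
    linarith

theorem Pr_surj_le {V : Type*} [Fintype V] [DecidableEq V] {E : V → V → Prop} {n : ℕ} {p : ℝ} (h0 : 0 ≤ p)
    (h1 : p ≤ 1) {x : ℝ} (hx : 0 ≤ x)
    (h : ∀ ρ : V → Fin n, Function.Injective ρ → Pr p (HEv E (fun a => {ρ a}) (univ.image ρ)) ≤ x) :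
    Pr p (fun ω : Sym2 (Fin n) → Bool => SurjHom E (Gr ω)) ≤ (n : ℝ) ^ Fintype.card V * x := by
  classical
  set R : Finset (V → Fin n) := univ.filter fun ρ => Function.Injective ρ with hR
  have h2 : Pr p (fun ω : Sym2 (Fin n) → Bool => SurjHom E (Gr ω)) ≤
      Pr p (fun ω : Sym2 (Fin n) → Bool => ∃ ρ ∈ R, HEv E (fun a => {ρ a}) (univ.image ρ) ω) := by
    refine Pr_mono h0 h1 fun ω hω => ?_
    obtain ⟨ρ, hρ, hH⟩ := surj_roots hω
    exact ⟨ρ, by rw [hR, mem_filter]; exact ⟨mem_univ _, hρ⟩, hH⟩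
  refine h2.trans ((Pr_exists_le h0 h1 _ _).trans ?_)
  have h3 : ∀ ρ ∈ R, Pr p (fun ω : Sym2 (Fin n) → Bool => HEv E (fun a => {ρ a}) (univ.image ρ) ω) ≤ x := by
    intro ρ hρ
    rw [hR, mem_filter] at hρ
    exact h ρ hρ.2
  refine (sum_le_sum h3).trans ?_
  rw [sum_const, nsmul_eq_mul]
  refine mul_le_mul_of_nonneg_right ?_ hx
  have h4 : R.card ≤ n ^ Fintype.card V := by
    refine (card_le_univ _).trans ?_
    rw [Fintype.card_fun, Fintype.card_fin]
  exact_mod_cast h4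

end Pool.MP_65847d_pr
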