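import Pool.Agent.Lib.MP_65847d_pr.X.UDefs

/-!
# X/USel : subtrees spanned by selected children

`J i` is a set of children of `i`. Put `U i = {i} ∪ ⋃_{j ∈ J i} U j` (recursion). It is connected, contains `i`, and the union is disjoint. Proof: as `Inv`, `Inv.connected`, `Inv.disjoint`, `exists_set` in C/BVal.lean.
-/

set_option autoImplicit false

open Finset

namespace Pool.MP_65847d_pr

/-- the invariant of the sets of `exists_sel` -/
private def SInv {k : ℕ} (K : SimpleGraph (Fin k)) (i : Fin k) (U : Finset (Fin k)) : Prop :=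
  i ∈ U ∧ (∀ y ∈ U, y ≤ i) ∧ ∀ y ∈ U, y ≠ i → ∃ z ∈ U, y < z ∧ K.Adj y z

private theorem SInv.connected {k : ℕ} {K : SimpleGraph (Fin k)} {i : Fin k} {U : Finset (Fin k)}
    (h : SInv K i U) : (K.induce (U : Set (Fin k))).Connected := by
  obtain ⟨hi, hle, hp⟩ := h
  have key : ∀ m : ℕ, ∀ y : Fin k, ∀ hy : y ∈ (U : Set (Fin k)), (k - y.val = m) →
      (K.induce (U : Set (Fin k))).Reachable ⟨y, hy⟩ ⟨i, hi⟩ := by
    intro m
    induction m using Nat.strong_induction_on with
    | _ m ih =>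
      intro y hy hm
      by_cases hyi : y = i
      · subst hyi
        exact SimpleGraph.Reachable.refl _
      · obtain ⟨z, hz, hyz, hadj⟩ := hp y hy hyi
        have h1 : (K.induce (U : Set (Fin k))).Adj ⟨y, hy⟩ ⟨z, hz⟩ := hadj
        have hlt : y.val < z.val := hyz
        have hz2 := z.isLt
        exact h1.reachable.trans (ih (k - z.val) (by omega) z hz rfl)
  have : Nonempty (U : Set (Fin k)) := ⟨⟨i, hi⟩⟩
  refine SimpleGraph.Connected.mk fun x y => ?_
  exact (key _ x.1 x.2 rfl).trans (key _ y.1 y.2 rfl).symm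

private theorem SInv.disjoint {k : ℕ} {K : SimpleGraph (Fin k)}
    (hord : ∀ i j l, i < j → i < l → K.Adj i j → K.Adj i l → j = l) {i j j' : Fin k}
    {U U' : Finset (Fin k)} (h : SInv K j U) (h' : SInv K j' U') (hj : j < i) (hj' : j' < i)
    (hadj : K.Adj j i) (hadj' : K.Adj j' i) (hne : j ≠ j') : Disjoint U U' := by
  by_contra hcon
  rw [Finset.not_disjoint_iff_nonempty_inter] at hcon
  have hmem := Finset.max'_mem _ hcon
  have hmax := Finset.le_max' (U ∩ U')
  set y := (U ∩ U').max' hcon with hy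
  rw [Finset.mem_inter] at hmem
  by_cases h1 : y = j
  · have h2 : y ≠ j' := fun e => hne (h1.symm.trans e)
    obtain ⟨z, hz, hyz, hz2⟩ := h'.2.2 y hmem.2 h2
    have : z = i := by
      rw [h1] at hyz hz2
      exact hord j z i hyz hj hz2 hadj
    have := h'.2.1 z hz
    subst_vars
    exact absurd (lt_of_le_of_lt this hj') (lt_irrefl _)
  · by_cases h2 : y = j'
    · obtain ⟨z, hz, hyz, hz2⟩ := h.2.2 y hmem.1 h1
      have : z = i := by
        rw [h2] at hyz hz2
        exact hord j' z i hyz hj' hz2 hadj'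
      have := h.2.1 z hz
      subst_vars
      exact absurd (lt_of_le_of_lt this hj) (lt_irrefl _)
    · obtain ⟨z, hz, hyz, hz2⟩ := h.2.2 y hmem.1 h1
      obtain ⟨z', hz', hyz', hz2'⟩ := h'.2.2 y hmem.2 h2
      have : z = z' := hord y z z' hyz hyz' hz2 hz2'
      subst this
      have := hmax z (Finset.mem_inter.2 ⟨hz, hz'⟩)
      exact absurd (lt_of_lt_of_le hyz this) (lt_irrefl _)

/-- the sets -/
private def selSet {k : ℕ} (J : Fin k → Finset (Fin k)) (i : Fin k) : Finset (Fin k) :=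
  insert i ((J i).attach.biUnion fun j => if _h : j.1 < i then selSet J j.1 else ∅)
termination_by i

private theorem mem_selSet {k : ℕ} {J : Fin k → Finset (Fin k)} {i : Fin k} (hJ : ∀ j ∈ J i, j < i)
    (y : Fin k) : y ∈ selSet J i ↔ y = i ∨ ∃ j ∈ J i, y ∈ selSet J j := by
  rw [selSet, Finset.mem_insert, Finset.mem_biUnion]
  refine or_congr_right ?_
  constructor
  · rintro ⟨j, _, hy⟩
    rw [dif_pos (hJ j.1 j.2)] at hy
    exact ⟨j.1, j.2, hy⟩
  · rintro ⟨j, hj, hy⟩
    refine ⟨⟨j, hj⟩, Finset.mem_attach _ _, ?_⟩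
    rw [dif_pos (hJ j hj)]
    exact hy

theorem exists_sel {k : ℕ} {K : SimpleGraph (Fin k)} (hord : EOrd K) (J : Fin k → Finset (Fin k))
    (hJ : ∀ i, ∀ j ∈ J i, j < i ∧ K.Adj j i) :
    ∃ U : Fin k → Finset (Fin k), ∀ i, (K.induce ((U i : Finset (Fin k)) : Set (Fin k))).Connected ∧ i ∈ U i ∧
      ∀ f : Fin k → ℝ, ∑ y ∈ U i, f y = f i + ∑ j ∈ J i, ∑ y ∈ U j, f y := by
  have hmem : ∀ i y, y ∈ selSet J i ↔ y = i ∨ ∃ j ∈ J i, y ∈ selSet J j :=
    fun i y => mem_selSet (fun j hj => (hJ i j hj).1) y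
  have hinv : ∀ i, SInv K i (selSet J i) := by
    intro i
    induction i using WellFoundedLT.induction with
    | ind i ih =>
      refine ⟨(hmem i i).2 (Or.inl rfl), ?_, ?_⟩
      · intro y hy
        rcases (hmem i y).1 hy with rfl | ⟨j, hj, hyj⟩
        · exact le_rfl
        · exact ((ih j (hJ i j hj).1).2.1 y hyj).trans (hJ i j hj).1.le
      · intro y hy hyi
        rcases (hmem i y).1 hy with rfl | ⟨j, hj, hyj⟩
        · exact absurd rfl hyi
        · by_cases hyj' : y = j
          · subst hyj'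
            exact ⟨i, (hmem i i).2 (Or.inl rfl), (hJ i y hj).1, (hJ i y hj).2⟩
          · obtain ⟨z, hz, h1, h2⟩ := (ih j (hJ i j hj).1).2.2 y hyj hyj'
            exact ⟨z, (hmem i z).2 (Or.inr ⟨j, hj, hz⟩), h1, h2⟩
  refine ⟨selSet J, fun i => ⟨(hinv i).connected, (hinv i).1, fun f => ?_⟩⟩
  have hni : i ∉ (J i).biUnion (selSet J) := by
    intro h
    rw [Finset.mem_biUnion] at h
    obtain ⟨j, hj, hij⟩ := h
    have := (hinv j).2.1 i hij
    exact absurd (lt_of_le_of_lt this (hJ i j hj).1) (lt_irrefl _)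
  have heq : selSet J i = insert i ((J i).biUnion (selSet J)) := by
    ext y
    rw [hmem, Finset.mem_insert, Finset.mem_biUnion]
  rw [heq, Finset.sum_insert hni, Finset.sum_biUnion]
  intro j hj j' hj' hne
  exact SInv.disjoint hord (hinv j) (hinv j') (hJ i j hj).1 (hJ i j' hj').1 (hJ i j hj).2
    (hJ i j' hj').2 hne

end Pool.MP_65847d_pr
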