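import Pool.Agent.Lib.MP_65847d_pr.X.USel

/-!
# X/USize : the target sizes are large for a tight violation at a low level

Let `c = uc5 r k0 = 1 / (8 k0 2^(r+k0)) ≤ 1`, `x = (n:ℝ)`, `W = WD x α D`, `t i = tsz p m K A D i`. From `hbig`: `x^d ≥ C`, `x^d ≥ c⁻¹` etc. (`(8 k0 2^(r+k0))^k0 = (c⁻¹)^k0 ≥ c⁻¹`), and `x^(1-α) ≥ x^d`.
For a label `a ∈ A i`: `W a < w ≤ α < 1`, so `WD` is not `1`, `|D a| = x ^ W a` (`Real.rpow_def_of_pos`, `exp_log`, `|D a| ≥ 1`), `kap α W w a = α - W a`, `p |D a| = C x^(-(α - W a))`.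
Put `f y = 1 - α - ∑ a ∈ A y, (α - W a)` (so `wgt α W w A U = α + ∑ y ∈ U, f y`), `J i = {j < i, K.Adj j i, p * t j < 1}`, `U` from `exists_sel`.

Claim (strong induction): `c x ≤ t i` or `c ^ |U i| * (C * x ^ (α + ∑ y ∈ U i, f y)) ≤ t i`.
`t i ≥ (m/2) 2^(-(r + k0)) ∏_{a ∈ A i} min 1 (p |D a|) ∏_{children} min 1 (p t j) ≥ c x ∏_{a ∈ A i} min 1 (p |D a|) ∏_{j ∈ J i} (p t j)` (at most `r + k ≤ r + k0` factors `1/2`; `m / 2 ≥ x / (8 k0)`; factors of children outside `J i` are `1`).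
For `j ∈ J i` the first alternative is impossible: `p t j ≥ C x^(-α) c x = C c x^(1-α) ≥ 1`. So `p t j ≥ C x^(-α) c^|U j| C x^(α + ∑_{U j} f) = C² c^|U j| x^(∑_{U j} f)`. And `min 1 (p |D a|) ≥ x^(-(α - W a))` (`C ≥ 1`, `α ≥ W a`), with an extra factor `C` if `p |D a| < 1`.
* `J i = ∅` and `p |D a| ≥ 1` for all `a ∈ A i`: `t i ≥ c x`.
* otherwise there is at least one extra factor `C`: `t i ≥ c x * x^(-∑_a (α - W a)) * C * ∏_{j ∈ J i} (c^|U j| x^(∑_{U j} f)) = c^|U i| C x^(α + ∑_{U i} f)`, since `|U i| = 1 + ∑_{j ∈ J i} |U j|` and `α + ∑_{U i} f = 1 - ∑_a (α - W a) + ∑_{j ∈ J i} ∑_{U j} f` (`exists_sel` for `f` and for the constant `1`).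
Conclusion: `U i` is connected, so `w ≤ wgt (U i) = α + ∑_{U i} f` (`hT.ge`), `|U i| ≤ k ≤ k0`, `c ≤ 1`: second alternative `t i ≥ c^k0 C x^w`. First alternative: `c x ≥ c^k0 C x^w` as `x^(1-w) ≥ x^(1-α) ≥ x^d ≥ C`.
-/

set_option autoImplicit false

open Finset

namespace Pool.MP_65847d_pr

open Pool.MP_1bacea_co

theorem WD_card {n : ℕ} (hn : 3 ≤ n) {V : Type*} {α : ℝ} {D : V → Finset (Fin n)} {a : V}
    (hne : (D a).Nonempty) (h : WD (n : ℝ) α D a < 1) : (n : ℝ) ^ WD (n : ℝ) α D a = ((D a).card : ℝ) := by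
  have hx : (0 : ℝ) < n := by
    have : 0 < n := by omega
    exact_mod_cast this
  have hlog : 0 < Real.log n := Real.log_pos (by exact_mod_cast (by omega : 1 < n))
  have hc : (0 : ℝ) < ((D a).card : ℝ) := by exact_mod_cast hne.card_pos
  unfold WD at h ⊢
  split_ifs at h ⊢ with h1
  · exact absurd h (lt_irrefl _)
  · rw [Real.rpow_def_of_pos hx, mul_div_cancel₀ _ hlog.ne', Real.exp_log hc]

open Classical in
private theorem tsz_eq {V : Type*} [Fintype V] [DecidableEq V] {n k : ℕ} (p m : ℝ)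
    (K : SimpleGraph (Fin k)) (A : Fin k → Finset V) (D : V → Finset (Fin n)) (i : Fin k) :
    tsz p m K A D i = m / 2 * ((∏ a ∈ A i, min 1 (p * ((D a).card : ℝ)) / 2) *
    ∏ j : {j : Fin k // j < i ∧ K.Adj j i}, min 1 (p * tsz p m K A D j.1) / 2) := by
  rw [tsz]

private theorem tsz_pos {V : Type*} [Fintype V] [DecidableEq V] {n k : ℕ} {p m : ℝ} (hp : 0 < p)
    (hm : 0 < m) (K : SimpleGraph (Fin k)) (A : Fin k → Finset V) {D : V → Finset (Fin n)}
    (hne : ∀ a, (D a).Nonempty) (i : Fin k) : 0 < tsz p m K A D i := by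
  induction i using WellFoundedLT.induction with
  | ind i ih =>
    classical
    rw [tsz_eq]
    refine mul_pos (by linarith) (mul_pos (Finset.prod_pos fun a _ => ?_)
      (Finset.prod_pos fun j _ => ?_))
    · have : (0 : ℝ) < ((D a).card : ℝ) := by exact_mod_cast (hne a).card_pos
      have : 0 < min 1 (p * ((D a).card : ℝ)) := lt_min one_pos (mul_pos hp this)
      linarith
    · have : 0 < min 1 (p * tsz p m K A D j.1) := lt_min one_pos (mul_pos hp (ih j.1 j.2.1))
      linarith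

open Classical in
private noncomputable def Jset (p m : ℝ) {V : Type*} {n k : ℕ} [Fintype V] [DecidableEq V]
    (K : SimpleGraph (Fin k)) (A : Fin k → Finset V) (D : V → Finset (Fin n)) (i : Fin k) :
    Finset (Fin k) :=
  univ.filter fun j => (j < i ∧ K.Adj j i) ∧ p * tsz p m K A D j < 1

private theorem mem_Jset {p m : ℝ} {V : Type*} {n k : ℕ} [Fintype V] [DecidableEq V]
    {K : SimpleGraph (Fin k)} {A : Fin k → Finset V} {D : V → Finset (Fin n)} {i j : Fin k} :
    j ∈ Jset p m K A D i ↔ (j < i ∧ K.Adj j i) ∧ p * tsz p m K A D j < 1 := by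
  classical
  simp [Jset]

open Classical in
private theorem prod_children {V : Type*} [Fintype V] [DecidableEq V] {n k : ℕ} (p m : ℝ)
    (K : SimpleGraph (Fin k)) (A : Fin k → Finset V) (D : V → Finset (Fin n)) (i : Fin k) :
    ∏ j : {j : Fin k // j < i ∧ K.Adj j i}, min 1 (p * tsz p m K A D j.1) =
      ∏ j ∈ Jset p m K A D i, p * tsz p m K A D j := by
  classical
  have h1 : ∏ j : {j : Fin k // j < i ∧ K.Adj j i}, min 1 (p * tsz p m K A D j.1) =
      ∏ j ∈ (univ : Finset (Fin k)).filter (fun j => j < i ∧ K.Adj j i),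
        min 1 (p * tsz p m K A D j) := by
    rw [Finset.prod_subtype (F := inferInstance) (p := fun j : Fin k => j < i ∧ K.Adj j i)
      ((univ : Finset (Fin k)).filter (fun j => j < i ∧ K.Adj j i)) (by simp)
      (fun j => min 1 (p * tsz p m K A D j))]
  rw [h1]
  symm
  have hsub : Jset p m K A D i ⊆ (univ : Finset (Fin k)).filter (fun j => j < i ∧ K.Adj j i) := by
    intro j hj
    rw [mem_Jset] at hj
    simp [hj.1.1, hj.1.2]
  rw [← Finset.prod_subset hsub]
  · refine Finset.prod_congr rfl fun j hj => ?_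
    rw [mem_Jset] at hj
    rw [min_eq_right hj.2.le]
  · intro j hj hj2
    rw [mem_Jset] at hj2
    have hj' : j < i ∧ K.Adj j i := by simpa using hj
    exact min_eq_left (not_lt.1 fun h => hj2 ⟨hj', h⟩)

private theorem uc5_pos (r : ℕ) {k0 : ℕ} (hk0 : 1 ≤ k0) : 0 < uc5 r k0 := by
  unfold uc5
  have : (0 : ℝ) < k0 := by exact_mod_cast hk0
  positivity

private theorem uc5_inv (r k0 : ℕ) : (uc5 r k0)⁻¹ = 8 * (k0 : ℝ) * 2 ^ (r + k0) := by
  unfold uc5
  rw [one_div, inv_inv]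

private theorem uc5_inv_ge (r : ℕ) {k0 : ℕ} (hk0 : 1 ≤ k0) : 1 ≤ (uc5 r k0)⁻¹ := by
  rw [uc5_inv]
  have h1 : (1 : ℝ) ≤ k0 := by exact_mod_cast hk0
  have h2 : (1 : ℝ) ≤ 2 ^ (r + k0) := one_le_pow₀ (by norm_num)
  nlinarith

private theorem uc5_le (r : ℕ) {k0 : ℕ} (hk0 : 1 ≤ k0) : uc5 r k0 ≤ 1 := by
  have h := uc5_inv_ge r hk0
  have hp := uc5_pos r hk0
  calc uc5 r k0 = ((uc5 r k0)⁻¹)⁻¹ := (inv_inv _).symm
    _ ≤ 1 := inv_le_one_of_one_le₀ h

/-- lower bound of the targets by products -/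
private theorem tsz_ge {V : Type*} [Fintype V] [DecidableEq V] {n k k0 : ℕ} {p m : ℝ} (hp : 0 < p)
    (hm : 0 < m) (hk0 : 1 ≤ k0) (hk : k ≤ k0) (K : SimpleGraph (Fin k)) (A : Fin k → Finset V)
    {D : V → Finset (Fin n)} (hne : ∀ a, (D a).Nonempty) (hmn : (n : ℝ) / (4 * k0) ≤ m) (i : Fin k) :
    uc5 (Fintype.card V) k0 * (n : ℝ) * ((∏ a ∈ A i, min 1 (p * ((D a).card : ℝ))) *
      ∏ j ∈ Jset p m K A D i, p * tsz p m K A D j) ≤ tsz p m K A D i := by
  classical
  have hk0' : (0 : ℝ) < k0 := by exact_mod_cast hk0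
  rw [tsz_eq, Finset.prod_div_distrib, Finset.prod_div_distrib, Finset.prod_const,
    Finset.prod_const, prod_children]
  set P := ∏ a ∈ A i, min 1 (p * ((D a).card : ℝ)) with hP
  set Q := ∏ j ∈ Jset p m K A D i, p * tsz p m K A D j with hQ
  have hP0 : 0 ≤ P := Finset.prod_nonneg fun a _ =>
    le_min zero_le_one (mul_nonneg hp.le (Nat.cast_nonneg _))
  have hQ0 : 0 ≤ Q := Finset.prod_nonneg fun j _ =>
    (mul_pos hp (tsz_pos hp hm K A hne j)).le
  set s := (A i).card with hs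
  set t := (univ : Finset {j : Fin k // j < i ∧ K.Adj j i}).card with ht
  have hs1 : s ≤ Fintype.card V := Finset.card_le_univ _
  have ht1 : t ≤ k0 := by
    refine le_trans ?_ hk
    have := Fintype.card_subtype_le (fun j : Fin k => j < i ∧ K.Adj j i)
    rw [Fintype.card_fin] at this
    refine le_trans (le_of_eq ?_) this
    rw [ht, Finset.card_univ]
  have h2 : (2 : ℝ) ^ s * 2 ^ t ≤ 2 ^ (Fintype.card V + k0) := by
    rw [← pow_add]
    exact pow_le_pow_right₀ (by norm_num) (by omega)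
  have hst : (0 : ℝ) < 2 ^ s * 2 ^ t := by positivity
  have e1 : m / 2 * (P / 2 ^ s * (Q / 2 ^ t)) = m / 2 * (P * Q) / (2 ^ s * 2 ^ t) := by
    field_simp
  rw [e1, le_div_iff₀ hst]
  have hn0 : (0 : ℝ) ≤ n := Nat.cast_nonneg _
  have hcp := uc5_pos (Fintype.card V) hk0
  have e2 : uc5 (Fintype.card V) k0 * (n : ℝ) * 2 ^ (Fintype.card V + k0) = n / (4 * k0) / 2 := by
    unfold uc5
    field_simp
    ring
  have h3 : uc5 (Fintype.card V) k0 * (n : ℝ) * (2 ^ s * 2 ^ t) ≤ m / 2 := by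
    calc uc5 (Fintype.card V) k0 * (n : ℝ) * (2 ^ s * 2 ^ t)
        ≤ uc5 (Fintype.card V) k0 * (n : ℝ) * 2 ^ (Fintype.card V + k0) :=
          mul_le_mul_of_nonneg_left h2 (by positivity)
      _ = n / (4 * k0) / 2 := e2
      _ ≤ m / 2 := by linarith
  calc uc5 (Fintype.card V) k0 * (n : ℝ) * (P * Q) * (2 ^ s * 2 ^ t)
      = uc5 (Fintype.card V) k0 * (n : ℝ) * (2 ^ s * 2 ^ t) * (P * Q) := by ring
    _ ≤ m / 2 * (P * Q) := mul_le_mul_of_nonneg_right h3 (mul_nonneg hP0 hQ0)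

theorem tsz_low {V : Type*} [Fintype V] [DecidableEq V] {E : V → V → Prop} {n k k0 : ℕ}
    {κ d C α p w m : ℝ} (H : UH n (Fintype.card V) k0 d C α p) (hk : k ≤ k0) {K : SimpleGraph (Fin k)}
    {A : Fin k → Finset V} (hord : EOrd K) {D : V → Finset (Fin n)} (hne : ∀ a, (D a).Nonempty)
    (hT : Tight E κ α (WD (n : ℝ) α D) K A w) (hwα : w ≤ α)
    (hlab : ∀ i, ∀ a ∈ A i, WD (n : ℝ) α D a < w) (hm : (n : ℝ) / (4 * k0) ≤ m) (i : Fin k) :
    uc5 (Fintype.card V) k0 ^ k0 * (C * (n : ℝ) ^ w) ≤ tsz p m K A D i := by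
  classical
  obtain ⟨hk0, hr, hn, hd, hα, hα1, hC, hbig, hp, hp1⟩ := H
  set r := Fintype.card V with hrdef
  set x : ℝ := (n : ℝ) with hx
  set W := WD x α D with hW
  have hk0' : (1 : ℝ) ≤ k0 := by exact_mod_cast hk0
  have hr' : (1 : ℝ) ≤ r := by exact_mod_cast hr
  have hx3 : (3 : ℝ) ≤ x := by rw [hx]; exact_mod_cast hn
  have hx0 : 0 < x := by linarith
  have hx1 : 1 < x := by linarith
  have hkr : (1 : ℝ) ≤ (k0 : ℝ) * r := by nlinarith
  have hC1 : 1 ≤ C := by
    have : 12 * (k0 : ℝ) * r = 12 * ((k0 : ℝ) * r) := by ring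
    linarith
  have hC0 : 0 < C := by linarith
  have hp0 : 0 < p := by rw [hp]; exact mul_pos hC0 (Real.rpow_pos_of_pos hx0 _)
  have hm0 : 0 < m := lt_of_lt_of_le (by positivity) hm
  set c := uc5 r k0 with hc
  have hc0 : 0 < c := uc5_pos r hk0
  have hc1 : c ≤ 1 := uc5_le r hk0
  have hci : 1 ≤ c⁻¹ := uc5_inv_ge r hk0
  -- the big inequality
  have hbig1 : C * c⁻¹ ≤ x ^ d := by
    have h1 : c⁻¹ ≤ (8 * (k0 : ℝ) * 2 ^ (r + k0)) ^ k0 := by
      rw [← uc5_inv, ← hc]
      exact le_self_pow₀ hci (by omega)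
    have h2 : 0 ≤ (8 * (k0 : ℝ) * 2 ^ (r + k0)) ^ k0 := by positivity
    have h3 : (1 : ℝ) ≤ 64 * (k0 : ℝ) ^ 2 * r := by nlinarith [sq_nonneg ((k0 : ℝ))]
    calc C * c⁻¹ ≤ C * (8 * (k0 : ℝ) * 2 ^ (r + k0)) ^ k0 := mul_le_mul_of_nonneg_left h1 hC0.le
      _ ≤ (64 * (k0 : ℝ) ^ 2 * r) * (C * (8 * (k0 : ℝ) * 2 ^ (r + k0)) ^ k0) :=
          le_mul_of_one_le_left (by positivity) h3
      _ = 64 * (k0 : ℝ) ^ 2 * r * C * (8 * (k0 : ℝ) * 2 ^ (r + k0)) ^ k0 := by ring
      _ ≤ x ^ d := hbig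
  have hxα : x ^ d ≤ x ^ (1 - α) := Real.rpow_le_rpow_of_exponent_le hx1.le (by linarith)
  have hxw : x ^ (1 - α) ≤ x ^ (1 - w) := Real.rpow_le_rpow_of_exponent_le hx1.le (by linarith)
  have hCd : C ≤ x ^ d := le_trans (le_mul_of_one_le_right hC0.le hci) hbig1
  -- labels
  have hWlt : ∀ i, ∀ a ∈ A i, W a < α := fun i a ha => lt_of_lt_of_le (hlab i a ha) hwα
  have hcard : ∀ i, ∀ a ∈ A i, ((D a).card : ℝ) = x ^ W a := fun i a ha =>
    (WD_card hn (hne a) (by have := hWlt i a ha; linarith)).symm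
  have hpD : ∀ i, ∀ a ∈ A i, p * ((D a).card : ℝ) = C * x ^ (-(α - W a)) := by
    intro i a ha
    rw [hcard i a ha, hp, mul_assoc, ← Real.rpow_add hx0]
    congr 2
    ring
  have hg1 : ∀ i, ∀ a ∈ A i, x ^ (-(α - W a)) ≤ 1 := by
    intro i a ha
    have := hWlt i a ha
    exact Real.rpow_le_one_of_one_le_of_nonpos hx1.le (by linarith)
  have hgmin : ∀ i, ∀ a ∈ A i, x ^ (-(α - W a)) ≤ min 1 (p * ((D a).card : ℝ)) := by
    intro i a ha
    refine le_min (hg1 i a ha) ?_
    rw [hpD i a ha]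
    exact le_mul_of_one_le_left (Real.rpow_nonneg hx0.le _) hC1
  have hgC : ∀ i, ∀ a ∈ A i, p * ((D a).card : ℝ) < 1 →
      C * x ^ (-(α - W a)) ≤ min 1 (p * ((D a).card : ℝ)) := by
    intro i a ha h
    rw [min_eq_right h.le, hpD i a ha]
  obtain ⟨U, hU⟩ := exists_sel hord (Jset p m K A D) (fun i j hj => by
    rw [mem_Jset] at hj; exact hj.1)
  set f : Fin k → ℝ := fun y => 1 - α - ∑ a ∈ A y, (α - W a) with hf
  have hUcard : ∀ i, (U i).card = 1 + ∑ j ∈ Jset p m K A D i, (U j).card := by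
    intro i
    have h := (hU i).2.2 (fun _ => 1)
    simp only [Finset.sum_const, nsmul_eq_mul, mul_one] at h
    exact_mod_cast h
  have main : ∀ i, c * x ≤ tsz p m K A D i ∨
      c ^ (U i).card * (C * x ^ (α + ∑ y ∈ U i, f y)) ≤ tsz p m K A D i := by
    intro i
    induction i using WellFoundedLT.induction with
    | ind i ih =>
      have hge := tsz_ge hp0 hm0 hk0 hk K A hne hm i
      rw [← hrdef, ← hc, ← hx] at hge
      set P := ∏ a ∈ A i, min 1 (p * ((D a).card : ℝ)) with hP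
      set J := Jset p m K A D i with hJ
      -- the children in J
      have hchild : ∀ j ∈ J, C * (c ^ (U j).card * x ^ (∑ y ∈ U j, f y)) ≤ p * tsz p m K A D j := by
        intro j hj
        rw [hJ, mem_Jset] at hj
        rcases ih j hj.1.1 with h | h
        · exfalso
          have h1 : 1 ≤ p * tsz p m K A D j := by
            have e : p * (c * x) = C * c * x ^ (1 - α) := by
              rw [hp]
              have : x ^ (1 - α) = x ^ (-α) * x := by
                rw [← Real.rpow_add_one hx0.ne']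
                congr 1; ring
              rw [this]; ring
            calc (1 : ℝ) ≤ C * C := by nlinarith
              _ = C * c * (C * c⁻¹) := by field_simp
              _ ≤ C * c * x ^ (1 - α) := mul_le_mul_of_nonneg_left (hbig1.trans hxα) (by positivity)
              _ = p * (c * x) := e.symm
              _ ≤ p * tsz p m K A D j := mul_le_mul_of_nonneg_left h hp0.le
          linarith [hj.2]
        · have hpos : 0 < c ^ (U j).card * x ^ (∑ y ∈ U j, f y) :=
            mul_pos (pow_pos hc0 _) (Real.rpow_pos_of_pos hx0 _)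
          calc C * (c ^ (U j).card * x ^ (∑ y ∈ U j, f y))
              ≤ C * (C * (c ^ (U j).card * x ^ (∑ y ∈ U j, f y))) := by
                refine mul_le_mul_of_nonneg_left ?_ hC0.le
                exact le_mul_of_one_le_left hpos.le hC1
            _ = p * (c ^ (U j).card * (C * x ^ (α + ∑ y ∈ U j, f y))) := by
                rw [hp]
                have : x ^ (∑ y ∈ U j, f y) = x ^ (-α) * x ^ (α + ∑ y ∈ U j, f y) := by
                  rw [← Real.rpow_add hx0]
                  congr 1; ring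
                rw [this]; ring
            _ ≤ p * tsz p m K A D j := mul_le_mul_of_nonneg_left h hp0.le
      have hG0 : 0 < ∏ a ∈ A i, x ^ (-(α - W a)) :=
        Finset.prod_pos fun a _ => Real.rpow_pos_of_pos hx0 _
      have hS0 : 0 < ∏ j ∈ J, c ^ (U j).card * x ^ (∑ y ∈ U j, f y) :=
        Finset.prod_pos fun j _ => mul_pos (pow_pos hc0 _) (Real.rpow_pos_of_pos hx0 _)
      have hPG : ∏ a ∈ A i, x ^ (-(α - W a)) ≤ P :=
        Finset.prod_le_prod (fun a _ => Real.rpow_nonneg hx0.le _) (fun a ha => hgmin i a ha)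
      have hQC : C ^ J.card * ∏ j ∈ J, (c ^ (U j).card * x ^ (∑ y ∈ U j, f y)) ≤
          ∏ j ∈ J, p * tsz p m K A D j := by
        rw [← Finset.prod_const, ← Finset.prod_mul_distrib]
        exact Finset.prod_le_prod (fun j _ => mul_nonneg hC0.le
          (mul_nonneg (pow_nonneg hc0.le _) (Real.rpow_nonneg hx0.le _))) hchild
      -- the identity of the exponents
      have hexp : c * x * ((∏ a ∈ A i, x ^ (-(α - W a))) *
          (C * ∏ j ∈ J, (c ^ (U j).card * x ^ (∑ y ∈ U j, f y)))) =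
          c ^ (U i).card * (C * x ^ (α + ∑ y ∈ U i, f y)) := by
        rw [Finset.prod_mul_distrib, Finset.prod_pow_eq_pow_sum, hUcard i, (hU i).2.2 f, pow_add,
          pow_one, ← Real.rpow_sum_of_pos hx0, ← Real.rpow_sum_of_pos hx0]
        have e : x ^ (α + (f i + ∑ j ∈ Jset p m K A D i, ∑ y ∈ U j, f y)) =
            x * x ^ (∑ a ∈ A i, -(α - W a)) * x ^ (∑ j ∈ J, ∑ y ∈ U j, f y) := by
          have e1 : α + (f i + ∑ j ∈ Jset p m K A D i, ∑ y ∈ U j, f y) =
              1 + (∑ a ∈ A i, -(α - W a)) + ∑ j ∈ J, ∑ y ∈ U j, f y := by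
            rw [hf, hJ, Finset.sum_neg_distrib]
            ring
          rw [e1, Real.rpow_add hx0, Real.rpow_add hx0, Real.rpow_one]
        rw [e, hJ]
        ring
      by_cases hcase : J = ∅ ∧ ∀ a ∈ A i, 1 ≤ p * ((D a).card : ℝ)
      · left
        have hP1 : P = 1 := Finset.prod_eq_one fun a ha => min_eq_left (hcase.2 a ha)
        rw [hP1, hcase.1, Finset.prod_empty, mul_one, mul_one] at hge
        exact hge
      · right
        rw [← hexp]
        refine le_trans (mul_le_mul_of_nonneg_left ?_ (by positivity)) hge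
        by_cases hJe : J = ∅
        · have hex : ∃ a ∈ A i, p * ((D a).card : ℝ) < 1 := by
            by_contra hno
            push Not at hno
            exact hcase ⟨hJe, hno⟩
          obtain ⟨a0, ha0, hlt⟩ := hex
          rw [hJe, Finset.prod_empty, Finset.prod_empty, mul_one, mul_one, hP,
            ← Finset.mul_prod_erase _ _ ha0, ← Finset.mul_prod_erase _ _ ha0]
          have h1 := hgC i a0 ha0 hlt
          have h2 : ∏ a ∈ (A i).erase a0, x ^ (-(α - W a)) ≤
              ∏ a ∈ (A i).erase a0, min 1 (p * ((D a).card : ℝ)) :=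
            Finset.prod_le_prod (fun a _ => Real.rpow_nonneg hx0.le _)
              (fun a ha => hgmin i a (Finset.mem_of_mem_erase ha))
          have h3 : 0 ≤ ∏ a ∈ (A i).erase a0, x ^ (-(α - W a)) :=
            Finset.prod_nonneg fun a _ => Real.rpow_nonneg hx0.le _
          have h4 : 0 ≤ min 1 (p * ((D a0).card : ℝ)) :=
            le_min zero_le_one (mul_nonneg hp0.le (Nat.cast_nonneg _))
          calc x ^ (-(α - W a0)) * (∏ a ∈ (A i).erase a0, x ^ (-(α - W a))) * C
              = (C * x ^ (-(α - W a0))) * ∏ a ∈ (A i).erase a0, x ^ (-(α - W a)) := by ring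
            _ ≤ min 1 (p * ((D a0).card : ℝ)) *
                ∏ a ∈ (A i).erase a0, min 1 (p * ((D a).card : ℝ)) :=
              mul_le_mul h1 h2 h3 h4
        · have hcardJ : 1 ≤ J.card := Finset.card_pos.2 (Finset.nonempty_iff_ne_empty.2 hJe)
          have hCJ : C ≤ C ^ J.card := le_self_pow₀ hC1 (by omega)
          have h1 : C * ∏ j ∈ J, (c ^ (U j).card * x ^ (∑ y ∈ U j, f y)) ≤
              ∏ j ∈ J, p * tsz p m K A D j :=
            le_trans (mul_le_mul_of_nonneg_right hCJ hS0.le) hQC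
          exact mul_le_mul hPG h1 (mul_nonneg hC0.le hS0.le) (le_trans hG0.le hPG)
  have hcc : c ^ k0 ≤ c := pow_le_of_le_one hc0.le hc1 (by omega)
  rcases main i with h | h
  · refine le_trans ?_ h
    have h1 : C * x ^ w ≤ x := by
      have e : x = x ^ (1 - w) * x ^ w := by
        rw [← Real.rpow_add hx0]
        simp
      calc C * x ^ w ≤ x ^ (1 - w) * x ^ w :=
            mul_le_mul_of_nonneg_right (hCd.trans (hxα.trans hxw)) (Real.rpow_nonneg hx0.le _)
        _ = x := e.symm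
    exact mul_le_mul hcc h1 (mul_nonneg hC0.le (Real.rpow_nonneg hx0.le _)) hc0.le
  · refine le_trans ?_ h
    have hw : w ≤ α + ∑ y ∈ U i, f y := by
      have h1 := hT.ge (U i) (hU i).1
      have h2 : wgt α W w A (U i) = α + ∑ y ∈ U i, f y := by
        unfold wgt
        congr 1
        refine Finset.sum_congr rfl fun y _ => ?_
        simp only [hf]
        congr 1
        refine Finset.sum_congr rfl fun a ha => ?_
        have h3 := hlab y a ha
        have h4 := hWlt y a ha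
        unfold kap
        rw [min_eq_left h3.le, max_eq_right (by linarith)]
      rw [← h2]
      exact h1
    have hUk : (U i).card ≤ k0 := by
      refine le_trans (Finset.card_le_univ _) ?_
      rw [Fintype.card_fin]
      exact hk
    refine mul_le_mul (pow_le_pow_of_le_one hc0.le hc1 hUk) ?_
      (mul_nonneg hC0.le (Real.rpow_nonneg hx0.le _)) (pow_nonneg hc0.le _)
    exact mul_le_mul_of_nonneg_left (Real.rpow_le_rpow_of_exponent_le hx1.le hw) hC0.le

end Pool.MP_65847d_pr
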