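import Pool.Agent.Lib.MP_65847d_pr.X.XDefs
import Pool.Agent.Lib.MP_65847d_pr.C.Final

/-!
# X/XMain : from the two finite bounds to the threshold, main case
-/

set_option autoImplicit false

open Finset Filter Topology Asymptotics

namespace Pool.MP_65847d_pr

open Pool.MP_1bacea_co

/-- statement of the lower bound -/
def LowerBd {V : Type*} (E : V → V → Prop) : Prop :=
  ∀ d : ℝ, 0 < d → ∀ ε : ℝ, 0 < ε → ∃ c : ℝ, 0 < c ∧ ∃ n0 : ℕ, ∀ n ≥ n0, ∀ α, d ≤ α → α ≤ 1 - d →
      (∃ W, StableFrom E (Real.log (Real.log n) / Real.log n) α W) → ∀ p : ℝ, 0 ≤ p →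
      p ≤ c * (n : ℝ) ^ (-α) →
      Pr p (fun ω : Sym2 (Fin n) → Bool => ¬ SurjHom E (Gr ω)) ≤ ε

/-- statement of the upper bound -/
def UpperBd {V : Type*} (E : V → V → Prop) : Prop :=
  ∀ d : ℝ, 0 < d → ∀ ε : ℝ, 0 < ε → ∃ C : ℝ, 0 < C ∧ ∃ n0 : ℕ, ∀ n ≥ n0, ∀ α, d ≤ α → α ≤ 1 - d →
      (¬ ∃ W, StableFrom E (Real.log (Real.log n) / Real.log n) α W) → ∀ p : ℝ,
      C * (n : ℝ) ^ (-α) ≤ p → p ≤ 1 →
      Pr p (fun ω : Sym2 (Fin n) → Bool => SurjHom E (Gr ω)) ≤ ε

theorem expoFrom_bddBelow {V : Type*} (E : V → V → Prop) (κ : ℝ) :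
    BddBelow ({α : ℝ | 0 < α ∧ α < 1 ∧ ∃ W : V → ℝ, StableFrom E κ α W} ∪ {1}) := by
  refine ⟨0, ?_⟩
  rintro x (hx | hx)
  · exact hx.1.le
  · rw [Set.mem_singleton_iff.mp hx]; norm_num

/-- `κ_n → 0+`, `log n → ∞` -/
theorem kappa_tendsto : Tendsto (fun n : ℕ => Real.log (Real.log n) / Real.log n) atTop (𝓝 0) := by
  have h1 : Tendsto (fun x : ℝ => Real.log x / x) atTop (𝓝 0) :=
    Real.isLittleO_log_id_atTop.tendsto_div_nhds_zero
  exact h1.comp (Real.tendsto_log_atTop.comp tendsto_natCast_atTop_atTop)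

theorem kappa_pow {n : ℕ} (hn : 1 < Real.log n) (al be : ℝ) :
    (n : ℝ) ^ (-(al - be * (Real.log (Real.log n) / Real.log n))) = (n : ℝ) ^ (-al) * Real.log n ^ be := by
  have hn0 : (0 : ℝ) < n := by
    rcases Nat.eq_zero_or_pos n with h | h
    · subst h
      simp at hn
      linarith
    · exact_mod_cast h
  have hL : 0 < Real.log n := by linarith
  have e1 : -(al - be * (Real.log (Real.log n) / Real.log n)) =
      -al + Real.log (Real.log n) / Real.log n * be := by ring
  rw [e1, Real.rpow_add hn0, Real.rpow_mul hn0.le]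
  congr 2
  rw [Real.rpow_def_of_pos hn0, mul_div_cancel₀ _ hL.ne', Real.exp_log hL]

theorem threshold_main {V : Type*} {E : V → V → Prop} (hlow : LowerBd E) (hup : UpperBd E) {d : ℝ}
    (hd : 0 < d) {k0 : ℝ} (hk0 : 0 < k0) {al be : ℝ}
    (haff : ∀ κ, 0 < κ → κ ≤ k0 → expoFrom E κ = al - be * κ)
    (hlo : ∀ κ, 0 < κ → κ ≤ k0 → 2 * d ≤ expoFrom E κ)
    (hhi : ∀ κ, 0 < κ → κ ≤ k0 → expoFrom E κ ≤ 1 - 2 * d) :
    IsThreshold (fun _ => SurjHom E) (fun n => (n : ℝ) ^ (-al) * Real.log n ^ be) := by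
  have hlog : Tendsto (fun n : ℕ => Real.log (n : ℝ)) atTop atTop :=
    Real.tendsto_log_atTop.comp tendsto_natCast_atTop_atTop
  have hev : ∀ᶠ n : ℕ in atTop, 1 < Real.log (n : ℝ) ∧ 1 / d ≤ Real.log (n : ℝ) ∧
      0 < Real.log (Real.log n) / Real.log n ∧ Real.log (Real.log n) / Real.log n ≤ k0 := by
    filter_upwards [hlog.eventually_gt_atTop 1, hlog.eventually_ge_atTop (1 / d),
      kappa_tendsto.eventually_le_const hk0] with n h1 h2 h3
    refine ⟨h1, h2, ?_, h3⟩
    have := Real.log_pos h1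
    have h4 : 0 < Real.log n := by linarith
    positivity
  intro p
  constructor
  · -- lower bound
    intro hp
    have hfail : Tendsto (fun n => Pr (p n : ℝ)
        (fun ω : Sym2 (Fin n) → Bool => ¬ SurjHom E (Gr ω))) atTop (𝓝 0) := by
      rw [Metric.tendsto_nhds]
      intro ε hε
      obtain ⟨c, hc, n0, hn0⟩ := hlow d hd (ε / 2) (by linarith)
      have hcc : 0 < c * Real.exp (-1) := by positivity
      filter_upwards [hev, hp.bound hcc, eventually_ge_atTop n0] with n h1 h2 h3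
      obtain ⟨hL1, hLd, hκ0, hκk⟩ := h1
      set κ : ℝ := Real.log (Real.log n) / Real.log n with hκ
      have hn0' : (0 : ℝ) < n := by
        rcases Nat.eq_zero_or_pos n with h | h
        · subst h
          simp at hL1
          linarith
        · exact_mod_cast h
      have hLpos : 0 < Real.log n := by linarith
      have hinv : 1 / Real.log n ≤ d := by
        rw [div_le_iff₀ hLpos]
        rw [div_le_iff₀ hd] at hLd
        linarith
      have hinv0 : 0 < 1 / Real.log n := by positivity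
      have hq : (n : ℝ) ^ (-al) * Real.log n ^ be = (n : ℝ) ^ (-(expoFrom E κ)) := by
        rw [haff κ hκ0 hκk, hκ, kappa_pow hL1]
      have hlt : expoFrom E κ < expoFrom E κ + 1 / Real.log n := by linarith
      obtain ⟨α, hα, hαlt⟩ := exists_lt_of_csInf_lt
        (⟨1, Or.inr rfl⟩ : ({α : ℝ | 0 < α ∧ α < 1 ∧ ∃ W : V → ℝ, StableFrom E κ α W} ∪ {1}).Nonempty) hlt
      have hle : expoFrom E κ ≤ α := csInf_le (expoFrom_bddBelow E κ) hα
      have h4 := hlo κ hκ0 hκk
      have h5 := hhi κ hκ0 hκk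
      rcases hα with hα | hα
      · obtain ⟨_, _, hW⟩ := hα
        have hpn : (p n : ℝ) ≤ c * (n : ℝ) ^ (-α) := by
          rw [Real.norm_of_nonneg (p n).2.1, hq, Real.norm_of_nonneg (by positivity)] at h2
          have h6 : Real.exp (-1) * (n : ℝ) ^ (-(expoFrom E κ)) =
              (n : ℝ) ^ (-(expoFrom E κ + 1 / Real.log n)) := by
            rw [neg_add, Real.rpow_add hn0', mul_comm]
            congr 1
            rw [Real.rpow_def_of_pos hn0']
            congr 1
            field_simp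
          have h7 : (n : ℝ) ^ (-(expoFrom E κ + 1 / Real.log n)) ≤ (n : ℝ) ^ (-α) := by
            apply Real.rpow_le_rpow_of_exponent_le
            · have : Real.log 1 < Real.log n := by rw [Real.log_one]; linarith
              exact ((Real.log_lt_log_iff one_pos hn0').1 this).le
            · linarith
          calc (p n : ℝ) ≤ c * Real.exp (-1) * (n : ℝ) ^ (-(expoFrom E κ)) := h2
            _ = c * (Real.exp (-1) * (n : ℝ) ^ (-(expoFrom E κ))) := by ring
            _ = c * (n : ℝ) ^ (-(expoFrom E κ + 1 / Real.log n)) := by rw [h6]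
            _ ≤ _ := mul_le_mul_of_nonneg_left h7 hc.le
        have h8 := hn0 n h3 α (by linarith) (by linarith) hW (p n : ℝ) (p n).2.1 hpn
        rw [Real.dist_eq, sub_zero, abs_of_nonneg (Pr_nonneg (p n).2.1 (p n).2.2 _)]
        linarith
      · rw [Set.mem_singleton_iff] at hα
        subst hα
        linarith
    refine tendsto_one_of_fail (fun n => ?_) hfail
    rw [prob_eq_Pr, Pr_not]
    ring
  · -- upper bound
    intro hp
    rw [Metric.tendsto_nhds]
    intro ε hε
    obtain ⟨C, hC, n0, hn0⟩ := hup d hd (ε / 2) (by linarith)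
    have hcc : 0 < (C * Real.exp 1)⁻¹ := by positivity
    filter_upwards [hev, hp.bound hcc, eventually_ge_atTop n0] with n h1 h2 h3
    obtain ⟨hL1, hLd, hκ0, hκk⟩ := h1
    set κ : ℝ := Real.log (Real.log n) / Real.log n with hκ
    have hn0' : (0 : ℝ) < n := by
      rcases Nat.eq_zero_or_pos n with h | h
      · subst h
        simp at hL1
        linarith
      · exact_mod_cast h
    have hLpos : 0 < Real.log n := by linarith
    have hinv : 1 / Real.log n ≤ d := by
      rw [div_le_iff₀ hLpos]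
      rw [div_le_iff₀ hd] at hLd
      linarith
    have hinv0 : 0 < 1 / Real.log n := by positivity
    have hq : (n : ℝ) ^ (-al) * Real.log n ^ be = (n : ℝ) ^ (-(expoFrom E κ)) := by
      rw [haff κ hκ0 hκk, hκ, kappa_pow hL1]
    have h4 := hlo κ hκ0 hκk
    have h5 := hhi κ hκ0 hκk
    have hno : ¬ ∃ W, StableFrom E κ (expoFrom E κ - 1 / Real.log n) W := by
      intro hW
      have h6 : expoFrom E κ ≤ expoFrom E κ - 1 / Real.log n :=
        csInf_le (expoFrom_bddBelow E κ) (Or.inl ⟨by linarith, by linarith, hW⟩)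
      linarith
    have hpn : C * (n : ℝ) ^ (-(expoFrom E κ - 1 / Real.log n)) ≤ (p n : ℝ) := by
      rw [Real.norm_of_nonneg (p n).2.1, hq, Real.norm_of_nonneg (by positivity)] at h2
      have h6 : (n : ℝ) ^ (-(expoFrom E κ - 1 / Real.log n)) =
          Real.exp 1 * (n : ℝ) ^ (-(expoFrom E κ)) := by
        rw [neg_sub, sub_eq_add_neg, Real.rpow_add hn0']
        congr 1
        rw [Real.rpow_def_of_pos hn0']
        congr 1
        field_simp
      rw [h6]
      rw [inv_mul_eq_div, le_div_iff₀ (by positivity)] at h2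
      calc C * (Real.exp 1 * (n : ℝ) ^ (-(expoFrom E κ)))
          = (n : ℝ) ^ (-(expoFrom E κ)) * (C * Real.exp 1) := by ring
        _ ≤ _ := h2
    have h8 := hn0 n h3 _ (by linarith) (by linarith) hno (p n : ℝ) hpn (p n).2.2
    rw [prob_eq_Pr, Real.dist_eq, sub_zero, abs_of_nonneg (Pr_nonneg (p n).2.1 (p n).2.2 _)]
    linarith

end Pool.MP_65847d_pr
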