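import Pool.Agent.Lib.MP_65847d_pr.X.FK
import Pool.Agent.Lib.MP_65847d_pr.X.UNum
import Pool.Agent.Lib.MP_65847d_pr.X.URoot
import Pool.Agent.Lib.MP_65847d_pr.X.UInd
import Pool.Agent.Lib.MP_65847d_pr.X.XMain

/-!
# X/UpperX : without a stable vector at `α` there is no surjective homomorphism at `C n ^ (-α)`
-/

set_option autoImplicit false

open Finset Filter Topology

namespace Pool.MP_65847d_pr

open Pool.MP_1bacea_co

theorem upper_exact {V : Type*} [Fintype V] [DecidableEq V] [Nonempty V] {E : V → V → Prop}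
    (hE : ∀ a b, E a b → E b a) {d ε : ℝ}
    (hd : 0 < d) (hε : 0 < ε) : ∃ C > (0 : ℝ), ∃ n0 : ℕ, ∀ n ≥ n0, ∀ α, d ≤ α → α ≤ 1 - d →
      (¬ ∃ W, StableFrom E (Real.log (Real.log n) / Real.log n) α W) → ∀ p : ℝ,
      C * (n : ℝ) ^ (-α) ≤ p → p ≤ 1 →
      Pr p (fun ω : Sym2 (Fin n) → Bool => SurjHom E (Gr ω)) ≤ ε := by
  obtain ⟨k0', hk0'⟩ := exists_tight hE
  obtain ⟨k0, hk0def⟩ : ∃ k0 : ℕ, k0 = k0' + 1 := ⟨_, rfl⟩
  have hk01 : 1 ≤ k0 := by omega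
  have hr1 : 1 ≤ Fintype.card V := Fintype.card_pos
  obtain ⟨r, hr⟩ : ∃ r : ℕ, r = Fintype.card V := ⟨_, rfl⟩
  rw [← hr] at hr1
  obtain ⟨C, K0, hC, hK0, hA, hB⟩ := exists_consts r k0 hr1 hk01
  have hrR : (1 : ℝ) ≤ r := by exact_mod_cast hr1
  have hkR : (1 : ℝ) ≤ k0 := by exact_mod_cast (show 1 ≤ k0 by omega)
  have hC0 : 0 < C := by
    have : (0 : ℝ) < 12 * (k0 : ℝ) * r := by positivity
    linarith
  refine ⟨C, hC0, ?_⟩
  -- eventual facts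
  have hlog : Tendsto (fun n : ℕ => Real.log (n : ℝ)) atTop atTop :=
    Real.tendsto_log_atTop.comp tendsto_natCast_atTop_atTop
  have hpow : Tendsto (fun n : ℕ => (n : ℝ) ^ d) atTop atTop :=
    (tendsto_rpow_atTop hd).comp tendsto_natCast_atTop_atTop
  have hlogd : ∀ᶠ n : ℕ in atTop, Real.log (n : ℝ) ≤ (n : ℝ) ^ d := by
    have h1 : ∀ᶠ x : ℝ in atTop, Real.log x ≤ x ^ d := by
      filter_upwards [(isLittleO_log_rpow_atTop hd).bound (show (0 : ℝ) < 1 by norm_num),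
        eventually_ge_atTop (1 : ℝ)] with x hx hx1
      rw [Real.norm_of_nonneg (Real.log_nonneg hx1),
        Real.norm_of_nonneg (Real.rpow_nonneg (by linarith) _), one_mul] at hx
      exact hx
    exact tendsto_natCast_atTop_atTop.eventually h1
  have hinv : ∀ᶠ n : ℕ in atTop, 1 / (n : ℝ) ≤ ε :=
    (tendsto_one_div_atTop_nhds_zero_nat (𝕜 := ℝ)).eventually_le_const hε
  have hev : ∀ᶠ n : ℕ in atTop, 1 < Real.log (n : ℝ) ∧
      64 * (k0 : ℝ) ^ 2 * r * C * (8 * (k0 : ℝ) * 2 ^ (r + k0)) ^ k0 ≤ (n : ℝ) ^ d ∧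
      Real.log (n : ℝ) ≤ (n : ℝ) ^ d ∧ 1 / (n : ℝ) ≤ ε ∧ 3 ≤ n ∧
      Real.log (Real.log n) / Real.log n ≤ d := by
    filter_upwards [hlog.eventually_gt_atTop 1, hpow.eventually_ge_atTop _, hlogd, hinv,
      eventually_ge_atTop 3, kappa_tendsto.eventually_le_const hd] with n h1 h2 h3 h4 h5 h6
    exact ⟨h1, h2, h3, h4, h5, h6⟩
  obtain ⟨n0, hn0⟩ := eventually_atTop.1 hev
  refine ⟨n0, fun n hn α hα hα1 hno p hp hp1 => ?_⟩
  obtain ⟨hL1, hbig, hLd, hnε, hn3, hκd⟩ := hn0 n hn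
  set κ : ℝ := Real.log (Real.log n) / Real.log n with hκ
  have hn1 : (1 : ℝ) ≤ n := by exact_mod_cast (show 1 ≤ n by omega)
  have hnpos : (0 : ℝ) < n := by linarith
  have hL0 : 0 < Real.log n := by linarith
  have hκ0 : 0 ≤ κ := by
    rw [hκ]
    exact div_nonneg (Real.log_nonneg hL1.le) hL0.le
  have hnκ : (n : ℝ) ^ κ = Real.log n := by
    rw [Real.rpow_def_of_pos hnpos, hκ, mul_div_cancel₀ _ hL0.ne', Real.exp_log hL0]
  have hdα : (n : ℝ) ^ d ≤ (n : ℝ) ^ α := Real.rpow_le_rpow_of_exponent_le hn1 hα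
  set p0 : ℝ := C * (n : ℝ) ^ (-α) with hp0
  have hp00 : 0 ≤ p0 := by rw [hp0]; positivity
  have hp01 : p0 ≤ 1 := hp.trans hp1
  have H : UH n r k0 d C α p0 := ⟨hk01, hr1, hn3, hd, hα, hα1, hC, hbig, hp0, hp01⟩
  have htight : ∀ W : V → ℝ, (∀ a, 0 ≤ W a ∧ W a ≤ 1) → ∃ k ≤ k0, ∃ (K : SimpleGraph (Fin k))
      (A : Fin k → Finset V) (w : ℝ), Tight E κ α W K A w := by
    intro W hW
    have hα0 : 0 < α := lt_of_lt_of_le hd hα
    have hα2 : α < 1 := lt_of_le_of_lt hα1 (by linarith)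
    obtain ⟨k, hk, h⟩ := hk0' κ α W hα0 hα2 (hκd.trans hα) hW (fun h => hno ⟨W, h⟩)
    exact ⟨k, hk.trans (by omega), h⟩
  subst hr
  have hstate := HEv_bound H hκ0 (le_of_eq hnκ.symm) (hLd.trans hdα) htight hK0 hA hB
  have hx0 : (0 : ℝ) ≤ (n : ℝ) ^ (-((Fintype.card V : ℝ) + 1)) := by positivity
  have h1 : Pr p0 (fun ω : Sym2 (Fin n) → Bool => SurjHom E (Gr ω)) ≤
      (n : ℝ) ^ Fintype.card V * (n : ℝ) ^ (-((Fintype.card V : ℝ) + 1)) := by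
    refine Pr_surj_le hp00 hp01 hx0 fun ρ hρ => ?_
    refine (hstate _ _ (StInv_init H hκ0 hρ)).trans ?_
    refine mul_le_of_le_one_right hx0 ?_
    rw [Real.exp_le_one_iff]
    exact neg_nonpos.2 (mul_nonneg hK0 (sum_nonneg fun a _ => Nat.cast_nonneg _))
  have h2 : (n : ℝ) ^ Fintype.card V * (n : ℝ) ^ (-((Fintype.card V : ℝ) + 1)) = 1 / n := by
    rw [← Real.rpow_natCast, ← Real.rpow_add hnpos]
    rw [show (Fintype.card V : ℝ) + -((Fintype.card V : ℝ) + 1) = -1 by ring, Real.rpow_neg_one, one_div]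
  have h3 : Pr p (fun ω : Sym2 (Fin n) → Bool => SurjHom E (Gr ω)) ≤
      Pr p0 (fun ω : Sym2 (Fin n) → Bool => SurjHom E (Gr ω)) := by
    refine Pr_anti hp00 hp hp1 ?_
    rintro ω ω' hωω' ⟨φ, hφs, hφ⟩
    exact ⟨φ, hφs, fun u v huv => hφ u v ⟨huv.1, hωω' _ huv.2⟩⟩
  rw [h2] at h1
  linarith

end Pool.MP_65847d_pr
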