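import Pool.Agent.Lib.MP_65847d_pr.X.FKDefs

/-!
# X/XConn : connected finite sets
-/

set_option autoImplicit false

open Finset

namespace Pool.MP_65847d_pr

variable {ι : Type*} [DecidableEq ι]

theorem conn_iff (G : SimpleGraph ι) (X : Finset ι) : Conn G X ↔ X.Nonempty ∧
    ∀ C ⊆ X, C.Nonempty → (∀ x ∈ C, ∀ y ∈ X, G.Adj x y → y ∈ C) → C = X := by
  constructor
  · intro h
    have hne : Nonempty (X : Set ι) := h.nonempty
    obtain ⟨⟨x0, hx0⟩⟩ := hne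
    refine ⟨⟨x0, hx0⟩, fun C hC ⟨a, ha⟩ hcl => ?_⟩
    apply Finset.Subset.antisymm hC
    intro b hb
    obtain ⟨w⟩ := h.preconnected ⟨a, hC ha⟩ ⟨b, hb⟩
    have key : ∀ (p q : (X : Set ι)), (G.induce (X : Set ι)).Walk p q →
        (p : ι) ∈ C → (q : ι) ∈ C := by
      intro p q w
      induction w with
      | nil => exact id
      | @cons u v w hadj _ ih =>
        intro hp
        exact ih (hcl _ hp _ v.2 hadj)
    exact key _ _ w ha
  · rintro ⟨⟨x0, hx0⟩, h⟩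
    classical
    have hC : X.filter (fun y => ∃ hy : y ∈ X,
        (G.induce (X : Set ι)).Reachable ⟨x0, hx0⟩ ⟨y, hy⟩) = X := by
      apply h _ (filter_subset _ _)
      · exact ⟨x0, mem_filter.2 ⟨hx0, hx0, SimpleGraph.Reachable.refl _⟩⟩
      · intro x hx y hy hadj
        obtain ⟨hxX, hx', hr⟩ := mem_filter.1 hx
        refine mem_filter.2 ⟨hy, hy, hr.trans ?_⟩
        apply SimpleGraph.Adj.reachable
        exact hadj
    haveI : Nonempty (X : Set ι) := ⟨⟨x0, hx0⟩⟩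
    refine ⟨?_⟩
    · rintro ⟨a, ha⟩ ⟨b, hb⟩
      have ha' : a ∈ X := ha
      have hb' : b ∈ X := hb
      rw [← hC] at ha' hb'
      obtain ⟨_, ha'', hra⟩ := mem_filter.1 ha'
      obtain ⟨_, hb'', hrb⟩ := mem_filter.1 hb'
      exact hra.symm.trans hrb

theorem Conn.nonempty {G : SimpleGraph ι} {X : Finset ι} (h : Conn G X) : X.Nonempty :=
  ((conn_iff G X).1 h).1

theorem conn_singleton (G : SimpleGraph ι) (x : ι) : Conn G {x} := by
  rw [conn_iff]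
  refine ⟨⟨x, mem_singleton_self x⟩, fun C hC hne _ => ?_⟩
  rcases Finset.subset_singleton_iff.1 hC with h | h
  · subst h
    exact absurd hne (by simp)
  · exact h

theorem conn_congr {G G' : SimpleGraph ι} {X : Finset ι}
    (h : ∀ x ∈ X, ∀ y ∈ X, G.Adj x y → G'.Adj x y) (hX : Conn G X) : Conn G' X := by
  rw [conn_iff] at hX ⊢
  refine ⟨hX.1, fun C hC hne hcl => hX.2 C hC hne fun x hx y hy hadj => ?_⟩
  exact hcl x hx y hy (h x (hC hx) y hy hadj)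

private theorem closed_inter {G : SimpleGraph ι} {X C : Finset ι} (hX : Conn G X)
    {Z : Finset ι} (hXZ : X ⊆ Z)
    (hcl : ∀ x ∈ C, ∀ y ∈ Z, G.Adj x y → y ∈ C) (h : (X ∩ C).Nonempty) : X ⊆ C := by
  rw [conn_iff] at hX
  have := hX.2 (X ∩ C) inter_subset_left h (by
    intro x hx y hy hadj
    exact mem_inter.2 ⟨hy, hcl x (mem_inter.1 hx).2 y (hXZ hy) hadj⟩)
  exact inter_eq_left.1 this

theorem Conn.union_adj {G : SimpleGraph ι} {X Y : Finset ι} (hX : Conn G X) (hY : Conn G Y) {x y : ι}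
    (hx : x ∈ X) (hy : y ∈ Y) (h : G.Adj x y) : Conn G (X ∪ Y) := by
  rw [conn_iff]
  refine ⟨⟨x, mem_union_left _ hx⟩, fun C hC hne hcl => ?_⟩
  apply Finset.Subset.antisymm hC
  obtain ⟨c, hc⟩ := hne
  have hXi : (X ∩ C).Nonempty → X ⊆ C := closed_inter hX subset_union_left hcl
  have hYi : (Y ∩ C).Nonempty → Y ⊆ C := closed_inter hY subset_union_right hcl
  rcases mem_union.1 (hC hc) with h' | h'
  · have h1 := hXi ⟨c, mem_inter.2 ⟨h', hc⟩⟩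
    have h2 : y ∈ C := hcl x (h1 hx) y (mem_union_right _ hy) h
    exact union_subset h1 (hYi ⟨y, mem_inter.2 ⟨hy, h2⟩⟩)
  · have h1 := hYi ⟨c, mem_inter.2 ⟨h', hc⟩⟩
    have h2 : x ∈ C := hcl y (h1 hy) x (mem_union_left _ hx) h.symm
    exact union_subset (hXi ⟨x, mem_inter.2 ⟨hx, h2⟩⟩) h1

theorem Conn.union_inter {G : SimpleGraph ι} {X Y : Finset ι} (hX : Conn G X) (hY : Conn G Y) {x : ι}
    (hx : x ∈ X) (hy : x ∈ Y) : Conn G (X ∪ Y) := by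
  rw [conn_iff]
  refine ⟨⟨x, mem_union_left _ hx⟩, fun C hC hne hcl => ?_⟩
  apply Finset.Subset.antisymm hC
  obtain ⟨c, hc⟩ := hne
  have hXi : (X ∩ C).Nonempty → X ⊆ C := closed_inter hX subset_union_left hcl
  have hYi : (Y ∩ C).Nonempty → Y ⊆ C := closed_inter hY subset_union_right hcl
  rcases mem_union.1 (hC hc) with h' | h'
  · have h1 := hXi ⟨c, mem_inter.2 ⟨h', hc⟩⟩
    exact union_subset h1 (hYi ⟨x, mem_inter.2 ⟨hy, h1 hx⟩⟩)
  · have h1 := hYi ⟨c, mem_inter.2 ⟨h', hc⟩⟩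
    exact union_subset (hXi ⟨x, mem_inter.2 ⟨hx, h1 hy⟩⟩) h1

theorem conn_univ [Fintype ι] {G : SimpleGraph ι} (h : G.Connected) : Conn G univ := by
  rw [conn_iff]
  have := h.nonempty
  refine ⟨univ_nonempty, fun C _ hne hcl => ?_⟩
  obtain ⟨a, ha⟩ := hne
  apply Finset.eq_univ_of_forall
  intro b
  obtain ⟨w⟩ := h.preconnected a b
  induction w with
  | nil => exact ha
  | cons hadj _ ih => exact ih (hcl _ ha _ (mem_univ _) hadj)

private theorem cut_aux {G : SimpleGraph ι} {X : Finset ι} (hX : Conn G X) (Y : Finset ι) {a b : ι}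
    (h : ∀ x ∈ X, x ∈ Y → ∀ y ∈ X, y ∉ Y → G.Adj x y → x = a ∧ y = b)
    (h1 : ∃ x ∈ X, x ∈ Y) (h2 : ∃ y ∈ X, y ∉ Y) :
    a ∈ X ∧ a ∈ Y ∧ b ∈ X ∧ b ∉ Y ∧ G.Adj a b ∧ Conn G (X ∩ Y) := by
  obtain ⟨x1, hx1, hx1'⟩ := h1
  obtain ⟨x2, hx2, hx2'⟩ := h2
  have hX' := (conn_iff G X).1 hX
  -- closed nonempty subsets of X ∩ Y contain a
  have key : ∀ C ⊆ X ∩ Y, C.Nonempty → (∀ x ∈ C, ∀ y ∈ X ∩ Y, G.Adj x y → y ∈ C) →
      a ∈ C ∧ b ∈ X ∧ b ∉ Y ∧ G.Adj a b := by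
    intro C hC hne hcl
    by_contra hcon
    have : C = X := by
      apply hX'.2 C (hC.trans inter_subset_left) hne
      intro x hx y hy hadj
      by_cases hyY : y ∈ Y
      · exact hcl x hx y (mem_inter.2 ⟨hy, hyY⟩) hadj
      · exfalso
        obtain ⟨hxX, hxY⟩ := mem_inter.1 (hC hx)
        obtain ⟨rfl, rfl⟩ := h x hxX hxY y hy hyY hadj
        exact hcon ⟨hx, hy, hyY, hadj⟩
    rw [← this] at hx2
    exact hx2' (mem_inter.1 (hC hx2)).2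
  have k1 := key (X ∩ Y) (Subset.refl _) ⟨x1, mem_inter.2 ⟨hx1, hx1'⟩⟩ (fun x _ y hy _ => hy)
  obtain ⟨ha, hb, hb', hab⟩ := k1
  obtain ⟨haX, haY⟩ := mem_inter.1 ha
  refine ⟨haX, haY, hb, hb', hab, ?_⟩
  rw [conn_iff]
  refine ⟨⟨x1, mem_inter.2 ⟨hx1, hx1'⟩⟩, fun C hC hne hcl => ?_⟩
  by_contra hCne
  have hD : ((X ∩ Y) \ C).Nonempty := by
    rw [sdiff_nonempty]
    intro hsub
    exact hCne (Finset.Subset.antisymm hC hsub)
  have haC := (key C hC hne hcl).1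
  have haD := (key ((X ∩ Y) \ C) sdiff_subset hD (by
    intro x hx y hy hadj
    refine mem_sdiff.2 ⟨hy, fun hyC => (mem_sdiff.1 hx).2 ?_⟩
    exact hcl y hyC x (mem_sdiff.1 hx).1 hadj.symm)).1
  exact (mem_sdiff.1 haD).2 haC

/-- cutting a connected set at its only crossing edge -/
theorem conn_cut {G : SimpleGraph ι} {X : Finset ι} (hX : Conn G X) (Y : Finset ι) {a b : ι}
    (h : ∀ x ∈ X, x ∈ Y → ∀ y ∈ X, y ∉ Y → G.Adj x y → x = a ∧ y = b)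
    (h1 : ∃ x ∈ X, x ∈ Y) (h2 : ∃ y ∈ X, y ∉ Y) :
    a ∈ X ∧ a ∈ Y ∧ b ∈ X ∧ b ∉ Y ∧ G.Adj a b ∧ Conn G (X ∩ Y) ∧ Conn G (X \ Y) := by
  obtain ⟨q1, q2, q3, q4, q5, q6⟩ := cut_aux hX Y h h1 h2
  refine ⟨q1, q2, q3, q4, q5, q6, ?_⟩
  have := cut_aux hX (X \ Y) (a := b) (b := a) (by
    intro x hx hxs y hy hys hadj
    have hyY : y ∈ Y := by
      by_contra hc
      exact hys (mem_sdiff.2 ⟨hy, hc⟩)
    obtain ⟨r1, r2⟩ := h y hy hyY x hx (mem_sdiff.1 hxs).2 hadj.symm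
    exact ⟨r2, r1⟩) (by
    obtain ⟨y, hy, hyY⟩ := h2
    exact ⟨y, hy, mem_sdiff.2 ⟨hy, hyY⟩⟩) (by
    obtain ⟨x, hx, hxY⟩ := h1
    exact ⟨x, hx, fun hc => (mem_sdiff.1 hc).2 hxY⟩)
  have h6 := this.2.2.2.2.2
  rwa [inter_eq_right.2 sdiff_subset] at h6

end Pool.MP_65847d_pr
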