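import Pool.Agent.Lib.MP_65847d_pr.X.XDL

/-!
# X/XCore : normal form of a minimal violation

Let `(w, K, A)` be a violation with `k ≥ 2` vertices, `k` minimal (`SmallOK E κ α W k`).
1. `α₁`: `wgt β w' A U` is continuous in `(β, w')` (finite sums of continuous functions), there are finitely many `U`, so there is `α₁ ∈ (α, 1]` with `w < wgt α₁ W w A U` for all
  connected `U`.
2. `ws`: the smallest element of the closed set `{w' ∈ [w, 1] | ∃ U connected, wgt α₁ W w' A U ≤ w'}` (it contains `1`: take a one-element set; `IsCompact.exists_isLeast` or `sInf`). So `w < ws ≤ 1`,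
  for all `w' ∈ [w, ws)` and connected `U`: `w' < wgt α₁ W w' A U`; by continuity `ws ≤ wgt α₁ W ws A U` for all connected `U`, with equality for some `U = U₀`.
3. `ws ≤ α`: otherwise there is `w' ∈ [max w α, ws)`, so `w' ≥ κ`, `w' ≥ α` and `w' < wgt α₁ W w' A U ≤ wgt α W w' A U` for connected `U` (`kap` increases with `α`, `|U| ≥ 1`). For every vertex `y` apply `SmallOK` (`m = 1 < k`) at the level `w'` to the one-vertex
  tree with labels `A y ∪ {a | w' ≤ W a}` (the new labels have cost `0` because `w' ≥ α`): this gives `φ y` with `W (φ y) ≥ w'`, adjacent to the labels of `y` and to all of `{a | w' ≤ W a}`. So `φ` is a colouring of `K` at the level `w' ≥ w`, contradiction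
  (`Colours E W w' K A → Colours E W w K A`).
4. `U₀ = univ`: otherwise `DL.cols_of_proper` with `R = univ`, `X = U₀`, `g y = ∑_{a ∈ A y} kap α₁ W ws a`, `l = ws` (constant) gives a colouring of `K` at the level `ws ≥ w`, contradiction. Hypotheses: `cost`: for `w ≥ ws` `kap α W w a ≤ kap α₁ W ws a`, strictly if
  `kap α W w a > 0`. `lev`, `kap_le`: `ww α₁ g X = wgt α₁ W ws A X ≥ ws ≥ κ`; `hlt`: `ws ≤ α < α₁`. So `K` is connected (`U₀ = univ` is), hence a tree, and `wgt α₁ W ws A univ = ws`.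
5. Labels: for `w' ∈ [w, ws)` and every label `a`: `kap α₁ W w' a ≥ kap α₁ W ws a`, and `kap α₁ W w' a = kap α₁ W ws a + (ws - w')` if `W a ≥ ws` (as `ws ≤ α < α₁`). If there were a label `(y, a)` with `W a ≥ ws` then `w' < wgt α₁ W w' A univ ≤ ws - (ws - w') = w'`.
  So all labels have `W a < ws`, `kap α₁ W ws a = α₁ - W a`, `c y := 1 - α₁ - ∑_{a ∈ A y} (α₁ - W a)`.
6. `ncol`: a colouring at the level `ws` is one at the level `w`.
-/

set_option autoImplicit false

open Finset

namespace Pool.MP_65847d_pr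

private theorem xc_kap_nonneg {V : Type*} (β : ℝ) (W : V → ℝ) (w : ℝ) (a : V) :
    0 ≤ kap β W w a := le_max_left _ _

private theorem xc_kap_le {V : Type*} {β β' : ℝ} (W : V → ℝ) {w w' : ℝ} (hβ : β ≤ β')
    (hw : w' ≤ w) (a : V) : kap β W w a ≤ kap β' W w' a := by
  unfold kap
  refine max_le_max le_rfl ?_
  have : min (W a) w' ≤ min (W a) w := min_le_min le_rfl hw
  linarith

private theorem xc_one {V : Type*} {E : V → V → Prop} {κ α : ℝ} {W : V → ℝ} {k : ℕ}
    (hS : SmallOK E κ α W k) (hk : 1 < k) {w : ℝ} (hw : κ ≤ w) (B : Finset V)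
    (h : w < 1 - ∑ a ∈ B, kap α W w a) : ∃ c, w ≤ W c ∧ ∀ a ∈ B, E c a := by
  obtain ⟨φ, h1, h2, h3⟩ := hS w hw 1 hk ⊥ (fun _ => B) SimpleGraph.isAcyclic_bot (by
    intro U hU
    have hU0 : U = {0} := by
      obtain ⟨x, hx⟩ := hU.nonempty
      have hx' : x ∈ U := by simpa using hx
      ext y
      have hy : y = 0 := Subsingleton.elim _ _
      have hx0 : x = 0 := Subsingleton.elim _ _
      subst hx0
      simp [hy, hx']
    rw [hU0]
    unfold wgt
    simp only [Finset.sum_singleton]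
    linarith)
  exact ⟨φ 0, h2 0, fun a ha => h3 0 a ha⟩

private theorem xc_cont_β {V ι : Type*} (W : V → ℝ) (w : ℝ) (A : ι → Finset V) (U : Finset ι) :
    Continuous fun β : ℝ => wgt β W w A U := by
  unfold wgt kap
  fun_prop

private theorem xc_cont_w {V ι : Type*} (β : ℝ) (W : V → ℝ) (A : ι → Finset V) (U : Finset ι) :
    Continuous fun w : ℝ => wgt β W w A U := by
  unfold wgt kap
  fun_prop

theorem exists_core {V : Type*} [Fintype V] [Nonempty V] {E : V → V → Prop}
    (hE : ∀ a b, E a b → E b a) {κ α : ℝ} (hα0 : 0 < α) (hα1 : α < 1) (hκ : κ ≤ α) {W : V → ℝ}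
    {k : ℕ} (hk : 2 ≤ k) (hS : SmallOK E κ α W k) {w : ℝ} (hw : κ ≤ w) {K : SimpleGraph (Fin k)}
    {A : Fin k → Finset V} (hK : K.IsAcyclic) (hR : Rich α W w K A) (hC : ¬ Colours E W w K A) :
    ∃ (α₁ ws : ℝ) (c : Fin k → ℝ), Core E κ α α₁ ws W K A c := by
  classical
  -- step 1
  obtain ⟨α₁, hαα₁, hα₁1, hR1⟩ : ∃ α₁ : ℝ, α < α₁ ∧ α₁ ≤ 1 ∧
      ∀ U : Finset (Fin k), Conn K U → w < wgt α₁ W w A U := by
    have h1 : ∀ᶠ β in nhdsWithin α (Set.Ioi α), ∀ U : Finset (Fin k), Conn K U →
        w < wgt β W w A U := by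
      rw [Filter.eventually_all]
      intro U
      by_cases hU : Conn K U
      · have h2 : ∀ᶠ β in nhds α, w < wgt β W w A U :=
          (xc_cont_β W w A U).continuousAt.eventually (lt_mem_nhds (hR U hU))
        have h3 : ∀ᶠ β in nhdsWithin α (Set.Ioi α), w < wgt β W w A U := nhdsWithin_le_nhds h2
        exact h3.mono fun β hβ _ => hβ
      · exact Filter.Eventually.of_forall fun β hβ => absurd hβ hU
    have h2 : ∀ᶠ β in nhdsWithin α (Set.Ioi α), α < β := self_mem_nhdsWithin
    have h3 : ∀ᶠ β in nhdsWithin α (Set.Ioi α), β ≤ 1 := by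
      refine nhdsWithin_le_nhds ?_
      filter_upwards [gt_mem_nhds hα1] with β hβ using hβ.le
    obtain ⟨β, h4, h5, h6⟩ := (h2.and (h3.and h1)).exists
    exact ⟨β, h4, h5, h6⟩
  -- step 2
  have hk0 : 0 < k := by omega
  let i₀ : Fin k := ⟨0, hk0⟩
  have hsing : ∀ (β w' : ℝ) (i : Fin k), wgt β W w' A {i} = 1 - ∑ a ∈ A i, kap β W w' a := by
    intro β w' i
    unfold wgt
    rw [Finset.sum_singleton]
    ring
  have hsum0 : ∀ (β w' : ℝ) (i : Fin k), 0 ≤ ∑ a ∈ A i, kap β W w' a := fun β w' i =>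
    Finset.sum_nonneg fun a _ => xc_kap_nonneg _ _ _ _
  have hw1 : w ≤ 1 := by
    have h1 := hR1 {i₀} (conn_singleton K i₀)
    rw [hsing] at h1
    have := hsum0 α₁ w i₀
    linarith
  set S : Set ℝ := Set.Icc w 1 ∩ {w' | ∃ U : Finset (Fin k), Conn K U ∧ wgt α₁ W w' A U ≤ w'} with hSdef
  have hSc : IsCompact S := by
    refine isCompact_Icc.inter_right ?_
    have h1 : {w' : ℝ | ∃ U : Finset (Fin k), Conn K U ∧ wgt α₁ W w' A U ≤ w'} =
        ⋃ U ∈ (univ.filter fun U : Finset (Fin k) => Conn K U), {w' : ℝ | wgt α₁ W w' A U ≤ w'} := by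
      ext w'
      simp
    rw [h1]
    exact Set.Finite.isClosed_biUnion (Finset.finite_toSet _) fun U _ =>
      isClosed_le (xc_cont_w α₁ W A U) continuous_id
  have hS1 : (1 : ℝ) ∈ S := by
    refine ⟨⟨hw1, le_rfl⟩, {i₀}, conn_singleton K i₀, ?_⟩
    rw [hsing]
    have := hsum0 α₁ 1 i₀
    linarith
  obtain ⟨ws, ⟨⟨hws0, hws1⟩, U₀, hU₀c, hU₀⟩, hleast⟩ := hSc.exists_isLeast ⟨1, hS1⟩
  have hbelow : ∀ w', w ≤ w' → w' < ws → ∀ U : Finset (Fin k), Conn K U →
      w' < wgt α₁ W w' A U := by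
    intro w' h1 h2 U hU
    by_contra h3
    push Not at h3
    have h4 : w' ∈ S := ⟨⟨h1, h2.le.trans hws1⟩, U, hU, h3⟩
    exact absurd (hleast h4) (not_le.mpr h2)
  have hwws : w < ws := by
    rcases hws0.eq_or_lt with h | h
    · exfalso
      have := hR1 U₀ hU₀c
      rw [← h] at hU₀
      linarith
    · exact h
  have hge : ∀ U : Finset (Fin k), Conn K U → ws ≤ wgt α₁ W ws A U := by
    intro U hU
    have h1 : Filter.Tendsto (fun w' : ℝ => wgt α₁ W w' A U - w') (nhdsWithin ws (Set.Iio ws))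
        (nhds (wgt α₁ W ws A U - ws)) :=
      (((xc_cont_w α₁ W A U).sub continuous_id).tendsto ws).mono_left nhdsWithin_le_nhds
    have h2 : ∀ᶠ w' in nhdsWithin ws (Set.Iio ws), 0 ≤ wgt α₁ W w' A U - w' := by
      have h3 : ∀ᶠ w' in nhdsWithin ws (Set.Iio ws), w < w' :=
        nhdsWithin_le_nhds (lt_mem_nhds hwws)
      filter_upwards [h3, self_mem_nhdsWithin] with w' h4 h5
      have := hbelow w' h4.le h5 U hU
      linarith
    have h3 := ge_of_tendsto h1 h2
    linarith
  have hU₀e : wgt α₁ W ws A U₀ = ws := le_antisymm hU₀ (hge U₀ hU₀c)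
  have hκws : κ ≤ ws := hw.trans hws0
  -- step 3
  have hwsα : ws ≤ α := by
    by_contra hcon
    push Not at hcon
    set w' := max w α with hw'
    have h1 : w' < ws := max_lt hwws hcon
    have h2 : w ≤ w' := le_max_left _ _
    have h3 : α ≤ w' := le_max_right _ _
    have h4 : ∀ y : Fin k, ∃ c, w' ≤ W c ∧ ∀ a ∈ A y ∪ univ.filter (fun a => w' ≤ W a), E c a := by
      intro y
      refine xc_one hS (by omega) (hw.trans h2) _ ?_
      have h5 := hbelow w' h2 h1 {y} (conn_singleton K y)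
      rw [hsing] at h5
      have h6 : ∑ a ∈ A y ∪ univ.filter (fun a => w' ≤ W a), kap α W w' a =
          ∑ a ∈ A y, kap α W w' a := by
        symm
        refine Finset.sum_subset Finset.subset_union_left fun a ha ha' => ?_
        have h7 : w' ≤ W a := by
          rw [Finset.mem_union] at ha
          rcases ha with ha | ha
          · exact absurd ha ha'
          · exact (Finset.mem_filter.mp ha).2
        unfold kap
        rw [min_eq_right h7]
        exact max_eq_left (by linarith)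
      rw [h6]
      have h7 : ∑ a ∈ A y, kap α W w' a ≤ ∑ a ∈ A y, kap α₁ W w' a :=
        Finset.sum_le_sum fun a _ => xc_kap_le W hαα₁.le le_rfl a
      linarith
    choose φ hφ1 hφ2 using h4
    apply hC
    refine ⟨φ, fun i j _ => ?_, fun i => h2.trans (hφ1 i), fun i a ha => ?_⟩
    · exact hφ2 i (φ j) (Finset.mem_union_right _ (Finset.mem_filter.mpr ⟨Finset.mem_univ _, hφ1 j⟩))
    · exact hφ2 i a (Finset.mem_union_left _ ha)
  have hncol : ¬ Cols E W K univ A (fun _ => ws) := by
    rintro ⟨φ, h1, h2, h3⟩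
    exact hC ⟨φ, fun i j h => h1 i (Finset.mem_univ _) j (Finset.mem_univ _) h,
      fun i => hws0.trans (h2 i (Finset.mem_univ _)), fun i a ha => h3 i (Finset.mem_univ _) a ha⟩
  -- step 4
  have hU₀u : U₀ = univ := by
    by_contra hne
    apply hncol
    have hww : ∀ X : Finset (Fin k),
        ww α₁ (fun y => ∑ a ∈ A y, kap α₁ W ws a) X = wgt α₁ W ws A X := fun X => rfl
    have hD : DL α α₁ κ W K univ (fun y => ∑ a ∈ A y, kap α₁ W ws a) A (fun _ => ws) := by
      refine ⟨fun y _ => hsum0 _ _ _, fun y _ => hwsα, fun y _ w' hw' => ?_,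
        fun y _ w' hw' hpos => ?_, fun X _ hX y _ => ?_, fun X _ hX => ?_⟩
      · exact Finset.sum_le_sum fun a _ => xc_kap_le W hαα₁.le hw' a
      · obtain ⟨a, ha, ha'⟩ : ∃ a ∈ A y, 0 < kap α W w' a := by
          by_contra h
          push Not at h
          exact absurd (Finset.sum_nonpos h) (not_le.mpr hpos)
        refine Finset.sum_lt_sum (fun a _ => xc_kap_le W hαα₁.le hw' a) ⟨a, ha, ?_⟩
        unfold kap at ha' ⊢
        have h1 : 0 < α - min (W a) w' := by
          rcases lt_max_iff.mp ha' with h | h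
          · exact absurd h (lt_irrefl _)
          · exact h
        rw [max_eq_right h1.le]
        refine lt_of_lt_of_le ?_ (le_max_right _ _)
        have : min (W a) ws ≤ min (W a) w' := min_le_min le_rfl hw'
        linarith
      · rw [hww]
        exact hge X hX
      · rw [hww]
        exact hκws.trans (hge X hX)
    refine DL.cols_of_proper hE hαα₁ hα₁1 hκ hS inferInstance (forest_of_acyclic hK univ)
      (by simp) hD (Finset.subset_univ U₀) hne hU₀c (fun Y _ hY => ?_) ?_
    · rw [hww, hww, hU₀e]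
      exact hge Y hY
    · rw [hww, hU₀e]
      linarith
  rw [hU₀u] at hU₀c hU₀e
  have htree : K.IsTree := by
    refine ⟨?_, hK⟩
    have : Nonempty (Fin k) := ⟨i₀⟩
    refine { preconnected := fun a b => ?_ }
    have h1 := hU₀c.preconnected ⟨a, by simp⟩ ⟨b, by simp⟩
    let f : K.induce ((univ : Finset (Fin k)) : Set (Fin k)) →g K :=
      { toFun := fun z => z.1, map_rel' := fun {p q} h => h }
    exact h1.map f
  -- step 5
  have hlab : ∀ y, ∀ a ∈ A y, W a < ws := by
    intro y a ha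
    by_contra hcon
    push Not at hcon
    have h1 := hR1 univ hU₀c
    have h2 : ∀ z, ∑ b ∈ A z, kap α₁ W ws b ≤ ∑ b ∈ A z, kap α₁ W w b := fun z =>
      Finset.sum_le_sum fun b _ => xc_kap_le W le_rfl hws0 b
    have h3 : ∑ b ∈ A y, kap α₁ W ws b + (ws - w) ≤ ∑ b ∈ A y, kap α₁ W w b := by
      rw [← Finset.add_sum_erase _ _ ha, ← Finset.add_sum_erase (A y) (kap α₁ W w) ha]
      have h4 : ∑ b ∈ (A y).erase a, kap α₁ W ws b ≤ ∑ b ∈ (A y).erase a, kap α₁ W w b :=
        Finset.sum_le_sum fun b _ => xc_kap_le W le_rfl hws0 b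
      have h5 : kap α₁ W ws a = α₁ - ws := by
        unfold kap
        rw [min_eq_right hcon]
        exact max_eq_right (by linarith)
      have h6 : kap α₁ W w a = α₁ - w := by
        unfold kap
        rw [min_eq_right (hws0.trans hcon)]
        exact max_eq_right (by linarith)
      rw [h5, h6]
      linarith
    have h4 : wgt α₁ W w A univ + (ws - w) ≤ wgt α₁ W ws A univ := by
      unfold wgt
      rw [← Finset.add_sum_erase _ _ (Finset.mem_univ y),
        ← Finset.add_sum_erase univ (fun y => 1 - α₁ - ∑ a ∈ A y, kap α₁ W ws a)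
          (Finset.mem_univ y)]
      have h5 : ∑ x ∈ univ.erase y, (1 - α₁ - ∑ a ∈ A x, kap α₁ W w a) ≤
          ∑ x ∈ univ.erase y, (1 - α₁ - ∑ a ∈ A x, kap α₁ W ws a) :=
        Finset.sum_le_sum fun z _ => by have := h2 z; linarith
      linarith
    rw [hU₀e] at h4
    linarith
  have hkap : ∀ y, ∑ a ∈ A y, kap α₁ W ws a = ∑ a ∈ A y, (α₁ - W a) := by
    intro y
    refine Finset.sum_congr rfl fun a ha => ?_
    have h1 := hlab y a ha
    unfold kap
    rw [min_eq_left h1.le]
    exact max_eq_right (by linarith)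
  have hwgt : ∀ X : Finset (Fin k), wgt α₁ W ws A X =
      α₁ + ∑ y ∈ X, (1 - α₁ - ∑ a ∈ A y, (α₁ - W a)) := by
    intro X
    unfold wgt
    simp only [hkap]
  refine ⟨α₁, ws, fun y => 1 - α₁ - ∑ a ∈ A y, (α₁ - W a), ?_⟩
  exact
    { lt := hαα₁
      le_one := hα₁1
      tree := htree
      le_ws := hκws
      ws_le := hwsα
      lab := hlab
      c_eq := fun y => rfl
      min := fun X hX => by rw [← hwgt]; exact hge X hX
      tot := by rw [← hwgt]; exact hU₀e
      ncol := hncol
      small := by rw [Fintype.card_fin]; exact hS }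

end Pool.MP_65847d_pr
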