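import Pool.Agent.Lib.MP_65847d_pr.X.XSmall

/-!
# X/XDL : the deletion lemma

Notation `w(X) = ww α₁ g X`.

* `DL.piece`: `X` is connected, `w(X) ≤ w(U)` for all connected `U ⊆ R` (only `U ⊆ X` is used), `w* := w(X) < α₁`, fewer than `k` vertices. Then `X` is colourable at the level
  `w*` by `SmallOK.cols`: for connected `U ⊆ X`, `wgt α W w* A U = w(U) + (|U| - 1)(α₁ - α) + ∑_{y ∈ U} (g y - ∑_{a ∈ A y} kap α W w* a)`, and `l y ≤ w*` for `y ∈ X` by `lev`, so all terms of the last sum
  are `≥ 0` by `cost`. `w(U) ≥ w*`, so the weight is `> w*` if `|U| ≥ 2` or if some term of the sum is positive; otherwise `U = {y}` and `∑ kap = g y`, hence (by `cost_lt`) `∑ kap = 0` and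
  `wgt α W w* A {y} = 1 > w*` as `w* < α₁ ≤ 1`.
* `DL.high`: all `w(X) ≥ α₁`. For every `y ∈ R`: `w({y}) = 1 - g y ≥ α₁`. Use `SmallOK` at the level `w = α` for the one-vertex tree (`Fin 1`, `⊥`) with the labels `A y ∪ {a | α ≤ W a}` (`Fintype V`):
  `kap α W α a = 0` for `α ≤ W a`, so the weight of the vertex is `≥ 1 - ∑_{a ∈ A y} kap α W α a ≥ 1 - g y ≥ α₁ > α` (`cost` with `w = α ≥ l y`). It gives a colour `φ y` with `W (φ y) ≥ α ≥ l y`, adjacent to all labels of `y`
  and to all `a` with `α ≤ W a`; so `φ i`, `φ j` are adjacent for all `i`, `j ∈ R`. (`SmallOK` for `m = 1 < k`.)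
* `DL.step`: `X` connected, minimising `w` among the connected subsets of `R`, `w* = w(X) < α₁`, `h` a colouring of `X` at the level `w*`. On `R \ X`: for `y` with a neighbour in `X` (it is unique, `Forest.unique_edge` with `Y = {y}`)
  put `g' y = g y + (α₁ - w*)`, `A' y = A y ∪ {h z | z ∈ X, G.Adj y z}`, `l' y = max (l y) (min w* α)`, for the other `y` everything unchanged.
  `cost`: for `w ≥ l' y ≥ min w* α`: `kap α W w (h z) ≤ max 0 (α - w*) < α₁ - w*` because `W (h z) ≥ w*` and `w ≥ min w* α`.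
  `lev`, `kap_le`: for connected `Y ⊆ R \ X`: if no vertex of `Y` has a neighbour in `X` then `w'(Y) = w(Y)` and `l' = l` on `Y`. Otherwise there is exactly one edge between `Y` and `X` (`Forest.unique_edge`), so exactly one `y ∈ Y`
  has a neighbour in `X` and `w'(Y) = w(Y) - (α₁ - w*) = w(Y ∪ X) ≥ max w* (l y)`, as `Y ∪ X ⊆ R` is connected (`Conn.union_adj`), for all `y ∈ Y`.
  A colouring of `R \ X` for the new data together with `h` on `X` is a colouring of `R` (edges between `X` and `R \ X`: labels `A'`; `E` symmetric; `W (h z) ≥ w* ≥ l z` by `lev`).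
* `DL.cols`: induction on `R.card` (generalising everything), `R = ∅` trivial; take a minimiser `X` of `w` (finitely many subsets of `R`; singletons are connected). If `w(X) ≥ α₁` use `high`, otherwise `piece` and `step` and the induction hypothesis.
* `DL.cols_of_proper`: the same first step with the given `X`, then `DL.cols` for `R \ X`, which has fewer than `k` elements.
-/

set_option autoImplicit false

open Finset

namespace Pool.MP_65847d_pr

variable {ι V : Type*} [DecidableEq ι] [Fintype V]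

theorem DL.piece {E : V → V → Prop} {α α₁ κ : ℝ} {W : V → ℝ} {G : SimpleGraph ι} {R : Finset ι}
    {g : ι → ℝ} {A : ι → Finset V} {l : ι → ℝ} (hD : DL α α₁ κ W G R g A l) (hα : α < α₁)
    (hα1 : α₁ ≤ 1) {k : ℕ} (hS : SmallOK E κ α W k) (hV : Nonempty V) (hF : Forest G R)
    {X : Finset ι} (hX : X ⊆ R) (hXc : Conn G X)
    (hmin : ∀ Y ⊆ R, Conn G Y → ww α₁ g X ≤ ww α₁ g Y) (hlt : ww α₁ g X < α₁)
    (hcard : X.card < k) : Cols E W G X A (fun _ => ww α₁ g X) := by
  refine SmallOK.cols hS hV (hD.kap_le X hX hXc) G X hcard (Forest.mono hX hF) A ?_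
  intro U hU hUc
  have hlev : ∀ y ∈ U, l y ≤ ww α₁ g X := fun y hy => hD.lev X hX hXc y (hU hy)
  have hcost : ∀ y ∈ U, ∑ a ∈ A y, kap α W (ww α₁ g X) a ≤ g y := fun y hy =>
    hD.cost y (hX (hU hy)) _ (hlev y hy)
  have hUmin := hmin U (hU.trans hX) hUc
  have hne := hUc.nonempty
  by_cases h1 : U.card = 1
  · obtain ⟨y, rfl⟩ := Finset.card_eq_one.1 h1
    have hy : y ∈ ({y} : Finset ι) := Finset.mem_singleton_self y
    have e1 : wgt α W (ww α₁ g X) A {y} = 1 - ∑ a ∈ A y, kap α W (ww α₁ g X) a := by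
      unfold wgt; rw [Finset.sum_singleton]; ring
    have e2 : ww α₁ g {y} = 1 - g y := by
      unfold ww; rw [Finset.sum_singleton]; ring
    have hnn : 0 ≤ ∑ a ∈ A y, kap α W (ww α₁ g X) a :=
      Finset.sum_nonneg fun a _ => le_max_left _ _
    rw [e1]
    rcases hnn.eq_or_lt with h0 | h0
    · rw [← h0]; linarith
    · have h3 := hD.cost_lt y (hX (hU hy)) _ (hlev y hy) h0
      rw [e2] at hUmin
      linarith
  · have h2 : 2 ≤ U.card := by
      have := Finset.card_pos.2 hne
      omega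
    have e1 : wgt α W (ww α₁ g X) A U = ww α₁ g U + (α - α₁) +
        ∑ y ∈ U, ((α₁ - α) + (g y - ∑ a ∈ A y, kap α W (ww α₁ g X) a)) := by
      have : ∑ y ∈ U, (1 - α - ∑ a ∈ A y, kap α W (ww α₁ g X) a) =
          ∑ y ∈ U, (1 - α₁ - g y) +
            ∑ y ∈ U, ((α₁ - α) + (g y - ∑ a ∈ A y, kap α W (ww α₁ g X) a)) := by
        rw [← Finset.sum_add_distrib]
        exact Finset.sum_congr rfl fun y _ => by ring
      have eU : ww α₁ g U = α₁ + ∑ y ∈ U, (1 - α₁ - g y) := rfl
      unfold wgt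
      rw [this, eU]; ring
    have e2 : (U.card : ℝ) * (α₁ - α) ≤
        ∑ y ∈ U, ((α₁ - α) + (g y - ∑ a ∈ A y, kap α W (ww α₁ g X) a)) := by
      rw [← nsmul_eq_mul]
      refine Finset.card_nsmul_le_sum _ _ _ fun y hy => ?_
      have := hcost y hy
      linarith
    have e3 : (2 : ℝ) * (α₁ - α) ≤ (U.card : ℝ) * (α₁ - α) :=
      mul_le_mul_of_nonneg_right (by exact_mod_cast h2) (by linarith)
    rw [e1]
    linarith

theorem DL.high {E : V → V → Prop} {α α₁ κ : ℝ} {W : V → ℝ} {G : SimpleGraph ι} {R : Finset ι}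
    {g : ι → ℝ} {A : ι → Finset V} {l : ι → ℝ} (hD : DL α α₁ κ W G R g A l) (hα : α < α₁)
    (hκ : κ ≤ α) {k : ℕ} (hS : SmallOK E κ α W k) (hV : Nonempty V) (hk : 1 < k)
    (h : ∀ y ∈ R, α₁ ≤ ww α₁ g {y}) : Cols E W G R A l := by
  classical
  have key : ∀ y, ∃ c : V, y ∈ R → α ≤ W c ∧ (∀ a ∈ A y, E c a) ∧ ∀ a, α ≤ W a → E c a := by
    intro y
    by_cases hy : y ∈ R
    swap
    · exact ⟨hV.some, fun h => absurd h hy⟩
    set F : Finset V := univ.filter (fun a => α ≤ W a) with hF
    have hrich : Rich α W α (⊥ : SimpleGraph (Fin 1)) (fun _ => A y ∪ F) := by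
      intro U hU
      have hUne : U.Nonempty := by
        obtain ⟨⟨x, hx⟩⟩ := hU.nonempty
        exact ⟨x, hx⟩
      have hU1 : U = {0} := by
        obtain ⟨x, hx⟩ := hUne
        ext z
        constructor
        · intro _; rw [Finset.mem_singleton]; exact Subsingleton.elim _ _
        · intro _; rwa [Subsingleton.elim z x]
      subst hU1
      unfold wgt
      rw [Finset.sum_singleton]
      have h1 : ∑ a ∈ A y ∪ F, kap α W α a ≤ ∑ a ∈ A y, kap α W α a + ∑ a ∈ F, kap α W α a := by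
        rw [← Finset.sum_union_inter]
        have : 0 ≤ ∑ a ∈ A y ∩ F, kap α W α a := Finset.sum_nonneg fun a _ => le_max_left _ _
        linarith
      have h2 : ∑ a ∈ F, kap α W α a = 0 := by
        refine Finset.sum_eq_zero fun a ha => ?_
        rw [hF, Finset.mem_filter] at ha
        unfold kap
        rw [min_eq_right ha.2, sub_self, max_self]
      have h3 := hD.cost y hy α (hD.l_le y hy)
      have h4 := h y hy
      unfold ww at h4
      rw [Finset.sum_singleton] at h4
      linarith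
    obtain ⟨φ, -, h2, h3⟩ := hS α hκ 1 hk ⊥ (fun _ => A y ∪ F) SimpleGraph.isAcyclic_bot hrich
    refine ⟨φ 0, fun _ => ⟨h2 0, fun a ha => h3 0 a (Finset.mem_union_left _ ha), fun a ha => ?_⟩⟩
    exact h3 0 a (Finset.mem_union_right _ (by rw [hF, Finset.mem_filter]; exact ⟨mem_univ _, ha⟩))
  choose φ hφ using key
  refine ⟨φ, fun i hi j hj _ => ?_, fun i hi => ?_, fun i hi a ha => ?_⟩
  · exact (hφ i hi).2.2 _ (hφ j hj).1
  · exact (hD.l_le i hi).trans (hφ i hi).1
  · exact (hφ i hi).2.1 a ha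

theorem DL.step {E : V → V → Prop} (hE : ∀ a b, E a b → E b a) {α α₁ κ : ℝ} {W : V → ℝ}
    {G : SimpleGraph ι} {R : Finset ι} {g : ι → ℝ} {A : ι → Finset V} {l : ι → ℝ}
    (hD : DL α α₁ κ W G R g A l) (hα : α < α₁) (hF : Forest G R)
    {X : Finset ι} (hX : X ⊆ R) (hXc : Conn G X)
    (hmin : ∀ Y ⊆ R, Conn G Y → ww α₁ g X ≤ ww α₁ g Y) (hlt : ww α₁ g X < α₁)
    (hcol : Cols E W G X A (fun _ => ww α₁ g X)) :
    ∃ (g' : ι → ℝ) (A' : ι → Finset V) (l' : ι → ℝ), DL α α₁ κ W G (R \ X) g' A' l' ∧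
      (Cols E W G (R \ X) A' l' → Cols E W G R A l) := by
  classical
  obtain ⟨h, hh1, hh2, hh3⟩ := hcol
  set ws : ℝ := ww α₁ g X with hws
  set A' : ι → Finset V := fun y => A y ∪ (X.filter (fun z => G.Adj y z)).image h with hA'
  set g' : ι → ℝ := fun y => if ∃ z ∈ X, G.Adj y z then g y + (α₁ - ws) else g y with hg'
  set l' : ι → ℝ := fun y => if ∃ z ∈ X, G.Adj y z then max (l y) (min ws α) else l y with hl'
  have hll' : ∀ y, l y ≤ l' y := by
    intro y
    simp only [hl']
    split_ifs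
    · exact le_max_left _ _
    · exact le_rfl
  have hA'none : ∀ y, (¬ ∃ z ∈ X, G.Adj y z) → A' y = A y := by
    intro y hy
    have : X.filter (fun z => G.Adj y z) = ∅ := by
      rw [Finset.filter_eq_empty_iff]
      intro z hz hadj
      exact hy ⟨z, hz, hadj⟩
    simp only [hA', this, Finset.image_empty, Finset.union_empty]
  -- the unique neighbour in `X`
  have huniq : ∀ Y ⊆ R \ X, Conn G Y → ∀ y ∈ Y, ∀ z ∈ X, G.Adj y z → ∀ y' ∈ Y, ∀ z' ∈ X,
      G.Adj y' z' → y = y' ∧ z = z' := by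
    intro Y hY hYc y hy z hz hadj y' hy' z' hz' hadj'
    refine hF.unique_edge (hY.trans Finset.sdiff_subset) hX hYc hXc ?_ hy hy' hz hz' hadj hadj'
    exact Finset.disjoint_of_subset_left hY Finset.sdiff_disjoint
  have hkapz : ∀ z ∈ X, ∀ w, min ws α ≤ w → kap α W w (h z) < α₁ - ws := by
    intro z hz w hw
    have h1 := hh2 z hz
    unfold kap
    refine max_lt (by linarith) ?_
    rcases le_total ws α with h2 | h2
    · rw [min_eq_left h2] at hw
      have := le_min h1 hw
      linarith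
    · rw [min_eq_right h2] at hw
      have := le_min (h2.trans h1) hw
      linarith
  have hcostn : ∀ y ∈ R \ X, (∃ z ∈ X, G.Adj y z) → ∀ w, l' y ≤ w →
      ∑ a ∈ A' y, kap α W w a < g' y := by
    intro y hy hex w hw
    obtain ⟨z, hz, hadj⟩ := hex
    have hyc : ({y} : Finset ι) ⊆ R \ X := Finset.singleton_subset_iff.2 hy
    have hfil : X.filter (fun z => G.Adj y z) = {z} := by
      ext z'
      simp only [Finset.mem_filter, Finset.mem_singleton]
      constructor
      · rintro ⟨hz', hadj'⟩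
        exact (huniq {y} hyc (conn_singleton G y) y (Finset.mem_singleton_self y) z' hz' hadj' y
          (Finset.mem_singleton_self y) z hz hadj).2
      · rintro rfl; exact ⟨hz, hadj⟩
    have hex' : ∃ z ∈ X, G.Adj y z := ⟨z, hz, hadj⟩
    have e1 : A' y = A y ∪ {h z} := by
      simp only [hA', hfil, Finset.image_singleton]
    have e2 : g' y = g y + (α₁ - ws) := by
      simp only [hg']; rw [if_pos hex']
    have e3 : l' y = max (l y) (min ws α) := by
      simp only [hl']; rw [if_pos hex']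
    rw [e3] at hw
    rw [e1, e2]
    have h1 : ∑ a ∈ A y ∪ {h z}, kap α W w a ≤ ∑ a ∈ A y, kap α W w a + ∑ a ∈ {h z}, kap α W w a := by
      rw [← Finset.sum_union_inter]
      have : 0 ≤ ∑ a ∈ A y ∩ {h z}, kap α W w a := Finset.sum_nonneg fun a _ => le_max_left _ _
      linarith
    rw [Finset.sum_singleton] at h1
    have h2 := hkapz z hz w ((le_max_right _ _).trans hw)
    have h3 := hD.cost y (Finset.sdiff_subset hy) w ((le_max_left _ _).trans hw)
    linarith
  -- the weights
  have hwwle : ∀ Y ⊆ R \ X, Conn G Y → ((∀ y ∈ Y, ¬ ∃ z ∈ X, G.Adj y z) ∧ ww α₁ g' Y = ww α₁ g Y) ∨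
      (∃ Z ⊆ R, Conn G Z ∧ Y ⊆ Z ∧ ww α₁ g' Y = ww α₁ g Z) := by
    intro Y hY hYc
    by_cases hex : ∃ y ∈ Y, ∃ z ∈ X, G.Adj y z
    · right
      obtain ⟨y, hy, z, hz, hadj⟩ := hex
      have hdis : Disjoint Y X := Finset.disjoint_of_subset_left hY Finset.sdiff_disjoint
      refine ⟨Y ∪ X, Finset.union_subset (hY.trans Finset.sdiff_subset) hX,
        hYc.union_adj hXc hy hz hadj, Finset.subset_union_left, ?_⟩
      have e1 : ∑ y' ∈ Y, (1 - α₁ - g' y') = ∑ y' ∈ Y, (1 - α₁ - g y') - (α₁ - ws) := by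
        rw [← Finset.add_sum_erase Y _ hy, ← Finset.add_sum_erase Y (fun y' => 1 - α₁ - g y') hy]
        have e2 : g' y = g y + (α₁ - ws) := by
          simp only [hg']; rw [if_pos ⟨z, hz, hadj⟩]
        have e3 : ∑ y' ∈ Y.erase y, (1 - α₁ - g' y') = ∑ y' ∈ Y.erase y, (1 - α₁ - g y') := by
          refine Finset.sum_congr rfl fun y' hy' => ?_
          rw [Finset.mem_erase] at hy'
          have : g' y' = g y' := by
            simp only [hg']
            rw [if_neg]
            rintro ⟨z', hz', hadj'⟩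
            exact hy'.1 (huniq Y hY hYc y' hy'.2 z' hz' hadj' y hy z hz hadj).1
          rw [this]
        rw [e3, e2]; ring
      unfold ww
      rw [Finset.sum_union hdis, e1]
      have : ws = α₁ + ∑ y' ∈ X, (1 - α₁ - g y') := rfl
      linarith
    · left
      push Not at hex
      have hno : ∀ y ∈ Y, ¬ ∃ z ∈ X, G.Adj y z := by
        rintro y hy ⟨z, hz, hadj⟩
        exact hex y hy z hz hadj
      refine ⟨hno, ?_⟩
      unfold ww
      congr 1
      refine Finset.sum_congr rfl fun y hy => ?_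
      have : g' y = g y := by
        simp only [hg']; rw [if_neg (hno y hy)]
      rw [this]
  refine ⟨g', A', l', ⟨?_, ?_, ?_, ?_, ?_, ?_⟩, ?_⟩
  · intro y hy
    have := hD.g0 y (Finset.sdiff_subset hy)
    simp only [hg']
    split_ifs
    · linarith
    · exact this
  · intro y hy
    have := hD.l_le y (Finset.sdiff_subset hy)
    simp only [hl']
    split_ifs
    · exact max_le this (min_le_right _ _)
    · exact this
  · intro y hy w hw
    by_cases hex : ∃ z ∈ X, G.Adj y z
    · exact (hcostn y hy hex w hw).le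
    · have e2 : g' y = g y := by
        simp only [hg']; rw [if_neg hex]
      rw [hA'none y hex, e2]
      exact hD.cost y (Finset.sdiff_subset hy) w ((hll' y).trans hw)
  · intro y hy w hw hpos
    by_cases hex : ∃ z ∈ X, G.Adj y z
    · exact hcostn y hy hex w hw
    · have e2 : g' y = g y := by
        simp only [hg']; rw [if_neg hex]
      rw [hA'none y hex] at hpos
      rw [hA'none y hex, e2]
      exact hD.cost_lt y (Finset.sdiff_subset hy) w ((hll' y).trans hw) hpos
  · intro Y hY hYc y hy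
    rcases hwwle Y hY hYc with ⟨hno, he⟩ | ⟨Z, hZ, hZc, hYZ, he⟩
    · rw [he]
      have : l' y = l y := by
        simp only [hl']; rw [if_neg (hno y hy)]
      rw [this]
      exact hD.lev Y (hY.trans Finset.sdiff_subset) hYc y hy
    · rw [he]
      have h1 := hD.lev Z hZ hZc y (hYZ hy)
      have h2 := hmin Z hZ hZc
      simp only [hl']
      split_ifs
      · exact max_le h1 ((min_le_left _ _).trans h2)
      · exact h1
  · intro Y hY hYc
    rcases hwwle Y hY hYc with ⟨hno, he⟩ | ⟨Z, hZ, hZc, hYZ, he⟩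
    · rw [he]; exact hD.kap_le Y (hY.trans Finset.sdiff_subset) hYc
    · rw [he]; exact hD.kap_le Z hZ hZc
  · rintro ⟨φ, hφ1, hφ2, hφ3⟩
    refine ⟨fun i => if i ∈ X then h i else φ i, fun i hi j hj hadj => ?_, fun i hi => ?_,
      fun i hi a ha => ?_⟩
    · by_cases hiX : i ∈ X <;> by_cases hjX : j ∈ X
      · simp only [hiX, hjX, if_true]
        exact hh1 i hiX j hjX hadj
      · simp only [hiX, hjX, if_true, if_false]
        refine hE _ _ (hφ3 j (Finset.mem_sdiff.2 ⟨hj, hjX⟩) _ ?_)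
        refine Finset.mem_union_right _ (Finset.mem_image_of_mem h ?_)
        exact Finset.mem_filter.2 ⟨hiX, hadj.symm⟩
      · simp only [hiX, hjX, if_true, if_false]
        refine hφ3 i (Finset.mem_sdiff.2 ⟨hi, hiX⟩) _ ?_
        refine Finset.mem_union_right _ (Finset.mem_image_of_mem h ?_)
        exact Finset.mem_filter.2 ⟨hjX, hadj⟩
      · simp only [hiX, hjX, if_false]
        exact hφ1 i (Finset.mem_sdiff.2 ⟨hi, hiX⟩) j (Finset.mem_sdiff.2 ⟨hj, hjX⟩) hadj
    · by_cases hiX : i ∈ X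
      · simp only [hiX, if_true]
        exact (hD.lev X hX hXc i hiX).trans (hh2 i hiX)
      · simp only [hiX, if_false]
        exact (hll' i).trans (hφ2 i (Finset.mem_sdiff.2 ⟨hi, hiX⟩))
    · by_cases hiX : i ∈ X
      · simp only [hiX, if_true]
        exact hh3 i hiX a ha
      · simp only [hiX, if_false]
        exact hφ3 i (Finset.mem_sdiff.2 ⟨hi, hiX⟩) a (Finset.mem_union_left _ ha)

theorem DL.cols {E : V → V → Prop} (hE : ∀ a b, E a b → E b a) {α α₁ κ : ℝ} (hα : α < α₁)
    (hα1 : α₁ ≤ 1) (hκ : κ ≤ α) {W : V → ℝ} {k : ℕ} (hS : SmallOK E κ α W k) (hV : Nonempty V)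
    {G : SimpleGraph ι} {R : Finset ι} (hF : Forest G R) (hcard : R.card < k) {g : ι → ℝ}
    {A : ι → Finset V} {l : ι → ℝ} (hD : DL α α₁ κ W G R g A l) : Cols E W G R A l := by
  classical
  induction hn : R.card using Nat.strong_induction_on generalizing R g A l with
  | _ n ih =>
    rcases R.eq_empty_or_nonempty with hR | ⟨y0, hy0⟩
    · subst hR
      exact ⟨fun _ => hV.some, by simp, by simp, by simp⟩
    · have hne : (R.powerset.filter (fun X => Conn G X)).Nonempty :=
        ⟨{y0}, Finset.mem_filter.2 ⟨Finset.mem_powerset.2 (Finset.singleton_subset_iff.2 hy0),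
          conn_singleton G y0⟩⟩
      obtain ⟨X, hX, hXmin⟩ := Finset.exists_min_image _ (fun X => ww α₁ g X) hne
      rw [Finset.mem_filter, Finset.mem_powerset] at hX
      obtain ⟨hXR, hXc⟩ := hX
      have hmin : ∀ Y ⊆ R, Conn G Y → ww α₁ g X ≤ ww α₁ g Y := fun Y hY hYc =>
        hXmin Y (Finset.mem_filter.2 ⟨Finset.mem_powerset.2 hY, hYc⟩)
      have hRpos : 0 < R.card := Finset.card_pos.2 ⟨y0, hy0⟩
      rcases le_or_gt α₁ (ww α₁ g X) with hge | hlt
      · refine hD.high hα hκ hS hV (by omega) fun y hy => hge.trans ?_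
        exact hmin {y} (Finset.singleton_subset_iff.2 hy) (conn_singleton G y)
      · have hXcard := Finset.card_le_card hXR
        have hcol := hD.piece hα hα1 hS hV hF hXR hXc hmin hlt (by omega)
        obtain ⟨g', A', l', hD', himp⟩ := hD.step hE hα hF hXR hXc hmin hlt hcol
        have hXpos := Finset.card_pos.2 hXc.nonempty
        have hsd := Finset.card_sdiff_add_card_eq_card hXR
        exact himp (ih (R \ X).card (by omega) (Forest.mono Finset.sdiff_subset hF) (by omega) hD' rfl)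

theorem DL.cols_of_proper {E : V → V → Prop} (hE : ∀ a b, E a b → E b a) {α α₁ κ : ℝ}
    (hα : α < α₁) (hα1 : α₁ ≤ 1) (hκ : κ ≤ α) {W : V → ℝ} {k : ℕ} (hS : SmallOK E κ α W k)
    (hV : Nonempty V) {G : SimpleGraph ι} {R : Finset ι} (hF : Forest G R) (hcard : R.card ≤ k)
    {g : ι → ℝ} {A : ι → Finset V} {l : ι → ℝ} (hD : DL α α₁ κ W G R g A l) {X : Finset ι}
    (hX : X ⊆ R) (hne : X ≠ R) (hXc : Conn G X)
    (hmin : ∀ Y ⊆ R, Conn G Y → ww α₁ g X ≤ ww α₁ g Y) (hlt : ww α₁ g X < α₁) :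
    Cols E W G R A l := by
  have hlt' := Finset.card_lt_card (Finset.ssubset_iff_subset_ne.2 ⟨hX, hne⟩)
  have hcol := hD.piece hα hα1 hS hV hF hX hXc hmin hlt (by omega)
  obtain ⟨g', A', l', hD', himp⟩ := hD.step hE hα hF hX hXc hmin hlt hcol
  have hXpos := Finset.card_pos.2 hXc.nonempty
  have hsd := Finset.card_sdiff_add_card_eq_card hX
  exact himp (DL.cols hE hα hα1 hκ hS hV (Forest.mono Finset.sdiff_subset hF) (by omega) hD')

end Pool.MP_65847d_pr
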