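import Pool.Agent.Lib.MP_65847d_pr.X.LowerX
import Pool.Agent.Lib.MP_65847d_pr.X.UpperX
import Pool.Agent.Lib.MP_65847d_pr.X.QFinal
import Pool.Agent.Lib.MP_65847d_pr.X.FKx
import Pool.Agent.Lib.MP_65847d_pr.X.XMain
import Pool.Agent.Lib.MP_65847d_pr.X.EUniv
import Pool.Agent.Lib.MP_65847d_pr.X.ELoopless
import Pool.Agent.Lib.MP_65847d_pr.X.EDisc
import Pool.Agent.Lib.MP_65847d_pr.X.EEdgeless
import Pool.Agent.Lib.MP_65847d_pr.X.EBounds

/-!
# X/XFinal : the exact threshold for every finite graph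
-/

set_option autoImplicit false

open Finset Filter Topology

namespace Pool.MP_65847d_pr

open Pool.MP_1bacea_co

theorem expoFrom_anti {V : Type*} (E : V → V → Prop) {κ κ' : ℝ} (h : κ ≤ κ') :
    expoFrom E κ' ≤ expoFrom E κ := by
  refine csInf_le_csInf (expoFrom_bddBelow E κ') ⟨1, Or.inr rfl⟩ ?_
  rintro x (⟨h0, h1, W, hW⟩ | hx)
  · exact Or.inl ⟨h0, h1, W, hW.1, fun w hw => hW.2 w (h.trans hw)⟩
  · exact Or.inr hx

theorem expoFrom_nonneg {V : Type*} (E : V → V → Prop) (κ : ℝ) : 0 ≤ expoFrom E κ := by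
  refine le_csInf ⟨1, Or.inr rfl⟩ ?_
  rintro x (hx | hx)
  · exact hx.1.le
  · rw [Set.mem_singleton_iff.mp hx]; norm_num

theorem exact_threshold {V : Type} [Finite V] [Nonempty V] {E : V → V → Prop}
    (hE : ∀ a b, E a b → E b a) :
    ∃ al be : ℚ, 0 ≤ al ∧ 0 ≤ be ∧
      IsThreshold (fun _ => SurjHom E) (fun n => (n : ℝ) ^ (-(al : ℝ)) * Real.log n ^ (be : ℝ)) ∧
      ((∀ a b, ¬ E a b) → al = 2 ∧ be = 0) ∧
      ((∃ a b, E a b) → ∃ κ0 : ℝ, 0 < κ0 ∧ ∀ κ, 0 < κ → κ ≤ κ0 →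
        expoFrom E κ = (al : ℝ) - (be : ℝ) * κ) := by
  classical
  have := Fintype.ofFinite V
  by_cases hne : ∃ a b, E a b
  swap
  · push Not at hne
    refine ⟨2, 0, by norm_num, le_rfl, ?_, fun _ => ⟨rfl, rfl⟩, ?_⟩
    · have h1 := threshold_edgeless hne
      have e1 : (fun n : ℕ => (n : ℝ) ^ (-((2 : ℚ) : ℝ)) * Real.log n ^ ((0 : ℚ) : ℝ)) =
          fun n : ℕ => (n : ℝ) ^ (-2 : ℝ) := by
        funext n
        simp
      rw [e1]
      exact h1
    · rintro ⟨a, b, hab⟩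
      exact absurd hab (hne a b)
  have hnot : ¬ ∀ a b, ¬ E a b := by
    intro h
    obtain ⟨a, b, hab⟩ := hne
    exact h a b hab
  by_cases hu : ∃ b, ∀ a, E b a
  · obtain ⟨b, hb⟩ := hu
    refine ⟨0, 0, le_rfl, le_rfl, ?_, fun h => absurd h hnot, fun _ => ⟨1, one_pos, fun κ _ _ => ?_⟩⟩
    · have h1 := threshold_univ hE hb
      have e1 : (fun n : ℕ => (n : ℝ) ^ (-((0 : ℚ) : ℝ)) * Real.log n ^ ((0 : ℚ) : ℝ)) =
          fun _ : ℕ => (1 : ℝ) := by
        funext n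
        simp
      rw [e1]
      exact h1
    · rw [expoFrom_univ hb κ]
      simp
  by_cases hl : ∀ a, ¬ E a a
  · refine ⟨1, 0, by norm_num, le_rfl, ?_, fun h => absurd h hnot,
      fun _ => ⟨1 / 2, by norm_num, fun κ _ hκ => ?_⟩⟩
    · have h1 := threshold_loopless hE hne hl
      have e1 : (fun n : ℕ => (n : ℝ) ^ (-((1 : ℚ) : ℝ)) * Real.log n ^ ((0 : ℚ) : ℝ)) =
          fun n : ℕ => (n : ℝ)⁻¹ := by
        funext n
        simp [Real.rpow_neg_one]
      rw [e1]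
      exact h1
    · rw [expoFrom_loopless hl (by linarith)]
      simp
  push Not at hl
  obtain ⟨b, hb⟩ := hl
  by_cases hc : ∃ a c, ∀ k, ¬ Walk E k a c
  · obtain ⟨a, c, hac⟩ := hc
    refine ⟨1, 1, by norm_num, by norm_num, ?_, fun h => absurd h hnot,
      fun _ => ⟨1 / 2, by norm_num, fun κ h0 hκ => ?_⟩⟩
    · have h1 := threshold_disc hE hb hac
      have e1 : (fun n : ℕ => (n : ℝ) ^ (-((1 : ℚ) : ℝ)) * Real.log n ^ ((1 : ℚ) : ℝ)) =
          fun n : ℕ => Real.log n / n := by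
        funext n
        simp only [Rat.cast_one, Real.rpow_neg_one, Real.rpow_one]
        rw [mul_comm, div_eq_mul_inv]
      rw [e1]
      exact h1
    · rw [expoFrom_disc hE hb hac h0.le hκ]
      simp
  push Not at hc
  -- the main case
  have hcard : (1 : ℝ) ≤ (Fintype.card V : ℝ) := by
    exact_mod_cast Fintype.card_pos
  set c0 : ℝ := 1 / (2 * (Fintype.card V : ℝ)) with hc0
  have hc0pos : 0 < c0 := by rw [hc0]; positivity
  have hc0half : c0 ≤ 1 / 2 := by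
    rw [hc0, div_le_div_iff₀ (by positivity) (by norm_num)]
    linarith
  have hpos : ∃ c : ℝ, 0 < c ∧ ∀ κ, 0 < κ → κ ≤ c → c ≤ expoFrom E κ :=
    ⟨c0, hc0pos, fun κ h0 h1 => expoFrom_ge hu h0.le (h1.trans hc0half)⟩
  obtain ⟨al, be, k0, hk0, haff⟩ := expo_affine hE hpos
  have hlt1 : expo E < 1 := expo_lt hE hb fun a => hc a b
  set k1 : ℝ := min k0 (1 / 2) with hk1
  have hk1pos : 0 < k1 := lt_min hk0 (by norm_num)
  have hk1k0 : k1 ≤ k0 := min_le_left _ _
  have hk1half : k1 ≤ 1 / 2 := min_le_right _ _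
  have haff1 : ∀ κ, 0 < κ → κ ≤ k1 → expoFrom E κ = (al : ℝ) - (be : ℝ) * κ :=
    fun κ h0 h1 => haff κ h0 (h1.trans hk1k0)
  -- signs
  have hbe : (0 : ℝ) ≤ (be : ℝ) := by
    have h1 := haff1 k1 hk1pos le_rfl
    have h2 := haff1 (k1 / 2) (by linarith) (by linarith)
    have h3 := expoFrom_anti E (show k1 / 2 ≤ k1 by linarith)
    rw [h1, h2] at h3
    by_contra hneg
    push Not at hneg
    nlinarith
  have hal : (0 : ℝ) ≤ (al : ℝ) := by
    have h1 := haff1 k1 hk1pos le_rfl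
    have h2 := expoFrom_nonneg E k1
    have h3 : 0 ≤ (be : ℝ) * k1 := by positivity
    linarith
  refine ⟨al, be, by exact_mod_cast hal, by exact_mod_cast hbe, ?_, fun h => absurd h hnot,
    fun _ => ⟨k1, hk1pos, haff1⟩⟩
  set d : ℝ := min (c0 / 2) ((1 - expo E) / 2) with hd
  have hdpos : 0 < d := lt_min (by linarith) (by linarith)
  have hd1 : 2 * d ≤ c0 := by
    have := min_le_left (c0 / 2) ((1 - expo E) / 2)
    linarith
  have hd2 : 2 * d ≤ 1 - expo E := by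
    have := min_le_right (c0 / 2) ((1 - expo E) / 2)
    linarith
  refine threshold_main (fun d hd ε hε => lower_X hE hd hε) (fun d hd ε hε => upper_exact hE hd hε)
    hdpos hk1pos haff1 ?_ ?_
  · intro κ h0 h1
    exact hd1.trans (expoFrom_ge hu h0.le (h1.trans hk1half))
  · intro κ h0 h1
    have := expoFrom_le_expo E h0.le
    linarith

end Pool.MP_65847d_pr
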