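import Pool.Agent.Lib.MP_65847d_pr.X.XConn

/-!
# X/XForest : forests, cuts of trees, reglueing

* `Forest.mono`: `SimpleGraph.IsAcyclic` of an induced subgraph (`IsAcyclic.comap`).
* `forest_of_acyclic`, `acyclic_iff`: `Forest G univ ↔ G.IsAcyclic`.
* `Forest.unique_edge`: every edge of an acyclic graph is a bridge (`SimpleGraph.isAcyclic_iff_forall_edge_isBridge`,
  `SimpleGraph.isBridge_iff`). If `x y` and `x' y'` are two different edges between the disjoint connected sets `X`, `Y` then after deleting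
  `x y` the vertices `x` and `y` are still joined (inside `X` from `x` to `x'`, the edge `x' y'`, inside `Y` from `y'` to `y`; the edge `x y` is not inside `X` nor `Y`).
* `exists_cut`: `H` = set of all vertices reachable from `v` in `K.deleteEdges {s(u, v)}` (`K \ fromEdgeSet {s(u,v)}`); `u ∉ H` since `u v` is a bridge;
  every vertex is reachable from `u` or `v` in this graph as `K` is connected (induction on a walk in `K`), so `Hᶜ` is the set of all
  vertices reachable from `u`; an edge of `K` between `H` and `Hᶜ` is not in the smaller graph, so it is `v u`.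
* `reglue_adj`. `reglue_acyclic`: the graph without the new edge is a subgraph of `K`, so it is acyclic, and `a ∈ Y`, `b ∉ Y` are in different
  components of it (all edges are inside `Y` or inside the complement), adding an edge between two components gives an acyclic graph
  (Mathlib: look for `SimpleGraph.isAcyclic_add_edge_iff_of_not_reachable`, `SimpleGraph.IsAcyclic` and `SimpleGraph.edge`; otherwise show with bridges
  that no edge lies on a cycle).
* `conn_reglue`: `conn_cut` in the graph `reglue K Y a b` with the set `Y`, and `conn_congr` (inside `Y` and inside the complement the graphs have the same edges).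
-/

set_option autoImplicit false

open Finset

namespace Pool.MP_65847d_pr

variable {ι : Type*} [DecidableEq ι]

theorem Forest.mono {G : SimpleGraph ι} {R R' : Finset ι} (h : R' ⊆ R) (hF : Forest G R) :
    Forest G R' := by
  refine SimpleGraph.IsAcyclic.comap (G' := G.induce (R : Set ι))
    { toFun := fun z => ⟨z.1, h z.2⟩, map_rel' := fun {a b} hab => hab } ?_ hF
  intro a b hab
  exact Subtype.ext (congrArg (fun z : (R : Set ι) => (z : ι)) hab)

theorem forest_of_acyclic {G : SimpleGraph ι} (h : G.IsAcyclic) (R : Finset ι) : Forest G R :=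
  h.induce _

theorem Forest.congr {G G' : SimpleGraph ι} {R : Finset ι}
    (h : ∀ x ∈ R, ∀ y ∈ R, G'.Adj x y → G.Adj x y) (hF : Forest G R) : Forest G' R := by
  refine SimpleGraph.IsAcyclic.comap (G' := G.induce (R : Set ι))
    { toFun := fun z => ⟨z.1, z.2⟩, map_rel' := fun {a b} hab => h _ a.2 _ b.2 hab } ?_ hF
  intro a b hab
  exact Subtype.ext (congrArg (fun z : (R : Set ι) => (z : ι)) hab)

private theorem xf_reach {G : SimpleGraph ι} {R Z : Finset ι} (hZ : Z ⊆ R) (hZc : Conn G Z)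
    {x y : (R : Set ι)} (hxy : (x : ι) ∉ Z ∨ (y : ι) ∉ Z) {a b : (R : Set ι)} (ha : (a : ι) ∈ Z)
    (hb : (b : ι) ∈ Z) :
    ((G.induce (R : Set ι)).deleteEdges {s(x, y)}).Reachable a b := by
  have h1 := hZc.preconnected ⟨a, ha⟩ ⟨b, hb⟩
  let f : G.induce (Z : Set ι) →g (G.induce (R : Set ι)).deleteEdges {s(x, y)} :=
    { toFun := fun z => ⟨z.1, hZ z.2⟩
      map_rel' := by
        intro p q hpq
        rw [SimpleGraph.deleteEdges_adj]
        refine ⟨hpq, fun he => ?_⟩
        rw [Set.mem_singleton_iff, Sym2.eq_iff] at he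
        rcases he with ⟨h1, h2⟩ | ⟨h1, h2⟩
        · rcases hxy with h | h
          · exact h (by rw [← h1]; exact p.2)
          · exact h (by rw [← h2]; exact q.2)
        · rcases hxy with h | h
          · exact h (by rw [← h2]; exact q.2)
          · exact h (by rw [← h1]; exact p.2) }
  exact h1.map f

theorem Forest.unique_edge {G : SimpleGraph ι} {R X Y : Finset ι} (hF : Forest G R) (hXR : X ⊆ R)
    (hYR : Y ⊆ R) (hX : Conn G X) (hY : Conn G Y) (hXY : Disjoint X Y) {x x' y y' : ι}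
    (hx : x ∈ X) (hx' : x' ∈ X) (hy : y ∈ Y) (hy' : y' ∈ Y) (h : G.Adj x y) (h' : G.Adj x' y') :
    x = x' ∧ y = y' := by
  by_contra hcon
  have hb := (SimpleGraph.isAcyclic_iff_forall_adj_isBridge.mp hF)
    (v := ⟨x, hXR hx⟩) (w := ⟨y, hYR hy⟩) h
  rw [SimpleGraph.isBridge_iff] at hb
  apply hb
  have hyX : y ∉ X := fun h1 => (Finset.disjoint_left.mp hXY h1) hy
  have hxY : x ∉ Y := fun h1 => (Finset.disjoint_left.mp hXY hx) h1
  have r1 := xf_reach hXR hX (x := ⟨x, hXR hx⟩) (y := ⟨y, hYR hy⟩) (Or.inr hyX)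
    (a := ⟨x, hXR hx⟩) (b := ⟨x', hXR hx'⟩) hx hx'
  have r2 := xf_reach hYR hY (x := ⟨x, hXR hx⟩) (y := ⟨y, hYR hy⟩) (Or.inl hxY)
    (a := ⟨y', hYR hy'⟩) (b := ⟨y, hYR hy⟩) hy' hy
  refine r1.trans (SimpleGraph.Reachable.trans (SimpleGraph.Adj.reachable ?_) r2)
  rw [SimpleGraph.deleteEdges_adj]
  refine ⟨h', fun he => ?_⟩
  rw [Set.mem_singleton_iff, Sym2.eq_iff] at he
  rcases he with ⟨h1, h2⟩ | ⟨h1, h2⟩
  · exact hcon ⟨(congrArg Subtype.val h1).symm, (congrArg Subtype.val h2).symm⟩
  · have h3 : x' = y := congrArg Subtype.val h1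
    exact hyX (h3 ▸ hx')

private theorem xf_closed [Fintype ι] {K K' : SimpleGraph ι} (hle : K' ≤ K) (v : ι) {H : Finset ι}
    (hH : ∀ x, x ∈ H ↔ K'.Reachable v x) : Conn K H := by
  have hv : v ∈ H := (hH v).mpr (SimpleGraph.Reachable.refl v)
  have key : ∀ z, K'.Reachable v z → ∀ hz : z ∈ H,
      (K.induce (H : Set ι)).Reachable ⟨v, hv⟩ ⟨z, hz⟩ := by
    intro z hz
    rw [SimpleGraph.reachable_iff_reflTransGen] at hz
    induction hz with
    | refl => exact fun _ => SimpleGraph.Reachable.refl _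
    | @tail p q hp hq ih =>
      intro hqH
      have hpH : p ∈ H := (hH p).mpr ((SimpleGraph.reachable_iff_reflTransGen _ _).mpr hp)
      refine (ih hpH).trans (SimpleGraph.Adj.reachable ?_)
      exact hle hq
  have : Nonempty (H : Set ι) := ⟨⟨v, hv⟩⟩
  exact { preconnected := fun a b => ((key a ((hH _).mp a.2) a.2).symm).trans
            (key b ((hH _).mp b.2) b.2) }

theorem exists_cut [Fintype ι] {K : SimpleGraph ι} (hK : K.IsTree) {u v : ι} (h : K.Adj u v) :
    ∃ H : Finset ι, IsCut K u v H := by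
  classical
  set K' := K.deleteEdges {s(u, v)} with hK'
  have hbr : ¬ K'.Reachable u v := by
    have := (SimpleGraph.isAcyclic_iff_forall_adj_isBridge.mp hK.isAcyclic) h
    rwa [SimpleGraph.isBridge_iff] at this
  have hadj : ∀ x y, K.Adj x y → K'.Adj x y ∨ (x = u ∧ y = v) ∨ (x = v ∧ y = u) := by
    intro x y hxy
    by_cases he : s(x, y) = s(u, v)
    · right
      rwa [Sym2.eq_iff] at he
    · left
      rw [hK', SimpleGraph.deleteEdges_adj]
      exact ⟨hxy, fun hm => he hm⟩
  have hall : ∀ x, K'.Reachable u x ∨ K'.Reachable v x := by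
    intro x
    have h1 := hK.connected.preconnected u x
    rw [SimpleGraph.reachable_iff_reflTransGen] at h1
    induction h1 with
    | refl => exact Or.inl (SimpleGraph.Reachable.refl _)
    | @tail p q hp hq ih =>
      rcases hadj _ _ hq with h2 | ⟨-, rfl⟩ | ⟨-, rfl⟩
      · rcases ih with ih | ih
        · exact Or.inl (ih.trans h2.reachable)
        · exact Or.inr (ih.trans h2.reachable)
      · exact Or.inr (SimpleGraph.Reachable.refl _)
      · exact Or.inl (SimpleGraph.Reachable.refl _)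
  set H : Finset ι := univ.filter (fun x => K'.Reachable v x) with hH
  have hHm : ∀ x, x ∈ H ↔ K'.Reachable v x := fun x => by simp [hH]
  have hHc : ∀ x, x ∈ Hᶜ ↔ K'.Reachable u x := by
    intro x
    rw [Finset.mem_compl, hHm]
    constructor
    · intro h1
      exact (hall x).resolve_right h1
    · intro h1 h2
      exact hbr (h1.trans h2.symm)
  have hle : K' ≤ K := SimpleGraph.deleteEdges_le _
  refine ⟨H, (hHm v).mpr (SimpleGraph.Reachable.refl _), fun h1 => hbr ((hHm u).mp h1).symm,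
    xf_closed hle v hHm, xf_closed hle u hHc, ?_⟩
  intro x hx y hy hxy
  rcases hadj _ _ hxy with h2 | ⟨rfl, -⟩ | h3
  · exact absurd ((hHm y).mpr (((hHm x).mp hx).trans h2.reachable)) hy
  · exact absurd ((hHm x).mp hx).symm hbr
  · exact h3

theorem reglue_adj (K : SimpleGraph ι) (Y : Finset ι) {a b : ι} (hab : a ≠ b) (x y : ι) :
    (reglue K Y a b).Adj x y ↔
      (K.Adj x y ∧ (x ∈ Y ↔ y ∈ Y)) ∨ (x = a ∧ y = b) ∨ (x = b ∧ y = a) := by
  unfold reglue
  rw [SimpleGraph.fromRel_adj]
  constructor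
  · rintro ⟨-, (h | h) | (h | h)⟩
    · exact Or.inl h
    · exact Or.inr (Or.inl h)
    · exact Or.inl ⟨h.1.symm, h.2.symm⟩
    · exact Or.inr (Or.inr ⟨h.2, h.1⟩)
  · rintro (h | ⟨rfl, rfl⟩ | ⟨rfl, rfl⟩)
    · exact ⟨h.1.ne, Or.inl (Or.inl h)⟩
    · exact ⟨hab, Or.inl (Or.inr ⟨rfl, rfl⟩)⟩
    · exact ⟨hab.symm, Or.inr (Or.inr ⟨rfl, rfl⟩)⟩

theorem reglue_acyclic {K : SimpleGraph ι} (hK : K.IsAcyclic) {Y : Finset ι} {a b : ι} (ha : a ∈ Y)
    (hb : b ∉ Y) : (reglue K Y a b).IsAcyclic := by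
  have hab : a ≠ b := fun h => hb (h ▸ ha)
  let K' : SimpleGraph ι :=
    { Adj := fun x y => K.Adj x y ∧ (x ∈ Y ↔ y ∈ Y)
      symm := ⟨fun x y h => ⟨h.1.symm, h.2.symm⟩⟩
      loopless := ⟨fun x h => K.loopless.irrefl x h.1⟩ }
  have hle : K' ≤ K := fun x y h => h.1
  have hac : K'.IsAcyclic := hK.anti hle
  have hnr : ¬ K'.Reachable a b := by
    intro h
    rw [SimpleGraph.reachable_iff_reflTransGen] at h
    have key : ∀ z, Relation.ReflTransGen K'.Adj a z → z ∈ Y := by
      intro z hz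
      induction hz with
      | refl => exact ha
      | tail _ hq ih => exact hq.2.mp ih
    exact hb (key b h)
  have h1 := SimpleGraph.IsAcyclic.sup_edge_of_not_reachable hnr hac
  refine h1.anti fun x y h => ?_
  rw [reglue_adj K Y hab] at h
  rw [SimpleGraph.sup_adj, SimpleGraph.edge_adj]
  rcases h with h | h | h
  · exact Or.inl h
  · exact Or.inr ⟨Or.inl h, by rw [h.1, h.2]; exact hab⟩
  · exact Or.inr ⟨Or.inr h, by rw [h.1, h.2]; exact hab.symm⟩

theorem conn_reglue {K : SimpleGraph ι} {Y : Finset ι} {a b : ι} (ha : a ∈ Y) (hb : b ∉ Y)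
    {X : Finset ι} (hX : Conn (reglue K Y a b) X) :
    (Conn K X ∧ (X ⊆ Y ∨ Disjoint X Y)) ∨
      (a ∈ X ∧ b ∈ X ∧ Conn K (X ∩ Y) ∧ Conn K (X \ Y)) := by
  have hab : a ≠ b := fun h => hb (h ▸ ha)
  have hin : ∀ x ∈ Y, ∀ y ∈ Y, (reglue K Y a b).Adj x y → K.Adj x y := by
    intro x hx y hy h
    rw [reglue_adj K Y hab] at h
    rcases h with h | ⟨-, rfl⟩ | ⟨rfl, -⟩
    · exact h.1
    · exact absurd hy hb
    · exact absurd hx hb
  have hout : ∀ x, x ∉ Y → ∀ y, y ∉ Y → (reglue K Y a b).Adj x y → K.Adj x y := by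
    intro x hx y hy h
    rw [reglue_adj K Y hab] at h
    rcases h with h | ⟨rfl, -⟩ | ⟨-, rfl⟩
    · exact h.1
    · exact absurd ha hx
    · exact absurd ha hy
  by_cases h1 : ∃ x ∈ X, x ∈ Y
  · by_cases h2 : ∃ y ∈ X, y ∉ Y
    · right
      obtain ⟨h3, -, h4, -, -, h5, h6⟩ := conn_cut hX Y (a := a) (b := b) (by
        intro x _ hxY y _ hyY h
        rw [reglue_adj K Y hab] at h
        rcases h with h | h | ⟨rfl, -⟩
        · exact absurd (h.2.mp hxY) hyY
        · exact h
        · exact absurd hxY hb) h1 h2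
      refine ⟨h3, h4, conn_congr (fun x hx y hy => ?_) h5, conn_congr (fun x hx y hy => ?_) h6⟩
      · exact hin x (Finset.mem_inter.mp hx).2 y (Finset.mem_inter.mp hy).2
      · exact hout x (Finset.mem_sdiff.mp hx).2 y (Finset.mem_sdiff.mp hy).2
    · left
      push Not at h2
      exact ⟨conn_congr (fun x hx y hy => hin x (h2 x hx) y (h2 y hy)) hX, Or.inl h2⟩
  · left
    push Not at h1
    exact ⟨conn_congr (fun x hx y hy => hout x (h1 x hx) y (h1 y hy)) hX,
      Or.inr (Finset.disjoint_left.mpr h1)⟩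

end Pool.MP_65847d_pr
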