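import Pool.Agent.Lib.MP_65847d_pr.X.XSpine

/-!
# X/XGain : a repeated state gives a gain
-/

set_option autoImplicit false

open Finset

namespace Pool.MP_65847d_pr

variable {ι V : Type*} [Fintype ι] [DecidableEq ι] [Fintype V]

theorem Spine.gain {E : V → V → Prop} {κ α α₁ ws : ℝ} {W : V → ℝ} {K : SimpleGraph ι}
    {A : ι → Finset V} {c : ι → ℝ} {l : ℕ} {v : ℕ → ι} {L : ℕ → Finset ι}
    (hS : Spine K l v L) (hE : ∀ a b, E a b → E b a) (hC : Core E κ α α₁ ws W K A c)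
    (hV : Nonempty V) {r s : ℕ} (hr : r < s) (hs : s ≤ l)
    (hP : PSt E W ws K A (L r)ᶜ (v (r + 1)) = PSt E W ws K A (L s)ᶜ (v (s + 1))) :
    ∑ y ∈ L r, c y < ∑ y ∈ L s, c y := by
  by_contra hneg
  push Not at hneg
  have hrl : r ≤ l := by omega
  have hsub : L r ⊆ L s := hS.subset hr.le hs
  have hvs := mem_sdiff.mp (hS.mem_seg hr le_rfl hs)
  have hvr1 : v (r + 1) ∈ L s \ L r := hS.mem_seg (Nat.lt_succ_self r) hr hs
  have hvs1 : v (s + 1) ∉ L s := hS.notMem s hs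
  have ha : v r ∈ L r := hS.mem r hrl
  have hb : v (s + 1) ∉ L r := fun h => hvs1 (hsub h)
  have hab : v r ≠ v (s + 1) := fun h => hb (h ▸ ha)
  have hX : (L r ∪ (L s)ᶜ).card < Fintype.card ι := by
    rw [← card_univ]
    refine card_lt_card (ssubset_univ_iff.mpr fun h => ?_)
    have h1 : v s ∈ L r ∪ (L s)ᶜ := h ▸ mem_univ _
    rcases mem_union.mp h1 with h2 | h2
    · exact hvs.2 h2
    · exact (mem_compl.mp h2) hvs.1
  have hlow : ∀ U ⊆ L r ∪ (L s)ᶜ, Conn (reglue K (L r) (v r) (v (s + 1))) U →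
      ws ≤ α₁ + ∑ y ∈ U, c y := by
    intro U hU hUc
    rcases conn_reglue ha hb hUc with h | ⟨h1, h2, h3, h4⟩
    · exact hC.min U h.1
    · have hZ1 : Conn K ((U ∩ L r) ∪ (L s \ L r)) :=
        h3.union_adj (hS.seg_conn hr hs) (mem_inter.mpr ⟨h1, ha⟩) hvr1 (hS.adj r hrl)
      have hZ2 : Conn K (((U ∩ L r) ∪ (L s \ L r)) ∪ (U \ L r)) :=
        hZ1.union_adj h4 (mem_union_right _ (mem_sdiff.mpr hvs)) (mem_sdiff.mpr ⟨h2, hb⟩)
          (hS.adj s hs)
      have hm := hC.min _ hZ2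
      have d1 : Disjoint (U ∩ L r) (L s \ L r) := by
        rw [disjoint_left]
        intro y hy hy'
        exact (mem_sdiff.mp hy').2 (mem_inter.mp hy).2
      have d2 : Disjoint ((U ∩ L r) ∪ (L s \ L r)) (U \ L r) := by
        rw [disjoint_left]
        intro y hy hy'
        rw [mem_sdiff] at hy'
        rcases mem_union.mp hy with h | h
        · exact hy'.2 (mem_inter.mp h).2
        · rcases mem_union.mp (hU hy'.1) with h5 | h5
          · exact hy'.2 h5
          · exact (mem_compl.mp h5) (mem_sdiff.mp h).1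
      rw [sum_union d2, sum_union d1] at hm
      have e1 : ∑ y ∈ U ∩ L r, c y + ∑ y ∈ U \ L r, c y = ∑ y ∈ U, c y :=
        sum_inter_add_sum_sdiff U (L r) c
      have e2 : ∑ y ∈ L s \ L r, c y + ∑ y ∈ L r, c y = ∑ y ∈ L s, c y := sum_sdiff hsub
      linarith
  obtain ⟨φ, hφ⟩ := hC.part_graph hV hX (forest_of_acyclic (reglue_acyclic hC.tree.isAcyclic ha hb) _)
    hlow
  have hφr : ColOn E W K (L r) A (fun _ => ws) φ := by
    refine ⟨fun i hi j hj hij => ?_, fun i hi => hφ.2.1 i (mem_union_left _ hi),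
      fun i hi => hφ.2.2 i (mem_union_left _ hi)⟩
    refine hφ.1 i (mem_union_left _ hi) j (mem_union_left _ hj) ?_
    rw [reglue_adj K (L r) hab]
    exact Or.inl ⟨hij, iff_of_true hi hj⟩
  have hφs : ColOn E W K (L s)ᶜ A (fun _ => ws) φ := by
    refine ⟨fun i hi j hj hij => ?_, fun i hi => hφ.2.1 i (mem_union_right _ hi),
      fun i hi => hφ.2.2 i (mem_union_right _ hi)⟩
    refine hφ.1 i (mem_union_right _ hi) j (mem_union_right _ hj) ?_
    rw [reglue_adj K (L r) hab]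
    rw [mem_compl] at hi hj
    exact Or.inl ⟨hij, iff_of_false (fun h => hi (hsub h)) (fun h => hj (hsub h))⟩
  have hbP : φ (v (s + 1)) ∈ PSt E W ws K A (L r)ᶜ (v (r + 1)) := by
    rw [hP]
    exact ⟨φ, hφs, rfl⟩
  refine hS.left_not hE hC hrl hφr hbP ?_
  refine hφ.1 _ (mem_union_left _ ha) _ (mem_union_right _ (mem_compl.mpr hvs1)) ?_
  rw [reglue_adj K (L r) hab]
  exact Or.inr (Or.inl ⟨rfl, rfl⟩)

end Pool.MP_65847d_pr
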