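import Pool.Agent.Lib.MP_65847d_pr.X.XDL

/-!
# X/XPart : proper parts of a core are colourable

`Core.part`: `X ≠ univ` connected or not: `SmallOK.cols` at the level `ws`: `X` has fewer vertices than `univ`. For connected `U ⊆ X`: `wgt α W ws A U = α + ∑_{y ∈ U} (1 - α - ∑_{a ∈ A y} (α - W a))` (all labels have
`W a < ws ≤ α`), which is `α₁ + ∑_U c + (|U| - 1)(α₁ - α) + ∑_{y ∈ U} |A y| (α₁ - α) ≥ ws`, with `>` if `|U| ≥ 2` or there is a label in `U`; if `U = {y}` without labels the weight is `1 > ws`.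
`Core.part_graph`: the same for any graph `G` on the same vertices, if all its connected subsets `U ⊆ X` have `ws ≤ α₁ + ∑_U c`.
-/

set_option autoImplicit false

open Finset

namespace Pool.MP_65847d_pr

variable {ι V : Type*} [Fintype ι] [DecidableEq ι] [Fintype V]

theorem Core.part_graph {E : V → V → Prop} {κ α α₁ ws : ℝ} {W : V → ℝ} {K : SimpleGraph ι}
    {A : ι → Finset V} {c : ι → ℝ} (hC : Core E κ α α₁ ws W K A c) (hV : Nonempty V)
    {G : SimpleGraph ι} {X : Finset ι} (hX : X.card < Fintype.card ι) (hF : Forest G X)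
    (h : ∀ U ⊆ X, Conn G U → ws ≤ α₁ + ∑ y ∈ U, c y) : Cols E W G X A (fun _ => ws) := by
  classical
  refine hC.small.cols hV hC.le_ws G X hX hF A fun U hU hUc => ?_
  have h1 := h U hU hUc
  have hlt := hC.lt
  have hws := hC.ws_le
  have hone := hC.le_one
  have hne : U.Nonempty := hUc.nonempty
  have hcard : 1 ≤ U.card := hne.card_pos
  -- the weight
  have hk : ∀ y, ∀ a ∈ A y, kap α W ws a = α - W a := by
    intro y a ha
    have := hC.lab y a ha
    unfold kap
    rw [min_eq_left this.le, max_eq_right (by linarith)]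
  have hw : wgt α W ws A U = α₁ + ∑ y ∈ U, c y + ((U.card : ℝ) - 1) * (α₁ - α) +
      ∑ y ∈ U, ((A y).card : ℝ) * (α₁ - α) := by
    unfold wgt
    have e1 : ∀ y ∈ U, (1 - α - ∑ a ∈ A y, kap α W ws a) =
        c y + (α₁ - α) + ((A y).card : ℝ) * (α₁ - α) := by
      intro y _
      rw [sum_congr rfl (hk y), hC.c_eq y, sum_sub_distrib, sum_sub_distrib, sum_const, sum_const,
        nsmul_eq_mul, nsmul_eq_mul]
      ring
    rw [sum_congr rfl e1, sum_add_distrib, sum_add_distrib, sum_const, nsmul_eq_mul]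
    ring
  rw [hw]
  have h2 : 0 ≤ ((U.card : ℝ) - 1) * (α₁ - α) := by
    apply mul_nonneg
    · have : (1 : ℝ) ≤ U.card := by exact_mod_cast hcard
      linarith
    · linarith
  have h3 : 0 ≤ ∑ y ∈ U, ((A y).card : ℝ) * (α₁ - α) :=
    sum_nonneg fun y _ => mul_nonneg (Nat.cast_nonneg _) (by linarith)
  rcases Nat.lt_or_ge 1 U.card with h4 | h4
  · have h5 : (2 : ℝ) ≤ U.card := by exact_mod_cast h4
    have h6 : 0 < ((U.card : ℝ) - 1) * (α₁ - α) := mul_pos (by linarith) (by linarith)
    linarith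
  · have h5 : U.card = 1 := by omega
    obtain ⟨y, hy⟩ := card_eq_one.1 h5
    subst hy
    rw [sum_singleton] at h1 h3 ⊢
    rw [sum_singleton]
    rcases Nat.eq_zero_or_pos (A y).card with h6 | h6
    · have h7 : A y = ∅ := card_eq_zero.1 h6
      have h8 := hC.c_eq y
      rw [h7, sum_empty] at h8
      linarith
    · have h7 : (1 : ℝ) ≤ (A y).card := by exact_mod_cast h6
      have h8 : 0 < ((A y).card : ℝ) * (α₁ - α) := mul_pos (by linarith) (by linarith)
      linarith

theorem Core.part {E : V → V → Prop} {κ α α₁ ws : ℝ} {W : V → ℝ} {K : SimpleGraph ι}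
    {A : ι → Finset V} {c : ι → ℝ} (hC : Core E κ α α₁ ws W K A c) (hV : Nonempty V)
    {X : Finset ι} (hX : X ≠ univ) : Cols E W K X A (fun _ => ws) := by
  refine hC.part_graph hV ?_ (forest_of_acyclic hC.tree.isAcyclic X) fun U _ hUc => hC.min U hUc
  rw [← card_univ]
  exact card_lt_card (ssubset_univ_iff.2 hX)

end Pool.MP_65847d_pr
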