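import Pool.Agent.Lib.MP_65847d_pr.X.XForest

/-!
# X/XSmall : `SmallOK` for forests inside an arbitrary type

Proof: compare `C/Transport.lean` (`Stable.colours`). Let `m = X.card`, `e : X ≃ Fin m` (`X.equivFin`), `K' = G.comap (fun i => (e.symm i : ι))`,
`A' i = A (e.symm i)`. `K'` is acyclic (`Forest G X` via the isomorphism, or `IsAcyclic.comap` of the injective homomorphism `K' → G.induce X`), `Rich` transports
(`U' : Finset (Fin m)` corresponds to `U = U'.map ..`, sums by `Finset.sum_map`, connectedness by `SimpleGraph.Connected.map`, as in Transport). From the colouring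
`φ'` of `K'` define `φ y = φ' (e ⟨y, _⟩)` for `y ∈ X`, anything outside (`X` empty: `ColOn` is trivially true for any function; if also `V` is
empty and `ι` nonempty there is no function, so `hV` is assumed).
-/

set_option autoImplicit false

open Finset

namespace Pool.MP_65847d_pr

variable {ι V : Type*} [DecidableEq ι]

theorem SmallOK.cols {E : V → V → Prop} {κ α : ℝ} {W : V → ℝ} {k : ℕ} (hS : SmallOK E κ α W k)
    (hV : Nonempty V) {w : ℝ} (hw : κ ≤ w) (G : SimpleGraph ι) (X : Finset ι) (hX : X.card < k)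
    (hF : Forest G X) (A : ι → Finset V)
    (hR : ∀ U ⊆ X, Conn G U → w < wgt α W w A U) : Cols E W G X A (fun _ => w) := by
  classical
  have e : (X : Set ι) ≃ Fin X.card := X.equivFin
  let ε : Fin X.card ↪ ι := e.symm.toEmbedding.trans (Function.Embedding.subtype _)
  have hεX : ∀ i, ε i ∈ X := fun i => (e.symm i).2
  have hK' : (G.comap ε).IsAcyclic := by
    refine SimpleGraph.IsAcyclic.comap (G' := G.induce (X : Set ι))
      { toFun := fun z => e.symm z, map_rel' := fun {a b} hab => hab } ?_ hF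
    exact e.symm.injective
  have hR' : Rich α W w (G.comap ε) (fun i => A (ε i)) := by
    intro U hU
    have h1 : wgt α W w (fun i => A (ε i)) U = wgt α W w A (U.map ε) := by
      unfold wgt
      rw [Finset.sum_map]
    rw [h1]
    refine hR _ ?_ ?_
    · intro y hy
      rw [Finset.mem_map] at hy
      obtain ⟨i, _, rfl⟩ := hy
      exact hεX i
    · have hm : ∀ x : (U : Set (Fin X.card)), ε x.1 ∈ ((U.map ε : Finset ι) : Set ι) := by
        intro x
        rw [Finset.mem_coe, Finset.mem_map]
        exact ⟨x.1, x.2, rfl⟩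
      let f : ((G.comap ε).induce (U : Set (Fin X.card))) →g
          (G.induce ((U.map ε : Finset ι) : Set ι)) :=
        { toFun := fun x => ⟨ε x.1, hm x⟩
          map_rel' := fun {a b} h => h }
      refine hU.map f ?_
      rintro ⟨y, hy⟩
      rw [Finset.mem_coe, Finset.mem_map] at hy
      obtain ⟨x, hx, rfl⟩ := hy
      exact ⟨⟨x, hx⟩, rfl⟩
  obtain ⟨φ, h1, h2, h3⟩ := hS w hw _ hX (G.comap ε) (fun i => A (ε i)) hK' hR'
  have hε : ∀ (y : ι) (hy : y ∈ X), ε (e ⟨y, hy⟩) = y := fun y hy => by
    show ((e.symm (e ⟨y, hy⟩) : (X : Set ι)) : ι) = y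
    rw [Equiv.symm_apply_apply]
  obtain ⟨v0⟩ := hV
  refine ⟨fun y => if hy : y ∈ X then φ (e ⟨y, hy⟩) else v0, ?_, ?_, ?_⟩
  · intro i hi j hj hij
    dsimp only
    rw [dif_pos hi, dif_pos hj]
    apply h1
    show G.Adj (ε (e ⟨i, hi⟩)) (ε (e ⟨j, hj⟩))
    rw [hε i hi, hε j hj]
    exact hij
  · intro i hi
    dsimp only
    rw [dif_pos hi]
    exact h2 _
  · intro i hi a ha
    dsimp only
    rw [dif_pos hi]
    apply h3
    show a ∈ A (ε (e ⟨i, hi⟩))
    rw [hε i hi]
    exact ha

end Pool.MP_65847d_pr
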