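import Pool.Agent.Lib.MP_65847d_pr.X.XPart

/-!
# X/XSpine : weights and colour sets along a spine
-/

set_option autoImplicit false

open Finset

namespace Pool.MP_65847d_pr

variable {ι V : Type*} [Fintype ι] [DecidableEq ι] [Fintype V]

section

variable {K : SimpleGraph ι} {l : ℕ} {v : ℕ → ι} {L : ℕ → Finset ι}

theorem Spine.subset (hS : Spine K l v L) {i j : ℕ} (hij : i ≤ j) (hj : j ≤ l) : L i ⊆ L j := by
  induction j, hij using Nat.le_induction with
  | base => exact Subset.refl _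
  | succ n hn ih => exact (ih (by omega)).trans (hS.mono n (by omega))

theorem Spine.mem_seg (hS : Spine K l v L) {r j s : ℕ} (hr : r < j) (hj : j ≤ s) (hs : s ≤ l) :
    v j ∈ L s \ L r := by
  rw [mem_sdiff]
  refine ⟨hS.subset hj hs (hS.mem j (by omega)), fun h => ?_⟩
  obtain ⟨m, rfl⟩ : ∃ m, j = m + 1 := ⟨j - 1, by omega⟩
  exact hS.notMem m (by omega) (hS.subset (by omega) (by omega) h)

theorem Spine.seg_conn (hS : Spine K l v L) {r s : ℕ} (hr : r < s) (hs : s ≤ l) :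
    Conn K (L s \ L r) := by
  have h := conn_cut (hS.connc r (by omega)) (L s) (a := v s) (b := v (s + 1))
    (fun x _ hx y _ hy hxy => hS.cross s hs x hx y hy hxy)
    ⟨v s, by
      rw [mem_compl]
      exact (mem_sdiff.mp (hS.mem_seg hr le_rfl hs)).2, hS.mem s hs⟩
    ⟨v (s + 1), by
      rw [mem_compl]
      exact fun h => hS.notMem s hs (hS.subset hr.le hs h), hS.notMem s hs⟩
  have e : (L r)ᶜ ∩ L s = L s \ L r := by
    ext y
    rw [mem_inter, mem_compl, mem_sdiff]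
    tauto
  rw [← e]
  exact h.2.2.2.2.2.1

theorem Spine.last (hS : Spine K l v L) {r s : ℕ} (hs : s ≤ l) {X : Finset ι}
    (hX : X ⊆ L s \ L r) (hXc : Conn K X) (hr : r < s) (hm : v (r + 1) ∈ X) :
    ∃ t, r < t ∧ t ≤ s ∧ v t ∈ X ∧ X ⊆ L t \ L r := by
  classical
  set t := Nat.findGreatest (fun t => v t ∈ X) s with ht
  have h1 : v t ∈ X := Nat.findGreatest_spec (P := fun t => v t ∈ X) (m := r + 1) hr hm
  have h2 : t ≤ s := Nat.findGreatest_le s
  have h3 : r + 1 ≤ t := Nat.le_findGreatest hr hm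
  refine ⟨t, h3, h2, h1, fun x hx => ?_⟩
  have hx' := mem_sdiff.mp (hX hx)
  rw [mem_sdiff]
  refine ⟨?_, hx'.2⟩
  by_contra hxt
  have hts : t < s := by
    rcases Nat.lt_or_ge t s with h | h
    · exact h
    · exact absurd ((le_antisymm h2 h) ▸ hx'.1) hxt
  have h := conn_cut hXc (L t) (a := v t) (b := v (t + 1))
    (fun x _ hx y _ hy hxy => hS.cross t (by omega) x hx y hy hxy)
    ⟨v t, h1, hS.mem t (by omega)⟩ ⟨x, hx, hxt⟩
  exact Nat.findGreatest_is_greatest (P := fun t => v t ∈ X) (Nat.lt_succ_self t) hts h.2.2.1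

theorem Spine.first (hS : Spine K l v L) {r s : ℕ} (hs : s ≤ l) {X : Finset ι}
    (hX : X ⊆ L s \ L r) (hXc : Conn K X) (hr : r < s) (hm : v s ∈ X) :
    ∃ t, r ≤ t ∧ t < s ∧ v (t + 1) ∈ X ∧ X ⊆ L s \ L t := by
  classical
  have hex : ∃ t, r ≤ t ∧ v (t + 1) ∈ X := by
    refine ⟨s - 1, by omega, ?_⟩
    rwa [Nat.sub_add_cancel (by omega)]
  set t := Nat.find hex with ht
  obtain ⟨h1, h2⟩ := Nat.find_spec hex
  have h3 : t ≤ s - 1 := Nat.find_min' hex ⟨by omega, by rwa [Nat.sub_add_cancel (by omega)]⟩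
  refine ⟨t, h1, by omega, h2, fun x hx => ?_⟩
  have hx' := mem_sdiff.mp (hX hx)
  rw [mem_sdiff]
  refine ⟨hx'.1, fun hxt => ?_⟩
  have hrt : r < t := by
    rcases Nat.lt_or_ge r t with h | h
    · exact h
    · exact absurd ((le_antisymm h h1) ▸ hxt) hx'.2
  have h := conn_cut hXc (L t) (a := v t) (b := v (t + 1))
    (fun x _ hx y _ hy hxy => hS.cross t (by omega) x hx y hy hxy)
    ⟨x, hx, hxt⟩ ⟨v (t + 1), h2, hS.notMem t (by omega)⟩
  refine Nat.find_min hex (m := t - 1) (by omega) ⟨by omega, ?_⟩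
  rw [Nat.sub_add_cancel (by omega)]
  exact h.1

end

section

variable {E : V → V → Prop} {κ α α₁ ws : ℝ} {W : V → ℝ} {K : SimpleGraph ι}
  {A : ι → Finset V} {c : ι → ℝ} {l : ℕ} {v : ℕ → ι} {L : ℕ → Finset ι}

theorem Spine.x_ge (hS : Spine K l v L) (hC : Core E κ α α₁ ws W K A c) {i : ℕ} (hi : i ≤ l) :
    ws ≤ α₁ + ∑ y ∈ L i, c y := hC.min _ (hS.conn i hi)

theorem Spine.x_le (hS : Spine K l v L) (hC : Core E κ α α₁ ws W K A c) {i : ℕ} (hi : i ≤ l) :
    ∑ y ∈ L i, c y ≤ 0 := by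
  have h1 := hC.min _ (hS.connc i hi)
  have h2 := hC.tot
  have h3 := sum_add_sum_compl (L i) c
  linarith

theorem Spine.seg_le (hS : Spine K l v L) (hC : Core E κ α α₁ ws W K A c) {r s : ℕ} (hr : r < s)
    (hs : s ≤ l) {X : Finset ι} (hX : X ⊆ L s \ L r) (hXc : Conn K X) (hu : v (r + 1) ∈ X)
    (hv : v s ∈ X) : ∑ y ∈ L s, c y - ∑ y ∈ L r, c y ≤ ∑ y ∈ X, c y := by
  have hZ1 : Conn K (L r ∪ X) := (hS.conn r (by omega)).union_adj hXc (hS.mem r (by omega)) hu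
    (hS.adj r (by omega))
  have hZ2 : Conn K ((L r ∪ X) ∪ (L s)ᶜ) := hZ1.union_adj (hS.connc s hs) (mem_union_right _ hv)
    (mem_compl.mpr (hS.notMem s hs)) (hS.adj s hs)
  have h1 := hC.min _ hZ2
  have h2 := hC.tot
  have h3 := sum_add_sum_compl (L s) c
  have d1 : Disjoint (L r) X := by
    rw [disjoint_left]
    intro y hy hy'
    exact (mem_sdiff.mp (hX hy')).2 hy
  have d2 : Disjoint (L r ∪ X) (L s)ᶜ := by
    rw [disjoint_left]
    intro y hy hy'
    rw [mem_compl] at hy'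
    rcases mem_union.mp hy with h | h
    · exact hy' (hS.subset hr.le hs h)
    · exact hy' (mem_sdiff.mp (hX h)).1
  rw [sum_union d2, sum_union d1] at h1
  linarith

theorem Spine.prop (hS : Spine K l v L) (hE : ∀ a b, E a b → E b a) {r s : ℕ} (hr : r < s)
    (hs : s ≤ l) {φ : ι → V} (hφ : ColOn E W K (L s \ L r) A (fun _ => ws) φ) {b : V}
    (hb : b ∈ PSt E W ws K A (L s)ᶜ (v (s + 1))) (hadj : E (φ (v s)) b) :
    φ (v (r + 1)) ∈ PSt E W ws K A (L r)ᶜ (v (r + 1)) := by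
  obtain ⟨ψ, hψ, rfl⟩ := hb
  refine ⟨fun y => if y ∈ L s then φ y else ψ y, ⟨?_, ?_, ?_⟩, ?_⟩
  · intro i hi j hj hij
    rw [mem_compl] at hi hj
    by_cases h1 : i ∈ L s <;> by_cases h2 : j ∈ L s
    · simp only [if_pos h1, if_pos h2]
      exact hφ.1 i (mem_sdiff.mpr ⟨h1, hi⟩) j (mem_sdiff.mpr ⟨h2, hj⟩) hij
    · simp only [if_pos h1, if_neg h2]
      obtain ⟨e1, e2⟩ := hS.cross s hs i h1 j h2 hij
      rw [e1, e2]
      exact hadj
    · simp only [if_neg h1, if_pos h2]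
      obtain ⟨e1, e2⟩ := hS.cross s hs j h2 i h1 hij.symm
      rw [e1, e2]
      exact hE _ _ hadj
    · simp only [if_neg h1, if_neg h2]
      exact hψ.1 i (mem_compl.mpr h1) j (mem_compl.mpr h2) hij
  · intro i hi
    rw [mem_compl] at hi
    by_cases h1 : i ∈ L s
    · simp only [if_pos h1]
      exact hφ.2.1 i (mem_sdiff.mpr ⟨h1, hi⟩)
    · simp only [if_neg h1]
      exact hψ.2.1 i (mem_compl.mpr h1)
  · intro i hi a ha
    rw [mem_compl] at hi
    by_cases h1 : i ∈ L s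
    · simp only [if_pos h1]
      exact hφ.2.2 i (mem_sdiff.mpr ⟨h1, hi⟩) a ha
    · simp only [if_neg h1]
      exact hψ.2.2 i (mem_compl.mpr h1) a ha
  · have h1 : v (r + 1) ∈ L s :=
      (mem_sdiff.mp (hS.mem_seg (Nat.lt_succ_self r) hr hs)).1
    simp only [if_pos h1]

theorem Spine.P_nonempty (hS : Spine K l v L) (hC : Core E κ α α₁ ws W K A c) (hV : Nonempty V)
    {i : ℕ} (hi : i ≤ l) : (PSt E W ws K A (L i)ᶜ (v (i + 1))).Nonempty := by
  have h1 : (L i)ᶜ ≠ univ := by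
    intro h
    have h2 : v i ∈ (L i)ᶜ := h ▸ mem_univ _
    exact (mem_compl.mp h2) (hS.mem i hi)
  obtain ⟨φ, hφ⟩ := hC.part hV h1
  exact ⟨φ (v (i + 1)), φ, hφ, rfl⟩

theorem Spine.P_ge (hS : Spine K l v L) {i : ℕ} (hi : i ≤ l) {b : V}
    (hb : b ∈ PSt E W ws K A (L i)ᶜ (v (i + 1))) : ws ≤ W b := by
  obtain ⟨φ, hφ, rfl⟩ := hb
  exact hφ.2.1 _ (mem_compl.mpr (hS.notMem i hi))

theorem Spine.left_not (hS : Spine K l v L) (hE : ∀ a b, E a b → E b a)
    (hC : Core E κ α α₁ ws W K A c) {i : ℕ} (hi : i ≤ l) {φ : ι → V}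
    (hφ : ColOn E W K (L i) A (fun _ => ws) φ) {b : V}
    (hb : b ∈ PSt E W ws K A (L i)ᶜ (v (i + 1))) : ¬ E (φ (v i)) b := by
  obtain ⟨ψ, hψ, rfl⟩ := hb
  intro hadj
  refine hC.ncol ⟨fun y => if y ∈ L i then φ y else ψ y, ?_, ?_, ?_⟩
  · intro x _ y _ hxy
    by_cases h1 : x ∈ L i <;> by_cases h2 : y ∈ L i
    · simp only [if_pos h1, if_pos h2]
      exact hφ.1 x h1 y h2 hxy
    · simp only [if_pos h1, if_neg h2]
      obtain ⟨e1, e2⟩ := hS.cross i hi x h1 y h2 hxy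
      rw [e1, e2]
      exact hadj
    · simp only [if_neg h1, if_pos h2]
      obtain ⟨e1, e2⟩ := hS.cross i hi y h2 x h1 hxy.symm
      rw [e1, e2]
      exact hE _ _ hadj
    · simp only [if_neg h1, if_neg h2]
      exact hψ.1 x (mem_compl.mpr h1) y (mem_compl.mpr h2) hxy
  · intro x _
    by_cases h1 : x ∈ L i
    · simp only [if_pos h1]
      exact hφ.2.1 x h1
    · simp only [if_neg h1]
      exact hψ.2.1 x (mem_compl.mpr h1)
  · intro x _ a ha
    by_cases h1 : x ∈ L i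
    · simp only [if_pos h1]
      exact hφ.2.2 x h1 a ha
    · simp only [if_neg h1]
      exact hψ.2.2 x (mem_compl.mpr h1) a ha

end

end Pool.MP_65847d_pr
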